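import Mathlib

set_option autoImplicit false
set_option maxHeartbeats 400000

namespace Pool.Agent.Lib.Helper30.Five

/-- abstract data of five mutually touching simplices -/
structure Cfg (W : Type) [AddCommGroup W] [Module ℝ W] where
  L : Fin 5 → Fin 5 → W →ₗ[ℝ] ℝ
  P : Fin 5 → Fin 5 → W
  sym : ∀ i j, P i j = P j i
  diag : ∀ a, L a a = 0
  sum : ∀ i j a, i ≠ j → ∑ b, L a b (P i j) = 1
  anti : ∀ a b x, 0 < L a b x → L b a x < 0
  zero : ∀ i j, i ≠ j → L i j (P i j) = 0
  pos : ∀ i j c, i ≠ j → c ≠ i → c ≠ j → 0 < L i c (P i j)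

variable {W : Type} [AddCommGroup W] [Module ℝ W]

def Cfg.perm (C : Cfg W) (σ : Fin 5 → Fin 5) (h : Function.Bijective σ) : Cfg W where
  L a b := C.L (σ a) (σ b)
  P i j := C.P (σ i) (σ j)
  sym _ _ := C.sym _ _
  diag _ := C.diag _
  sum i j a hij := by
    rw [← C.sum (σ i) (σ j) (σ a) (h.1.ne hij)]
    exact h.sum_comp (fun b => C.L (σ a) b (C.P (σ i) (σ j)))
  anti _ _ x := C.anti _ _ x
  zero _ _ hij := C.zero _ _ (h.1.ne hij)
  pos _ _ _ hij h1 h2 := C.pos _ _ _ (h.1.ne hij) (h.1.ne h1) (h.1.ne h2)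

def Dist (i j a b c : Fin 5) : Prop :=
  i ≠ j ∧ a ≠ i ∧ a ≠ j ∧ b ≠ i ∧ b ≠ j ∧ c ≠ i ∧ c ≠ j ∧ a ≠ b ∧ a ≠ c ∧ b ≠ c

instance (i j a b c : Fin 5) : Decidable (Dist i j a b c) := by unfold Dist; infer_instance

lemma cover : ∀ i j a b c : Fin 5, Dist i j a b c →
    (Finset.univ : Finset (Fin 5)) = {i, j, a, b, c} := by decide +kernel

def O (C : Cfg W) (i j a b : Fin 5) : Prop := 0 < C.L a b (C.P i j)

lemma neg1 (C : Cfg W) {i j a : Fin 5} (hij : i ≠ j) (h1 : a ≠ i) (h2 : a ≠ j) :
    C.L a i (C.P i j) < 0 := C.anti _ _ _ (C.pos i j a hij h1 h2)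

lemma neg2 (C : Cfg W) {i j a : Fin 5} (hij : i ≠ j) (h1 : a ≠ i) (h2 : a ≠ j) :
    C.L a j (C.P i j) < 0 := by
  rw [C.sym]; exact neg1 C hij.symm h2 h1

lemma dich (C : Cfg W) {i j a b c : Fin 5} (h : Dist i j a b c) : O C i j a b ∨ O C i j a c := by
  have hs := C.sum i j a h.1
  rw [cover i j a b c h] at hs
  obtain ⟨h1, h2, h3, h4, h5, h6, h7, h8, h9, h10⟩ := h
  rw [Finset.sum_insert (by simp [h1, h2.symm, h4.symm, h6.symm]),
    Finset.sum_insert (by simp [h3.symm, h5.symm, h7.symm]), Finset.sum_insert (by simp [h8, h9]),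
    Finset.sum_insert (by simp [h10]), Finset.sum_singleton, C.diag] at hs
  have a1 := neg1 C h1 h2 h3
  have a2 := neg2 C h1 h2 h3
  simp only [LinearMap.zero_apply] at hs
  unfold O
  by_contra hh
  push Not at hh
  linarith [hh.1, hh.2]

lemma rot (C : Cfg W) {i j a b c : Fin 5} (h : Dist i j a b c) (ho : O C i j a b) :
    O C i j b c := by
  have h' : Dist i j b c a := by
    obtain ⟨h1, h2, h3, h4, h5, h6, h7, h8, h9, h10⟩ := h
    exact ⟨h1, h4, h5, h6, h7, h2, h3, h10, h8.symm, h9.symm⟩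
  rcases dich C h' with h1 | h1
  · exact h1
  · exact absurd (C.anti _ _ _ ho) (not_lt.2 (le_of_lt h1))

lemma rot2 (C : Cfg W) {i j a b c : Fin 5} (h : Dist i j a b c) (ho : O C i j a b) :
    O C i j c a := by
  have h' : Dist i j b c a := by
    obtain ⟨h1, h2, h3, h4, h5, h6, h7, h8, h9, h10⟩ := h
    exact ⟨h1, h4, h5, h6, h7, h2, h3, h10, h8.symm, h9.symm⟩
  exact rot C h' (rot C h ho)

def Six (C : Cfg W) (i j a b c : Fin 5) : Prop :=
  O C i j a b ∧ O C i j b c ∧ O C i j c a ∧ O C j i a b ∧ O C j i b c ∧ O C j i c a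

lemma six (C : Cfg W) {i j a b c : Fin 5} (h : Dist i j a b c) (ho : O C i j a b) :
    Six C i j a b c := by
  have h1 := rot C h ho
  have h2 := rot2 C h ho
  refine ⟨ho, h1, h2, ?_, ?_, ?_⟩ <;> unfold O <;> rw [C.sym] <;> assumption

lemma split (C : Cfg W) (i j a b c : Fin 5) (h : Dist i j a b c) :
    Six C i j a b c ∨ Six C i j a c b := by
  have h' : Dist i j a c b := by
    obtain ⟨h1, h2, h3, h4, h5, h6, h7, h8, h9, h10⟩ := h
    exact ⟨h1, h2, h3, h6, h7, h4, h5, h9, h8, h10.symm⟩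
  exact (dich C h).imp (six C h) (six C h')

/-- a contact point with its cyclic orientation -/
abbrev Pt := Fin 5 × Fin 5 × Fin 5 × Fin 5 × Fin 5

def Good (C : Cfg W) (q : Pt) : Prop :=
  Dist q.1 q.2.1 q.2.2.1 q.2.2.2.1 q.2.2.2.2 ∧ O C q.1 q.2.1 q.2.2.1 q.2.2.2.1

def nxt (q : Pt) (x : Fin 5) : Fin 5 :=
  if x = q.2.2.1 then q.2.2.2.1 else if x = q.2.2.2.1 then q.2.2.2.2 else q.2.2.1

def sg (q : Pt) (f : Fin 5 × Finset (Fin 5)) : SignType :=
  if f.1 = q.1 then (if f.2 ⊆ {q.2.1} then 0 else 1)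
  else if f.1 = q.2.1 then (if f.2 ⊆ {q.1} then 0 else 1)
  else if nxt q f.1 ∈ f.2 then 1 else -1

def fn (C : Cfg W) (f : Fin 5 × Finset (Fin 5)) : W →ₗ[ℝ] ℝ := ∑ b ∈ f.2, C.L f.1 b

lemma sg_src (C : Cfg W) {i j : Fin 5} (hij : i ≠ j) (B : Finset (Fin 5)) (hB : i ∉ B) :
    SignType.sign (∑ b ∈ B, C.L i b (C.P i j)) = if B ⊆ {j} then 0 else 1 := by
  split_ifs with h
  · rw [sign_eq_zero_iff]
    refine Finset.sum_eq_zero fun b hb => ?_
    rw [Finset.mem_singleton.1 (h hb)]; exact C.zero i j hij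
  · rw [sign_eq_one_iff]
    obtain ⟨b, hb, hb2⟩ := Finset.not_subset.1 h
    refine Finset.sum_pos' (fun c hc => ?_) ⟨b, hb, ?_⟩
    · by_cases hcj : c = j
      · rw [hcj, C.zero i j hij]
      · exact (C.pos i j c hij (fun e => hB (e ▸ hc)) hcj).le
    · exact C.pos i j b hij (fun e => hB (e ▸ hb)) (by simpa using hb2)

lemma neg_other (C : Cfg W) {q : Pt} (hq : Good C q) {x y : Fin 5} (h1 : x ≠ q.1) (h2 : x ≠ q.2.1)
    (h3 : y ≠ x) (h4 : y ≠ nxt q x) : C.L x y (C.P q.1 q.2.1) < 0 := by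
  obtain ⟨i, j, a, b, c⟩ := q
  obtain ⟨hd, ho⟩ := hq
  simp only at hd ho h1 h2
  have r1 := rot C hd ho
  have r2 := rot2 C hd ho
  have hx : x ∈ ({i, j, a, b, c} : Finset (Fin 5)) := cover i j a b c hd ▸ Finset.mem_univ x
  have hy : y ∈ ({i, j, a, b, c} : Finset (Fin 5)) := cover i j a b c hd ▸ Finset.mem_univ y
  by_cases yi : y = i
  · subst yi; exact neg1 C hd.1 h1 h2
  by_cases yj : y = j
  · subst yj; exact neg2 C hd.1 h1 h2
  obtain ⟨d1, d2, d3, d4, d5, d6, d7, d8, d9, d10⟩ := hd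
  simp only [Finset.mem_insert, Finset.mem_singleton, h1, h2, yi, yj, false_or] at hx hy
  simp only [nxt] at h4
  rcases hx with rfl | rfl | rfl <;> rcases hy with rfl | rfl | rfl
  · exact absurd rfl h3
  · simp at h4
  · exact C.anti _ _ _ r2
  · exact C.anti _ _ _ ho
  · exact absurd rfl h3
  · simp [d8.symm] at h4
  · simp [d9.symm, d10.symm] at h4
  · exact C.anti _ _ _ r1
  · exact absurd rfl h3

lemma sg_spec (C : Cfg W) {q : Pt} (hq : Good C q) (f : Fin 5 × Finset (Fin 5))
    (h1 : f.1 ∉ f.2) (h2 : f.2.Nonempty) :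
    SignType.sign (fn C f (C.P q.1 q.2.1)) = sg q f := by
  unfold fn sg
  rw [LinearMap.sum_apply]
  split_ifs with a1 a2 a3 a4 a5
  · rw [a1, sg_src C hq.1.1 _ (a1 ▸ h1), if_pos a2]
  · rw [a1, sg_src C hq.1.1 _ (a1 ▸ h1), if_neg a2]
  · rw [a3, C.sym, sg_src C hq.1.1.symm _ (a3 ▸ h1), if_pos a4]
  · rw [a3, C.sym, sg_src C hq.1.1.symm _ (a3 ▸ h1), if_neg a4]
  · rw [sign_eq_one_iff]
    have hs := C.sum q.1 q.2.1 f.1 hq.1.1
    rw [← Finset.sum_add_sum_compl f.2] at hs
    have : ∑ b ∈ f.2ᶜ, C.L f.1 b (C.P q.1 q.2.1) ≤ 0 := by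
      refine Finset.sum_nonpos fun b hb => ?_
      by_cases e : b = f.1
      · rw [e, C.diag]; simp
      · exact (neg_other C hq a1 a3 e (fun e2 => (Finset.mem_compl.1 hb) (e2 ▸ a5))).le
    linarith
  · rw [sign_eq_neg_one_iff]
    exact Finset.sum_neg (fun b hb => neg_other C hq a1 a3 (fun e => h1 (e ▸ hb))
      (fun e => a5 (e ▸ hb))) h2

/-- all products have one sign and are not all zero -/
def uni (c w : List SignType) : Bool :=
  let z := List.zipWith (· * ·) c w
  z.contains 1 != z.contains (-1)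

lemma not_uni {k : ℕ} (c f : Fin k → ℝ) (h : ∑ q, c q * f q = 0) :
    uni (List.ofFn fun q => SignType.sign (c q)) (List.ofFn fun q => SignType.sign (f q))
      = false := by
  have e : List.zipWith (· * ·) (List.ofFn fun q => SignType.sign (c q))
      (List.ofFn fun q => SignType.sign (f q)) = List.ofFn fun q => SignType.sign (c q * f q) := by
    apply List.ext_getElem <;> simp [sign_mul]
  unfold uni
  simp only [e]
  rw [bne_eq_false_iff_eq, Bool.eq_iff_iff]
  simp only [List.contains_iff_mem, List.mem_ofFn, sign_eq_one_iff, sign_eq_neg_one_iff]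
  constructor
  · rintro ⟨q, hq⟩
    by_contra hh
    push Not at hh
    have := Finset.sum_pos' (s := Finset.univ) (fun q _ => hh q) ⟨q, Finset.mem_univ _, hq⟩
    linarith
  · rintro ⟨q, hq⟩
    by_contra hh
    push Not at hh
    have := Finset.sum_neg' (s := Finset.univ) (fun q _ => hh q) ⟨q, Finset.mem_univ _, hq⟩
    linarith

lemma kill (C : Cfg W) {k : ℕ} (pt : Fin k → Pt) (hp : ∀ q, Good C (pt q))
    (fs : List (Fin 5 × Finset (Fin 5))) (hf : ∀ f ∈ fs, f.1 ∉ f.2 ∧ f.2.Nonempty)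
    (ws : List (List SignType)) (hw : fs.map (fun f => List.ofFn fun q => sg (pt q) f) = ws)
    (c : Fin k → ℝ) (hc : ∑ q, c q • C.P (pt q).1 (pt q).2.1 = 0) :
    ws.any (uni (List.ofFn fun q => SignType.sign (c q))) = false := by
  rw [← hw, List.any_eq_false]
  intro w hw'
  obtain ⟨f, hf', rfl⟩ := List.mem_map.1 hw'
  have := not_uni c (fun q => fn C f (C.P (pt q).1 (pt q).2.1)) (by
    have := congrArg (fn C f) hc
    simpa [map_sum] using this)
  simp only [sg_spec C (hp _) f (hf f hf').1 (hf f hf').2] at this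
  simp [this]

lemma dep {V : Type} [AddCommGroup V] [Module ℝ V] [Module.Finite ℝ V] {k : ℕ} (f : Fin k → V)
    (h : Module.finrank ℝ V < k) : ∃ c : Fin k → ℝ, ∑ q, c q • f q = 0 ∧ ∃ q, c q ≠ 0 := by
  refine Fintype.not_linearIndependent_iff.1 fun hh => ?_
  have := hh.fintype_card_le_finrank
  rw [Fintype.card_fin] at this
  omega

variable [Module.Finite ℝ W]

lemma kill5 (hW : Module.finrank ℝ W = 4) (C : Cfg W) (pt : Fin 5 → Pt) (hp : ∀ q, Good C (pt q))
    (fs : List (Fin 5 × Finset (Fin 5))) (hf : ∀ f ∈ fs, f.1 ∉ f.2 ∧ f.2.Nonempty)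
    (ws : List (List SignType)) (hw : fs.map (fun f => List.ofFn fun q => sg (pt q) f) = ws)
    (hall : ∀ a b c d e : SignType, [a, b, c, d, e] = [0, 0, 0, 0, 0] ∨
      ws.any (uni [a, b, c, d, e]) = true) : False := by
  obtain ⟨c, hc, q, hq⟩ := dep (fun q => C.P (pt q).1 (pt q).2.1) (by omega)
  have h1 := kill C pt hp fs hf ws hw c hc
  have h2 := hall (SignType.sign (c 0)) (SignType.sign (c 1)) (SignType.sign (c 2))
    (SignType.sign (c 3)) (SignType.sign (c 4))
  have e : (List.ofFn fun q => SignType.sign (c q)) = [SignType.sign (c 0), SignType.sign (c 1),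
    SignType.sign (c 2), SignType.sign (c 3), SignType.sign (c 4)] := by simp [List.ofFn_succ]
  rw [← e, h1] at h2
  rcases h2 with h2 | h2
  · apply hq
    have : SignType.sign (c q) ∈ List.ofFn fun q => SignType.sign (c q) :=
      List.mem_ofFn.2 ⟨q, rfl⟩
    rw [h2] at this
    simpa using this
  · simp at h2

/-- the first sign vector is refined by the negative of the second -/
def ref (c d : List SignType) : Bool :=
  (List.zipWith (fun x y => x == 0 || x == -y) c d).all id

lemma kill6 (hW : Module.finrank ℝ W = 4) (C : Cfg W) (pt : Fin 6 → Pt) (hp : ∀ q, Good C (pt q))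
    (fs : List (Fin 5 × Finset (Fin 5))) (hf : ∀ f ∈ fs, f.1 ∉ f.2 ∧ f.2.Nonempty)
    (ws : List (List SignType)) (hw : fs.map (fun f => List.ofFn fun q => sg (pt q) f) = ws)
    (K : List (List SignType))
    (hall : ∀ a b c d e g : SignType, [a, b, c, d, e, g] = [0, 0, 0, 0, 0, 0] ∨
      ws.any (uni [a, b, c, d, e, g]) = true ∨ [a, b, c, d, e, g] ∈ K ∨
        [-a, -b, -c, -d, -e, -g] ∈ K)
    (hK : ∀ c ∈ K, ∀ d ∈ K, ref c d = false) : False := by
  have hfr : Module.finrank ℝ (W × ℝ) < 6 := by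
    rw [Module.finrank_prod, hW, Module.finrank_self]; norm_num
  obtain ⟨u, hu, m, hm⟩ := dep (fun q => C.P (pt q).1 (pt q).2.1) (by omega)
  obtain ⟨v, hv, m', hm'⟩ := dep
    (fun q => ((C.P (pt q).1 (pt q).2.1, if q = m then 1 else 0) : W × ℝ)) hfr
  have hv1 : ∑ q, v q • C.P (pt q).1 (pt q).2.1 = 0 := by
    simpa [Prod.fst_sum] using congrArg Prod.fst hv
  have hv2 : v m = 0 := by simpa [Prod.snd_sum] using congrArg Prod.snd hv
  set c : ℝ → Fin 6 → ℝ := fun t q => (1 - 2 * t) * u q + t * (1 - t) * v q with hc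
  have e : ∀ x : Fin 6 → ℝ, (List.ofFn fun q => SignType.sign (x q)) = [SignType.sign (x 0),
    SignType.sign (x 1), SignType.sign (x 2), SignType.sign (x 3), SignType.sign (x 4),
    SignType.sign (x 5)] := by intro x; simp [List.ofFn_succ]
  have hcov : ∀ t, (List.ofFn fun q => SignType.sign (c t q)) ∈ K ∨
      (List.ofFn fun q => SignType.sign (-c t q)) ∈ K := by
    intro t
    have h1 := kill C pt hp fs hf ws hw (c t) (by
      simp only [hc, add_smul, mul_smul, Finset.sum_add_distrib, ← Finset.smul_sum, hu, hv1]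
      simp)
    have h2 := hall (SignType.sign (c t 0)) (SignType.sign (c t 1)) (SignType.sign (c t 2))
      (SignType.sign (c t 3)) (SignType.sign (c t 4)) (SignType.sign (c t 5))
    rw [← e, h1] at h2
    rcases h2 with h2 | h2 | h2 | h2
    · exfalso
      have z : ∀ q, c t q = 0 := by
        intro q
        have : SignType.sign (c t q) ∈ List.ofFn fun q => SignType.sign (c t q) :=
          List.mem_ofFn.2 ⟨q, rfl⟩
        rw [h2] at this
        simpa using this
      have z1 := z m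
      have z2 := z m'
      simp only [hc, hv2, mul_zero, add_zero, mul_eq_zero, hm, or_false] at z1
      have : t = 1 / 2 := by linarith
      subst this
      simp only [hc] at z2
      apply hm'
      linarith
    · simp at h2
    · exact Or.inl h2
    · right
      rw [e (fun q => -c t q)]
      simpa only [Left.sign_neg] using h2
  have hopen : ∀ x : ℝ → Fin 6 → ℝ, (∀ q, Continuous fun t => x t q) →
      (∀ t, (List.ofFn fun q => SignType.sign (x t q)) ∈ K ∨
        (List.ofFn fun q => SignType.sign (-x t q)) ∈ K) →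
      IsOpen {t | (List.ofFn fun q => SignType.sign (x t q)) ∈ K} := by
    intro x hx hcv
    rw [isOpen_iff_eventually]
    intro t ht
    have : ∀ᶠ s in nhds t, ∀ q, x t q = 0 ∨ SignType.sign (x t q) = SignType.sign (x s q) := by
      rw [Filter.eventually_all]
      intro q
      rcases lt_trichotomy (x t q) 0 with h | h | h
      · filter_upwards [(hx q).continuousAt.eventually_lt continuousAt_const h] with s hs
        right; rw [sign_neg h, sign_neg hs]
      · exact Filter.Eventually.of_forall fun _ => Or.inl h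
      · filter_upwards [continuousAt_const.eventually_lt (hx q).continuousAt h] with s hs
        right; rw [sign_pos h, sign_pos hs]
    filter_upwards [this] with s hs
    rcases hcv s with h | h
    · exact h
    · exfalso
      have := hK _ ht _ h
      rw [← Bool.not_eq_true] at this
      apply this
      have e2 : List.zipWith (fun x y : SignType => x == 0 || x == -y)
          (List.ofFn fun q => SignType.sign (x t q)) (List.ofFn fun q => SignType.sign (-x s q))
          = List.ofFn fun q => (SignType.sign (x t q) == 0 ||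
            SignType.sign (x t q) == -SignType.sign (-x s q)) := by
        apply List.ext_getElem <;> simp
      unfold ref
      rw [e2, List.all_eq_true]
      intro b hb
      obtain ⟨q, rfl⟩ := List.mem_ofFn.1 hb
      rcases hs q with h | h
      · simp [h]
      · simp [h, Left.sign_neg]
  have o1 := hopen c (fun q => by simp only [hc]; fun_prop) hcov
  have o2 := hopen (fun t q => -c t q) (fun q => by simp only [hc]; fun_prop)
    (fun t => by simpa only [neg_neg] using (hcov t).symm)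
  have hdis : ∀ t, (List.ofFn fun q => SignType.sign (c t q)) ∈ K →
      (List.ofFn fun q => SignType.sign (-c t q)) ∉ K := by
    intro t h1 h2
    have := hK _ h1 _ h2
    rw [← Bool.not_eq_true] at this
    apply this
    rw [e, e (fun q => -c t q)]
    simp [ref, Left.sign_neg]
  have hcl : IsClopen {t | (List.ofFn fun q => SignType.sign (c t q)) ∈ K} := by
    refine ⟨⟨?_⟩, o1⟩
    convert o2 using 1
    ext t
    exact ⟨fun h => (hcov t).resolve_left h, fun h h' => hdis t h' h⟩
  have e01 : ∀ q, c 1 q = -c 0 q := by intro q; simp only [hc]; ring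
  rcases isClopen_iff.1 hcl with h | h
  · have a0 : (0 : ℝ) ∉ {t | (List.ofFn fun q => SignType.sign (c t q)) ∈ K} := by
      rw [h]; exact Set.notMem_empty _
    have a1 : (1 : ℝ) ∉ {t | (List.ofFn fun q => SignType.sign (c t q)) ∈ K} := by
      rw [h]; exact Set.notMem_empty _
    apply a1
    simp only [Set.mem_setOf_eq, e01]
    exact (hcov 0).resolve_left a0
  · have a0 : (0 : ℝ) ∈ {t | (List.ofFn fun q => SignType.sign (c t q)) ∈ K} := by
      rw [h]; exact Set.mem_univ _
    have a1 : (1 : ℝ) ∈ {t | (List.ofFn fun q => SignType.sign (c t q)) ∈ K} := by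
      rw [h]; exact Set.mem_univ _
    simp only [Set.mem_setOf_eq, e01] at a1
    exact hdis 0 a0 a1

end Pool.Agent.Lib.Helper30.Five
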