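import Pool.Agent.Lib.helper30.FiveA

set_option autoImplicit false
set_option maxRecDepth 100000

namespace Pool.Agent.Lib.Helper30.Five

variable {W : Type} [AddCommGroup W] [Module ℝ W] [Module.Finite ℝ W]

lemma forb0 (hW : Module.finrank ℝ W = 4) (C : Cfg W)
    (h0 : O C 0 1 2 3) (h1 : O C 0 2 1 3) (h2 : O C 0 3 1 2) (h3 : O C 1 3 0 4) (h4 : O C 3 4 0 2) : False :=
  kill5 hW C ![(0, 1, 2, 3, 4), (0, 2, 1, 3, 4), (0, 3, 1, 2, 4), (1, 3, 0, 4, 2), (3, 4, 0, 2, 1)]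
    (by
      intro q
      fin_cases q
      · exact ⟨by decide, h0⟩
      · exact ⟨by decide, h1⟩
      · exact ⟨by decide, h2⟩
      · exact ⟨by decide, h3⟩
      · exact ⟨by decide, h4⟩
      )
    [(0, {1}), (0, {2}), (1, {3}), (3, {4}), (1, {2}), (2, {0, 1, 4}), (1, {0, 3}), (2, {0, 4}), (1, {4}), (1, {0, 2}), (2, {0, 1}), (2, {1, 3})]
    (by decide +kernel)
    [[0, 1, 1, -1, -1], [1, 0, 1, -1, 1], [1, 1, -1, 0, -1], [1, 1, 1, 1, 0], [1, -1, 1, 1, -1], [-1, 1, 1, 1, 1], [1, 1, -1, 1, 1], [-1, 1, 1, 1, -1], [1, -1, -1, 1, -1], [1, -1, 1, 1, 1], [-1, 1, -1, 1, 1], [1, 1, -1, -1, 1]]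
    (by decide +kernel) (by decide +kernel)

lemma gen0 (hW : Module.finrank ℝ W = 4) (C : Cfg W) (x0 x1 x2 x3 x4 : Fin 5)
    (hb : Function.Bijective ![x0, x1, x2, x3, x4])
    (h0 : O C x0 x1 x2 x3) (h1 : O C x0 x2 x1 x3) (h2 : O C x0 x3 x1 x2) (h3 : O C x1 x3 x0 x4) (h4 : O C x3 x4 x0 x2) : False :=
  forb0 hW (C.perm _ hb) h0 h1 h2 h3 h4

lemma forb1 (hW : Module.finrank ℝ W = 4) (C : Cfg W)
    (h0 : O C 0 1 2 3) (h1 : O C 0 2 1 3) (h2 : O C 0 3 1 2) (h3 : O C 1 4 0 3) (h4 : O C 3 4 0 2) : False :=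
  kill5 hW C ![(0, 1, 2, 3, 4), (0, 2, 1, 3, 4), (0, 3, 1, 2, 4), (1, 4, 0, 3, 2), (3, 4, 0, 2, 1)]
    (by
      intro q
      fin_cases q
      · exact ⟨by decide, h0⟩
      · exact ⟨by decide, h1⟩
      · exact ⟨by decide, h2⟩
      · exact ⟨by decide, h3⟩
      · exact ⟨by decide, h4⟩
      )
    [(0, {1}), (0, {2}), (0, {3}), (1, {4}), (2, {1, 3}), (1, {0, 2}), (1, {0, 3}), (1, {2}), (0, {2, 3}), (2, {3}), (2, {0, 1}), (2, {0, 4})]
    (by decide +kernel)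
    [[0, 1, 1, -1, -1], [1, 0, 1, -1, 1], [1, 1, 0, 1, -1], [1, -1, -1, 0, -1], [1, 1, -1, -1, 1], [1, -1, 1, 1, 1], [1, 1, -1, 1, 1], [1, -1, 1, 1, -1], [1, 1, 1, 1, 1], [1, 1, -1, -1, -1], [-1, 1, -1, 1, 1], [-1, 1, 1, 1, -1]]
    (by decide +kernel) (by decide +kernel)

lemma gen1 (hW : Module.finrank ℝ W = 4) (C : Cfg W) (x0 x1 x2 x3 x4 : Fin 5)
    (hb : Function.Bijective ![x0, x1, x2, x3, x4])
    (h0 : O C x0 x1 x2 x3) (h1 : O C x0 x2 x1 x3) (h2 : O C x0 x3 x1 x2) (h3 : O C x1 x4 x0 x3) (h4 : O C x3 x4 x0 x2) : False :=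
  forb1 hW (C.perm _ hb) h0 h1 h2 h3 h4

lemma forb2 (hW : Module.finrank ℝ W = 4) (C : Cfg W)
    (h0 : O C 0 1 2 3) (h1 : O C 0 2 1 3) (h2 : O C 0 3 1 2) (h3 : O C 2 3 0 1) (h4 : O C 2 4 0 3) : False :=
  kill5 hW C ![(0, 1, 2, 3, 4), (0, 2, 1, 3, 4), (0, 3, 1, 2, 4), (2, 3, 0, 1, 4), (2, 4, 0, 3, 1)]
    (by
      intro q
      fin_cases q
      · exact ⟨by decide, h0⟩
      · exact ⟨by decide, h1⟩
      · exact ⟨by decide, h2⟩
      · exact ⟨by decide, h3⟩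
      · exact ⟨by decide, h4⟩
      )
    [(0, {1}), (0, {2}), (0, {3}), (1, {0, 2, 4}), (1, {4}), (1, {3, 4}), (0, {1, 3}), (1, {3}), (1, {0, 4}), (1, {0, 2}), (1, {2, 4}), (1, {0, 3, 4}), (2, {4})]
    (by decide +kernel)
    [[0, 1, 1, 1, -1], [1, 0, 1, -1, -1], [1, 1, 0, -1, 1], [1, -1, 1, 1, 1], [1, -1, -1, 1, -1], [1, 1, -1, 1, -1], [1, 1, 1, 1, 1], [1, 1, -1, -1, -1], [1, -1, -1, 1, 1], [1, -1, 1, -1, 1], [1, -1, 1, 1, -1], [1, 1, -1, 1, 1], [-1, 1, 1, 1, 0]]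
    (by decide +kernel) (by decide +kernel)

lemma gen2 (hW : Module.finrank ℝ W = 4) (C : Cfg W) (x0 x1 x2 x3 x4 : Fin 5)
    (hb : Function.Bijective ![x0, x1, x2, x3, x4])
    (h0 : O C x0 x1 x2 x3) (h1 : O C x0 x2 x1 x3) (h2 : O C x0 x3 x1 x2) (h3 : O C x2 x3 x0 x1) (h4 : O C x2 x4 x0 x3) : False :=
  forb2 hW (C.perm _ hb) h0 h1 h2 h3 h4

lemma forb3 (hW : Module.finrank ℝ W = 4) (C : Cfg W)
    (h0 : O C 0 1 2 3) (h1 : O C 0 2 1 3) (h2 : O C 0 3 1 2) (h3 : O C 2 3 0 1) (h4 : O C 3 4 0 2) : False :=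
  kill5 hW C ![(0, 1, 2, 3, 4), (0, 2, 1, 3, 4), (0, 3, 1, 2, 4), (2, 3, 0, 1, 4), (3, 4, 0, 2, 1)]
    (by
      intro q
      fin_cases q
      · exact ⟨by decide, h0⟩
      · exact ⟨by decide, h1⟩
      · exact ⟨by decide, h2⟩
      · exact ⟨by decide, h3⟩
      · exact ⟨by decide, h4⟩
      )
    [(0, {1}), (0, {2}), (0, {3}), (1, {0, 3, 4}), (1, {4}), (1, {2, 4}), (0, {1, 2}), (1, {2}), (1, {0, 4}), (1, {0, 3}), (1, {3, 4}), (1, {0, 2, 4}), (2, {1, 4})]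
    (by decide +kernel)
    [[0, 1, 1, 1, -1], [1, 0, 1, -1, 1], [1, 1, 0, -1, -1], [1, 1, -1, 1, 1], [1, -1, -1, 1, -1], [1, -1, 1, 1, -1], [1, 1, 1, 1, 1], [1, -1, 1, -1, -1], [1, -1, -1, 1, 1], [1, 1, -1, -1, 1], [1, 1, -1, 1, -1], [1, -1, 1, 1, 1], [-1, 1, 1, 1, 1]]
    (by decide +kernel) (by decide +kernel)

lemma gen3 (hW : Module.finrank ℝ W = 4) (C : Cfg W) (x0 x1 x2 x3 x4 : Fin 5)
    (hb : Function.Bijective ![x0, x1, x2, x3, x4])
    (h0 : O C x0 x1 x2 x3) (h1 : O C x0 x2 x1 x3) (h2 : O C x0 x3 x1 x2) (h3 : O C x2 x3 x0 x1) (h4 : O C x3 x4 x0 x2) : False :=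
  forb3 hW (C.perm _ hb) h0 h1 h2 h3 h4

lemma forb4 (hW : Module.finrank ℝ W = 4) (C : Cfg W)
    (h0 : O C 0 1 2 3) (h1 : O C 0 2 1 3) (h2 : O C 1 2 0 4) (h3 : O C 1 3 0 2) (h4 : O C 1 4 0 3) : False :=
  kill5 hW C ![(0, 1, 2, 3, 4), (0, 2, 1, 3, 4), (1, 2, 0, 4, 3), (1, 3, 0, 2, 4), (1, 4, 0, 3, 2)]
    (by
      intro q
      fin_cases q
      · exact ⟨by decide, h0⟩
      · exact ⟨by decide, h1⟩
      · exact ⟨by decide, h2⟩
      · exact ⟨by decide, h3⟩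
      · exact ⟨by decide, h4⟩
      )
    [(0, {1}), (0, {2}), (1, {3}), (2, {4}), (4, {0, 1}), (0, {3}), (0, {4}), (0, {2, 3}), (0, {2, 4}), (1, {2}), (1, {4}), (2, {0, 4}), (4, {2, 3})]
    (by decide +kernel)
    [[0, 1, -1, -1, -1], [1, 0, -1, 1, -1], [1, 1, 1, 0, 1], [-1, 1, 1, 1, -1], [-1, 1, -1, 1, 1], [1, 1, -1, -1, 1], [1, 1, 1, -1, -1], [1, 1, -1, 1, 1], [1, 1, 1, 1, -1], [1, -1, 0, 1, 1], [1, -1, 1, 1, 0], [-1, 1, 1, 1, 1], [1, -1, 1, -1, 1]]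
    (by decide +kernel) (by decide +kernel)

lemma gen4 (hW : Module.finrank ℝ W = 4) (C : Cfg W) (x0 x1 x2 x3 x4 : Fin 5)
    (hb : Function.Bijective ![x0, x1, x2, x3, x4])
    (h0 : O C x0 x1 x2 x3) (h1 : O C x0 x2 x1 x3) (h2 : O C x1 x2 x0 x4) (h3 : O C x1 x3 x0 x2) (h4 : O C x1 x4 x0 x3) : False :=
  forb4 hW (C.perm _ hb) h0 h1 h2 h3 h4

lemma forb5 (hW : Module.finrank ℝ W = 4) (C : Cfg W)
    (h0 : O C 0 1 2 3) (h1 : O C 0 2 1 3) (h2 : O C 1 2 0 4) (h3 : O C 1 3 0 2) (h4 : O C 2 4 0 3) : False :=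
  kill5 hW C ![(0, 1, 2, 3, 4), (0, 2, 1, 3, 4), (1, 2, 0, 4, 3), (1, 3, 0, 2, 4), (2, 4, 0, 3, 1)]
    (by
      intro q
      fin_cases q
      · exact ⟨by decide, h0⟩
      · exact ⟨by decide, h1⟩
      · exact ⟨by decide, h2⟩
      · exact ⟨by decide, h3⟩
      · exact ⟨by decide, h4⟩
      )
    [(0, {1}), (0, {2}), (1, {3}), (2, {4}), (0, {2, 3}), (0, {3, 4}), (1, {2}), (4, {0, 1}), (0, {3}), (0, {2, 3, 4}), (4, {0, 2}), (4, {2, 3})]
    (by decide +kernel)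
    [[0, 1, -1, -1, -1], [1, 0, -1, 1, -1], [1, 1, 1, 0, -1], [-1, 1, 1, 1, 0], [1, 1, -1, 1, 1], [1, 1, 1, -1, 1], [1, -1, 0, 1, -1], [-1, 1, -1, 1, 1], [1, 1, -1, -1, 1], [1, 1, 1, 1, 1], [1, -1, -1, 1, 1], [1, -1, 1, -1, 1]]
    (by decide +kernel) (by decide +kernel)

lemma gen5 (hW : Module.finrank ℝ W = 4) (C : Cfg W) (x0 x1 x2 x3 x4 : Fin 5)
    (hb : Function.Bijective ![x0, x1, x2, x3, x4])
    (h0 : O C x0 x1 x2 x3) (h1 : O C x0 x2 x1 x3) (h2 : O C x1 x2 x0 x4) (h3 : O C x1 x3 x0 x2) (h4 : O C x2 x4 x0 x3) : False :=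
  forb5 hW (C.perm _ hb) h0 h1 h2 h3 h4

lemma forb6 (hW : Module.finrank ℝ W = 4) (C : Cfg W)
    (h0 : O C 0 1 2 3) (h1 : O C 0 2 1 3) (h2 : O C 1 2 0 4) (h3 : O C 1 3 0 2) (h4 : O C 3 4 0 1) : False :=
  kill5 hW C ![(0, 1, 2, 3, 4), (0, 2, 1, 3, 4), (1, 2, 0, 4, 3), (1, 3, 0, 2, 4), (3, 4, 0, 1, 2)]
    (by
      intro q
      fin_cases q
      · exact ⟨by decide, h0⟩
      · exact ⟨by decide, h1⟩
      · exact ⟨by decide, h2⟩
      · exact ⟨by decide, h3⟩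
      · exact ⟨by decide, h4⟩
      )
    [(0, {1}), (0, {2}), (1, {2}), (1, {3}), (2, {0, 4}), (4, {2, 3}), (0, {1, 2}), (0, {1, 4}), (0, {3}), (0, {1, 2, 4}), (2, {4}), (4, {0, 1})]
    (by decide +kernel)
    [[0, 1, -1, -1, 1], [1, 0, -1, 1, -1], [1, -1, 0, 1, 1], [1, 1, 1, 0, -1], [-1, 1, 1, 1, 1], [1, -1, 1, -1, 1], [1, 1, -1, 1, 1], [1, 1, 1, -1, 1], [1, 1, -1, -1, -1], [1, 1, 1, 1, 1], [-1, 1, 1, 1, -1], [-1, 1, -1, 1, 1]]
    (by decide +kernel) (by decide +kernel)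

lemma gen6 (hW : Module.finrank ℝ W = 4) (C : Cfg W) (x0 x1 x2 x3 x4 : Fin 5)
    (hb : Function.Bijective ![x0, x1, x2, x3, x4])
    (h0 : O C x0 x1 x2 x3) (h1 : O C x0 x2 x1 x3) (h2 : O C x1 x2 x0 x4) (h3 : O C x1 x3 x0 x2) (h4 : O C x3 x4 x0 x1) : False :=
  forb6 hW (C.perm _ hb) h0 h1 h2 h3 h4

lemma forb7 (hW : Module.finrank ℝ W = 4) (C : Cfg W)
    (h0 : O C 0 1 2 3) (h1 : O C 0 2 1 3) (h2 : O C 1 2 0 4) (h3 : O C 1 3 0 2) (h4 : O C 3 4 0 2) : False :=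
  kill5 hW C ![(0, 1, 2, 3, 4), (0, 2, 1, 3, 4), (1, 2, 0, 4, 3), (1, 3, 0, 2, 4), (3, 4, 0, 2, 1)]
    (by
      intro q
      fin_cases q
      · exact ⟨by decide, h0⟩
      · exact ⟨by decide, h1⟩
      · exact ⟨by decide, h2⟩
      · exact ⟨by decide, h3⟩
      · exact ⟨by decide, h4⟩
      )
    [(0, {1}), (0, {2}), (1, {2}), (1, {3}), (4, {2, 3}), (2, {1, 4}), (2, {1, 3}), (2, {4}), (0, {2, 4}), (3, {4}), (4, {0, 1}), (4, {1, 2})]
    (by decide +kernel)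
    [[0, 1, -1, -1, -1], [1, 0, -1, 1, 1], [1, -1, 0, 1, -1], [1, 1, 1, 0, -1], [1, -1, 1, -1, 1], [-1, 1, 1, 1, 1], [1, 1, 1, -1, 1], [-1, 1, 1, 1, -1], [1, 1, 1, 1, 1], [1, 1, -1, 1, 0], [-1, 1, -1, 1, 1], [1, 1, -1, -1, 1]]
    (by decide +kernel) (by decide +kernel)

lemma gen7 (hW : Module.finrank ℝ W = 4) (C : Cfg W) (x0 x1 x2 x3 x4 : Fin 5)
    (hb : Function.Bijective ![x0, x1, x2, x3, x4])
    (h0 : O C x0 x1 x2 x3) (h1 : O C x0 x2 x1 x3) (h2 : O C x1 x2 x0 x4) (h3 : O C x1 x3 x0 x2) (h4 : O C x3 x4 x0 x2) : False :=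
  forb7 hW (C.perm _ hb) h0 h1 h2 h3 h4

lemma forb8 (hW : Module.finrank ℝ W = 4) (C : Cfg W)
    (h0 : O C 0 1 2 3) (h1 : O C 0 2 1 4) (h2 : O C 0 3 1 2) (h3 : O C 1 4 0 3) (h4 : O C 2 4 0 1) : False :=
  kill5 hW C ![(0, 1, 2, 3, 4), (0, 2, 1, 4, 3), (0, 3, 1, 2, 4), (1, 4, 0, 3, 2), (2, 4, 0, 1, 3)]
    (by
      intro q
      fin_cases q
      · exact ⟨by decide, h0⟩
      · exact ⟨by decide, h1⟩
      · exact ⟨by decide, h2⟩
      · exact ⟨by decide, h3⟩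
      · exact ⟨by decide, h4⟩
      )
    [(0, {1}), (0, {2}), (0, {3}), (1, {2, 3}), (2, {3}), (2, {0, 4}), (1, {3}), (0, {1, 3}), (3, {0, 4}), (1, {2}), (1, {4}), (1, {3, 4}), (3, {1, 2})]
    (by decide +kernel)
    [[0, 1, 1, -1, 1], [1, 0, 1, -1, -1], [1, 1, 0, 1, -1], [1, -1, 1, 1, 1], [1, 1, -1, -1, 1], [-1, 1, 1, 1, 1], [1, -1, -1, 1, 1], [1, 1, 1, 1, 1], [1, -1, 1, -1, 1], [1, -1, 1, 1, -1], [1, 1, -1, 0, -1], [1, 1, -1, 1, 1], [-1, 1, 1, 1, -1]]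
    (by decide +kernel) (by decide +kernel)

lemma gen8 (hW : Module.finrank ℝ W = 4) (C : Cfg W) (x0 x1 x2 x3 x4 : Fin 5)
    (hb : Function.Bijective ![x0, x1, x2, x3, x4])
    (h0 : O C x0 x1 x2 x3) (h1 : O C x0 x2 x1 x4) (h2 : O C x0 x3 x1 x2) (h3 : O C x1 x4 x0 x3) (h4 : O C x2 x4 x0 x1) : False :=
  forb8 hW (C.perm _ hb) h0 h1 h2 h3 h4

lemma forb9 (hW : Module.finrank ℝ W = 4) (C : Cfg W)
    (h0 : O C 0 1 2 3) (h1 : O C 0 2 1 3) (h2 : O C 0 3 1 2) (h3 : O C 0 4 1 2) (h4 : O C 2 3 0 1) (h5 : O C 2 4 0 1) : False :=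
  kill6 hW C ![(0, 1, 2, 3, 4), (0, 2, 1, 3, 4), (0, 3, 1, 2, 4), (0, 4, 1, 2, 3), (2, 3, 0, 1, 4), (2, 4, 0, 1, 3)]
    (by
      intro q
      fin_cases q
      · exact ⟨by decide, h0⟩
      · exact ⟨by decide, h1⟩
      · exact ⟨by decide, h2⟩
      · exact ⟨by decide, h3⟩
      · exact ⟨by decide, h4⟩
      · exact ⟨by decide, h5⟩
      )
    [(0, {1}), (0, {2}), (2, {3}), (2, {4}), (1, {3}), (1, {4}), (3, {4}), (3, {0, 1}), (1, {2, 4}), (4, {0, 2}), (3, {0, 4}), (0, {3}), (0, {4}), (1, {2, 3}), (3, {1, 4}), (1, {3, 4})]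
    (by decide +kernel)
    [[0, 1, 1, 1, 1, 1], [1, 0, 1, 1, -1, -1], [1, 1, -1, 1, 0, 1], [-1, 1, 1, -1, 1, 0], [1, 1, -1, -1, -1, 1], [1, -1, -1, -1, 1, -1], [1, 1, 1, -1, 1, -1], [-1, -1, 1, 1, 1, 1], [1, -1, 1, 1, 1, -1], [1, -1, -1, 1, 1, 1], [1, 1, 1, -1, 1, 1], [1, 1, 0, 1, -1, -1], [1, 1, 1, 0, -1, -1], [1, 1, 1, 1, -1, 1], [1, 1, 1, 1, 1, -1], [1, 1, -1, -1, 1, 1]]
    (by decide +kernel)
    [[1, 1, 1, -1, -1, 1], [1, -1, 1, 1, 1, 1], [1, -1, 1, 1, -1, 1], [1, -1, 1, 1, 0, 1], [1, -1, 1, -1, 1, 1], [1, -1, 1, -1, 1, -1], [1, -1, 1, -1, 1, 0], [1, -1, 1, -1, -1, 1], [1, -1, 1, -1, -1, -1], [1, -1, 1, -1, -1, 0], [1, -1, 1, -1, 0, 1], [1, -1, 1, -1, 0, -1], [1, -1, 1, -1, 0, 0], [1, -1, 1, 0, 1, 1], [1, -1, 1, 0, -1, 1], [1, -1, 1, 0, 0, 1], [1, -1, -1, -1, 1, 1], [1, -1, -1, -1, -1, 1], [1, -1, -1, -1, 0, 1], [1, -1, 0, -1, 1, 1], [1, -1, 0, -1, -1, 1], [1, -1, 0, -1, 0, 1],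 [1, 0, 1, -1, -1, 1], [-1, 1, 1, -1, -1, 1], [-1, -1, 1, 1, -1, 1], [-1, -1, 1, -1, -1, 1], [-1, -1, 1, 0, -1, 1], [-1, 0, 1, -1, -1, 1], [0, 1, 1, -1, -1, 1], [0, -1, 1, 1, -1, 1], [0, -1, 1, -1, -1, 1], [0, -1, 1, 0, -1, 1], [0, 0, 1, -1, -1, 1]]
    (by decide +kernel) (by decide +kernel)

lemma gen9 (hW : Module.finrank ℝ W = 4) (C : Cfg W) (x0 x1 x2 x3 x4 : Fin 5)
    (hb : Function.Bijective ![x0, x1, x2, x3, x4])
    (h0 : O C x0 x1 x2 x3) (h1 : O C x0 x2 x1 x3) (h2 : O C x0 x3 x1 x2) (h3 : O C x0 x4 x1 x2) (h4 : O C x2 x3 x0 x1) (h5 : O C x2 x4 x0 x1) : False :=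
  forb9 hW (C.perm _ hb) h0 h1 h2 h3 h4 h5

theorem noCfg (hW : Module.finrank ℝ W = 4) (C : Cfg W) : False := by
  rcases split C 0 1 2 3 4 (by decide) with h01 | h01
  · rcases split C 0 2 1 3 4 (by decide) with h02 | h02
    · rcases split C 0 3 1 2 4 (by decide) with h03 | h03
      · rcases split C 1 2 0 3 4 (by decide) with h12 | h12
        · rcases split C 1 3 0 2 4 (by decide) with h13 | h13
          · rcases split C 2 3 0 1 4 (by decide) with h23 | h23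
            · rcases split C 3 4 0 1 2 (by decide) with h34 | h34
              · exact gen9 hW C 3 4 0 1 2 (by decide +kernel) h34.1 h03.2.2.2.2.2 h13.2.2.2.2.2 h23.2.2.2.2.2 h01.2.1 h02.2.1
              · exact gen0 hW C 2 0 1 3 4 (by decide +kernel) h02.2.2.2.1 h12.2.2.2.1 h23.1 h03.2.1 h34.2.1
            · rcases split C 3 4 0 1 2 (by decide) with h34 | h34
              · exact gen0 hW C 2 1 0 3 4 (by decide +kernel) h12.2.2.2.1 h02.2.2.2.1 h23.2.2.1 h13.2.1 h34.2.2.1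
              · exact gen9 hW C 3 4 1 0 2 (by decide +kernel) h34.2.2.1 h13.2.2.2.2.2 h03.2.2.2.2.2 h23.2.2.2.2.1 h01.2.2.2.2.1 h12.2.1
          · rcases split C 0 4 1 2 3 (by decide) with h04 | h04
            · rcases split C 1 4 0 2 3 (by decide) with h14 | h14
              · rcases split C 3 4 0 1 2 (by decide) with h34 | h34
                · exact gen0 hW C 4 3 0 1 2 (by decide +kernel) h34.2.2.2.1 h04.2.2.2.2.2 h14.2.2.2.2.2 h13.2.2.2.2.1 h12.2.2.1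
                · exact gen0 hW C 0 1 2 3 4 (by decide +kernel) h01.1 h02.1 h03.1 h13.1 h34.1
              · exact gen9 hW C 1 2 0 3 4 (by decide +kernel) h12.1 h01.2.2.2.1 h13.2.2.1 h14.2.2.1 h03.1 h04.1
            · exact gen2 hW C 1 2 0 3 4 (by decide +kernel) h12.1 h01.2.2.2.1 h13.2.2.1 h03.1 h04.1
        · rcases split C 0 4 1 2 3 (by decide) with h04 | h04
          · rcases split C 1 3 0 2 4 (by decide) with h13 | h13
            · exact gen0 hW C 0 3 4 1 2 (by decide +kernel) h03.2.2.1 h04.2.2.1 h01.2.1 h13.2.2.2.1 h12.1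
            · exact gen9 hW C 0 4 1 2 3 (by decide +kernel) h04.1 h01.2.2.1 h02.2.2.1 h03.2.2.1 h12.1 h13.1
          · rcases split C 1 3 0 2 4 (by decide) with h13 | h13
            · exact gen3 hW C 0 4 2 1 3 (by decide +kernel) h04.2.2.1 h02.2.2.1 h01.2.2.1 h12.2.2.2.1 h13.1
            · exact gen3 hW C 1 2 3 0 4 (by decide +kernel) h12.2.2.1 h13.2.2.1 h01.2.2.2.1 h03.2.2.2.1 h04.1
      · rcases split C 1 2 0 3 4 (by decide) with h12 | h12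
        · rcases split C 1 3 0 2 4 (by decide) with h13 | h13
          · rcases split C 0 4 1 2 3 (by decide) with h04 | h04
            · rcases split C 3 4 0 1 2 (by decide) with h34 | h34
              · exact gen0 hW C 1 0 2 3 4 (by decide +kernel) h01.2.2.2.1 h12.1 h13.1 h03.1 h34.2.1
              · exact gen3 hW C 3 1 4 0 2 (by decide +kernel) h13.2.2.2.2.2 h34.2.2.1 h03.2.2.2.1 h04.2.2.2.2.2 h02.2.1
            · rcases split C 1 4 0 2 3 (by decide) with h14 | h14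
              · exact gen9 hW C 0 2 1 3 4 (by decide +kernel) h02.1 h01.1 h03.2.2.1 h04.2.2.1 h13.1 h14.1
              · exact gen0 hW C 0 4 2 1 3 (by decide +kernel) h04.2.2.1 h02.2.2.1 h01.2.2.1 h14.2.2.2.1 h13.1
          · rcases split C 2 3 0 1 4 (by decide) with h23 | h23
            · rcases split C 3 4 0 1 2 (by decide) with h34 | h34
              · exact gen9 hW C 3 4 2 0 1 (by decide +kernel) h34.2.2.1 h23.2.2.2.2.2 h03.2.2.2.2.1 h13.2.2.2.2.1 h02.2.2.2.2.1 h12.2.2.2.2.1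
              · exact gen0 hW C 1 2 0 3 4 (by decide +kernel) h12.1 h01.2.2.2.1 h13.2.2.1 h23.2.1 h34.2.2.1
            · rcases split C 3 4 0 1 2 (by decide) with h34 | h34
              · exact gen0 hW C 0 2 1 3 4 (by decide +kernel) h02.1 h01.1 h03.2.2.1 h23.1 h34.1
              · exact gen9 hW C 3 4 2 1 0 (by decide +kernel) h34.2.1 h23.2.2.2.2.1 h13.2.2.2.2.1 h03.2.2.2.2.1 h12.2.2.2.2.1 h02.2.2.2.2.1
        · rcases split C 0 4 1 2 3 (by decide) with h04 | h04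
          · rcases split C 2 3 0 1 4 (by decide) with h23 | h23
            · exact gen3 hW C 0 4 1 2 3 (by decide +kernel) h04.1 h01.2.2.1 h02.2.2.1 h12.1 h23.1
            · exact gen3 hW C 2 1 3 0 4 (by decide +kernel) h12.2.2.2.2.2 h23.2.2.1 h02.2.2.2.1 h03.2.2.2.2.2 h04.2.1
          · rcases split C 2 3 0 1 4 (by decide) with h23 | h23
            · exact gen0 hW C 0 3 4 2 1 (by decide +kernel) h03.2.1 h04.2.1 h02.2.1 h23.2.2.2.1 h12.2.2.2.1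
            · exact gen9 hW C 0 4 2 1 3 (by decide +kernel) h04.2.2.1 h02.2.2.1 h01.2.2.1 h03.2.1 h12.2.2.2.1 h23.1
    · rcases split C 1 2 0 3 4 (by decide) with h12 | h12
      · rcases split C 0 3 1 2 4 (by decide) with h03 | h03
        · rcases split C 1 4 0 2 3 (by decide) with h14 | h14
          · exact gen2 hW C 1 4 0 2 3 (by decide +kernel) h14.1 h01.2.2.2.2.2 h12.2.2.1 h02.1 h03.1
          · exact gen3 hW C 1 4 2 0 3 (by decide +kernel) h14.2.2.1 h12.2.2.1 h01.2.2.2.2.2 h02.2.2.2.1 h03.1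
        · rcases split C 1 3 0 2 4 (by decide) with h13 | h13
          · rcases split C 1 4 0 2 3 (by decide) with h14 | h14
            · exact gen9 hW C 1 4 0 2 3 (by decide +kernel) h14.1 h01.2.2.2.2.2 h12.2.2.1 h13.2.2.1 h02.1 h03.1
            · exact gen3 hW C 0 2 3 1 4 (by decide +kernel) h02.2.2.1 h03.2.2.1 h01.1 h13.2.2.2.1 h14.1
          · rcases split C 1 4 0 2 3 (by decide) with h14 | h14
            · rcases split C 2 3 0 1 4 (by decide) with h23 | h23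
              · exact gen0 hW C 3 2 0 1 4 (by decide +kernel) h23.2.2.2.1 h03.2.2.2.2.2 h13.2.2.2.2.2 h12.2.2.2.2.1 h14.2.2.1
              · exact gen3 hW C 1 4 0 2 3 (by decide +kernel) h14.1 h01.2.2.2.2.2 h12.2.2.1 h02.1 h23.2.2.1
            · rcases split C 2 3 0 1 4 (by decide) with h23 | h23
              · exact gen9 hW C 1 4 2 0 3 (by decide +kernel) h14.2.2.1 h12.2.2.1 h01.2.2.2.2.2 h13.2.1 h02.2.2.2.1 h23.2.1
              · exact gen0 hW C 1 3 4 2 0 (by decide +kernel) h13.2.1 h14.2.1 h12.2.1 h23.2.2.2.2.2 h02.2.2.2.1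
      · rcases split C 0 4 1 2 3 (by decide) with h04 | h04
        · rcases split C 1 4 0 2 3 (by decide) with h14 | h14
          · rcases split C 2 3 0 1 4 (by decide) with h23 | h23
            · rcases split C 2 4 0 1 3 (by decide) with h24 | h24
              · exact gen9 hW C 2 3 0 1 4 (by decide +kernel) h23.1 h02.2.2.2.2.2 h12.2.2.2.2.2 h24.2.2.1 h01.1 h04.2.1
              · exact gen0 hW C 4 1 0 2 3 (by decide +kernel) h14.2.2.2.1 h04.2.2.2.1 h24.2.2.2.2.2 h12.2.1 h23.2.2.1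
            · rcases split C 2 4 0 1 3 (by decide) with h24 | h24
              · exact gen0 hW C 4 0 1 2 3 (by decide +kernel) h04.2.2.2.1 h14.2.2.2.1 h24.2.2.2.1 h02.2.1 h23.2.1
              · exact gen9 hW C 2 3 1 0 4 (by decide +kernel) h23.2.2.1 h12.2.2.2.2.2 h02.2.2.2.2.2 h24.2.1 h01.2.2.2.1 h14.2.1
          · rcases split C 0 3 1 2 4 (by decide) with h03 | h03
            · exact gen3 hW C 0 3 4 1 2 (by decide +kernel) h03.2.2.1 h04.2.2.1 h01.2.1 h14.2.2.2.1 h12.1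
            · exact gen0 hW C 0 2 3 1 4 (by decide +kernel) h02.2.2.1 h03.2.2.1 h01.1 h12.2.2.2.1 h14.1
        · rcases split C 1 3 0 2 4 (by decide) with h13 | h13
          · exact gen5 hW C 2 0 1 4 3 (by decide +kernel) h02.2.2.2.1 h12.2.2.2.1 h01.1 h04.2.2.1 h13.2.1
          · exact gen0 hW C 1 2 3 0 4 (by decide +kernel) h12.2.2.1 h13.2.2.1 h01.2.2.2.1 h02.2.2.2.1 h04.1
  · rcases split C 0 2 1 3 4 (by decide) with h02 | h02
    · rcases split C 1 2 0 3 4 (by decide) with h12 | h12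
      · rcases split C 0 3 1 2 4 (by decide) with h03 | h03
        · rcases split C 1 3 0 2 4 (by decide) with h13 | h13
          · rcases split C 2 3 0 1 4 (by decide) with h23 | h23
            · rcases split C 2 4 0 1 3 (by decide) with h24 | h24
              · exact gen9 hW C 2 4 0 1 3 (by decide +kernel) h24.1 h02.2.2.2.2.2 h12.2.2.2.2.2 h23.2.2.1 h01.1 h03.2.1
              · exact gen0 hW C 3 0 1 2 4 (by decide +kernel) h03.2.2.2.1 h13.2.2.2.1 h23.2.2.2.1 h02.2.1 h24.2.1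
            · rcases split C 2 4 0 1 3 (by decide) with h24 | h24
              · exact gen0 hW C 3 1 0 2 4 (by decide +kernel) h13.2.2.2.1 h03.2.2.2.1 h23.2.2.2.2.2 h12.2.1 h24.2.2.1
              · exact gen9 hW C 2 4 1 0 3 (by decide +kernel) h24.2.2.1 h12.2.2.2.2.2 h02.2.2.2.2.2 h23.2.1 h01.2.2.2.1 h13.2.1
          · rcases split C 0 4 1 2 3 (by decide) with h04 | h04
            · exact gen3 hW C 0 4 3 1 2 (by decide +kernel) h04.2.2.1 h03.2.2.1 h01.2.1 h13.2.2.2.1 h12.1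
            · exact gen0 hW C 0 2 4 1 3 (by decide +kernel) h02.2.2.1 h04.2.2.1 h01.1 h12.2.2.2.1 h13.1
        · rcases split C 1 4 0 2 3 (by decide) with h14 | h14
          · exact gen5 hW C 2 0 1 3 4 (by decide +kernel) h02.2.2.2.1 h12.2.2.2.1 h01.1 h03.2.2.1 h14.2.1
          · exact gen0 hW C 1 2 4 0 3 (by decide +kernel) h12.2.2.1 h14.2.2.1 h01.2.2.2.1 h02.2.2.2.1 h03.1
      · rcases split C 0 4 1 2 3 (by decide) with h04 | h04
        · rcases split C 1 3 0 2 4 (by decide) with h13 | h13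
          · exact gen2 hW C 1 3 0 2 4 (by decide +kernel) h13.1 h01.2.2.2.2.2 h12.2.2.1 h02.1 h04.1
          · exact gen3 hW C 1 3 2 0 4 (by decide +kernel) h13.2.2.1 h12.2.2.1 h01.2.2.2.2.2 h02.2.2.2.1 h04.1
        · rcases split C 1 3 0 2 4 (by decide) with h13 | h13
          · rcases split C 1 4 0 2 3 (by decide) with h14 | h14
            · exact gen9 hW C 1 3 0 2 4 (by decide +kernel) h13.1 h01.2.2.2.2.2 h12.2.2.1 h14.2.2.1 h02.1 h04.1
            · rcases split C 2 4 0 1 3 (by decide) with h24 | h24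
              · exact gen0 hW C 4 2 0 1 3 (by decide +kernel) h24.2.2.2.1 h04.2.2.2.2.2 h14.2.2.2.2.2 h12.2.2.2.2.1 h13.2.2.1
              · exact gen3 hW C 1 3 0 2 4 (by decide +kernel) h13.1 h01.2.2.2.2.2 h12.2.2.1 h02.1 h24.2.2.1
          · rcases split C 1 4 0 2 3 (by decide) with h14 | h14
            · exact gen3 hW C 0 2 4 1 3 (by decide +kernel) h02.2.2.1 h04.2.2.1 h01.1 h14.2.2.2.1 h13.1
            · rcases split C 2 4 0 1 3 (by decide) with h24 | h24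
              · exact gen9 hW C 1 3 2 0 4 (by decide +kernel) h13.2.2.1 h12.2.2.1 h01.2.2.2.2.2 h14.2.1 h02.2.2.2.1 h24.2.1
              · exact gen0 hW C 1 4 3 2 0 (by decide +kernel) h14.2.1 h13.2.1 h12.2.1 h24.2.2.2.2.2 h02.2.2.2.1
    · rcases split C 0 3 1 2 4 (by decide) with h03 | h03
      · rcases split C 1 2 0 3 4 (by decide) with h12 | h12
        · rcases split C 0 4 1 2 3 (by decide) with h04 | h04
          · rcases split C 1 4 0 2 3 (by decide) with h14 | h14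
            · exact gen0 hW C 0 4 3 1 2 (by decide +kernel) h04.2.2.1 h03.2.2.1 h01.2.1 h14.2.2.2.1 h12.1
            · exact gen9 hW C 0 3 1 2 4 (by decide +kernel) h03.1 h01.2.2.1 h02.2.2.1 h04.2.2.1 h12.1 h14.1
          · rcases split C 2 4 0 1 3 (by decide) with h24 | h24
            · exact gen3 hW C 0 3 1 2 4 (by decide +kernel) h03.1 h01.2.2.1 h02.2.2.1 h12.1 h24.1
            · exact gen3 hW C 2 1 4 0 3 (by decide +kernel) h12.2.2.2.2.2 h24.2.2.1 h02.2.2.2.1 h04.2.2.2.2.2 h03.2.1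
        · rcases split C 1 3 0 2 4 (by decide) with h13 | h13
          · rcases split C 2 3 0 1 4 (by decide) with h23 | h23
            · rcases split C 2 4 0 1 3 (by decide) with h24 | h24
              · exact gen9 hW C 2 4 3 0 1 (by decide +kernel) h24.2.2.1 h23.2.2.1 h02.2.2.2.2.1 h12.2.2.2.2.1 h03.2.2.2.2.1 h13.2.2.2.2.1
              · exact gen0 hW C 1 3 0 2 4 (by decide +kernel) h13.1 h01.2.2.2.2.2 h12.2.2.1 h23.2.2.2.2.1 h24.2.2.1
            · rcases split C 2 4 0 1 3 (by decide) with h24 | h24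
              · exact gen0 hW C 0 3 1 2 4 (by decide +kernel) h03.1 h01.2.2.1 h02.2.2.1 h23.2.2.2.1 h24.1
              · exact gen9 hW C 2 4 3 1 0 (by decide +kernel) h24.2.1 h23.2.1 h12.2.2.2.2.1 h02.2.2.2.2.1 h13.2.2.2.2.1 h03.2.2.2.2.1
          · rcases split C 0 4 1 2 3 (by decide) with h04 | h04
            · rcases split C 2 3 0 1 4 (by decide) with h23 | h23
              · exact gen0 hW C 0 2 4 3 1 (by decide +kernel) h02.2.1 h04.2.1 h03.2.1 h23.1 h13.2.2.2.1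
              · exact gen9 hW C 0 4 3 1 2 (by decide +kernel) h04.2.2.1 h03.2.2.1 h01.2.1 h02.2.1 h13.2.2.2.1 h23.2.2.2.1
            · rcases split C 2 3 0 1 4 (by decide) with h23 | h23
              · exact gen3 hW C 0 4 1 3 2 (by decide +kernel) h04.1 h01.2.1 h03.2.2.1 h13.1 h23.2.2.2.1
              · exact gen0 hW C 2 3 1 0 4 (by decide +kernel) h23.2.2.1 h12.2.2.2.2.2 h02.2.2.2.2.2 h03.2.2.2.2.1 h04.2.2.1
      · rcases split C 1 2 0 3 4 (by decide) with h12 | h12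
        · rcases split C 0 4 1 2 3 (by decide) with h04 | h04
          · rcases split C 1 4 0 2 3 (by decide) with h14 | h14
            · exact gen3 hW C 0 3 2 1 4 (by decide +kernel) h03.2.2.1 h02.2.2.1 h01.2.2.1 h12.2.2.2.1 h14.1
            · exact gen3 hW C 1 2 4 0 3 (by decide +kernel) h12.2.2.1 h14.2.2.1 h01.2.2.2.1 h04.2.2.2.1 h03.1
          · rcases split C 2 4 0 1 3 (by decide) with h24 | h24
            · exact gen0 hW C 0 4 3 2 1 (by decide +kernel) h04.2.1 h03.2.1 h02.2.1 h24.2.2.2.1 h12.2.2.2.1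
            · exact gen9 hW C 0 3 2 1 4 (by decide +kernel) h03.2.2.1 h02.2.2.1 h01.2.2.1 h04.2.1 h12.2.2.2.1 h24.1
        · rcases split C 1 3 0 2 4 (by decide) with h13 | h13
          · rcases split C 1 4 0 2 3 (by decide) with h14 | h14
            · rcases split C 2 3 0 1 4 (by decide) with h23 | h23
              · exact gen9 hW C 1 4 3 0 2 (by decide +kernel) h14.2.2.1 h13.2.2.1 h01.2.2.2.2.1 h12.2.1 h03.2.2.2.1 h23.2.2.2.2.1
              · exact gen0 hW C 1 2 4 3 0 (by decide +kernel) h12.2.1 h14.2.1 h13.2.1 h23.2.2.1 h03.2.2.2.1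
            · rcases split C 2 3 0 1 4 (by decide) with h23 | h23
              · exact gen0 hW C 2 3 0 1 4 (by decide +kernel) h23.1 h02.2.2.2.2.2 h12.2.2.2.2.2 h13.2.2.2.2.1 h14.2.2.1
              · exact gen3 hW C 1 4 0 3 2 (by decide +kernel) h14.1 h01.2.2.2.2.1 h13.2.2.1 h03.1 h23.2.2.2.2.2
          · rcases split C 0 4 1 2 3 (by decide) with h04 | h04
            · exact gen0 hW C 1 3 2 0 4 (by decide +kernel) h13.2.2.1 h12.2.2.1 h01.2.2.2.2.2 h03.2.2.2.1 h04.1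
            · rcases split C 1 4 0 2 3 (by decide) with h14 | h14
              · exact gen0 hW C 0 3 2 1 4 (by decide +kernel) h03.2.2.1 h02.2.2.1 h01.2.2.1 h13.2.2.2.1 h14.1
              · rcases split C 2 3 0 1 4 (by decide) with h23 | h23
                · exact gen9 hW C 1 4 3 2 0 (by decide +kernel) h14.2.1 h13.2.1 h12.2.1 h01.2.2.2.2.1 h23.2.2.2.2.1 h03.2.2.2.1
                · exact gen9 hW C 0 4 3 2 1 (by decide +kernel) h04.2.1 h03.2.1 h02.2.1 h01.2.1 h23.2.2.2.1 h13.2.2.2.1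

end Pool.Agent.Lib.Helper30.Five
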