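import Pool.Agent.Lib.helper30.FiveB

set_option autoImplicit false
set_option maxHeartbeats 400000

namespace Pool.Agent.Lib.Helper30.Five

abbrev E3 := EuclideanSpace ℝ (Fin 3)

lemma two (φ ψ χ : E3 →ₗ[ℝ] ℝ) : ∃ v : E3, v ≠ 0 ∧ φ v = 0 ∧ ψ v = 0 ∧ 0 ≤ χ v := by
  have h : LinearMap.ker (φ.prod ψ) ≠ ⊥ := by
    apply LinearMap.ker_ne_bot_of_finrank_lt
    simp
  obtain ⟨v, hv, hv0⟩ := Submodule.exists_mem_ne_zero_of_ne_bot h
  rw [LinearMap.mem_ker, LinearMap.prod_apply, Prod.ext_iff] at hv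
  obtain ⟨h1, h2⟩ := hv
  rcases le_total 0 (χ v) with h3 | h3
  · exact ⟨v, hv0, h1, h2, h3⟩
  · refine ⟨-v, neg_ne_zero.2 hv0, ?_, ?_, ?_⟩
    · rw [map_neg, neg_eq_zero]; exact h1
    · rw [map_neg, neg_eq_zero]; exact h2
    · rw [map_neg]; linarith

lemma ext3 : ∀ i m k : Fin 5, i ≠ m → k ≠ i → k ≠ m → ∃ a b, Dist i m k a b := by decide +kernel

lemma ext2 : ∀ i j : Fin 5, i ≠ j → ∃ a b c, Dist i j a b c := by decide +kernel

lemma cases5 {i j a b c : Fin 5} (h : Dist i j a b c) (x : Fin 5) :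
    x = i ∨ x = j ∨ x = a ∨ x = b ∨ x = c := by
  have hx : x ∈ ({i, j, a, b, c} : Finset (Fin 5)) := cover i j a b c h ▸ Finset.mem_univ x
  simpa using hx

lemma posdep (i : Fin 5) (φ : Fin 5 → E3 →ₗ[ℝ] ℝ) (h0 : φ i = 0)
    (h : ∀ v : E3, v ≠ 0 → ∃ j, φ j v < 0) :
    ∃ c : Fin 5 → ℝ, (∀ j, 0 < c j) ∧ ∀ v, ∑ j, c j * φ j v = 0 := by
  have key : ∀ c : Fin 5 → ℝ, (∀ v, ∑ j, c j * φ j v = 0) → ∀ m, m ≠ i → 0 < c m →
      ∃ c : Fin 5 → ℝ, (∀ j, 0 < c j) ∧ ∀ v, ∑ j, c j * φ j v = 0 := by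
    intro c hc m hm hcm
    refine ⟨fun j => if j = i then 1 else c j, fun j => ?_, fun v => ?_⟩
    · by_cases e : j = i
      · simp [e]
      simp only [e, if_false]
      by_contra hj
      push Not at hj
      have hjm : j ≠ m := by rintro rfl; linarith
      obtain ⟨a, b, hd⟩ := ext3 i m j hm.symm e hjm
      obtain ⟨v, hv, h1, h2, h3⟩ := two (φ a) (φ b) (φ j)
      have hs := hc v
      rw [cover _ _ _ _ _ hd] at hs
      obtain ⟨k, hk⟩ := h v hv
      have hcs := cases5 hd k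
      obtain ⟨d1, d2, d3, d4, d5, d6, d7, d8, d9, d10⟩ := hd
      rw [Finset.sum_insert (by simp [d1, d2.symm, d4.symm, d6.symm]),
        Finset.sum_insert (by simp [d3.symm, d5.symm, d7.symm]),
        Finset.sum_insert (by simp [d8, d9]),
        Finset.sum_insert (by simp [d10]), Finset.sum_singleton, h0, h1, h2] at hs
      simp only [LinearMap.zero_apply, mul_zero, zero_add, add_zero] at hs
      rcases hcs with rfl | rfl | rfl | rfl | rfl
      · rw [h0] at hk; simp at hk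
      · nlinarith [mul_nonneg_of_nonpos_of_nonpos hj (neg_nonpos.2 h3), mul_neg_of_pos_of_neg hcm hk]
      · linarith
      · linarith
      · linarith
    · rw [← hc v]
      refine Finset.sum_congr rfl fun j _ => ?_
      by_cases e : j = i
      · simp [e, h0]
      · simp [e]
  have hfr : Module.finrank ℝ ((E3 →ₗ[ℝ] ℝ) × ℝ) < 5 := by
    rw [Module.finrank_prod, Module.finrank_linearMap]; simp
  obtain ⟨c, hc, m, hm⟩ := dep (fun q => ((φ q, if q = i then 1 else 0) : (E3 →ₗ[ℝ] ℝ) × ℝ)) hfr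
  have hc1 : ∑ q, c q • φ q = 0 := by simpa [Prod.fst_sum] using congrArg Prod.fst hc
  have hc2 : c i = 0 := by simpa [Prod.snd_sum] using congrArg Prod.snd hc
  have hc3 : ∀ v, ∑ j, c j * φ j v = 0 := by
    intro v
    have := LinearMap.congr_fun hc1 v
    simpa [LinearMap.sum_apply] using this
  have hmi : m ≠ i := by rintro rfl; exact hm hc2
  rcases lt_or_gt_of_ne hm with h1 | h1
  · refine key (fun j => -c j) (fun v => ?_) m hmi (by linarith)
    simp only [neg_mul, Finset.sum_neg_distrib, hc3, neg_zero]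
  · exact key c hc3 m hmi h1

theorem noOpen (U : Fin 5 → Set E3) (hconv : ∀ i, Convex ℝ (U i)) (hopen : ∀ i, IsOpen (U i))
    (hdis : ∀ i j, i ≠ j → Disjoint (U i) (U j))
    (hbl : ∀ i (v : E3), v ≠ 0 → ∃ j, j ≠ i ∧ ∃ t : ℝ, 0 < t ∧ ∃ x ∈ U i, x + t • v ∈ U j) :
    False := by
  have hG : ∀ i j, ∃ G : (ℝ × E3) →ₗ[ℝ] ℝ, i ≠ j →
      (∀ x ∈ U i, 0 < G (1, x)) ∧ ∀ x ∈ U j, G (1, x) < 0 := by
    intro i j
    by_cases e : i = j
    · exact ⟨0, fun h => absurd e h⟩
    obtain ⟨f, u, h1, h2⟩ := geometric_hahn_banach_open_open (hconv i) (hopen i) (hconv j)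
      (hopen j) (hdis i j e)
    refine ⟨u • LinearMap.fst ℝ ℝ E3 - f.toLinearMap ∘ₗ LinearMap.snd ℝ ℝ E3, fun _ =>
      ⟨fun x hx => ?_, fun x hx => ?_⟩⟩
    · have := h1 x hx
      simp; linarith
    · have := h2 x hx
      simp; linarith
  choose G hG using hG
  set l : Fin 5 → Fin 5 → (ℝ × E3) →ₗ[ℝ] ℝ := fun i j => G i j - G j i with hl
  have lanti : ∀ i j w, l j i w = -l i j w := by intro i j w; simp [hl]
  have ldiag : ∀ i, l i i = 0 := by intro i; simp [hl]
  have lpos : ∀ i j, i ≠ j → ∀ x ∈ U i, 0 < l i j (1, x) := by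
    intro i j hij x hx
    have h1 := (hG i j hij).1 x hx
    have h2 := (hG j i hij.symm).2 x hx
    simp only [hl, LinearMap.sub_apply]; linarith
  have ladd : ∀ i j (x v : E3) (t : ℝ), l i j (1, x + t • v) = l i j (1, x) + t * l i j (0, v) := by
    intro i j x v t
    have : ((1, x + t • v) : ℝ × E3) = (1, x) + t • (0, v) := by simp
    rw [this, map_add, map_smul, smul_eq_mul]
  have lneg : ∀ i j (x v : E3) (t : ℝ), j ≠ i → 0 < t → x ∈ U i → x + t • v ∈ U j →
      l i j (0, v) < 0 := by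
    intro i j x v t hji ht hx hy
    have h1 := lpos i j hji.symm x hx
    have h2 := lpos j i hji _ hy
    rw [lanti, ladd] at h2
    by_contra hh
    push Not at hh
    nlinarith [mul_nonneg ht.le hh]
  have hmu : ∀ i, ∃ c : Fin 5 → ℝ, (∀ j, 0 < c j) ∧ ∀ w : ℝ × E3, ∑ j, c j * l i j w = w.1 := by
    intro i
    obtain ⟨c, hc, hc2⟩ := posdep i (fun j => l i j ∘ₗ LinearMap.inr ℝ ℝ E3) (by simp [ldiag])
      (fun v hv => by
        obtain ⟨j, hj, t, ht, x, hx, hy⟩ := hbl i v hv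
        exact ⟨j, lneg i j x v t hj ht hx hy⟩)
    simp only [LinearMap.comp_apply, LinearMap.inr_apply] at hc2
    have hw : ∀ w : ℝ × E3, ∑ j, c j * l i j w = w.1 * ∑ j, c j * l i j (1, 0) := by
      intro w
      have : w = w.1 • ((1, 0) : ℝ × E3) + (0, w.2) := by simp
      conv_lhs => rw [this]
      simp only [map_add, map_smul, smul_eq_mul, mul_add, Finset.sum_add_distrib, hc2, add_zero,
        Finset.mul_sum]
      exact Finset.sum_congr rfl fun j _ => by ring
    obtain ⟨v, hv⟩ := exists_ne (0 : E3)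
    obtain ⟨j, hj, t, ht, x, hx, hy⟩ := hbl i v hv
    have hs : 0 < ∑ j, c j * l i j (1, 0) := by
      have := hw (1, x)
      simp only [one_mul] at this
      rw [← this]
      refine Finset.sum_pos' (fun k _ => ?_) ⟨j, Finset.mem_univ _, mul_pos (hc j)
        (lpos i j hj.symm x hx)⟩
      by_cases e : k = i
      · simp [e, ldiag]
      · exact (mul_pos (hc k) (lpos i k (Ne.symm e) x hx)).le
    refine ⟨fun j => c j / ∑ j, c j * l i j (1, 0), fun j => div_pos (hc j) hs, fun w => ?_⟩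
    simp only [div_mul_eq_mul_div]
    rw [← Finset.sum_div, hw, mul_div_assoc, div_self hs.ne', mul_one]
  choose mu hmu1 hmu2 using hmu
  have hy : ∀ i j, ∃ y : E3, i ≠ j → y ∈ U j ∧ ∀ k, k ≠ i → k ≠ j → 0 < l i k (1, y) := by
    intro i j
    by_cases e : i = j
    · exact ⟨0, fun h => absurd e h⟩
    obtain ⟨a, b, c, hd⟩ := ext2 i j e
    obtain ⟨v, hv, h1, h2, h3⟩ := two (l i a ∘ₗ LinearMap.inr ℝ ℝ E3)
      (l i b ∘ₗ LinearMap.inr ℝ ℝ E3) (l i c ∘ₗ LinearMap.inr ℝ ℝ E3)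
    simp only [LinearMap.comp_apply, LinearMap.inr_apply] at h1 h2 h3
    have hnn : ∀ k, k ≠ i → k ≠ j → 0 ≤ l i k (0, v) := by
      intro k hki hkj
      rcases cases5 hd k with rfl | rfl | rfl | rfl | rfl
      · exact absurd rfl hki
      · exact absurd rfl hkj
      · exact h1.ge
      · exact h2.ge
      · exact h3
    obtain ⟨k, hk, t, ht, x, hx, hy⟩ := hbl i v hv
    have hkj : k = j := by
      by_contra hh
      have := lneg i k x v t hk ht hx hy
      linarith [hnn k hk hh]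
    subst hkj
    refine ⟨x + t • v, fun _ => ⟨hy, fun m hm1 hm2 => ?_⟩⟩
    rw [ladd]
    have := lpos i m hm1.symm x hx
    nlinarith [mul_nonneg ht.le (hnn m hm1 hm2)]
  choose y hy using hy
  have ha : ∀ i j, i ≠ j → 0 < l i j (1, y j i) :=
    fun i j hij => lpos i j hij _ (hy j i hij.symm).1
  refine noCfg (W := ℝ × E3) (by simp)
    { L := fun a b => mu a b • l a b
      P := fun i j => (l i j (1, y j i) + l j i (1, y i j))⁻¹ •
        (l i j (1, y j i) • (1, y i j) + l j i (1, y i j) • (1, y j i))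
      sym := fun i j => by rw [add_comm (l i j (1, y j i)), add_comm (l i j (1, y j i) • _)]
      diag := fun a => by simp [ldiag]
      sum := fun i j a hij => ?_
      anti := fun a b x hx => ?_
      zero := fun i j hij => ?_
      pos := fun i j c hij h1 h2 => ?_ }
  · simp only [LinearMap.smul_apply, smul_eq_mul]
    rw [hmu2]
    have := ha i j hij
    have := ha j i hij.symm
    simp only [Prod.smul_fst, Prod.fst_add, smul_eq_mul, mul_one]
    exact inv_mul_cancel₀ (by linarith)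
  · simp only [LinearMap.smul_apply, smul_eq_mul] at hx ⊢
    rw [lanti]
    have := (mul_pos_iff_of_pos_left (hmu1 a b)).1 hx
    exact mul_neg_of_pos_of_neg (hmu1 b a) (by linarith)
  · simp only [LinearMap.smul_apply, smul_eq_mul, map_smul, map_add]
    rw [lanti i j (1, y i j)]
    ring
  · simp only [LinearMap.smul_apply, smul_eq_mul, map_smul, map_add]
    have a1 := ha i j hij
    have a2 := ha j i hij.symm
    have a3 := (hy i j hij).2 c h1 h2
    have a4 := lpos i c h1.symm _ (hy j i hij.symm).1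
    have a5 := hmu1 i c
    positivity

end Pool.Agent.Lib.Helper30.Five
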