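import Mathlib

set_option autoImplicit false
set_option maxHeartbeats 400000

namespace Pool.Agent.Lib.Helper30.Lag
open MeasureTheory Matrix
open scoped MatrixOrder

section Alg
variable {n : ℕ}

lemma trace_ineq {A B C : Matrix (Fin n) (Fin n) ℝ} (hA : A.PosDef) (hB : B.PosDef)
    (hC : C.IsHermitian)
    (h1 : ∀ u v : Fin n → ℝ, 0 ≤ u ⬝ᵥ C *ᵥ u - 2 * (v ⬝ᵥ B *ᵥ u) + v ⬝ᵥ A *ᵥ v)
    (h2 : ∃ u : Fin n → ℝ, ∀ v, 0 < u ⬝ᵥ C *ᵥ u - 2 * (v ⬝ᵥ B *ᵥ u) + v ⬝ᵥ A *ᵥ v) :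
    (A.adjugate * B).trace * B.det < (B.adjugate * C).trace * A.det := by
  have dA := hA.det_pos
  have dB := hB.det_pos
  have uA : IsUnit A.det := dA.ne'.isUnit
  have uB : IsUnit B.det := dB.ne'.isUnit
  have hBt : Bᵀ = B := by simpa using hB.1.eq
  have key : ∀ u : Fin n → ℝ, u ⬝ᵥ (C - B * A⁻¹ * B) *ᵥ u
      = u ⬝ᵥ C *ᵥ u - 2 * ((A⁻¹ *ᵥ B *ᵥ u) ⬝ᵥ B *ᵥ u) + (A⁻¹ *ᵥ B *ᵥ u) ⬝ᵥ A *ᵥ (A⁻¹ *ᵥ B *ᵥ u) := by
    intro u
    have e1 : A *ᵥ (A⁻¹ *ᵥ B *ᵥ u) = B *ᵥ u := by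
      rw [Matrix.mulVec_mulVec, Matrix.mul_nonsing_inv _ uA, Matrix.one_mulVec]
    have e2 : u ⬝ᵥ (B * A⁻¹ * B) *ᵥ u = (A⁻¹ *ᵥ B *ᵥ u) ⬝ᵥ B *ᵥ u := by
      rw [← Matrix.mulVec_mulVec, ← Matrix.mulVec_mulVec, Matrix.dotProduct_mulVec,
        ← Matrix.mulVec_transpose, hBt, dotProduct_comm]
    rw [e1, Matrix.sub_mulVec, dotProduct_sub, e2]
    ring
  have hS : (C - B * A⁻¹ * B).PosSemidef := by
    refine Matrix.PosSemidef.of_dotProduct_mulVec_nonneg (hC.sub ?_) fun u => ?_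
    · have := Matrix.isHermitian_conjTranspose_mul_mul B hA.inv.1
      rwa [hB.1.eq] at this
    · rw [star_trivial, key]; exact h1 _ _
  have hS0 : C - B * A⁻¹ * B ≠ 0 := by
    intro h
    obtain ⟨u, hu⟩ := h2
    have := hu (A⁻¹ *ᵥ B *ᵥ u)
    rw [← key, h] at this
    simp at this
  obtain ⟨L, hL⟩ := CStarAlgebra.nonneg_iff_eq_star_mul_self.mp hB.inv.posSemidef.nonneg
  rw [Matrix.star_eq_conjTranspose] at hL
  have hP := hS.mul_mul_conjTranspose_same L
  have hpos : 0 < (L * (C - B * A⁻¹ * B) * Lᴴ).trace := by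
    refine lt_of_le_of_ne hP.trace_nonneg fun h => hS0 ?_
    have h0 := hP.trace_eq_zero_iff.1 h.symm
    have h3 : B⁻¹ * (C - B * A⁻¹ * B) * B⁻¹ = 0 := by
      rw [hL]
      calc Lᴴ * L * (C - B * A⁻¹ * B) * (Lᴴ * L) = Lᴴ * (L * (C - B * A⁻¹ * B) * Lᴴ) * L := by
            simp only [Matrix.mul_assoc]
        _ = 0 := by rw [h0]; simp
    have h4 : B * (B⁻¹ * (C - B * A⁻¹ * B) * B⁻¹) * B = C - B * A⁻¹ * B := by
      rw [← Matrix.mul_assoc, ← Matrix.mul_assoc, Matrix.mul_nonsing_inv _ uB, Matrix.one_mul,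
        Matrix.mul_assoc, Matrix.nonsing_inv_mul _ uB, Matrix.mul_one]
    rw [← h4, h3]; simp
  rw [Matrix.trace_mul_cycle, ← hL, Matrix.mul_sub, ← Matrix.mul_assoc, ← Matrix.mul_assoc,
    Matrix.nonsing_inv_mul _ uB, Matrix.one_mul, Matrix.trace_sub] at hpos
  have aA : A.adjugate = A.det • A⁻¹ := by
    rw [Matrix.inv_def, smul_smul, Ring.inverse_eq_inv', mul_inv_cancel₀ dA.ne', one_smul]
  have aB : B.adjugate = B.det • B⁻¹ := by
    rw [Matrix.inv_def, smul_smul, Ring.inverse_eq_inv', mul_inv_cancel₀ dB.ne', one_smul]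
  rw [aA, aB, Matrix.smul_mul, Matrix.smul_mul, Matrix.trace_smul, Matrix.trace_smul, smul_eq_mul,
    smul_eq_mul]
  nlinarith [mul_pos (mul_pos dA dB) hpos]

lemma hasDerivAt_det {M : ℝ → Matrix (Fin n) (Fin n) ℝ} {M' : Matrix (Fin n) (Fin n) ℝ} {t : ℝ}
    (h : ∀ i j, HasDerivAt (fun s => M s i j) (M' i j) t) :
    HasDerivAt (fun s => (M s).det) (((M t).adjugate * M').trace) t := by
  have h1 : HasDerivAt (fun s => ∑ σ : Equiv.Perm (Fin n),
      ((Equiv.Perm.sign σ : ℤ) : ℝ) * ∏ i, M s (σ i) i)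
      (∑ σ : Equiv.Perm (Fin n), ((Equiv.Perm.sign σ : ℤ) : ℝ) *
        ∑ i, (∏ j ∈ Finset.univ.erase i, M t (σ j) j) • M' (σ i) i) t :=
    HasDerivAt.fun_sum fun σ _ =>
      (HasDerivAt.fun_finsetProd fun i _ => h (σ i) i).const_mul _
  convert h1 using 1
  · funext s; rw [Matrix.det_apply']
  · simp_rw [Finset.mul_sum]
    rw [Finset.sum_comm, Matrix.trace]
    refine Finset.sum_congr rfl fun i _ => ?_
    have e : ((M t).adjugate * M').diag i = ((M t).adjugate *ᵥ (fun k => M' k i)) i := rfl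
    rw [e, ← Matrix.cramer_eq_adjugate_mulVec, Matrix.cramer_apply, Matrix.det_apply']
    refine Finset.sum_congr rfl fun σ _ => ?_
    rw [← Finset.mul_prod_erase _ _ (Finset.mem_univ i), Matrix.updateCol_self, smul_eq_mul,
      mul_comm (M' (σ i) i)]
    congr 2
    exact Finset.prod_congr rfl fun j hj => Matrix.updateCol_ne (Finset.ne_of_mem_erase hj)

lemma andreief (w : ℝ → ℝ) (hw : ∀ k : ℕ, IntegrableOn (fun x => x ^ k * w x) (Set.Ici 0)) :
    ∫ x in Set.univ.pi (fun _ : Fin n => Set.Ici (0 : ℝ)),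
        (Matrix.vandermonde x).det ^ 2 * ∏ j, w (x j)
      = n.factorial * (Matrix.of fun i j : Fin n =>
          ∫ x in Set.Ici (0 : ℝ), x ^ ((i : ℕ) + j) * w x).det := by
  have e : ∀ x : Fin n → ℝ, (Matrix.vandermonde x).det ^ 2 * ∏ j, w (x j)
      = ∑ σ : Equiv.Perm (Fin n), ∑ τ : Equiv.Perm (Fin n),
        (((Equiv.Perm.sign σ : ℤ) : ℝ) * ((Equiv.Perm.sign τ : ℤ) : ℝ)) *
          ∏ j, (x j ^ ((σ j : ℕ) + τ j) * w (x j)) := by
    intro x
    rw [← Matrix.det_transpose, sq, Matrix.det_apply', Finset.sum_mul_sum, Finset.sum_mul]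
    refine Finset.sum_congr rfl fun σ _ => ?_
    rw [Finset.sum_mul]
    refine Finset.sum_congr rfl fun τ _ => ?_
    simp only [Matrix.transpose_apply, Matrix.vandermonde_apply, pow_add, Finset.prod_mul_distrib]
    ring
  simp_rw [e]
  rw [volume_pi, Measure.restrict_pi_pi]
  have hi : ∀ σ τ : Equiv.Perm (Fin n), Integrable (fun x : Fin n → ℝ =>
      (((Equiv.Perm.sign σ : ℤ) : ℝ) * ((Equiv.Perm.sign τ : ℤ) : ℝ)) *
          ∏ j, (x j ^ ((σ j : ℕ) + τ j) * w (x j)))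
      (Measure.pi fun _ : Fin n => volume.restrict (Set.Ici (0 : ℝ))) := fun σ τ =>
    (Integrable.fintype_prod (f := fun j y => y ^ ((σ j : ℕ) + τ j) * w y)
      fun j => hw _).const_mul _
  rw [integral_finset_sum _ fun σ _ => integrable_finset_sum _ fun τ _ => hi σ τ]
  simp_rw [integral_finset_sum _ fun τ _ => hi _ τ, integral_const_mul]
  have e2 : ∀ σ τ : Equiv.Perm (Fin n), ∫ x : Fin n → ℝ,
      ∏ j, (x j ^ ((σ j : ℕ) + τ j) * w (x j))
        ∂(Measure.pi fun _ : Fin n => volume.restrict (Set.Ici (0 : ℝ)))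
      = ∏ j, ∫ y in Set.Ici (0 : ℝ), y ^ ((σ j : ℕ) + τ j) * w y := fun σ τ =>
    integral_fintype_prod_eq_prod (fun j y => y ^ ((σ j : ℕ) + τ j) * w y)
  simp_rw [e2]
  rw [Finset.sum_comm]
  obtain ⟨M, hM⟩ : ∃ M : Matrix (Fin n) (Fin n) ℝ, M = Matrix.of fun i j : Fin n =>
          ∫ x in Set.Ici (0 : ℝ), x ^ ((i : ℕ) + j) * w x := ⟨_, rfl⟩
  have e3 : ∀ τ : Equiv.Perm (Fin n), ∑ σ : Equiv.Perm (Fin n),
      (((Equiv.Perm.sign σ : ℤ) : ℝ) * ((Equiv.Perm.sign τ : ℤ) : ℝ)) *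
        ∏ j, ∫ y in Set.Ici (0 : ℝ), y ^ ((σ j : ℕ) + τ j) * w y = M.det := by
    intro τ
    have h1 := Matrix.det_permute' τ M
    rw [Matrix.det_apply'] at h1
    have h2 : ((Equiv.Perm.sign τ : ℤ) : ℝ) * ((Equiv.Perm.sign τ : ℤ) : ℝ) = 1 := by
      rw [← Int.cast_mul, ← Units.val_mul, Int.units_mul_self]; simp
    calc _ = ((Equiv.Perm.sign τ : ℤ) : ℝ) * ∑ σ : Equiv.Perm (Fin n),
          ((Equiv.Perm.sign σ : ℤ) : ℝ) * ∏ j, M.submatrix id τ (σ j) j := by
          rw [Finset.mul_sum]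
          refine Finset.sum_congr rfl fun σ _ => ?_
          simp only [hM, Matrix.submatrix_apply, Matrix.of_apply, id]
          ring
      _ = M.det := by rw [h1, ← mul_assoc, h2, one_mul]
  simp_rw [e3]
  rw [← hM]
  simp [Fintype.card_perm]

end Alg

section Mom

/-- the weight -/
noncomputable def wt (a t x : ℝ) : ℝ := Real.exp (-x) * (x + t) ^ a

noncomputable def mm (a t : ℝ) (k : ℕ) : ℝ := ∫ x in Set.Ici (0 : ℝ), x ^ k * wt a t x

lemma meas (a t : ℝ) (k : ℕ) : Measurable fun x : ℝ => x ^ k * wt a t x := by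
  unfold wt; fun_prop

lemma gam (k : ℕ) {a : ℝ} (ha : -1 < a) :
    IntegrableOn (fun x : ℝ => Real.exp (-x) * x ^ ((k : ℝ) + a)) (Set.Ici 0) := by
  rw [integrableOn_Ici_iff_integrableOn_Ioi]
  have := Real.GammaIntegral_convergent (s := (k : ℝ) + a + 1) (by
    have : (0 : ℝ) ≤ k := Nat.cast_nonneg k
    linarith)
  simpa using this

lemma ae_pos : ∀ᵐ x ∂(volume.restrict (Set.Ici (0 : ℝ))), 0 < x := by
  rw [← Measure.restrict_congr_set Ioi_ae_eq_Ici]
  exact ae_restrict_mem measurableSet_Ioi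

lemma bd1 (k : ℕ) {a t x : ℝ} (ha : a ≤ 0) (ht : 0 ≤ t) (hx : 0 < x) :
    ‖x ^ k * wt a t x‖ ≤ Real.exp (-x) * x ^ ((k : ℝ) + a) := by
  unfold wt
  rw [Real.norm_eq_abs, abs_of_nonneg (by positivity), Real.rpow_add hx, Real.rpow_natCast]
  have := Real.rpow_le_rpow_of_nonpos hx (show x ≤ x + t by linarith) ha
  calc x ^ k * (Real.exp (-x) * (x + t) ^ a) ≤ x ^ k * (Real.exp (-x) * x ^ a) := by gcongr
    _ = _ := by ring

lemma bd2 (k : ℕ) {a t r x : ℝ} (ha : a ≤ 0) (hr : 0 < r) (ht : r ≤ t) (hx : 0 < x) :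
    ‖x ^ k * wt a t x‖ ≤ r ^ a * (Real.exp (-x) * x ^ ((k : ℝ) + 0)) := by
  unfold wt
  have h0 : 0 < x + t := by linarith
  rw [Real.norm_eq_abs, abs_of_nonneg (by positivity), add_zero, Real.rpow_natCast]
  have := Real.rpow_le_rpow_of_nonpos hr (show r ≤ x + t by linarith) ha
  calc x ^ k * (Real.exp (-x) * (x + t) ^ a) ≤ x ^ k * (Real.exp (-x) * r ^ a) := by gcongr
    _ = _ := by ring

lemma int1 (k : ℕ) {a t : ℝ} (ha : a ≤ 0) (ha' : -1 < a) (ht : 0 ≤ t) :
    IntegrableOn (fun x => x ^ k * wt a t x) (Set.Ici 0) :=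
  (gam k ha').mono' (meas a t k).aestronglyMeasurable (ae_pos.mono fun _ hx => bd1 k ha ht hx)

lemma int2 (k : ℕ) {a t : ℝ} (ha : a ≤ 0) (ht : 0 < t) :
    IntegrableOn (fun x => x ^ k * wt a t x) (Set.Ici 0) :=
  ((gam k (a := 0) (by norm_num)).const_mul _).mono' (meas a t k).aestronglyMeasurable
    (ae_pos.mono fun _ hx => bd2 k ha ht le_rfl hx)

lemma wt_succ {a t x : ℝ} (ht : 0 ≤ t) (hx : 0 < x) : wt (a + 1) t x = (x + t) * wt a t x := by
  unfold wt
  rw [Real.rpow_add_one (by linarith)]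
  ring

lemma succ {a t : ℝ} (ht : 0 ≤ t)
    (h : ∀ k : ℕ, IntegrableOn (fun x => x ^ k * wt a t x) (Set.Ici 0)) (k : ℕ) :
    IntegrableOn (fun x => x ^ k * wt (a + 1) t x) (Set.Ici 0) ∧
      mm (a + 1) t k = mm a t (k + 1) + t * mm a t k := by
  have e : (fun x => x ^ (k + 1) * wt a t x + t * (x ^ k * wt a t x))
      =ᵐ[volume.restrict (Set.Ici (0 : ℝ))] fun x => x ^ k * wt (a + 1) t x :=
    ae_pos.mono fun x hx => by simp only [wt_succ ht hx]; ring
  refine ⟨((h (k + 1)).add ((h k).const_mul t)).congr e, ?_⟩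
  rw [mm, ← integral_congr_ae e, integral_add (h (k + 1)) ((h k).const_mul t), integral_const_mul]
  rfl

lemma intB (k : ℕ) {t : ℝ} (ht : 0 ≤ t) :
    IntegrableOn (fun x => x ^ k * wt (-(1 / 2)) t x) (Set.Ici 0) :=
  int1 k (by norm_num) (by norm_num) ht

lemma succA (k : ℕ) {t : ℝ} (ht : 0 ≤ t) :
    IntegrableOn (fun x => x ^ k * wt (1 / 2) t x) (Set.Ici 0) ∧
      mm (1 / 2) t k = mm (-(1 / 2)) t (k + 1) + t * mm (-(1 / 2)) t k := by
  have := succ (a := -(1 / 2)) ht (fun k => intB k ht) k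
  rwa [show (-(1 / 2) + 1 : ℝ) = 1 / 2 by norm_num] at this

lemma succB (k : ℕ) {t : ℝ} (ht : 0 < t) :
    mm (-(1 / 2)) t k = mm (-(3 / 2)) t (k + 1) + t * mm (-(3 / 2)) t k := by
  have := (succ (a := -(3 / 2)) ht.le (fun k => int2 k (by norm_num) ht) k).2
  rwa [show (-(3 / 2) + 1 : ℝ) = -(1 / 2) by norm_num] at this

lemma derB (k : ℕ) {t : ℝ} (ht : 0 < t) :
    HasDerivAt (fun s => mm (-(1 / 2)) s k) (-(1 / 2) * mm (-(3 / 2)) t k) t := by
  have := (hasDerivAt_integral_of_dominated_loc_of_deriv_le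
    (μ := volume.restrict (Set.Ici (0 : ℝ))) (F := fun s x => x ^ k * wt (-(1 / 2)) s x)
    (F' := fun s x => -(1 / 2) * (x ^ k * wt (-(3 / 2)) s x)) (x₀ := t) (s := Set.Ioi (t / 2))
    (bound := fun x => 1 / 2 * ((t / 2) ^ (-(3 / 2) : ℝ) * (Real.exp (-x) * x ^ ((k : ℝ) + 0))))
    (Ioi_mem_nhds (by linarith))
    (Filter.Eventually.of_forall fun s => (meas _ s k).aestronglyMeasurable) (intB k ht.le)
    ((meas _ t k).const_mul _).aestronglyMeasurable
    (ae_pos.mono fun x hx s hs => by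
      rw [norm_mul]
      have := bd2 k (a := -(3 / 2)) (by norm_num) (half_pos ht) (le_of_lt hs) hx
      norm_num at this ⊢
      linarith)
    (((gam k (a := 0) (by norm_num)).const_mul _).const_mul _)
    (ae_pos.mono fun x hx s hs => by
      have hs' : t / 2 < s := hs
      have h1 : HasDerivAt (fun s : ℝ => (x + s) ^ (-(1 / 2) : ℝ))
          (1 * (-(1 / 2)) * (x + s) ^ (-(1 / 2) - 1 : ℝ)) s :=
        ((hasDerivAt_id s).const_add x).rpow_const (Or.inl (by simp only [id]; linarith))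
      have h2 := (h1.const_mul (Real.exp (-x))).const_mul (x ^ k)
      refine h2.congr_deriv ?_
      unfold wt
      rw [show (-(1 / 2) - 1 : ℝ) = -(3 / 2) by norm_num]
      ring)).2
  rwa [integral_const_mul] at this

lemma derA (k : ℕ) {t : ℝ} (ht : 0 < t) :
    HasDerivAt (fun s => mm (1 / 2) s k) (1 / 2 * mm (-(1 / 2)) t k) t := by
  have h1 := (derB (k + 1) ht).add ((hasDerivAt_id t).mul (derB k ht))
  have h2 : (fun s => mm (1 / 2) s k) =ᶠ[nhds t]
      fun s => mm (-(1 / 2)) s (k + 1) + s * mm (-(1 / 2)) s k := by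
    filter_upwards [Ioi_mem_nhds ht] with s hs
    exact (succA k (le_of_lt hs)).2
  refine HasDerivAt.congr_of_eventuallyEq ?_ h2
  refine h1.congr_deriv ?_
  have := succB k ht
  simp only [id]
  linarith

lemma conB (k : ℕ) : ContinuousOn (fun s => mm (-(1 / 2)) s k) (Set.Ici 0) := by
  intro t ht
  refine continuousWithinAt_of_dominated (μ := volume.restrict (Set.Ici (0 : ℝ)))
    (F := fun s x => x ^ k * wt (-(1 / 2)) s x)
    (bound := fun x => Real.exp (-x) * x ^ ((k : ℝ) + -(1 / 2)))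
    (Filter.Eventually.of_forall fun s => (meas _ s k).aestronglyMeasurable) ?_
    (gam k (by norm_num)) (ae_pos.mono fun x hx => ?_)
  · filter_upwards [self_mem_nhdsWithin] with s hs
    exact ae_pos.mono fun x hx => bd1 k (by norm_num) hs hx
  · have ht' : (0 : ℝ) ≤ t := ht
    refine ContinuousAt.continuousWithinAt ?_
    unfold wt
    refine continuousAt_const.mul (continuousAt_const.mul ?_)
    exact (continuousAt_const.add continuousAt_id).rpow_const (Or.inl (show x + t ≠ 0 by linarith))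

lemma conA (k : ℕ) : ContinuousOn (fun s => mm (1 / 2) s k) (Set.Ici 0) :=
  ((conB (k + 1)).add (continuousOn_id.mul (conB k))).congr fun _ hs => (succA k hs).2

end Mom

section Quad
variable {n : ℕ}

noncomputable def MM (n : ℕ) (a t : ℝ) : Matrix (Fin n) (Fin n) ℝ :=
  Matrix.of fun i j : Fin n => mm a t ((i : ℕ) + j)

noncomputable def pol (u : Fin n → ℝ) : Polynomial ℝ := ∑ i : Fin n, Polynomial.monomial (i : ℕ) (u i)

lemma pol_eval (u : Fin n → ℝ) (x : ℝ) : (pol u).eval x = ∑ i, u i * x ^ (i : ℕ) := by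
  simp [pol, Polynomial.eval_finset_sum]

lemma pol_ne {u : Fin n → ℝ} (hu : u ≠ 0) : pol u ≠ 0 := by
  intro h
  apply hu
  funext i
  have := congrArg (fun p => Polynomial.coeff p i) h
  simpa [pol, Polynomial.finset_sum_coeff, Polynomial.coeff_monomial, Fin.val_inj] using this

lemma quad {a t : ℝ} (h : ∀ k : ℕ, IntegrableOn (fun x => x ^ k * wt a t x) (Set.Ici 0))
    (u v : Fin n → ℝ) :
    IntegrableOn (fun x => (pol u).eval x * (pol v).eval x * wt a t x) (Set.Ici 0) ∧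
      u ⬝ᵥ MM n a t *ᵥ v = ∫ x in Set.Ici (0 : ℝ), (pol u).eval x * (pol v).eval x * wt a t x := by
  have e : (fun x => (pol u).eval x * (pol v).eval x * wt a t x)
      = fun x => ∑ i, ∑ j, (u i * v j) * (x ^ ((i : ℕ) + j) * wt a t x) := by
    funext x
    rw [pol_eval, pol_eval, Finset.sum_mul_sum, Finset.sum_mul]
    refine Finset.sum_congr rfl fun i _ => ?_
    rw [Finset.sum_mul]
    refine Finset.sum_congr rfl fun j _ => ?_
    ring
  rw [e]
  refine ⟨integrable_finset_sum _ fun i _ => integrable_finset_sum _ fun j _ =>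
    (h _).const_mul _, ?_⟩
  rw [integral_finset_sum _ fun i _ => integrable_finset_sum _ fun j _ => (h _).const_mul _]
  simp_rw [integral_finset_sum _ fun j _ => (h _).const_mul _, integral_const_mul]
  simp only [dotProduct, Matrix.mulVec, MM, Matrix.of_apply, mm, Finset.mul_sum]
  refine Finset.sum_congr rfl fun i _ => Finset.sum_congr rfl fun j _ => ?_
  ring

lemma wt_pos {a t x : ℝ} (ht : 0 < t) (hx : 0 ≤ x) : 0 < wt a t x := by
  unfold wt
  have : 0 < x + t := by linarith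
  positivity

lemma pos_int {a t : ℝ} (ht : 0 < t) {q : Polynomial ℝ} (hq : q ≠ 0)
    (h : IntegrableOn (fun x => q.eval x * q.eval x * wt a t x) (Set.Ici 0)) :
    0 < ∫ x in Set.Ici (0 : ℝ), q.eval x * q.eval x * wt a t x := by
  rw [setIntegral_pos_iff_support_of_nonneg_ae
    (ae_pos.mono fun x hx => mul_nonneg (mul_self_nonneg _) (wt_pos ht hx.le).le) h]
  have hsub : Set.Ici (0 : ℝ) \ (q.rootSet ℝ) ⊆
      Function.support (fun x => q.eval x * q.eval x * wt a t x) ∩ Set.Ici 0 := by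
    intro x hx
    refine ⟨?_, hx.1⟩
    have : q.eval x ≠ 0 := fun h => hx.2 (Polynomial.mem_rootSet.2 ⟨hq, by simpa using h⟩)
    exact (mul_pos (mul_self_pos.2 this) (wt_pos ht hx.1)).ne'
  refine lt_of_lt_of_le ?_ (measure_mono hsub)
  rw [measure_diff_null ((q.rootSet_finite ℝ).measure_zero _)]
  simp

lemma herm (a t : ℝ) : (MM n a t).IsHermitian := by
  ext i j
  simp [MM, add_comm]

lemma posdef {a t : ℝ} (ht : 0 < t)
    (h : ∀ k : ℕ, IntegrableOn (fun x => x ^ k * wt a t x) (Set.Ici 0)) : (MM n a t).PosDef := by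
  refine Matrix.PosDef.of_dotProduct_mulVec_pos (herm a t) fun u hu => ?_
  rw [star_trivial, (quad h u u).2]
  exact pos_int ht (pol_ne hu) (quad h u u).1

lemma main_ineq (hn : 1 ≤ n) {t : ℝ} (ht : 0 < t) :
    ((MM n (1 / 2) t).adjugate * MM n (-(1 / 2)) t).trace * (MM n (-(1 / 2)) t).det
      < ((MM n (-(1 / 2)) t).adjugate * MM n (-(3 / 2)) t).trace * (MM n (1 / 2) t).det := by
  have iA := fun k => (succA k ht.le).1
  have iB := fun k => intB k ht.le
  have iC := fun k => int2 k (a := -(3 / 2)) (by norm_num) ht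
  have key : ∀ u v : Fin n → ℝ,
      IntegrableOn (fun x => (pol u - (Polynomial.X + Polynomial.C t) * pol v).eval x *
        (pol u - (Polynomial.X + Polynomial.C t) * pol v).eval x * wt (-(3 / 2)) t x) (Set.Ici 0) ∧
      u ⬝ᵥ MM n (-(3 / 2)) t *ᵥ u - 2 * (v ⬝ᵥ MM n (-(1 / 2)) t *ᵥ u) + v ⬝ᵥ MM n (1 / 2) t *ᵥ v
      = ∫ x in Set.Ici (0 : ℝ), (pol u - (Polynomial.X + Polynomial.C t) * pol v).eval x *
        (pol u - (Polynomial.X + Polynomial.C t) * pol v).eval x * wt (-(3 / 2)) t x := by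
    intro u v
    have e : (fun x => (pol u).eval x * (pol u).eval x * wt (-(3 / 2)) t x
        - 2 * ((pol v).eval x * (pol u).eval x * wt (-(1 / 2)) t x)
        + (pol v).eval x * (pol v).eval x * wt (1 / 2) t x)
        =ᵐ[volume.restrict (Set.Ici (0 : ℝ))]
        fun x => (pol u - (Polynomial.X + Polynomial.C t) * pol v).eval x *
        (pol u - (Polynomial.X + Polynomial.C t) * pol v).eval x * wt (-(3 / 2)) t x := by
      refine ae_pos.mono fun x hx => ?_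
      have a1 := wt_succ (a := -(3 / 2)) ht.le hx
      have a2 := wt_succ (a := -(1 / 2)) ht.le hx
      rw [show (-(3 / 2) + 1 : ℝ) = -(1 / 2) by norm_num] at a1
      rw [show (-(1 / 2) + 1 : ℝ) = 1 / 2 by norm_num] at a2
      simp only [a2, a1, Polynomial.eval_sub, Polynomial.eval_mul, Polynomial.eval_add,
        Polynomial.eval_X, Polynomial.eval_C]
      ring
    have i1 : IntegrableOn (fun x => (pol u).eval x * (pol u).eval x * wt (-(3 / 2)) t x
        - 2 * ((pol v).eval x * (pol u).eval x * wt (-(1 / 2)) t x)) (Set.Ici 0) :=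
      (quad iC u u).1.sub ((quad iB v u).1.const_mul 2)
    refine ⟨(i1.add (quad iA v v).1).congr e, ?_⟩
    rw [← integral_congr_ae e, integral_add i1 (quad iA v v).1,
      integral_sub (quad iC u u).1 ((quad iB v u).1.const_mul 2), integral_const_mul,
      (quad iC u u).2, (quad iB v u).2, (quad iA v v).2]
  refine trace_ineq (posdef ht iA) (posdef ht iB) (herm _ _) (fun u v => ?_)
    ⟨Pi.single ⟨0, hn⟩ 1, fun v => ?_⟩
  · rw [(key u v).2]
    exact integral_nonneg_of_ae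
      (ae_pos.mono fun x hx => mul_nonneg (mul_self_nonneg _) (wt_pos ht hx.le).le)
  · rw [(key _ v).2]
    refine pos_int ht (fun h => ?_) (key _ v).1
    have := congrArg (Polynomial.eval (-t)) h
    simp [pol_eval, Pi.single_apply] at this

theorem prod_der (hn : 1 ≤ n) {t : ℝ} (ht : 0 < t) :
    ∃ D : ℝ, D < 0 ∧ HasDerivAt (fun s => (MM n (-(1 / 2)) s).det * (MM n (1 / 2) s).det) D t := by
  have h1 := hasDerivAt_det (M := MM n (-(1 / 2))) (M' := (-(1 / 2) : ℝ) • MM n (-(3 / 2)) t)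
    fun i j => derB _ ht
  have h2 := hasDerivAt_det (M := MM n (1 / 2)) (M' := (1 / 2 : ℝ) • MM n (-(1 / 2)) t)
    fun i j => derA _ ht
  refine ⟨_, ?_, h1.mul h2⟩
  have := main_ineq hn ht
  simp only [Matrix.mul_smul, Matrix.trace_smul, smul_eq_mul]
  linarith

theorem prod_con :
    ContinuousOn (fun s => (MM n (-(1 / 2)) s).det * (MM n (1 / 2) s).det) (Set.Ici 0) := by
  simp only [Matrix.det_apply']
  exact (continuousOn_finset_sum _ fun σ _ => continuousOn_const.mul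
    (continuousOn_finset_prod _ fun i _ => conB _)).mul
    (continuousOn_finset_sum _ fun σ _ => continuousOn_const.mul
    (continuousOn_finset_prod _ fun i _ => conA _))

end Quad

end Pool.Agent.Lib.Helper30.Lag
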