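import Mathlib

set_option autoImplicit false
set_option maxHeartbeats 1000000

namespace Pool.Agent.Lib.Helper30.Mae

lemma cramer (a b c d e f x1 x2 x3 x4 : ℝ)
    (h1 : a * x2 + b * x3 + c * x4 = 2) (h2 : a * x1 + d * x3 + e * x4 = 0)
    (h3 : b * x1 + d * x2 + f * x4 = 0) (h4 : c * x1 + e * x2 + f * x3 = 0) :
    (2 * (a * f) * (b * e) + 2 * (b * e) * (c * d) + 2 * (c * d) * (a * f) - (a * f) ^ 2
      - (b * e) ^ 2 - (c * d) ^ 2) * x1 = -4 * (d * e * f) := by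
  linear_combination (-2 * d * e * f) * h1 + (f * (b * e + c * d - a * f)) * h2
    + (e * (a * f + c * d - b * e)) * h3 + (d * (a * f + b * e - c * d)) * h4

lemma final (U V W H a b c P : ℝ) (hU : 0 < U) (hH0 : 0 < H)
    (hH : H = 2 * U * V + 2 * V * W + 2 * W * U - U ^ 2 - V ^ 2 - W ^ 2) (hS : a + b + c = 1)
    (hP : 4 * U * P ≤ a ^ 2)
    (h : 16 * U * V * W - 4 * H * (U * b * c + V * c * a + W * a * b) = 3 * H ^ 2 * P) : False := by
  have e : U * (16 * U * V * W - 4 * H * (U * b * c + V * c * a + W * a * b)) - 3 / 4 * H ^ 2 * a ^ 2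
      = 3 * H * U ^ 2 + H * (a * (W - V) + (c - b) * U) ^ 2
        + 4 * (H * a / 4 - U * (V + W - U)) ^ 2 := by
    have hc : c = 1 - a - b := by linarith
    subst hc hH
    ring
  have e1 : 0 < 3 * H * U ^ 2 := by positivity
  have e2 : 0 ≤ H * (a * (W - V) + (c - b) * U) ^ 2 := by positivity
  have e3 : 0 ≤ 4 * (H * a / 4 - U * (V + W - U)) ^ 2 := by positivity
  have e4 : 3 / 4 * H ^ 2 * (4 * U * P) ≤ 3 / 4 * H ^ 2 * a ^ 2 :=
    mul_le_mul_of_nonneg_left hP (by positivity)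
  rw [h] at e
  linarith

lemma alg (a b c d e f H α1 α2 α3 α4 e1 e2 e3 e4 : ℝ) (ha : 0 < a) (hb : 0 < b) (hc : 0 < c)
    (hd : 0 < d) (he : 0 < e) (hf : 0 < f) (hH0 : 0 < H)
    (hH : H = 2 * (a * f) * (b * e) + 2 * (b * e) * (c * d) + 2 * (c * d) * (a * f) - (a * f) ^ 2
      - (b * e) ^ 2 - (c * d) ^ 2)
    (hs : α1 + α2 + α3 + α4 = 1)
    (s1 : a * α2 + b * α3 + c * α4 = 2) (s2 : a * α1 + d * α3 + e * α4 = 2)
    (s3 : b * α1 + d * α2 + f * α4 = 2) (s4 : c * α1 + e * α2 + f * α3 = 2)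
    (g1 : H * (α1 ^ 2 - 4 * α1 * e1) = -4 * (d * e * f))
    (g2 : H * (α2 ^ 2 - 4 * α2 * e2) = -4 * (b * c * f))
    (g3 : H * (α3 ^ 2 - 4 * α3 * e3) = -4 * (a * c * e))
    (g4 : H * (α4 ^ 2 - 4 * α4 * e4) = -4 * (a * b * d))
    (h : a * e1 * e2 + b * e1 * e3 + c * e1 * e4 + d * e2 * e3 + e * e2 * e4 + f * e3 * e4
      = e1 + e2 + e3 + e4) : False := by
  have n1 : α1 ≠ 0 := by
    rintro rfl
    have : 0 < d * e * f := by positivity
    linarith
  have n2 : α2 ≠ 0 := by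
    rintro rfl
    have : 0 < b * c * f := by positivity
    linarith
  have n3 : α3 ≠ 0 := by
    rintro rfl
    have : 0 < a * c * e := by positivity
    linarith
  have n4 : α4 ≠ 0 := by
    rintro rfl
    have : 0 < a * b * d := by positivity
    linarith
  obtain ⟨f1, rfl⟩ : ∃ f1, e1 = α1 / 4 + f1 := ⟨e1 - α1 / 4, by ring⟩
  obtain ⟨f2, rfl⟩ : ∃ f2, e2 = α2 / 4 + f2 := ⟨e2 - α2 / 4, by ring⟩
  obtain ⟨f3, rfl⟩ : ∃ f3, e3 = α3 / 4 + f3 := ⟨e3 - α3 / 4, by ring⟩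
  obtain ⟨f4, rfl⟩ : ∃ f4, e4 = α4 / 4 + f4 := ⟨e4 - α4 / 4, by ring⟩
  have k1 : H * α1 * f1 = d * e * f := by linarith
  have k2 : H * α2 * f2 = b * c * f := by linarith
  have k3 : H * α3 * f3 = a * c * e := by linarith
  have k4 : H * α4 * f4 = a * b * d := by linarith
  have hN : a * α1 * α2 + b * α1 * α3 + c * α1 * α4 + d * α2 * α3 + e * α2 * α4 + f * α3 * α4
      = 1 := by
    linear_combination (α1 / 2) * s1 + (α2 / 2) * s2 + (α3 / 2) * s3 + (α4 / 2) * s4 + hs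
  have h2 : a * f1 * f2 + b * f1 * f3 + c * f1 * f4 + d * f2 * f3 + e * f2 * f4 + f * f3 * f4
      = (f1 + f2 + f3 + f4) / 2 + 3 / 16 := by
    linear_combination h - hN / 16 - (f1 / 4) * s1 - (f2 / 4) * s2 - (f3 / 4) * s3 - (f4 / 4) * s4
      + hs / 4
  have m1 : f1 = d * e * f / (H * α1) := by field_simp; linarith
  have m2 : f2 = b * c * f / (H * α2) := by field_simp; linarith
  have m3 : f3 = a * c * e / (H * α3) := by field_simp; linarith
  have m4 : f4 = a * b * d / (H * α4) := by field_simp; linarith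
  have h3 : 16 * (a * f) * (b * e) * (c * d) *
      (a * α1 * α2 + b * α1 * α3 + c * α1 * α4 + d * α2 * α3 + e * α2 * α4 + f * α3 * α4)
      - 8 * H * (d * e * f * α2 * α3 * α4 + b * c * f * α1 * α3 * α4 + a * c * e * α1 * α2 * α4
        + a * b * d * α1 * α2 * α3) = 3 * H ^ 2 * (α1 * α2 * α3 * α4) := by
    rw [m1, m2, m3, m4] at h2
    field_simp at h2
    linear_combination h2 / 2
  refine final (a * f) (b * e) (c * d) H (a * α1 * α2 + f * α3 * α4) (b * α1 * α3 + e * α2 * α4)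
    (c * α1 * α4 + d * α2 * α3) (α1 * α2 * α3 * α4) (by positivity) hH0 hH (by linarith)
    (by nlinarith [sq_nonneg (a * α1 * α2 - f * α3 * α4)]) ?_
  linear_combination h3 - 16 * (a * f) * (b * e) * (c * d) * hN
    - 4 * H * (d * e * f * α2 * α3 * α4 * s1 + b * c * f * α1 * α3 * α4 * s2
      + a * c * e * α1 * α2 * α4 * s3 + a * b * d * α1 * α2 * α3 * s4)

end Pool.Agent.Lib.Helper30.Mae
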