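import Pool.Agent.Lib.helper30.Mae

set_option autoImplicit false
set_option maxHeartbeats 1000000

namespace Pool.Agent.Lib.Helper30.Mae

abbrev E3 := EuclideanSpace ℝ (Fin 3)

lemma inner3 (x y : E3) : inner ℝ x y = x 0 * y 0 + x 1 * y 1 + x 2 * y 2 := by
  simp [PiLp.inner_apply, Fin.sum_univ_three, mul_comm]

lemma bary (n g : Fin 4 → E3) (α : Fin 4 → ℝ)
    (h : ∀ i j, α j + inner ℝ (g j) (n i) = if j = i then 1 else 0) :
    (∀ x y : E3, ∑ i, inner ℝ (g i) x * inner ℝ y (n i) = inner ℝ y x) ∧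
    (∀ x : E3, ∑ i, inner ℝ (g i) x = 0) ∧ (∀ y : E3, ∑ i, α i * inner ℝ y (n i) = 0) ∧
    ∑ i, α i = 1 := by
  have h1 : (Matrix.of fun j : Fin 4 => ![g j 0, g j 1, g j 2, α j]) *
      (Matrix.of fun r i : Fin 4 => ![n i 0, n i 1, n i 2, 1] r) = 1 := by
    ext j i
    rw [Matrix.mul_apply, Matrix.one_apply, ← h i j, inner3, Fin.sum_univ_four]
    simp
    ring
  have h2 := mul_eq_one_comm.1 h1
  have h3 : ∀ r s : Fin 4, ∑ i, ![n i 0, n i 1, n i 2, 1] r * ![g i 0, g i 1, g i 2, α i] s =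
      if r = s then 1 else 0 := by
    intro r s
    have := congrFun (congrFun h2 r) s
    rw [Matrix.mul_apply, Matrix.one_apply] at this
    simpa using this
  have a00 := h3 0 0
  have a01 := h3 0 1
  have a02 := h3 0 2
  have a03 := h3 0 3
  have a10 := h3 1 0
  have a11 := h3 1 1
  have a12 := h3 1 2
  have a13 := h3 1 3
  have a20 := h3 2 0
  have a21 := h3 2 1
  have a22 := h3 2 2
  have a23 := h3 2 3
  have a30 := h3 3 0
  have a31 := h3 3 1
  have a32 := h3 3 2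
  have a33 := h3 3 3
  simp [Fin.sum_univ_four] at a00 a01 a02 a03 a10 a11 a12 a13 a20 a21 a22 a23 a30 a31 a32 a33
  simp only [Fin.sum_univ_four, inner3]
  refine ⟨fun x y => ?_, fun x => ?_, fun y => ?_, a33⟩
  · linear_combination y 0 * x 0 * a00 + y 0 * x 1 * a01 + y 0 * x 2 * a02 + y 1 * x 0 * a10
      + y 1 * x 1 * a11 + y 1 * x 2 * a12 + y 2 * x 0 * a20 + y 2 * x 1 * a21 + y 2 * x 2 * a22
  · linear_combination x 0 * a30 + x 1 * a31 + x 2 * a32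
  · linear_combination y 0 * a03 + y 1 * a13 + y 2 * a23

lemma core (n p : Fin 4 → E3) (c : E3) (hn : ∀ i, ‖n i‖ = 1) (hinj : ∀ i j, i ≠ j → n i ≠ n j)
    (hp : ∀ i j, i ≠ j → ‖p j - n i‖ = 1) (hp' : ∀ j, ‖p j - n j‖ ≠ 1)
    (hc : ∀ j, ‖p j - c‖ = 1) (hc' : ‖c‖ ≠ 1) : False := by
  have hε : ∀ j, ‖p j‖ ^ 2 - 2 * inner ℝ (p j) (n j) ≠ 0 := by
    intro j h
    apply hp' j
    have := norm_sub_sq_real (p j) (n j)
    rw [hn] at this
    exact (sq_eq_sq₀ (norm_nonneg _) zero_le_one).1 (by linarith)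
  obtain ⟨ee, hee⟩ : ∃ ee : Fin 4 → ℝ, ∀ j, ee j * (‖p j‖ ^ 2 - 2 * inner ℝ (p j) (n j)) = 1 :=
    ⟨fun j => (‖p j‖ ^ 2 - 2 * inner ℝ (p j) (n j))⁻¹, fun j => inv_mul_cancel₀ (hε j)⟩
  obtain ⟨g, hg⟩ : ∃ g : Fin 4 → E3, ∀ j, g j = (-2 * ee j) • p j := ⟨_, fun _ => rfl⟩
  obtain ⟨α, hα⟩ : ∃ α : Fin 4 → ℝ, ∀ j, α j = ‖p j‖ ^ 2 * ee j := ⟨_, fun _ => rfl⟩
  have hL : ∀ i j, α j + inner ℝ (g j) (n i) = if j = i then 1 else 0 := by
    intro i j
    rw [hg, hα, inner_smul_left]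
    split_ifs with h
    · subst h
      simp only [conj_trivial]
      linear_combination hee j
    · have := norm_sub_sq_real (p j) (n i)
      rw [hn, hp i j (Ne.symm h)] at this
      simp only [conj_trivial]
      linear_combination (-ee j) * this
  obtain ⟨b1, b2, b3, b4⟩ := bary n g α hL
  have hκ : 1 - ‖c‖ ^ 2 ≠ 0 := fun h =>
    hc' ((sq_eq_sq₀ (norm_nonneg _) zero_le_one).1 (by linarith))
  have hμ : ∀ j, α j + inner ℝ (g j) c = (1 - ‖c‖ ^ 2) * ee j := by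
    intro j
    have := norm_sub_sq_real (p j) c
    rw [hc] at this
    rw [hg, hα, inner_smul_left]
    simp only [conj_trivial]
    linear_combination (-ee j) * this
  have hΓ : ∀ j, inner ℝ (g j) (g j) = 4 * α j * ee j := by
    intro j
    rw [hg, hα, inner_smul_left, inner_smul_right, real_inner_self_eq_norm_sq]
    simp only [conj_trivial]
    ring
  have hG1 : ∀ i, inner ℝ (n i) (n i) = (1 : ℝ) := by
    intro i
    rw [real_inner_self_eq_norm_sq, hn]; norm_num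
  have hD : ∀ i j, i ≠ j → 0 < 2 - 2 * inner ℝ (n i) (n j) := by
    intro i j hij
    have h1 := norm_sub_sq_real (n i) (n j)
    rw [hn, hn] at h1
    have h2 : 0 < ‖n i - n j‖ ^ 2 := pow_pos (norm_pos_iff.2 (sub_ne_zero.2 (hinj i j hij))) 2
    linarith
  have hle : α 0 ^ 2 - 4 * α 0 * ee 0 ≤ 0 := by
    have h1 := real_inner_mul_inner_self_le (g 0) (n 1)
    have h2 := hL 1 0
    rw [hΓ, hG1] at h1
    simp at h2
    have : inner ℝ (g 0) (n 1) = -α 0 := by linarith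
    rw [this] at h1
    nlinarith
  obtain ⟨G, hG⟩ : ∃ G : Fin 4 → Fin 4 → ℝ, ∀ i j, G i j = inner ℝ (n i) (n j) :=
    ⟨_, fun _ _ => rfl⟩
  obtain ⟨Γ, hΓ'⟩ : ∃ Γ : Fin 4 → Fin 4 → ℝ, ∀ i j, Γ i j = inner ℝ (g i) (g j) :=
    ⟨_, fun _ _ => rfl⟩
  have sG : ∀ i j, G j i = G i j := fun i j => by rw [hG, hG, real_inner_comm]
  have A : ∀ k j, ∑ i, Γ i j * G k i = (if j = k then 1 else 0) - α j := by
    intro k j
    simp only [hG, hΓ']
    rw [b1, ← hL k j, real_inner_comm]; ring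
  have B : ∀ j, ∑ i, Γ i j = 0 := fun j => by simp only [hΓ']; exact b2 _
  have C : ∀ k, ∑ i, α i * G k i = 0 := fun k => by simp only [hG]; exact b3 _
  have M1 : ∀ k, ∑ i, (1 - ‖c‖ ^ 2) * ee i * G k i = inner ℝ (n k) c := by
    intro k
    simp only [← hμ, add_mul, Finset.sum_add_distrib, hG, b1, b3, zero_add]
  have M2 : ∑ i, (1 - ‖c‖ ^ 2) * ee i * inner ℝ (n i) c = ‖c‖ ^ 2 := by
    simp only [← hμ, add_mul, Finset.sum_add_distrib, real_inner_comm c (n _), b1, b3, zero_add,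
      real_inner_self_eq_norm_sq]
  have M3 : ∑ i, (1 - ‖c‖ ^ 2) * ee i = 1 := by
    simp only [← hμ, Finset.sum_add_distrib, b2, b4, add_zero]
  simp only [← M1] at M2
  simp only [← hG] at hG1 hD
  simp only [← hΓ'] at hΓ
  obtain ⟨κ, hκ'⟩ : ∃ κ, κ = 1 - ‖c‖ ^ 2 := ⟨_, rfl⟩
  have hc2 : ‖c‖ ^ 2 = 1 - κ := by linarith
  rw [← hκ'] at hκ M3 M2
  rw [hc2] at M2
  have A00 := A 0 0
  have A01 := A 0 1
  have A02 := A 0 2
  have A03 := A 0 3
  have B0 := B 0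
  have C0 := C 0
  have A10 := A 1 0
  have A11 := A 1 1
  have A12 := A 1 2
  have A13 := A 1 3
  have B1 := B 1
  have C1 := C 1
  have A20 := A 2 0
  have A21 := A 2 1
  have A22 := A 2 2
  have A23 := A 2 3
  have B2 := B 2
  have C2 := C 2
  have A30 := A 3 0
  have A31 := A 3 1
  have A32 := A 3 2
  have A33 := A 3 3
  have B3 := B 3
  have C3 := C 3
  simp only [Fin.sum_univ_four, hG1, sG 0 1, sG 0 2, sG 0 3, sG 1 2, sG 1 3, sG 2 3, if_true,
    Fin.reduceEq, if_false] at b4 M2 M3 B0 C0 B1 C1 B2 C2 B3 C3 A00 A01 A02 A03 A10 A11 A12 A13 A20 A21 A22 A23 A30 A31 A32 A33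
  have c0 := cramer (2 - 2 * G 0 1) (2 - 2 * G 0 2) (2 - 2 * G 0 3) (2 - 2 * G 1 2) (2 - 2 * G 1 3) (2 - 2 * G 2 3)
    (α 0 * α 0 - Γ 0 0) (α 0 * α 1 - Γ 1 0) (α 0 * α 2 - Γ 2 0) (α 0 * α 3 - Γ 3 0)
    (by linear_combination 2 * α 0 * b4 - 2 * α 0 * C0 - 2 * B0 + 2 * A00)
    (by linear_combination 2 * α 0 * b4 - 2 * α 0 * C1 - 2 * B0 + 2 * A10)
    (by linear_combination 2 * α 0 * b4 - 2 * α 0 * C2 - 2 * B0 + 2 * A20)
    (by linear_combination 2 * α 0 * b4 - 2 * α 0 * C3 - 2 * B0 + 2 * A30)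
  have c1 := cramer (2 - 2 * G 0 1) (2 - 2 * G 1 2) (2 - 2 * G 1 3) (2 - 2 * G 0 2) (2 - 2 * G 0 3) (2 - 2 * G 2 3)
    (α 1 * α 1 - Γ 1 1) (α 1 * α 0 - Γ 0 1) (α 1 * α 2 - Γ 2 1) (α 1 * α 3 - Γ 3 1)
    (by linear_combination 2 * α 1 * b4 - 2 * α 1 * C1 - 2 * B1 + 2 * A11)
    (by linear_combination 2 * α 1 * b4 - 2 * α 1 * C0 - 2 * B1 + 2 * A01)
    (by linear_combination 2 * α 1 * b4 - 2 * α 1 * C2 - 2 * B1 + 2 * A21)
    (by linear_combination 2 * α 1 * b4 - 2 * α 1 * C3 - 2 * B1 + 2 * A31)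
  have c2 := cramer (2 - 2 * G 0 2) (2 - 2 * G 1 2) (2 - 2 * G 2 3) (2 - 2 * G 0 1) (2 - 2 * G 0 3) (2 - 2 * G 1 3)
    (α 2 * α 2 - Γ 2 2) (α 2 * α 0 - Γ 0 2) (α 2 * α 1 - Γ 1 2) (α 2 * α 3 - Γ 3 2)
    (by linear_combination 2 * α 2 * b4 - 2 * α 2 * C2 - 2 * B2 + 2 * A22)
    (by linear_combination 2 * α 2 * b4 - 2 * α 2 * C0 - 2 * B2 + 2 * A02)
    (by linear_combination 2 * α 2 * b4 - 2 * α 2 * C1 - 2 * B2 + 2 * A12)
    (by linear_combination 2 * α 2 * b4 - 2 * α 2 * C3 - 2 * B2 + 2 * A32)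
  have c3 := cramer (2 - 2 * G 0 3) (2 - 2 * G 1 3) (2 - 2 * G 2 3) (2 - 2 * G 0 1) (2 - 2 * G 0 2) (2 - 2 * G 1 2)
    (α 3 * α 3 - Γ 3 3) (α 3 * α 0 - Γ 0 3) (α 3 * α 1 - Γ 1 3) (α 3 * α 2 - Γ 2 3)
    (by linear_combination 2 * α 3 * b4 - 2 * α 3 * C3 - 2 * B3 + 2 * A33)
    (by linear_combination 2 * α 3 * b4 - 2 * α 3 * C0 - 2 * B3 + 2 * A03)
    (by linear_combination 2 * α 3 * b4 - 2 * α 3 * C1 - 2 * B3 + 2 * A13)
    (by linear_combination 2 * α 3 * b4 - 2 * α 3 * C2 - 2 * B3 + 2 * A23)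
  rw [hΓ] at c0 c1 c2 c3
  have d01 := hD 0 1 (by decide)
  have d02 := hD 0 2 (by decide)
  have d03 := hD 0 3 (by decide)
  have d12 := hD 1 2 (by decide)
  have d13 := hD 1 3 (by decide)
  have d23 := hD 2 3 (by decide)
  refine alg (2 - 2 * G 0 1) (2 - 2 * G 0 2) (2 - 2 * G 0 3) (2 - 2 * G 1 2) (2 - 2 * G 1 3)
    (2 - 2 * G 2 3) _ (α 0) (α 1) (α 2) (α 3) (ee 0) (ee 1) (ee 2) (ee 3) d01 d02 d03 d12 d13 d23
    ?_ rfl b4 (by linear_combination 2 * b4 - 2 * C0) (by linear_combination 2 * b4 - 2 * C1)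
    (by linear_combination 2 * b4 - 2 * C2) (by linear_combination 2 * b4 - 2 * C3)
    (by linear_combination c0) (by linear_combination c1) (by linear_combination c2)
    (by linear_combination c3) ?_
  · by_contra hh
    have h1 := mul_pos (mul_pos d12 d13) d23
    have h2 := mul_nonneg_of_nonpos_of_nonpos (not_lt.1 hh) hle
    linarith
  · apply mul_left_cancel₀ (pow_ne_zero 2 hκ)
    linear_combination (κ * ee 0 + κ * ee 1 + κ * ee 2 + κ * ee 3 + 1 - κ) * M3 - M2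

lemma five (c p : Fin 5 → E3) (hinj : Function.Injective c)
    (hp : ∀ i j, i ≠ j → ‖p j - c i‖ = 1) : ∃ j, ‖p j - c j‖ = 1 := by
  by_contra hh
  push Not at hh
  refine core (fun i => c i.succ - p 0) (fun i => p i.succ - p 0) (c 0 - p 0) (fun i => ?_)
    (fun i j hij h => hij (Fin.succ_injective _ (hinj (sub_left_injective h))))
    (fun i j hij => ?_) (fun j => ?_) (fun j => ?_) ?_
  · rw [norm_sub_rev]; exact hp _ _ (Fin.succ_ne_zero i)
  · rw [sub_sub_sub_cancel_right]; exact hp _ _ (fun h => hij (Fin.succ_injective _ h))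
  · rw [sub_sub_sub_cancel_right]; exact hh _
  · rw [sub_sub_sub_cancel_right]; exact hp _ _ (Fin.succ_ne_zero j).symm
  · rw [norm_sub_rev]; exact hh 0

lemma strict {c x y z : E3} (hx : ‖x - c‖ = 1) (hy : ‖y - c‖ = 1) (hz : ‖z - c‖ = 1)
    (h1 : y ≠ x) (h2 : z ≠ x) (h3 : y ≠ z) {u v : ℝ} (h : u • (y - x) + v • (z - x) = 0) :
    u = 0 ∧ v = 0 := by
  have e1 := norm_add_sq_real (x - c) (y - x)
  have e2 := norm_add_sq_real (x - c) (z - x)
  rw [show x - c + (y - x) = y - c by abel, hx, hy] at e1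
  rw [show x - c + (z - x) = z - c by abel, hx, hz] at e2
  have e3 := congrArg (inner ℝ (x - c)) h
  rw [inner_add_right, inner_smul_right, inner_smul_right, inner_zero_right] at e3
  have e4 := congrArg (inner ℝ (y - x)) h
  have e5 := congrArg (inner ℝ (z - x)) h
  rw [inner_add_right, inner_smul_right, inner_smul_right, inner_zero_right,
    real_inner_self_eq_norm_sq] at e4 e5
  rw [real_inner_comm] at e5
  have e6 := norm_sub_sq_real (y - x) (z - x)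
  rw [sub_sub_sub_cancel_right] at e6
  have p1 : 0 < ‖y - x‖ ^ 2 := pow_pos (norm_pos_iff.2 (sub_ne_zero.2 h1)) 2
  have p2 : 0 < ‖z - x‖ ^ 2 := pow_pos (norm_pos_iff.2 (sub_ne_zero.2 h2)) 2
  have p3 : 0 < ‖y - z‖ ^ 2 := pow_pos (norm_pos_iff.2 (sub_ne_zero.2 h3)) 2
  have f0 : u * ‖y - x‖ ^ 2 + v * ‖z - x‖ ^ 2 = 0 := by
    linear_combination (-u) * e1 - v * e2 - 2 * e3
  have f1 : v * (‖z - x‖ ^ 2 - inner ℝ (y - x) (z - x)) = 0 := by linarith
  have f2 : u * (‖y - x‖ ^ 2 - inner ℝ (y - x) (z - x)) = 0 := by linarith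
  by_cases hu : u = 0
  · subst hu
    refine ⟨rfl, ?_⟩
    have : v * ‖z - x‖ ^ 2 = 0 := by linarith
    exact (mul_eq_zero.1 this).resolve_right p2.ne'
  · exfalso
    have g2 := (mul_eq_zero.1 f2).resolve_left hu
    rcases mul_eq_zero.1 f1 with g1 | g1
    · subst g1
      have : u * ‖y - x‖ ^ 2 = 0 := by linarith
      exact hu ((mul_eq_zero.1 this).resolve_right p1.ne')
    · linarith

lemma noK {a b c x y z : E3} (h1 : b ≠ a) (h2 : c ≠ a) (h3 : b ≠ c) (g1 : y ≠ x) (g2 : z ≠ x)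
    (g3 : y ≠ z) (xa : ‖x - a‖ = 1) (xb : ‖x - b‖ = 1) (xc : ‖x - c‖ = 1) (ya : ‖y - a‖ = 1)
    (yb : ‖y - b‖ = 1) (yc : ‖y - c‖ = 1) (za : ‖z - a‖ = 1) (zb : ‖z - b‖ = 1)
    (zc : ‖z - c‖ = 1) : False := by
  have o : ∀ a b x y : E3, ‖x - a‖ = 1 → ‖x - b‖ = 1 → ‖y - a‖ = 1 → ‖y - b‖ = 1 →
      inner ℝ (b - a) (y - x) = 0 := by
    intro a b x y h1 h2 h3 h4
    have e1 := norm_sub_sq_real x a
    have e2 := norm_sub_sq_real x b
    have e3 := norm_sub_sq_real y a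
    have e4 := norm_sub_sq_real y b
    rw [h1] at e1
    rw [h2] at e2
    rw [h3] at e3
    rw [h4] at e4
    simp only [inner_sub_left, inner_sub_right, real_inner_comm x, real_inner_comm y]
    simp only [real_inner_comm a, real_inner_comm b] at e1 e2 e3 e4 ⊢
    linarith
  have hdep : ¬ LinearIndependent ℝ ![b - a, c - a, y - x, z - x] := fun hh => by
    have := hh.fintype_card_le_finrank
    simp at this
  obtain ⟨w, hw, q, hq⟩ := Fintype.not_linearIndependent_iff.1 hdep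
  simp only [Fin.sum_univ_four, Matrix.cons_val_zero, Matrix.cons_val_one, Matrix.cons_val] at hw
  have e1 : inner ℝ (w 0 • (b - a) + w 1 • (c - a)) (w 2 • (y - x) + w 3 • (z - x)) = 0 := by
    simp only [inner_add_left, inner_add_right, inner_smul_left, inner_smul_right,
      o a b x y xa xb ya yb, o a b x z xa xb za zb, o a c x y xa xc ya yc, o a c x z xa xc za zc]
    simp
  have e2 : w 0 • (b - a) + w 1 • (c - a) = -(w 2 • (y - x) + w 3 • (z - x)) := by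
    rw [eq_neg_iff_add_eq_zero, ← hw]; abel
  rw [e2, inner_neg_left, neg_eq_zero, inner_self_eq_zero] at e1
  rw [e1, neg_zero] at e2
  have s1 := strict xa ya za g1 g2 g3 e1
  have s2 := strict (c := x) (by rwa [norm_sub_rev]) (by rwa [norm_sub_rev])
    (by rwa [norm_sub_rev]) h1 h2 h3 e2
  apply hq
  fin_cases q
  · exact s2.1
  · exact s2.2
  · exact s1.1
  · exact s1.2

theorem maehara (S : Set E3) (h5 : 5 ≤ S.encard)
    (h : ∀ T : Set E3, T ⊆ S → T.encard = 4 → ∃ p : E3, ∀ c ∈ T, p ∈ Metric.sphere c 1) :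
    ∃ p : E3, ∀ c ∈ S, p ∈ Metric.sphere c 1 := by
  classical
  simp only [mem_sphere_iff_norm] at h ⊢
  have H : ∀ T : Finset E3, (T : Set E3) ⊆ S → T.card ≤ 5 → ∃ p : E3, ∀ c ∈ T, ‖p - c‖ = 1 := by
    intro T hT hc
    obtain ⟨U, hTU, hUS, hU⟩ := Set.exists_superset_subset_encard_eq hT
      (show (T : Set E3).encard ≤ 5 by rw [Set.encard_coe_eq_coe_finsetCard]; exact_mod_cast hc) h5
    have hfin : U.Finite := Set.finite_of_encard_eq_coe (k := 5) hU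
    have hcard : hfin.toFinset.card = 5 := by
      have := hfin.encard_eq_coe_toFinset_card
      rw [hU] at this
      exact_mod_cast this.symm
    set e := (Finset.equivFinOfCardEq hcard).symm with he
    have hinj : Function.Injective fun i => (e i : E3) :=
      Subtype.val_injective.comp e.injective
    have hmem : ∀ i, (e i : E3) ∈ U := fun i => hfin.mem_toFinset.1 (e i).2
    have hj : ∀ j, ∃ p : E3, ∀ c ∈ U \ {(e j : E3)}, ‖p - c‖ = 1 := by
      intro j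
      refine h _ (Set.diff_subset.trans hUS) ?_
      rw [Set.encard_diff_singleton_of_mem (hmem j), hU]
      rfl
    choose p hp using hj
    obtain ⟨j, hj⟩ := five (fun i => (e i : E3)) p hinj
      (fun i j hij => hp j _ ⟨hmem i, fun h => hij (hinj h)⟩)
    refine ⟨p j, fun c hc => ?_⟩
    by_cases e1 : c = e j
    · rw [e1]; exact hj
    · exact hp j c ⟨hTU hc, e1⟩
  obtain ⟨T, hTS, hT⟩ := Set.exists_subset_encard_eq (show (3 : ℕ∞) ≤ S.encard from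
    le_trans (by norm_num) h5)
  obtain ⟨a, b, c, hab, hac, hbc, rfl⟩ := Set.encard_eq_three.1 hT
  have ha : a ∈ S := hTS (by simp)
  have hb : b ∈ S := hTS (by simp)
  have hc : c ∈ S := hTS (by simp)
  have K : ∀ d ∈ S, ∀ e ∈ S, ∃ p : E3, ‖p - a‖ = 1 ∧ ‖p - b‖ = 1 ∧ ‖p - c‖ = 1 ∧ ‖p - d‖ = 1 ∧
      ‖p - e‖ = 1 := by
    intro d hd e he
    obtain ⟨p, hp⟩ := H {a, b, c, d, e} (by
      intro x hx
      simp only [Finset.coe_insert, Finset.coe_singleton, Set.mem_insert_iff,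
        Set.mem_singleton_iff] at hx
      rcases hx with rfl | rfl | rfl | rfl | rfl <;> assumption) Finset.card_le_five
    exact ⟨p, hp a (by simp), hp b (by simp), hp c (by simp), hp d (by simp), hp e (by simp)⟩
  by_contra hh
  push Not at hh
  obtain ⟨x, xa, xb, xc, -, -⟩ := K a ha a ha
  obtain ⟨d, hd, hxd⟩ := hh x
  obtain ⟨y, ya, yb, yc, yd, -⟩ := K d hd d hd
  obtain ⟨e, he, hye⟩ := hh y
  obtain ⟨z, za, zb, zc, zd, ze⟩ := K d hd e he
  exact noK (x := x) (y := y) (z := z) hab.symm hac.symm hbc (fun h => hxd (h ▸ yd))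
    (fun h => hxd (h ▸ zd)) (fun h => hye (h ▸ ze)) xa xb xc ya yb yc za zb zc

end Pool.Agent.Lib.Helper30.Mae
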