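import Mathlib

set_option autoImplicit false

namespace Pool.Agent.Lib.Helper30.OctaSausage

open MeasureTheory

abbrev V := Fin 3 → ℝ

def T0 : Set V := {x | 0 < x 0 ∧ 0 < x 1 ∧ x 0 + x 1 ≤ 1 ∧ 0 ≤ x 2 ∧ x 2 ≤ 1}

lemma det_image (M : Matrix (Fin 3) (Fin 3) ℝ) (s : Set V) :
    volume ((fun x => M.mulVec x) '' s) = ENNReal.ofReal |M.det| * volume s := by
  have := Measure.addHaar_image_linearMap (volume : Measure V) (Matrix.toLin' M) s
  rw [LinearMap.det_toLin'] at this
  simpa [Matrix.toLin'_apply] using this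

lemma vol_T0 : ENNReal.ofReal (1 / 2) ≤ volume T0 := by
  let M : Matrix (Fin 3) (Fin 3) ℝ := !![-1, 0, 0; 0, -1, 0; 0, 0, 1]
  have hM : M.det = 1 := by simp [M, Matrix.det_fin_three]
  let c : V := ![-1, -1, 0]
  have h1 : volume ((fun x => c + x) ⁻¹' ((fun x => M.mulVec x) '' T0)) = volume T0 := by
    rw [measure_preimage_add, det_image, hM]; simp
  have hsub : Set.pi Set.univ (fun _ : Fin 3 => Set.Ioo (0 : ℝ) 1) ⊆
      T0 ∪ (fun x => c + x) ⁻¹' ((fun x => M.mulVec x) '' T0) := by
    intro x hx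
    have h0 := hx 0 trivial
    have h1 := hx 1 trivial
    have h2 := hx 2 trivial
    by_cases h : x 0 + x 1 ≤ 1
    · exact Or.inl ⟨h0.1, h1.1, h, h2.1.le, h2.2.le⟩
    · right
      refine ⟨![1 - x 0, 1 - x 1, x 2], ⟨?_, ?_, ?_, ?_, ?_⟩, ?_⟩
      · simpa using h0.2
      · simpa using h1.2
      · simp; linarith
      · simpa using h2.1.le
      · simpa using h2.2.le
      · ext i
        fin_cases i <;> simp [M, c, Matrix.mulVec, dotProduct, Fin.sum_univ_three] <;> ring
  have h2 := (measure_mono (μ := volume) hsub).trans (measure_union_le _ _)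
  rw [h1, Real.volume_pi_Ioo] at h2
  simp only [sub_zero, ENNReal.ofReal_one, Finset.prod_const_one] at h2
  rw [← two_mul] at h2
  rw [ENNReal.ofReal_div_of_pos two_pos]
  simp only [ENNReal.ofReal_one, ENNReal.ofReal_ofNat]
  exact ENNReal.div_le_of_le_mul' h2

/-- ordering regions -/
def R (s W : V) (i k j : Fin 3) : Set V :=
  {x | s k * x k * W i < s i * x i * W k ∧ s j * x j * W k < s k * x k * W j ∧
    s j * x j * W i ≤ s i * x i * W j}

lemma R_meas (s W : V) (i k j : Fin 3) : MeasurableSet (R s W i k j) := by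
  unfold R
  have h1 : MeasurableSet {x : V | s k * x k * W i < s i * x i * W k} :=
    measurableSet_lt (by fun_prop) (by fun_prop)
  have h2 : MeasurableSet {x : V | s j * x j * W k < s k * x k * W j} :=
    measurableSet_lt (by fun_prop) (by fun_prop)
  have h3 : MeasurableSet {x : V | s j * x j * W i ≤ s i * x i * W j} :=
    measurableSet_le (by fun_prop) (by fun_prop)
  exact h1.inter (h2.inter h3)

def trip : Fin 6 → Fin 3 × Fin 3 × Fin 3 :=
  ![(0, 1, 2), (0, 2, 1), (1, 0, 2), (1, 2, 0), (2, 0, 1), (2, 1, 0)]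

lemma R_disj (s W : V) : Pairwise (fun a b : Fin 6 =>
    Disjoint (R s W (trip a).1 (trip a).2.1 (trip a).2.2)
      (R s W (trip b).1 (trip b).2.1 (trip b).2.2)) := by
  intro a b hab
  rw [Set.disjoint_left]
  rintro x ⟨h1, h2, h3⟩ ⟨h4, h5, h6⟩
  fin_cases a <;> fin_cases b <;> simp [trip] at hab h1 h2 h3 h4 h5 h6 <;> linarith

def mat (s w : V) (i j : Fin 3) : Matrix (Fin 3) (Fin 3) ℝ :=
  Matrix.of fun r c => ![if r = i then s i else 0, if r = j then - s j else 0, w r] c

lemma mat_mulVec (s w : V) (i j : Fin 3) (x : V) (r : Fin 3) :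
    (mat s w i j).mulVec x r =
      (if r = i then s i else 0) * x 0 + (if r = j then - s j else 0) * x 1 + w r * x 2 := by
  simp [mat, Matrix.mulVec, dotProduct, Fin.sum_univ_three]

lemma sausage_vol (K : Set V) (w : V)
    (hK : ∀ v : V, |v 0| + |v 1| + |v 2| ≤ 1 → ∀ t : ℝ, 0 ≤ t → t ≤ 1 → v + t • w ∈ K) :
    ENNReal.ofReal (|w 0| + |w 1| + |w 2|) ≤ volume K := by
  let s : V := fun i => if 0 ≤ w i then 1 else -1
  let W : V := fun i => |w i|
  have hs : ∀ i, s i * s i = 1 := by
    intro i; simp only [s]; split_ifs <;> norm_num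
  have hsa : ∀ i, |s i| = 1 := by
    intro i; simp only [s]; split_ifs <;> norm_num
  have hsw : ∀ i, s i * w i = W i := by
    intro i; simp only [s, W]; split_ifs with h
    · rw [abs_of_nonneg h]; ring
    · rw [abs_of_neg (not_le.1 h)]; ring
  have hW : ∀ i, 0 ≤ W i := fun i => abs_nonneg _
  have key : ∀ a : Fin 6, ENNReal.ofReal (W (trip a).2.1 / 2) ≤
      volume.restrict K (R s W (trip a).1 (trip a).2.1 (trip a).2.2) := by
    intro a
    have hd : (trip a).1 ≠ (trip a).2.1 ∧ (trip a).2.2 ≠ (trip a).2.1 ∧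
        (trip a).1 ≠ (trip a).2.2 := by
      revert a; decide
    have hdet : |(mat s w (trip a).1 (trip a).2.2).det| = W (trip a).2.1 := by
      fin_cases a <;> simp [mat, trip, Matrix.det_fin_three, abs_mul, hsa, W]
    have hnorm : ∀ p q : ℝ, 0 ≤ p → 0 ≤ q →
        |(if (0 : Fin 3) = (trip a).1 then s (trip a).1 else 0) * p +
          (if (0 : Fin 3) = (trip a).2.2 then - s (trip a).2.2 else 0) * q| +
        |(if (1 : Fin 3) = (trip a).1 then s (trip a).1 else 0) * p +
          (if (1 : Fin 3) = (trip a).2.2 then - s (trip a).2.2 else 0) * q| +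
        |(if (2 : Fin 3) = (trip a).1 then s (trip a).1 else 0) * p +
          (if (2 : Fin 3) = (trip a).2.2 then - s (trip a).2.2 else 0) * q| = p + q := by
      intro p q hp hq
      fin_cases a <;> simp [trip, abs_mul, hsa, abs_of_nonneg hp, abs_of_nonneg hq] <;> ring
    generalize (trip a).1 = i at *
    generalize (trip a).2.1 = k at *
    generalize (trip a).2.2 = j at *
    obtain ⟨hik, hjk, hij⟩ := hd
    rcases (hW k).eq_or_lt with h0 | hpos
    · rw [← h0]; simp
    rw [Measure.restrict_apply (R_meas _ _ _ _ _)]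
    have hsub : (fun x => (mat s w i j).mulVec x) '' T0 ⊆ R s W i k j ∩ K := by
      rintro _ ⟨x, ⟨x0, x1, x01, x2, x2'⟩, rfl⟩
      have ei : s i * (mat s w i j).mulVec x i = x 0 + W i * x 2 := by
        rw [mat_mulVec, if_pos rfl, if_neg hij, ← hsw i]; linear_combination (x 0) * hs i
      have ej : s j * (mat s w i j).mulVec x j = - x 1 + W j * x 2 := by
        rw [mat_mulVec, if_pos rfl, if_neg hij.symm, ← hsw j]; linear_combination (- x 1) * hs j
      have ek : s k * (mat s w i j).mulVec x k = W k * x 2 := by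
        rw [mat_mulVec, if_neg hik.symm, if_neg hjk.symm, ← hsw k]; ring
      refine ⟨⟨?_, ?_, ?_⟩, ?_⟩
      · simp only [ei, ek]; nlinarith [mul_pos x0 hpos]
      · simp only [ej, ek]; nlinarith [mul_pos x1 hpos]
      · simp only [ei, ej]; nlinarith [mul_nonneg x0.le (hW j), mul_nonneg x1.le (hW i)]
      · have := hK (fun r => (if r = i then s i else 0) * x 0 + (if r = j then - s j else 0) * x 1)
          (by rw [hnorm _ _ x0.le x1.le]; exact x01) (x 2) x2 x2'
        convert this using 1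
        ext r
        simp only [mat_mulVec, Pi.add_apply, Pi.smul_apply, smul_eq_mul]; ring
    refine le_trans ?_ (measure_mono hsub)
    rw [det_image, hdet, show W k / 2 = W k * (1 / 2) by ring, ENNReal.ofReal_mul (hW k)]
    gcongr
    exact vol_T0
  have h1 := sum_measure_le_measure_univ (μ := volume.restrict K) (s := Finset.univ)
    (t := fun a : Fin 6 => R s W (trip a).1 (trip a).2.1 (trip a).2.2)
    (fun a _ => (R_meas _ _ _ _ _).nullMeasurableSet)
    (fun a _ b _ hab => (R_disj s W hab).aedisjoint)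
  rw [Measure.restrict_apply_univ] at h1
  refine le_trans ?_ ((Finset.sum_le_sum fun a _ => key a).trans h1)
  rw [← ENNReal.ofReal_sum_of_nonneg (fun a _ => div_nonneg (hW _) zero_le_two)]
  apply le_of_eq
  congr 1
  simp [Fin.sum_univ_succ, trip, W]
  ring

lemma vol_octa : volume {x : V | |x 0| + |x 1| + |x 2| ≤ 4} = ENNReal.ofReal (256 / 3) := by
  have := MeasureTheory.volume_sum_rpow_le (Fin 3) (p := 1) le_rfl 4
  simp only [Real.rpow_one, div_one, Fin.sum_univ_three, Fintype.card_fin] at this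
  rw [this]
  have g2 : Real.Gamma (1 + 1) = 1 := by
    have := Real.Gamma_nat_eq_factorial 1
    simpa using this
  have g4 : Real.Gamma ((3 : ℕ) + 1) = 6 := by
    rw [Real.Gamma_nat_eq_factorial 3]; norm_num [Nat.factorial]
  rw [g2, g4, ← ENNReal.ofReal_pow (by norm_num), ← ENNReal.ofReal_mul (by norm_num)]
  norm_num

lemma spread {n : ℕ} (r : Fin (n + 1) → ℝ) (h : ∀ i j, i ≠ j → 1 ≤ |r i - r j|) :
    ∃ i j, (n : ℝ) ≤ r j - r i := by
  classical
  obtain ⟨i, hi⟩ := Finite.exists_min r
  obtain ⟨j, hj⟩ := Finite.exists_max r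
  refine ⟨i, j, ?_⟩
  by_contra hlt
  push Not at hlt
  have hmap : ∀ a ∈ (Finset.univ : Finset (Fin (n + 1))), ⌊r a - r i⌋₊ ∈ Finset.range n := by
    intro a _
    rw [Finset.mem_range, Nat.floor_lt (by linarith [hi a])]
    linarith [hj a]
  obtain ⟨a, -, b, -, hab, he⟩ :=
    Finset.exists_ne_map_eq_of_card_lt_of_maps_to (by simp) hmap
  have h1 := h a b hab
  have a1 := Nat.floor_le (show 0 ≤ r a - r i by linarith [hi a])
  have a2 := Nat.lt_floor_add_one (r a - r i)
  have b1 := Nat.floor_le (show 0 ≤ r b - r i by linarith [hi b])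
  have b2 := Nat.lt_floor_add_one (r b - r i)
  rw [he] at a1 a2
  have : |r a - r b| < 1 := by rw [abs_lt]; constructor <;> linarith
  linarith

end Pool.Agent.Lib.Helper30.OctaSausage
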