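import Mathlib

set_option autoImplicit false

namespace Pool.Agent.Lib.Helper30.Pat

/-! List matrices -/

def forceN (n : ℕ) (k : ℕ → Bool) : Bool :=
  match n with
  | 0 => k 0
  | m + 1 => k (m + 1)

theorem forceN_eq (n : ℕ) (k : ℕ → Bool) : forceN n k = k n := by
  cases n <;> rfl

def forceL : List ℕ → (List ℕ → Bool) → Bool
  | [], k => k []
  | x :: xs, k => forceN x fun y => forceL xs fun l => k (y :: l)

theorem forceL_eq (l : List ℕ) (k : List ℕ → Bool) : forceL l k = k l := by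
  induction l generalizing k with
  | nil => rfl
  | cons x xs ih => simp [forceL, forceN_eq, ih]

def forceM : List (List ℕ) → (List (List ℕ) → Bool) → Bool
  | [], k => k []
  | x :: xs, k => forceL x fun y => forceM xs fun l => k (y :: l)

theorem forceM_eq (l : List (List ℕ)) (k : List (List ℕ) → Bool) : forceM l k = k l := by
  induction l generalizing k with
  | nil => rfl
  | cons x xs ih => simp [forceM, forceL_eq, ih]

def dot : List ℕ → List ℕ → ℕ
  | x :: xs, y :: ys => x * y + dot xs ys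
  | _, _ => 0

def ip : List (List ℕ) → List (List ℕ) → ℕ
  | x :: xs, y :: ys => dot x y + ip xs ys
  | _, _ => 0

def mul (P A : List (List ℕ)) : List (List ℕ) := P.map fun u => A.map fun w => dot u w

theorem dot_ofFn {n : ℕ} (u w : Fin n → ℕ) :
    dot (List.ofFn u) (List.ofFn w) = ∑ i, u i * w i := by
  induction n with
  | zero => simp [dot]
  | succ n ih => rw [List.ofFn_succ, List.ofFn_succ, dot, ih, Fin.sum_univ_succ]

theorem ip_ofFn {n : ℕ} (u w : Fin n → List ℕ) :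
    ip (List.ofFn u) (List.ofFn w) = ∑ i, dot (u i) (w i) := by
  induction n with
  | zero => simp [ip]
  | succ n ih => rw [List.ofFn_succ, List.ofFn_succ, ip, ih, Fin.sum_univ_succ]

def ofM (P : Matrix (Fin 14) (Fin 14) ℕ) : List (List ℕ) :=
  List.ofFn fun i => List.ofFn fun j => P i j

theorem mul_ofM (P A : Matrix (Fin 14) (Fin 14) ℕ) (hA : A.transpose = A) :
    mul (ofM P) (ofM A) = ofM (P * A) := by
  unfold mul ofM
  rw [List.map_ofFn]
  congr 1
  funext i
  simp only [Function.comp]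
  rw [List.map_ofFn]
  congr 1
  funext j
  simp only [Function.comp]
  rw [dot_ofFn, Matrix.mul_apply]
  refine Finset.sum_congr rfl fun l _ => ?_
  have : A j l = A l j := by
    conv_lhs => rw [← hA]
    rfl
  rw [this]

theorem ip_pow (A : Matrix (Fin 14) (Fin 14) ℕ) (hA : A.transpose = A) (a b : ℕ) :
    ip (ofM (A ^ a)) (ofM (A ^ b)) = (A ^ (a + b)).trace := by
  unfold ofM
  rw [ip_ofFn, pow_add, Matrix.trace]
  refine Finset.sum_congr rfl fun i _ => ?_
  rw [dot_ofFn, Matrix.diag, Matrix.mul_apply]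
  refine Finset.sum_congr rfl fun l _ => ?_
  have h : (A ^ b).transpose = A ^ b := by rw [Matrix.transpose_pow, hA]
  have : (A ^ b) i l = (A ^ b) l i := by
    conv_lhs => rw [← h]
    rfl
  rw [this]

theorem mul_pow' (A : Matrix (Fin 14) (Fin 14) ℕ) (hA : A.transpose = A) (a : ℕ) :
    mul (ofM (A ^ a)) (ofM A) = ofM (A ^ (a + 1)) := by
  rw [mul_ofM _ _ hA, pow_succ]

def Good (A : Matrix (Fin 14) (Fin 14) ℕ) : Prop :=
  1190 < (A ^ 4).trace ∨ ((A ^ 4).trace = 1190 ∧ (960 < (A ^ 5).trace ∨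
    ((A ^ 5).trace = 960 ∧ (A ^ 6).trace = 24790 ∧ (A ^ 7).trace = 40320 ∧
      (A ^ 8).trace = 550598 ∧ (A ^ 9).trace = 1276992 ∧ (A ^ 10).trace = 12649270 ∧
      (A ^ 11).trace = 36495360)))

def chk (L : List (List ℕ)) : Bool :=
  forceM L fun A => forceM (mul A A) fun A2 =>
    Nat.blt 1190 (ip A2 A2) || (ip A2 A2 == 1190 && forceM (mul A2 A) fun A3 =>
      Nat.blt 960 (ip A2 A3) || (ip A2 A3 == 960 && ip A3 A3 == 24790 &&
        forceM (mul A3 A) fun A4 => ip A3 A4 == 40320 && ip A4 A4 == 550598 &&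
        forceM (mul A4 A) fun A5 => ip A4 A5 == 1276992 && ip A5 A5 == 12649270 &&
        ip A5 (mul A5 A) == 36495360))

theorem chk_sound (A : Matrix (Fin 14) (Fin 14) ℕ) (hA : A.transpose = A)
    (h : chk (ofM A) = true) : Good A := by
  have h2 : mul (ofM A) (ofM A) = ofM (A ^ 2) := by
    have := mul_pow' A hA 1
    rwa [pow_one] at this
  have h3 : mul (ofM (A ^ 2)) (ofM A) = ofM (A ^ 3) := mul_pow' A hA 2
  have h4 : mul (ofM (A ^ 3)) (ofM A) = ofM (A ^ 4) := mul_pow' A hA 3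
  have h5 : mul (ofM (A ^ 4)) (ofM A) = ofM (A ^ 5) := mul_pow' A hA 4
  have h6 : mul (ofM (A ^ 5)) (ofM A) = ofM (A ^ 6) := mul_pow' A hA 5
  have t4 : ip (ofM (A ^ 2)) (ofM (A ^ 2)) = (A ^ 4).trace := ip_pow A hA 2 2
  have t5 : ip (ofM (A ^ 2)) (ofM (A ^ 3)) = (A ^ 5).trace := ip_pow A hA 2 3
  have t6 : ip (ofM (A ^ 3)) (ofM (A ^ 3)) = (A ^ 6).trace := ip_pow A hA 3 3
  have t7 : ip (ofM (A ^ 3)) (ofM (A ^ 4)) = (A ^ 7).trace := ip_pow A hA 3 4
  have t8 : ip (ofM (A ^ 4)) (ofM (A ^ 4)) = (A ^ 8).trace := ip_pow A hA 4 4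
  have t9 : ip (ofM (A ^ 4)) (ofM (A ^ 5)) = (A ^ 9).trace := ip_pow A hA 4 5
  have t10 : ip (ofM (A ^ 5)) (ofM (A ^ 5)) = (A ^ 10).trace := ip_pow A hA 5 5
  have t11 : ip (ofM (A ^ 5)) (ofM (A ^ 6)) = (A ^ 11).trace := ip_pow A hA 5 6
  unfold chk at h
  rw [forceM_eq, forceM_eq, h2, forceM_eq, h3, forceM_eq, h4, forceM_eq, h5, h6, t4, t5, t6, t7,
    t8, t9, t10, t11] at h
  unfold Good
  generalize (A ^ 4).trace = a4 at h ⊢
  generalize (A ^ 5).trace = a5 at h ⊢
  generalize (A ^ 6).trace = a6 at h ⊢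
  generalize (A ^ 7).trace = a7 at h ⊢
  generalize (A ^ 8).trace = a8 at h ⊢
  generalize (A ^ 9).trace = a9 at h ⊢
  generalize (A ^ 10).trace = a10 at h ⊢
  generalize (A ^ 11).trace = a11 at h ⊢
  simp only [Bool.or_eq_true, Bool.and_eq_true, beq_iff_eq, Nat.blt_eq] at h
  rcases h with h | ⟨h, h' | ⟨⟨a, b⟩, ⟨c, d⟩, ⟨e, f⟩, g⟩⟩
  · exact Or.inl h
  · exact Or.inr ⟨h, Or.inl h'⟩
  · exact Or.inr ⟨h, Or.inr ⟨a, b, c, d, e, f, g⟩⟩

/-! The search -/

def ent (xs : List ℕ) (i j : ℕ) : Bool :=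
  if j < i then (xs.getD (13 - i) 0).testBit j
  else if i < j then (xs.getD (13 - j) 0).testBit i else false

def leaf (xs : List ℕ) : Bool :=
  forceL xs fun ys => chk (ofM fun i j => if ent ys i.val j.val then 1 else 0)

def ext (x bit : ℕ) : List (ℕ × ℕ) → ℕ → ℕ → Bool → (List (ℕ × ℕ) → Bool) → Bool
  | [], need, _, _, k => !(need == 0) || k []
  | (y, d) :: ys, need, p, pb, k =>
    ext x bit ys need y false (fun l => k ((y, d) :: l)) &&
      (need == 0 || !(y &&& x == 0) || Nat.ble 5 d || (y == p && !pb) ||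
        forceN (y ||| bit) fun y' => forceN (d + 1) fun d' =>
          ext x bit ys (need - 1) y true (fun l => k ((y', d') :: l)))

def cnt (y : ℕ) : List (ℕ × ℕ) → ℕ
  | [] => 0
  | (z, _) :: zs => bif (y &&& z == 0) then cnt y zs + 1 else cnt y zs

def prune (l : List (ℕ × ℕ)) : Bool := l.any fun p => Nat.blt (p.2 + cnt p.1 l) 5

def hs : List (ℕ × ℕ) → ℕ
  | [] => 0
  | (y, _) :: ys => (3 * hs ys + y) % 1009

def go (K r : ℕ) : ℕ → ℕ → List ℕ → List (ℕ × ℕ) → Bool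
  | 0, _, xs, _ => leaf xs
  | _ + 1, _, _, [] => true
  | n + 1, bit, xs, (x, dx) :: cs =>
    ext x bit cs (5 - dx) 0 true fun l =>
      (n == 9 && !(hs l % K == r)) || prune l || go K r n (2 * bit) (x :: xs) l

def start : List (ℕ × ℕ) := List.replicate 14 (0, 0)

end Pool.Agent.Lib.Helper30.Pat
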