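import Pool.Agent.Lib.helper30.PatA

set_option autoImplicit false

namespace Pool.Agent.Lib.Helper30.Pat

def mk (a : ℕ → ℕ → Bool) : ℕ → ℕ → ℕ
  | 0, _ => 0
  | i + 1, c => if a i c then mk a i c ||| 2 ^ i else mk a i c

def dg (a : ℕ → ℕ → Bool) : ℕ → ℕ → ℕ
  | 0, _ => 0
  | i + 1, c => if a i c then dg a i c + 1 else dg a i c

def XS (a : ℕ → ℕ → Bool) : ℕ → List ℕ
  | 0 => []
  | i + 1 => mk a i i :: XS a i

def cols (a : ℕ → ℕ → Bool) (i c m : ℕ) : List (ℕ × ℕ) :=
  (List.range' c m).map fun d => (mk a i d, dg a i d)

structure Hyp (a : ℕ → ℕ → Bool) : Prop where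
  sym : ∀ i j, a i j = a j i
  irr : ∀ i, a i i = false
  deg : ∀ c, c < 14 → dg a 14 c = 5
  tri : ∀ i j l, a i j = true → a i l = true → a j l = true → False
  can : ∀ i c, i < c → c + 1 < 14 → (∀ j, j < i → a j c = a j (c + 1)) →
    a i (c + 1) = true → a i c = true

theorem testBit_mk (a : ℕ → ℕ → Bool) (i c j : ℕ) :
    (mk a i c).testBit j = (decide (j < i) && a j c) := by
  induction i with
  | zero => simp [mk]
  | succ i ih =>
    unfold mk
    by_cases h : a i c = true
    · rw [if_pos h, Nat.testBit_or, ih, Nat.testBit_two_pow]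
      rcases lt_trichotomy j i with hj | hj | hj
      · simp [hj, Nat.lt_succ_of_lt hj, hj.ne']
      · subst hj; simp [h]
      · have h1 : ¬ j < i := by omega
        have h2 : ¬ j < i + 1 := by omega
        simp [h1, h2, hj.ne]
    · rw [if_neg h, ih]
      rcases lt_trichotomy j i with hj | hj | hj
      · simp [hj, Nat.lt_succ_of_lt hj]
      · subst hj; simp [h]
      · have h1 : ¬ j < i := by omega
        have h2 : ¬ j < i + 1 := by omega
        simp [h1, h2]

theorem and_zero {a : ℕ → ℕ → Bool} (H : Hyp a) (i c d : ℕ) (h : a c d = true) :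
    mk a i c &&& mk a i d = 0 := by
  by_contra hne
  obtain ⟨j, hj⟩ := Nat.exists_testBit_of_ne_zero hne
  rw [Nat.testBit_and, testBit_mk, testBit_mk] at hj
  simp only [Bool.and_eq_true] at hj
  exact H.tri j c d hj.1.2 hj.2.2 h

theorem dg_add (a : ℕ → ℕ → Bool) (c m v : ℕ) :
    dg a (c + m) v = dg a c v + (List.range' c m).countP fun d => a d v := by
  induction m with
  | zero => simp
  | succ m ih =>
    rw [← Nat.add_assoc, List.range'_concat, List.countP_append]
    simp only [dg, Nat.one_mul, List.countP_cons, List.countP_nil]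
    rw [ih]
    split_ifs <;> omega

theorem dg_lt {a : ℕ → ℕ → Bool} (H : Hyp a) (i d : ℕ) (hi : i < 14) (hd : d < 14)
    (h : a i d = true) : dg a i d < 5 := by
  have h1 := dg_add a (i + 1) (13 - i) d
  have h2 : i + 1 + (13 - i) = 14 := by omega
  rw [h2, H.deg d hd] at h1
  simp only [dg, h, if_true] at h1
  omega

theorem ext_sound {a : ℕ → ℕ → Bool} (H : Hyp a) (i : ℕ) (hi : i < 14) (m : ℕ) :
    ∀ (c p : ℕ) (pb : Bool) (k : List (ℕ × ℕ) → Bool), i < c → c + m = 14 →
      (pb = true ∨ (i + 1 < c ∧ p = mk a i (c - 1) ∧ pb = a i (c - 1))) →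
      ext (mk a i i) (2 ^ i) (cols a i c m) ((List.range' c m).countP fun d => a i d) p pb k
        = true →
      k (cols a (i + 1) c m) = true := by
  induction m with
  | zero =>
    intro c p pb k _ _ _ h
    simpa [cols, ext] using h
  | succ m ih =>
    intro c p pb k hc hm hp h
    have e1 : cols a i c (m + 1) = (mk a i c, dg a i c) :: cols a i (c + 1) m := by
      simp [cols, List.range'_succ]
    have e2 : cols a (i + 1) c (m + 1) =
        (mk a (i + 1) c, dg a (i + 1) c) :: cols a (i + 1) (c + 1) m := by
      simp [cols, List.range'_succ]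
    rw [e1, List.range'_succ, List.countP_cons, ext, Bool.and_eq_true] at h
    rw [e2]
    obtain ⟨h1, h2⟩ := h
    by_cases hb : a i c = true
    · simp only [hb, if_true, forceN_eq, Bool.or_eq_true, Nat.add_sub_cancel] at h2
      have z := and_zero H i c i (by rw [H.sym]; exact hb)
      have l := dg_lt H i c hi (by omega) hb
      rcases h2 with (((h2 | h2) | h2) | h2) | h2
      · simp at h2
      · simp [z] at h2
      · rw [Nat.ble_eq] at h2; omega
      · simp only [Bool.and_eq_true, beq_iff_eq, Bool.not_eq_true'] at h2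
        rcases hp with hp | ⟨q1, q2, q3⟩
        · rw [hp] at h2; simp at h2
        · exfalso
          have hc1 : c - 1 + 1 = c := by omega
          have := H.can i (c - 1) (by omega) (by omega) (fun j hj => by
            have t1 := testBit_mk a i (c - 1) j
            have t2 := testBit_mk a i c j
            rw [← q2, ← h2.1, t2] at t1
            rw [hc1]
            simpa [hj] using t1.symm) (by rw [hc1]; exact hb)
          rw [← q3, h2.2] at this
          simp at this
      · have := ih (c + 1) (mk a i c) true _ (by omega) (by omega) (Or.inl rfl) h2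
        simpa [mk, dg, hb] using this
    · simp only [hb, Bool.false_eq_true, if_false, Nat.add_zero] at h1
      have := ih (c + 1) (mk a i c) false _ (by omega) (by omega)
        (Or.inr ⟨by omega, by simp, by simpa using hb⟩) h1
      simpa [mk, dg, hb] using this

theorem cnt_ge {a : ℕ → ℕ → Bool} (H : Hyp a) (i v m : ℕ) :
    ∀ c, ((List.range' c m).countP fun d => a d v) ≤ cnt (mk a i v) (cols a i c m) := by
  induction m with
  | zero => intro c; simp
  | succ m ih =>
    intro c
    have e1 : cols a i c (m + 1) = (mk a i c, dg a i c) :: cols a i (c + 1) m := by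
      simp [cols, List.range'_succ]
    rw [e1, List.range'_succ, List.countP_cons, cnt]
    have := ih (c + 1)
    by_cases hb : a c v = true
    · have z := and_zero H i v c (by rw [H.sym]; exact hb)
      simp [hb, z]; omega
    · simp only [hb, Bool.false_eq_true, if_false, Nat.add_zero]
      cases (mk a i v &&& mk a i c == 0) <;> simp <;> omega

theorem prune_false {a : ℕ → ℕ → Bool} (H : Hyp a) (i m : ℕ) (h : i + m = 14) :
    prune (cols a i i m) = false := by
  unfold prune
  rw [List.any_eq_false]
  intro p hp
  simp only [cols, List.mem_map, List.mem_range'_1] at hp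
  obtain ⟨d, ⟨h1, h2⟩, rfl⟩ := hp
  have e := dg_add a i m d
  rw [h, H.deg d (by omega)] at e
  have := cnt_ge H i d m i
  rw [Nat.blt_eq]
  simp only [cols] at this ⊢
  omega

theorem go_sound {a : ℕ → ℕ → Bool} (H : Hyp a) (K : ℕ) (n : ℕ) :
    ∀ i, i + n = 14 →
      go K (hs (cols a 5 5 9) % K) n (2 ^ i) (XS a i) (cols a i i n) = true →
      leaf (XS a 14) = true := by
  induction n with
  | zero =>
    intro i hi h
    have : i = 14 := by omega
    subst this
    simpa [go] using h
  | succ n ih =>
    intro i hi h
    have e1 : cols a i i (n + 1) = (mk a i i, dg a i i) :: cols a i (i + 1) n := by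
      simp [cols, List.range'_succ]
    rw [e1, go] at h
    have e := dg_add a (i + 1) n i
    have h2 : i + 1 + n = 14 := by omega
    rw [h2, H.deg i (by omega)] at e
    simp only [dg, H.irr, Bool.false_eq_true, if_false] at e
    have e3 : 5 - dg a i i = (List.range' (i + 1) n).countP fun d => a i d := by
      have : (fun d => a i d) = fun d => a d i := by funext d; exact H.sym _ _
      rw [this]; omega
    rw [e3] at h
    have := ext_sound H i (by omega) n (i + 1) 0 true _ (by omega) h2 (Or.inl rfl) h
    simp only [prune_false H (i + 1) n h2, Bool.or_false, Bool.or_eq_true, Bool.and_eq_true,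
      beq_iff_eq, Bool.not_eq_true', beq_eq_false_iff_ne] at this
    rcases this with ⟨q1, q2⟩ | q
    · subst q1
      have : i + 1 = 5 := by omega
      rw [this] at q2
      exact absurd rfl q2
    · refine ih (i + 1) h2 ?_
      rw [pow_succ, Nat.mul_comm]
      exact q

theorem ent_XS {a : ℕ → ℕ → Bool} (H : Hyp a) (i j : ℕ) (hi : i < 14) (hj : j < 14) :
    ent (XS a 14) i j = a i j := by
  have g : ∀ i, i < 14 → (XS a 14).getD (13 - i) 0 = mk a i i := by
    intro i hi
    interval_cases i <;> rfl
  unfold ent
  split_ifs with h1 h2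
  · rw [g i hi, testBit_mk, H.sym i j]; simp [h1]
  · rw [g j hj, testBit_mk]; simp [h2]
  · have : i = j := by omega
    rw [this, H.irr]

theorem good_of_hyp {a : ℕ → ℕ → Bool} (H : Hyp a)
    (all : ∀ r, r < 64 → go 64 r 14 1 [] start = true) :
    Good fun i j : Fin 14 => if a i.val j.val then 1 else 0 := by
  have h := go_sound H 64 14 0 rfl (all _ (Nat.mod_lt _ (by norm_num)))
  unfold leaf at h
  rw [forceL_eq] at h
  have e : (fun i j : Fin 14 => if ent (XS a 14) i.val j.val then 1 else 0 :
      Matrix (Fin 14) (Fin 14) ℕ) = fun i j : Fin 14 => if a i.val j.val then 1 else 0 := by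
    funext i j
    rw [ent_XS H _ _ i.2 j.2]
  rw [e] at h
  refine chk_sound _ ?_ h
  ext i j
  simp only [Matrix.transpose_apply]
  rw [H.sym]

theorem trace_sub (A : Matrix (Fin 14) (Fin 14) ℕ) (σ : Equiv.Perm (Fin 14)) (h : ℕ) :
    ((A.submatrix σ σ) ^ h).trace = (A ^ h).trace := by
  have : (A.submatrix σ σ) ^ h = (A ^ h).submatrix σ σ := by
    induction h with
    | zero => simp
    | succ h ih => rw [pow_succ, pow_succ, ih, Matrix.submatrix_mul_equiv]
  rw [this]
  simp only [Matrix.trace, Matrix.diag, Matrix.submatrix_apply]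
  exact Equiv.sum_comp σ fun i => (A ^ h) i i

theorem dg_eq (a : ℕ → ℕ → Bool) (n c : ℕ) :
    dg a n c = ∑ j ∈ Finset.range n, if a j c then 1 else 0 := by
  induction n with
  | zero => simp [dg]
  | succ n ih =>
    rw [Finset.sum_range_succ, ← ih, dg]
    split_ifs <;> rfl

/-- classification -/
theorem good_of (b : Fin 14 → Fin 14 → Bool) (sym : ∀ i j, b i j = b j i)
    (irr : ∀ i, b i i = false) (deg : ∀ c, (∑ j, if b j c then 1 else 0) = 5)
    (tri : ∀ i j l, b i j = true → b i l = true → b j l = true → False)
    (all : ∀ r, r < 64 → go 64 r 14 1 [] start = true) :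
    Good fun i j : Fin 14 => if b i j then 1 else 0 := by
  classical
  obtain ⟨σ, hσ⟩ := Finite.exists_max (fun σ : Equiv.Perm (Fin 14) =>
    (toLex fun p : Fin 14 ×ₗ Fin 14 => b (σ (ofLex p).1) (σ (ofLex p).2) :
      Lex (Fin 14 ×ₗ Fin 14 → Bool)))
  let a : ℕ → ℕ → Bool := fun i j =>
    if h : i < 14 ∧ j < 14 then b (σ ⟨i, h.1⟩) (σ ⟨j, h.2⟩) else false
  have ha : ∀ i j : Fin 14, a i.val j.val = b (σ i) (σ j) := by
    intro i j
    simp only [a]
    rw [dif_pos ⟨i.2, j.2⟩]
  have H : Hyp a := by
    refine ⟨?_, ?_, ?_, ?_, ?_⟩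
    · intro i j
      simp only [a]
      by_cases h : i < 14 ∧ j < 14
      · rw [dif_pos h, dif_pos ⟨h.2, h.1⟩, sym]
      · rw [dif_neg h, dif_neg (fun h' => h ⟨h'.2, h'.1⟩)]
    · intro i
      simp only [a]
      split_ifs
      · exact irr _
      · rfl
    · intro c hc
      rw [dg_eq, Finset.sum_range, ← deg (σ ⟨c, hc⟩),
        ← Equiv.sum_comp σ (fun j => if b j (σ ⟨c, hc⟩) then 1 else 0)]
      refine Finset.sum_congr rfl fun j _ => ?_
      rw [← ha j ⟨c, hc⟩]
    · intro i j l h1 h2 h3
      simp only [a] at h1 h2 h3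
      split_ifs at h1 h2 h3
      exact tri _ _ _ h1 h2 h3
    · intro i c hic hc hcol hb
      by_contra hn
      have hc0 : c < 14 := by omega
      have hi0 : i < 14 := by omega
      let C : Fin 14 := ⟨c, hc0⟩
      let C' : Fin 14 := ⟨c + 1, hc⟩
      let I : Fin 14 := ⟨i, hi0⟩
      refine absurd (hσ (σ * Equiv.swap C C')) (not_le.mpr ?_)
      refine ⟨toLex (I, C), ?_, ?_⟩
      · intro p hp
        obtain ⟨p, q⟩ := p
        have hp' : p < I ∨ (p = I ∧ q < C) := Prod.Lex.toLex_lt_toLex.mp hp
        have hpi : p.val ≤ i := by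
          rcases hp' with h | h
          · exact le_of_lt h
          · rw [h.1]
        have s1 : Equiv.swap C C' p = p := by
          apply Equiv.swap_apply_of_ne_of_ne
          · intro h; have := congrArg Fin.val h; simp only [C] at this; omega
          · intro h; have := congrArg Fin.val h; simp only [C'] at this; omega
        change b (σ p) (σ q) = b (σ (Equiv.swap C C' p)) (σ (Equiv.swap C C' q))
        rw [s1]
        by_cases q1 : q = C
        · rcases hp' with h | h
          · rw [q1, Equiv.swap_apply_left, ← ha, ← ha]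
            exact hcol p.val h
          · rw [q1] at h; exact absurd h.2 (lt_irrefl _)
        by_cases q2 : q = C'
        · rcases hp' with h | h
          · rw [q2, Equiv.swap_apply_right, ← ha, ← ha]
            exact (hcol p.val h).symm
          · rw [q2] at h
            have : c + 1 < c := h.2
            omega
        rw [Equiv.swap_apply_of_ne_of_ne q1 q2]
      · have s1 : Equiv.swap C C' I = I := by
          apply Equiv.swap_apply_of_ne_of_ne
          · intro h; have := congrArg Fin.val h; simp only [C, I] at this; omega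
          · intro h; have := congrArg Fin.val h; simp only [C', I] at this; omega
        change b (σ I) (σ C) < b (σ (Equiv.swap C C' I)) (σ (Equiv.swap C C' C))
        rw [s1, Equiv.swap_apply_left, ← ha, ← ha]
        change a i c < a i (c + 1)
        rw [hb]
        simp only [Bool.not_eq_true] at hn
        rw [hn]
        decide
  have g := good_of_hyp H all
  have e : (fun i j : Fin 14 => if a i.val j.val then 1 else 0 : Matrix (Fin 14) (Fin 14) ℕ) =
      Matrix.submatrix (fun i j : Fin 14 => if b i j then 1 else 0 : Matrix (Fin 14) (Fin 14) ℕ)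
        σ σ := by
    funext i j
    rw [ha]; rfl
  rw [e] at g
  unfold Good at g ⊢
  simpa only [trace_sub] using g

end Pool.Agent.Lib.Helper30.Pat
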