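import Pool.Agent.Lib.helper30.PatA

set_option autoImplicit false

namespace Pool.Agent.Lib.Helper30.Pat

set_option maxRecDepth 100000 in
theorem t0 : go 64 0 14 1 [] start = true := by decide +kernel

set_option maxRecDepth 100000 in
theorem t1 : go 64 1 14 1 [] start = true := by decide +kernel

set_option maxRecDepth 100000 in
theorem t2 : go 64 2 14 1 [] start = true := by decide +kernel

set_option maxRecDepth 100000 in
theorem t3 : go 64 3 14 1 [] start = true := by decide +kernel

set_option maxRecDepth 100000 in
theorem t4 : go 64 4 14 1 [] start = true := by decide +kernel

set_option maxRecDepth 100000 in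
theorem t5 : go 64 5 14 1 [] start = true := by decide +kernel

set_option maxRecDepth 100000 in
theorem t6 : go 64 6 14 1 [] start = true := by decide +kernel

set_option maxRecDepth 100000 in
theorem t7 : go 64 7 14 1 [] start = true := by decide +kernel

set_option maxRecDepth 100000 in
theorem t8 : go 64 8 14 1 [] start = true := by decide +kernel

set_option maxRecDepth 100000 in
theorem t9 : go 64 9 14 1 [] start = true := by decide +kernel

set_option maxRecDepth 100000 in
theorem t10 : go 64 10 14 1 [] start = true := by decide +kernel

set_option maxRecDepth 100000 in
theorem t11 : go 64 11 14 1 [] start = true := by decide +kernel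

set_option maxRecDepth 100000 in
theorem t12 : go 64 12 14 1 [] start = true := by decide +kernel

set_option maxRecDepth 100000 in
theorem t13 : go 64 13 14 1 [] start = true := by decide +kernel

set_option maxRecDepth 100000 in
theorem t14 : go 64 14 14 1 [] start = true := by decide +kernel

set_option maxRecDepth 100000 in
theorem t15 : go 64 15 14 1 [] start = true := by decide +kernel

set_option maxRecDepth 100000 in
theorem t16 : go 64 16 14 1 [] start = true := by decide +kernel

set_option maxRecDepth 100000 in
theorem t17 : go 64 17 14 1 [] start = true := by decide +kernel

set_option maxRecDepth 100000 in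
theorem t18 : go 64 18 14 1 [] start = true := by decide +kernel

set_option maxRecDepth 100000 in
theorem t19 : go 64 19 14 1 [] start = true := by decide +kernel

set_option maxRecDepth 100000 in
theorem t20 : go 64 20 14 1 [] start = true := by decide +kernel

set_option maxRecDepth 100000 in
theorem t21 : go 64 21 14 1 [] start = true := by decide +kernel

set_option maxRecDepth 100000 in
theorem t22 : go 64 22 14 1 [] start = true := by decide +kernel

set_option maxRecDepth 100000 in
theorem t23 : go 64 23 14 1 [] start = true := by decide +kernel

set_option maxRecDepth 100000 in
theorem t24 : go 64 24 14 1 [] start = true := by decide +kernel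

set_option maxRecDepth 100000 in
theorem t25 : go 64 25 14 1 [] start = true := by decide +kernel

set_option maxRecDepth 100000 in
theorem t26 : go 64 26 14 1 [] start = true := by decide +kernel

set_option maxRecDepth 100000 in
theorem t27 : go 64 27 14 1 [] start = true := by decide +kernel

set_option maxRecDepth 100000 in
theorem t28 : go 64 28 14 1 [] start = true := by decide +kernel

set_option maxRecDepth 100000 in
theorem t29 : go 64 29 14 1 [] start = true := by decide +kernel

set_option maxRecDepth 100000 in
theorem t30 : go 64 30 14 1 [] start = true := by decide +kernel

set_option maxRecDepth 100000 in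
theorem t31 : go 64 31 14 1 [] start = true := by decide +kernel

end Pool.Agent.Lib.Helper30.Pat
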