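import Pool.Agent.Lib.helper30.PatA

set_option autoImplicit false

namespace Pool.Agent.Lib.Helper30.Pat

set_option maxRecDepth 100000 in
theorem t32 : go 64 32 14 1 [] start = true := by decide +kernel

set_option maxRecDepth 100000 in
theorem t33 : go 64 33 14 1 [] start = true := by decide +kernel

set_option maxRecDepth 100000 in
theorem t34 : go 64 34 14 1 [] start = true := by decide +kernel

set_option maxRecDepth 100000 in
theorem t35 : go 64 35 14 1 [] start = true := by decide +kernel

set_option maxRecDepth 100000 in
theorem t36 : go 64 36 14 1 [] start = true := by decide +kernel

set_option maxRecDepth 100000 in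
theorem t37 : go 64 37 14 1 [] start = true := by decide +kernel

set_option maxRecDepth 100000 in
theorem t38 : go 64 38 14 1 [] start = true := by decide +kernel

set_option maxRecDepth 100000 in
theorem t39 : go 64 39 14 1 [] start = true := by decide +kernel

set_option maxRecDepth 100000 in
theorem t40 : go 64 40 14 1 [] start = true := by decide +kernel

set_option maxRecDepth 100000 in
theorem t41 : go 64 41 14 1 [] start = true := by decide +kernel

set_option maxRecDepth 100000 in
theorem t42 : go 64 42 14 1 [] start = true := by decide +kernel

set_option maxRecDepth 100000 in
theorem t43 : go 64 43 14 1 [] start = true := by decide +kernel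

set_option maxRecDepth 100000 in
theorem t44 : go 64 44 14 1 [] start = true := by decide +kernel

set_option maxRecDepth 100000 in
theorem t45 : go 64 45 14 1 [] start = true := by decide +kernel

set_option maxRecDepth 100000 in
theorem t46 : go 64 46 14 1 [] start = true := by decide +kernel

set_option maxRecDepth 100000 in
theorem t47 : go 64 47 14 1 [] start = true := by decide +kernel

set_option maxRecDepth 100000 in
theorem t48 : go 64 48 14 1 [] start = true := by decide +kernel

set_option maxRecDepth 100000 in
theorem t49 : go 64 49 14 1 [] start = true := by decide +kernel

set_option maxRecDepth 100000 in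
theorem t50 : go 64 50 14 1 [] start = true := by decide +kernel

set_option maxRecDepth 100000 in
theorem t51 : go 64 51 14 1 [] start = true := by decide +kernel

set_option maxRecDepth 100000 in
theorem t52 : go 64 52 14 1 [] start = true := by decide +kernel

set_option maxRecDepth 100000 in
theorem t53 : go 64 53 14 1 [] start = true := by decide +kernel

set_option maxRecDepth 100000 in
theorem t54 : go 64 54 14 1 [] start = true := by decide +kernel

set_option maxRecDepth 100000 in
theorem t55 : go 64 55 14 1 [] start = true := by decide +kernel

set_option maxRecDepth 100000 in
theorem t56 : go 64 56 14 1 [] start = true := by decide +kernel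

set_option maxRecDepth 100000 in
theorem t57 : go 64 57 14 1 [] start = true := by decide +kernel

set_option maxRecDepth 100000 in
theorem t58 : go 64 58 14 1 [] start = true := by decide +kernel

set_option maxRecDepth 100000 in
theorem t59 : go 64 59 14 1 [] start = true := by decide +kernel

set_option maxRecDepth 100000 in
theorem t60 : go 64 60 14 1 [] start = true := by decide +kernel

set_option maxRecDepth 100000 in
theorem t61 : go 64 61 14 1 [] start = true := by decide +kernel

set_option maxRecDepth 100000 in
theorem t62 : go 64 62 14 1 [] start = true := by decide +kernel

set_option maxRecDepth 100000 in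
theorem t63 : go 64 63 14 1 [] start = true := by decide +kernel

end Pool.Agent.Lib.Helper30.Pat
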