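import Pool.Agent.Lib.helper30.PatB
import Pool.Agent.Lib.helper30.PatC0
import Pool.Agent.Lib.helper30.PatC1

set_option autoImplicit false

namespace Pool.Agent.Lib.Helper30.Pat

open Matrix

theorem allc : ∀ r, r < 64 → go 64 r 14 1 [] start = true := by
  intro r hr
  interval_cases r
  exacts [t0, t1, t2, t3, t4, t5, t6, t7, t8, t9, t10, t11, t12, t13, t14, t15,
    t16, t17, t18, t19, t20, t21, t22, t23, t24, t25, t26, t27, t28, t29, t30, t31,
    t32, t33, t34, t35, t36, t37, t38, t39, t40, t41, t42, t43, t44, t45, t46, t47,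
    t48, t49, t50, t51, t52, t53, t54, t55, t56, t57, t58, t59, t60, t61, t62, t63]

abbrev Dm := Matrix (Fin 14) (Fin 35) ℕ

def IsD (M : Dm) : Prop := (∀ j, ∑ i, M i j = 2) ∧ (∀ i, ∑ j, M i j = 5)

def InB (M : Dm) : Prop := IsD M ∧ (∀ i j, M i j ≤ 1) ∧
  (SimpleGraph.fromRel (fun i j : Fin 14 => 0 < (M * M.transpose) i j)).Connected

def Az (M : Dm) : Matrix (Fin 14) (Fin 14) ℤ :=
  M.map (fun x : ℕ => (x : ℤ)) * (M.map (fun x : ℕ => (x : ℤ))).transpose
    - ((5 : ℕ) : ℤ) • (1 : Matrix (Fin 14) (Fin 14) ℤ)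

def G (M : Dm) (h : ℕ) : ℤ := Matrix.trace (Az M ^ h)

noncomputable def Cr (M : Dm) : Matrix (Fin 14) (Fin 14) ℝ :=
  ((5 : ℕ) : ℝ) • (1 : Matrix (Fin 14) (Fin 14) ℝ)
    - (1 / ((2 : ℕ) : ℝ)) • (M.map (fun x : ℕ => (x : ℝ)) * (M.map (fun x : ℕ => (x : ℝ))).transpose)

noncomputable def ev (M : Dm) : Multiset ℝ := (Matrix.charpoly (Cr M)).roots.erase 0

theorem Cr_herm (M : Dm) : (Cr M).IsHermitian := by
  unfold Cr Matrix.IsHermitian
  rw [Matrix.conjTranspose_eq_transpose_of_trivial]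
  simp [Matrix.transpose_sub, Matrix.transpose_smul, Matrix.transpose_mul]

theorem tr_poly (C : Matrix (Fin 14) (Fin 14) ℝ) (hC : C.IsHermitian) (h : ℕ) :
    (((5 : ℝ) • (1 : Matrix (Fin 14) (Fin 14) ℝ) - (2 : ℝ) • C) ^ h).trace =
      ∑ i, (5 - 2 * hC.eigenvalues i) ^ h := by
  have e : (5 : ℝ) • (1 : Matrix (Fin 14) (Fin 14) ℝ) - (2 : ℝ) • C =
      Unitary.conjStarAlgAut ℝ _ hC.eigenvectorUnitary
        (diagonal fun i => 5 - 2 * hC.eigenvalues i) := by
    have : (diagonal fun i => 5 - 2 * hC.eigenvalues i) =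
        (5 : ℝ) • (1 : Matrix (Fin 14) (Fin 14) ℝ) -
          (2 : ℝ) • diagonal (RCLike.ofReal ∘ hC.eigenvalues) := by
      ext i j
      by_cases hij : i = j
      · subst hij; simp
      · simp [hij]
    rw [this, map_sub, map_smul, map_smul, map_one, ← hC.spectral_theorem]
  rw [e, ← map_pow, Unitary.conjStarAlgAut_apply, Matrix.trace_mul_cycle]
  simp [Matrix.diagonal_pow]

theorem spec (M : Dm) (hM : IsD M) : ∃ (s : Finset (Fin 14)) (lam : Fin 14 → ℝ),
    ev M = s.val.map lam ∧ ∀ h : ℕ, ∑ i ∈ s, (5 - 2 * lam i) ^ h = (G M h : ℝ) - 5 ^ h := by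
  have hC := Cr_herm M
  have hdet : (Cr M).det = 0 := by
    rw [← Matrix.exists_mulVec_eq_zero_iff]
    refine ⟨fun _ => 1, fun h => by simpa using congrFun h 0, ?_⟩
    funext i
    have h1 : ∀ j, ∑ l, (M l j : ℝ) = 2 := fun j => by exact_mod_cast hM.1 j
    have h2 : ∑ j, (M i j : ℝ) = 5 := by exact_mod_cast hM.2 i
    have h3 : ∑ l, ∑ j, (M i j : ℝ) * (M l j : ℝ) = 10 := by
      rw [Finset.sum_comm]
      simp only [← Finset.mul_sum, h1, ← Finset.sum_mul, h2]
      norm_num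
    simp only [Cr, Matrix.sub_mulVec, Matrix.smul_mulVec, Matrix.one_mulVec, Pi.sub_apply,
      Pi.smul_apply, smul_eq_mul, Pi.zero_apply]
    simp only [Matrix.mulVec, dotProduct, Matrix.mul_apply, Matrix.map_apply,
      Matrix.transpose_apply, mul_one, h3]
    norm_num
  rw [hC.det_eq_prod_eigenvalues, Finset.prod_eq_zero_iff] at hdet
  obtain ⟨i0, _, hi0⟩ := hdet
  have hi0' : hC.eigenvalues i0 = 0 := by simpa using hi0
  refine ⟨Finset.univ.erase i0, hC.eigenvalues, ?_, ?_⟩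
  · unfold ev
    rw [hC.roots_charpoly_eq_eigenvalues, Finset.erase_val,
      Multiset.map_erase_of_mem _ _ (Finset.mem_univ_val i0), hi0']
    rfl
  · intro h
    have e : (5 : ℝ) • (1 : Matrix (Fin 14) (Fin 14) ℝ) - (2 : ℝ) • Cr M =
        (Int.castRingHom ℝ).mapMatrix (Az M) := by
      ext i j
      simp only [Cr, Az, Matrix.sub_apply, Matrix.smul_apply, Matrix.mul_apply, Matrix.map_apply,
        Matrix.transpose_apply, smul_eq_mul, RingHom.mapMatrix_apply, Matrix.one_apply,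
        eq_intCast]
      push_cast
      split_ifs <;> ring
    have t := tr_poly (Cr M) hC h
    rw [e, ← map_pow, ← Finset.add_sum_erase _ _ (Finset.mem_univ i0), hi0'] at t
    have t2 : ((Int.castRingHom ℝ).mapMatrix (Az M ^ h)).trace = (G M h : ℝ) := by
      simp [G, Matrix.trace]
    rw [t2] at t
    rw [t]; ring

def An (M : Dm) : Matrix (Fin 14) (Fin 14) ℕ :=
  fun i j => if i = j then 0 else ∑ x, M i x * M j x

theorem An_symm (M : Dm) : (An M).transpose = An M := by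
  ext i j
  simp only [An, Matrix.transpose_apply, eq_comm (a := j), mul_comm]

theorem diag5 (M : Dm) (hM : IsD M) (hb : ∀ i j, M i j ≤ 1) (i : Fin 14) :
    ∑ x, M i x * M i x = 5 := by
  rw [← hM.2 i]
  refine Finset.sum_congr rfl fun x _ => ?_
  have := hb i x
  interval_cases (M i x) <;> rfl

theorem G_eq (M : Dm) (hM : IsD M) (hb : ∀ i j, M i j ≤ 1) (h : ℕ) :
    G M h = ((An M ^ h).trace : ℕ) := by
  have e : Az M = (Nat.castRingHom ℤ).mapMatrix (An M) := by
    ext i j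
    simp only [Az, An, Matrix.sub_apply, Matrix.smul_apply, Matrix.mul_apply, Matrix.map_apply,
      Matrix.transpose_apply, smul_eq_mul, RingHom.mapMatrix_apply, Matrix.one_apply, eq_natCast]
    split_ifs with hij
    · subst hij
      have : (∑ x, (M i x : ℤ) * (M i x : ℤ)) = 5 := by exact_mod_cast diag5 M hM hb i
      rw [this]; norm_num
    · push_cast; ring
  unfold G
  rw [e, ← map_pow]
  simp [Matrix.trace]

theorem An_row (M : Dm) (hM : IsD M) (hb : ∀ i j, M i j ≤ 1) (i : Fin 14) :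
    ∑ j, An M i j = 5 := by
  have h3 : ∑ l, ∑ j, M i j * M l j = 10 := by
    rw [Finset.sum_comm]
    simp only [← Finset.mul_sum, hM.1, ← Finset.sum_mul, hM.2]
    rfl
  rw [← Finset.add_sum_erase _ _ (Finset.mem_univ i), diag5 M hM hb] at h3
  rw [← Finset.add_sum_erase _ _ (Finset.mem_univ i)]
  have : ∑ j ∈ Finset.univ.erase i, An M i j = ∑ l ∈ Finset.univ.erase i, ∑ j, M i j * M l j := by
    refine Finset.sum_congr rfl fun l hl => ?_
    rw [An, if_neg (Finset.ne_of_mem_erase hl).symm]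
  rw [this]
  simp only [An, if_true]
  omega

theorem classify (A : Matrix (Fin 14) (Fin 14) ℕ) (hs : A.transpose = A) (h0 : ∀ i, A i i = 0)
    (hr : ∀ i, ∑ j, A i j = 5) :
    70 ≤ (A ^ 2).trace ∧ ((A ^ 2).trace ≤ 70 → (A ^ 3).trace = 0 → Good A) := by
  have sy : ∀ i j, A j i = A i j := fun i j => by
    conv_lhs => rw [← hs]
    rfl
  have t2 : (A ^ 2).trace = ∑ i, ∑ j, A i j * A i j := by
    simp only [pow_two, Matrix.trace, Matrix.diag, Matrix.mul_apply]
    refine Finset.sum_congr rfl fun i _ => Finset.sum_congr rfl fun j _ => ?_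
    rw [sy i j]
  have s70 : ∑ i, ∑ j, A i j = 70 := by simp [hr]
  have le : ∀ i j, A i j ≤ A i j * A i j := fun i j => Nat.le_mul_self _
  refine ⟨?_, fun h2 h3 => ?_⟩
  · rw [t2, ← s70]
    exact Finset.sum_le_sum fun i _ => Finset.sum_le_sum fun j _ => le i j
  have one : ∀ i j, A i j ≤ 1 := by
    intro i j
    by_contra hn
    have : ∑ i, ∑ j, A i j < ∑ i, ∑ j, A i j * A i j := by
      refine Finset.sum_lt_sum (fun i _ => Finset.sum_le_sum fun j _ => le i j)
        ⟨i, Finset.mem_univ _, ?_⟩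
      refine Finset.sum_lt_sum (fun j _ => le i j) ⟨j, Finset.mem_univ _, ?_⟩
      nlinarith
    omega
  have e : A = fun i j : Fin 14 => if (A i j == 1) then 1 else 0 := by
    funext i j
    have := one i j
    interval_cases (A i j) <;> simp
  rw [e]
  refine good_of (fun i j => A i j == 1) (fun i j => by rw [sy i j]) (fun i => by simp [h0])
    (fun c => ?_) (fun i j l a b c => ?_) allc
  · rw [← hr c]
    refine Finset.sum_congr rfl fun j _ => ?_
    rw [← sy c j]
    exact (congrFun (congrFun e j) c).symm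
  · simp only [beq_iff_eq] at a b c
    have : (A ^ 3).trace = ∑ i, ∑ l, ∑ j, A i j * A j l * A l i := by
      simp only [pow_succ, pow_zero, Matrix.one_mul, Matrix.trace, Matrix.diag, Matrix.mul_apply,
        Finset.sum_mul]
    rw [this, Finset.sum_eq_zero_iff] at h3
    have h4 := h3 i (Finset.mem_univ _)
    rw [Finset.sum_eq_zero_iff] at h4
    have h5 := h4 l (Finset.mem_univ _)
    rw [Finset.sum_eq_zero_iff] at h5
    have h6 := h5 j (Finset.mem_univ _)
    rw [a, c, sy i l, b] at h6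
    simp at h6

def trc (L : List (List ℕ)) (ts : List ℕ) : Bool :=
  forceM L fun A => forceM (mul A A) fun A2 => forceM (mul A2 A) fun A3 =>
  forceM (mul A3 A) fun A4 => forceM (mul A4 A) fun A5 => forceM (mul A5 A) fun A6 =>
  forceM (mul A6 A) fun A7 =>
    [ip A A, ip A A2, ip A2 A2, ip A2 A3, ip A3 A3, ip A3 A4, ip A4 A4, ip A4 A5, ip A5 A5,
      ip A5 A6, ip A6 A6, ip A6 A7, ip A7 A7] == ts

theorem trc_sound (A : Matrix (Fin 14) (Fin 14) ℕ) (hA : A.transpose = A) (ts : List ℕ)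
    (h : trc (ofM A) ts = true) :
    [(A ^ 2).trace, (A ^ 3).trace, (A ^ 4).trace, (A ^ 5).trace, (A ^ 6).trace, (A ^ 7).trace,
      (A ^ 8).trace, (A ^ 9).trace, (A ^ 10).trace, (A ^ 11).trace, (A ^ 12).trace,
      (A ^ 13).trace, (A ^ 14).trace] = ts := by
  have h2 : mul (ofM A) (ofM A) = ofM (A ^ 2) := by
    have := mul_pow' A hA 1
    rwa [pow_one] at this
  have h3 : mul (ofM (A ^ 2)) (ofM A) = ofM (A ^ 3) := mul_pow' A hA 2
  have h4 : mul (ofM (A ^ 3)) (ofM A) = ofM (A ^ 4) := mul_pow' A hA 3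
  have h5 : mul (ofM (A ^ 4)) (ofM A) = ofM (A ^ 5) := mul_pow' A hA 4
  have h6 : mul (ofM (A ^ 5)) (ofM A) = ofM (A ^ 6) := mul_pow' A hA 5
  have h7 : mul (ofM (A ^ 6)) (ofM A) = ofM (A ^ 7) := mul_pow' A hA 6
  have t2 : ip (ofM A) (ofM A) = (A ^ 2).trace := by
    have := ip_pow A hA 1 1
    rwa [pow_one] at this
  have t3 : ip (ofM A) (ofM (A ^ 2)) = (A ^ 3).trace := by
    have := ip_pow A hA 1 2
    rwa [pow_one] at this
  have t4 : ip (ofM (A ^ 2)) (ofM (A ^ 2)) = (A ^ 4).trace := ip_pow A hA 2 2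
  have t5 : ip (ofM (A ^ 2)) (ofM (A ^ 3)) = (A ^ 5).trace := ip_pow A hA 2 3
  have t6 : ip (ofM (A ^ 3)) (ofM (A ^ 3)) = (A ^ 6).trace := ip_pow A hA 3 3
  have t7 : ip (ofM (A ^ 3)) (ofM (A ^ 4)) = (A ^ 7).trace := ip_pow A hA 3 4
  have t8 : ip (ofM (A ^ 4)) (ofM (A ^ 4)) = (A ^ 8).trace := ip_pow A hA 4 4
  have t9 : ip (ofM (A ^ 4)) (ofM (A ^ 5)) = (A ^ 9).trace := ip_pow A hA 4 5
  have t10 : ip (ofM (A ^ 5)) (ofM (A ^ 5)) = (A ^ 10).trace := ip_pow A hA 5 5
  have t11 : ip (ofM (A ^ 5)) (ofM (A ^ 6)) = (A ^ 11).trace := ip_pow A hA 5 6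
  have t12 : ip (ofM (A ^ 6)) (ofM (A ^ 6)) = (A ^ 12).trace := ip_pow A hA 6 6
  have t13 : ip (ofM (A ^ 6)) (ofM (A ^ 7)) = (A ^ 13).trace := ip_pow A hA 6 7
  have t14 : ip (ofM (A ^ 7)) (ofM (A ^ 7)) = (A ^ 14).trace := ip_pow A hA 7 7
  unfold trc at h
  rw [forceM_eq, forceM_eq, h2, forceM_eq, h3, forceM_eq, h4, forceM_eq, h5, forceM_eq, h6,
    forceM_eq, h7, t2, t3, t4, t5, t6, t7, t8, t9, t10, t11, t12, t13, t14] at h
  exact eq_of_beq h

def Des (bl : List ℕ) : Dm := fun i j => if (bl.getD j.val 0).testBit i.val then 1 else 0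

def D0 : Dm := Des [3, 5, 9, 17, 33, 66, 130, 258, 514, 68, 132, 260, 516, 72, 136, 1032, 2056,
  80, 272, 1040, 2064, 96, 544, 4128, 8224, 4224, 8320, 4352, 8448, 1536, 2560, 5120, 9216,
  6144, 10240]

def D1 : Dm := Des [3, 5, 9, 17, 33, 66, 130, 258, 514, 68, 132, 260, 1028, 72, 136, 520, 2056,
  80, 272, 1040, 4112, 160, 544, 2080, 8224, 8256, 4224, 2304, 8448, 1536, 4608, 3072, 9216,
  6144, 12288]

theorem Des_le (bl : List ℕ) (i : Fin 14) (j : Fin 35) : Des bl i j ≤ 1 := by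
  unfold Des; split_ifs <;> simp

theorem D0_D : IsD D0 := ⟨by decide +kernel, by decide +kernel⟩
theorem D1_D : IsD D1 := ⟨by decide +kernel, by decide +kernel⟩

theorem D0_tr : trc (ofM (An D0)) [70, 0, 1190, 960, 24790, 40320, 550598, 1276992, 12649270,
    36495360, 297123110, 992462016, 7089455254] = true := by decide +kernel

theorem D1_tr : trc (ofM (An D1)) [70, 0, 1190, 980, 24514, 42560, 535318, 1368612, 12134570,
    39240740, 282966698, 1063513360, 6739988598] = true := by decide +kernel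

theorem D0_B : InB D0 := by
  refine ⟨D0_D, Des_le _, ?_⟩
  rw [SimpleGraph.connected_iff_exists_forall_reachable]
  refine ⟨0, fun v => ?_⟩
  have key : ∀ v : Fin 14, v = 0 ∨ 0 < An D0 0 v ∨ ∃ w, 0 < An D0 0 w ∧ 0 < An D0 w v := by
    decide +kernel
  have adj : ∀ i j, 0 < An D0 i j →
      (SimpleGraph.fromRel (fun i j : Fin 14 => 0 < (D0 * D0.transpose) i j)).Adj i j := by
    intro i j h
    unfold An at h
    split_ifs at h with hij
    · exact absurd h (lt_irrefl _)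
    · rw [SimpleGraph.fromRel_adj]
      exact ⟨hij, Or.inl h⟩
  rcases key v with h | h | ⟨w, h1, h2⟩
  · rw [h]
  · exact (adj _ _ h).reachable
  · exact (adj _ _ h1).reachable.trans (adj _ _ h2).reachable

end Pool.Agent.Lib.Helper30.Pat
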