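import Pool.Agent.Lib.helper30.PatD

set_option autoImplicit false

namespace Pool.Agent.Lib.Helper30.Pat

theorem lowpt (t : ℝ) (ht : t < 5) :
    ((827026600) * t ^ 0 + (165405110) * t ^ 1 + (33078905) * t ^ 2 + (6617791) * t ^ 3 + (1326563) * t ^ 4 + (263651) * t ^ 5 + (50956) * t ^ 6 + (10498) * t ^ 7 + (2551) * t ^ 8 + (549) * t ^ 9 + (72) * t ^ 10 + (4) * t ^ 11) * (2 / 64305 ^ 2) ≤ ((5 - t) / 2)⁻¹ := by
  have h5 : 0 < 5 - t := by linarith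
  rw [inv_div, le_div_iff₀ h5]
  have := sq_nonneg ((5) * t ^ 0 + (105) * t ^ 1 + (-44) * t ^ 2 + (-81) * t ^ 3 + (5) * t ^ 4 + (13) * t ^ 5 + (2) * t ^ 6)
  nlinarith [this]

theorem lower (s : Finset (Fin 14)) (t : Fin 14 → ℝ)
    (h0 : ∑ i ∈ s, t i ^ 0 = 14 - 5 ^ 0) (h1 : ∑ i ∈ s, t i ^ 1 = 0 - 5 ^ 1)
    (h2 : ∑ i ∈ s, t i ^ 2 = 70 - 5 ^ 2) (h3 : ∑ i ∈ s, t i ^ 3 = 0 - 5 ^ 3)
    (h4 : ∑ i ∈ s, t i ^ 4 = 1190 - 5 ^ 4) (h5 : ∑ i ∈ s, t i ^ 5 = 960 - 5 ^ 5)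
    (h6 : ∑ i ∈ s, t i ^ 6 = 24790 - 5 ^ 6) (h7 : ∑ i ∈ s, t i ^ 7 = 40320 - 5 ^ 7)
    (h8 : ∑ i ∈ s, t i ^ 8 = 550598 - 5 ^ 8) (h9 : ∑ i ∈ s, t i ^ 9 = 1276992 - 5 ^ 9)
    (h10 : ∑ i ∈ s, t i ^ 10 = 12649270 - 5 ^ 10) (h11 : ∑ i ∈ s, t i ^ 11 = 36495360 - 5 ^ 11)
    :
    (37657 / 7059 : ℝ) < ∑ i ∈ s, ((5 - t i) / 2)⁻¹ := by
  have hp : ∀ i ∈ s, t i < 5 := by
    intro i hi
    have : t i ^ 4 ≤ ∑ i ∈ s, t i ^ 4 :=
      Finset.single_le_sum (f := fun i => t i ^ 4) (fun j _ => by positivity) hi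
    by_contra hn
    have h : (5 : ℝ) ^ 4 ≤ t i ^ 4 := pow_le_pow_left₀ (by norm_num) (not_lt.mp hn) 4
    rw [h4] at this
    norm_num at this h
    linarith
  refine lt_of_lt_of_le ?_ (Finset.sum_le_sum fun i hi => lowpt (t i) (hp i hi))
  rw [← Finset.sum_mul]
  simp only [Finset.sum_add_distrib, ← Finset.mul_sum]
  rw [h0, h1, h2, h3, h4, h5, h6, h7, h8, h9, h10, h11]
  norm_num

theorem upper (s : Finset (Fin 14)) (t : Fin 14 → ℝ)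
    (h0 : ∑ i ∈ s, t i ^ 0 = 14 - 5 ^ 0) (h1 : ∑ i ∈ s, t i ^ 1 = 0 - 5 ^ 1)
    (h2 : ∑ i ∈ s, t i ^ 2 = 70 - 5 ^ 2) (h3 : ∑ i ∈ s, t i ^ 3 = 0 - 5 ^ 3)
    (h4 : ∑ i ∈ s, t i ^ 4 = 1190 - 5 ^ 4) (h5 : ∑ i ∈ s, t i ^ 5 = 980 - 5 ^ 5)
    (h6 : ∑ i ∈ s, t i ^ 6 = 24514 - 5 ^ 6) (h7 : ∑ i ∈ s, t i ^ 7 = 42560 - 5 ^ 7)
    (h8 : ∑ i ∈ s, t i ^ 8 = 535318 - 5 ^ 8) (h9 : ∑ i ∈ s, t i ^ 9 = 1368612 - 5 ^ 9)
    (h10 : ∑ i ∈ s, t i ^ 10 = 12134570 - 5 ^ 10) (h11 : ∑ i ∈ s, t i ^ 11 = 39240740 - 5 ^ 11)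
    (h12 : ∑ i ∈ s, t i ^ 12 = 282966698 - 5 ^ 12) (h13 : ∑ i ∈ s, t i ^ 13 = 1063513360 - 5 ^ 13)
    (h14 : ∑ i ∈ s, t i ^ 14 = 6739988598 - 5 ^ 14) :
    (∀ i ∈ s, t i ≠ 5) ∧ ∑ i ∈ s, ((5 - t i) / 2)⁻¹ = (37657 / 7059 : ℝ) := by
  have z : ∑ i ∈ s, ((1) * t i ^ 0 + (-5) * t i ^ 1 + (4) * t i ^ 2 + (10) * t i ^ 3 + (-9) * t i ^ 4 + (-7) * t i ^ 5 + (3) * t i ^ 6 + (1) * t i ^ 7) ^ 2 = 0 := by
    have : ∀ i, ((1) * t i ^ 0 + (-5) * t i ^ 1 + (4) * t i ^ 2 + (10) * t i ^ 3 + (-9) * t i ^ 4 + (-7) * t i ^ 5 + (3) * t i ^ 6 + (1) * t i ^ 7) ^ 2 =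
        (1) * t i ^ 0 + (-10) * t i ^ 1 + (33) * t i ^ 2 + (-20) * t i ^ 3 + (-102) * t i ^ 4 + (156) * t i ^ 5 + (104) * t i ^ 6 + (-264) * t i ^ 7 + (-45) * t i ^ 8 + (194) * t i ^ 9 + (15) * t i ^ 10 + (-60) * t i ^ 11 + (-5) * t i ^ 12 + (6) * t i ^ 13 + (1) * t i ^ 14 := fun i => by ring
    simp only [this, Finset.sum_add_distrib, ← Finset.mul_sum]
    rw [h0, h1, h2, h3, h4, h5, h6, h7, h8, h9, h10, h11, h12, h13, h14]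
    norm_num
  rw [Finset.sum_eq_zero_iff_of_nonneg (fun i _ => sq_nonneg _)] at z
  have z' : ∀ i ∈ s, (1) * t i ^ 0 + (-5) * t i ^ 1 + (4) * t i ^ 2 + (10) * t i ^ 3 + (-9) * t i ^ 4 + (-7) * t i ^ 5 + (3) * t i ^ 6 + (1) * t i ^ 7 = 0 :=
    fun i hi => pow_eq_zero_iff (two_ne_zero) |>.mp (z i hi)
  have ne : ∀ i ∈ s, t i ≠ 5 := by
    intro i hi h
    have := z' i hi
    rw [h] at this
    norm_num at this
  refine ⟨ne, ?_⟩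
  have e : ∀ i ∈ s, ((5 - t i) / 2)⁻¹ = ((19765) * t i ^ 0 + (3954) * t i ^ 1 + (790) * t i ^ 2 + (156) * t i ^ 3 + (33) * t i ^ 4 + (8) * t i ^ 5 + (1) * t i ^ 6) * (2 / 98826) := by
    intro i hi
    have h5 : 5 - t i ≠ 0 := sub_ne_zero.mpr (ne i hi).symm
    rw [inv_div, div_eq_iff h5]
    linear_combination (2 / 98826) * z' i hi
  rw [Finset.sum_congr rfl e, ← Finset.sum_mul]
  simp only [Finset.sum_add_distrib, ← Finset.mul_sum]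
  rw [h0, h1, h2, h3, h4, h5, h6]
  norm_num

theorem ev_sum (M : Dm) (s : Finset (Fin 14)) (lam : Fin 14 → ℝ) (h : ev M = s.val.map lam) :
    ((ev M).map fun x => x⁻¹).sum = ∑ i ∈ s, ((5 - (5 - 2 * lam i)) / 2)⁻¹ := by
  rw [h, Multiset.map_map]
  change ∑ i ∈ s, (lam i)⁻¹ = _
  refine Finset.sum_congr rfl fun i _ => ?_
  congr 1
  ring

theorem An_tr0 (M : Dm) : (An M ^ 0).trace = 14 := by simp

theorem An_tr1 (M : Dm) : (An M ^ 1).trace = 0 := by simp [Matrix.trace, An]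

theorem D1_val : (0 : ℝ) ∉ ev D1 ∧ ((ev D1).map fun x => x⁻¹).sum = 37657 / 7059 := by
  obtain ⟨s, lam, h1, h2⟩ := spec D1 D1_D
  have tr := trc_sound _ (An_symm D1) _ D1_tr
  simp only [List.cons.injEq, and_true] at tr
  obtain ⟨a2, a3, a4, a5, a6, a7, a8, a9, a10, a11, a12, a13, a14⟩ := tr
  have g := G_eq D1 D1_D (Des_le _)
  have u := upper s (fun i => 5 - 2 * lam i)
    (by rw [h2, g, An_tr0]; norm_num) (by rw [h2, g, An_tr1]; norm_num)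
    (by rw [h2, g, a2]; norm_num)
    (by rw [h2, g, a3]; norm_num)
    (by rw [h2, g, a4]; norm_num)
    (by rw [h2, g, a5]; norm_num)
    (by rw [h2, g, a6]; norm_num)
    (by rw [h2, g, a7]; norm_num)
    (by rw [h2, g, a8]; norm_num)
    (by rw [h2, g, a9]; norm_num)
    (by rw [h2, g, a10]; norm_num)
    (by rw [h2, g, a11]; norm_num)
    (by rw [h2, g, a12]; norm_num)
    (by rw [h2, g, a13]; norm_num)
    (by rw [h2, g, a14]; norm_num)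
  refine ⟨?_, by rw [ev_sum D1 s lam h1]; exact u.2⟩
  rw [h1, Multiset.mem_map]
  rintro ⟨i, hi, h0⟩
  exact u.1 i hi (by rw [h0]; norm_num)

theorem exists_lexmin : ∃ D, InB D ∧ ∀ D', InB D' → ∀ t : ℕ, 2 ≤ t →
    (∀ h : ℕ, 2 ≤ h → h < t → G D' h = G D h) → G D t ≤ G D' t := by
  have fin : {M : Dm | InB M}.Finite := by
    have : {M : Fin 14 → Fin 35 → ℕ | ∀ i, M i ∈ {f : Fin 35 → ℕ | ∀ j, f j ∈ Set.Iic 1}}.Finite :=
      Set.Finite.pi' fun _ => Set.Finite.pi' fun _ => Set.finite_Iic 1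
    exact this.subset fun M hM i j => hM.2.1 i j
  obtain ⟨D, hD, hmin⟩ := Set.exists_min_image {M : Dm | InB M}
    (fun M => (toLex fun h : ℕ => G M (h + 2) : Lex (ℕ → ℤ))) fin ⟨D0, D0_B⟩
  refine ⟨D, hD, fun D' hD' t ht h => ?_⟩
  by_contra hn
  refine absurd (hmin D' hD') (not_le.mpr ⟨t - 2, fun j hj => ?_, ?_⟩)
  · exact h (j + 2) (by omega) (by omega)
  · change G D' (t - 2 + 2) < G D (t - 2 + 2)
    rw [Nat.sub_add_cancel ht]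
    exact not_le.mp hn

theorem lexmin_val (D : Dm) (hD : InB D) (hmin : ∀ D', InB D' → ∀ t : ℕ, 2 ≤ t →
    (∀ h : ℕ, 2 ≤ h → h < t → G D' h = G D h) → G D t ≤ G D' t) :
    (37657 / 7059 : ℝ) < ((ev D).map fun x => x⁻¹).sum := by
  have tr := trc_sound _ (An_symm D0) _ D0_tr
  simp only [List.cons.injEq, and_true] at tr
  obtain ⟨a2, a3, a4, a5, -⟩ := tr
  have g0 := G_eq D0 D0_D (Des_le _)
  have g := G_eq D hD.1 hD.2.1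
  have m := hmin D0 D0_B
  obtain ⟨c1, c2⟩ := classify (An D) (An_symm D) (fun i => by simp [An]) (An_row D hD.1 hD.2.1)
  have m2 := m 2 le_rfl (fun h h1 h2 => by omega)
  rw [g, g0, a2] at m2
  have e2 : (An D ^ 2).trace = 70 := by omega
  have m3 := m 3 (by norm_num) (fun h h1 h2 => by
    interval_cases h
    rw [g, g0, a2, e2])
  rw [g, g0, a3] at m3
  have e3 : (An D ^ 3).trace = 0 := by omega
  have m4 := m 4 (by norm_num) (fun h h1 h2 => by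
    interval_cases h
    · rw [g, g0, a2, e2]
    · rw [g, g0, a3, e3])
  rw [g, g0, a4] at m4
  rcases c2 e2.le e3 with h | ⟨e4, h⟩
  · omega
  have m5 := m 5 (by norm_num) (fun h h1 h2 => by
    interval_cases h
    · rw [g, g0, a2, e2]
    · rw [g, g0, a3, e3]
    · rw [g, g0, a4, e4])
  rw [g, g0, a5] at m5
  rcases h with h | ⟨e5, e6, e7, e8, e9, e10, e11⟩
  · omega
  obtain ⟨s, lam, h1, h2⟩ := spec D hD.1
  rw [ev_sum D s lam h1]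
  exact lower s (fun i => 5 - 2 * lam i)
    (by rw [h2, g, An_tr0]; norm_num) (by rw [h2, g, An_tr1]; norm_num)
    (by rw [h2, g, e2]; norm_num)
    (by rw [h2, g, e3]; norm_num)
    (by rw [h2, g, e4]; norm_num)
    (by rw [h2, g, e5]; norm_num)
    (by rw [h2, g, e6]; norm_num)
    (by rw [h2, g, e7]; norm_num)
    (by rw [h2, g, e8]; norm_num)
    (by rw [h2, g, e9]; norm_num)
    (by rw [h2, g, e10]; norm_num)
    (by rw [h2, g, e11]; norm_num)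

theorem main : ¬ ∀ D, InB D →
    ((∀ D', IsD D' → (0 : ℝ) ∉ ev D' →
        ((0 : ℝ) ∉ ev D ∧ ((ev D).map (fun x => x⁻¹)).sum ≤ ((ev D').map (fun x => x⁻¹)).sum)) ↔
     (∀ D', InB D' → ∀ t : ℕ, 2 ≤ t →
        (∀ h : ℕ, 2 ≤ h → h < t → G D' h = G D h) → G D t ≤ G D' t)) := by
  intro H
  obtain ⟨D, hD, hmin⟩ := exists_lexmin
  have h1 := ((H D hD).mpr hmin D1 D1_D D1_val.1).2
  rw [D1_val.2] at h1
  exact absurd (lexmin_val D hD hmin) (not_lt.mpr h1)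

end Pool.Agent.Lib.Helper30.Pat
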