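import Mathlib

set_option autoImplicit false
set_option maxHeartbeats 400000

namespace Pool.Agent.Lib.Helper30.Rig

abbrev E3 := EuclideanSpace ℝ (Fin 3)

/-- the wrench of a force at a point -/
def wr {R : Type} [CommRing R] (a p : Fin 3 → R) : Fin 6 → R :=
  ![p 1 * a 2 - p 2 * a 1, p 2 * a 0 - p 0 * a 2, p 0 * a 1 - p 1 * a 0, a 0, a 1, a 2]

def Est (w : Fin 7 → Fin 6 → ℝ) : Prop :=
  ∃ C : ℝ, 0 ≤ C ∧ ∀ (u : Fin 6 → ℝ) (ε : ℝ), 0 ≤ ε → (∀ k, -ε ≤ ∑ c, w k c * u c) →
    ∀ t, |u t| ≤ C * ε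

lemma lin_est (w : Fin 7 → Fin 6 → ℝ) (α : Fin 7 → ℝ) (hα : ∀ k, 1 ≤ α k)
    (h0 : ∀ c, ∑ k, α k * w k c = 0) (B : Fin 6 → Fin 7 → ℝ) (M : ℝ) (hM : 1 ≤ M)
    (hB : ∀ t c, ∑ k, B t k * w k c = if t = c then M else 0) : Est w := by
  have hs : 1 ≤ ∑ k, α k := le_trans (hα 0)
    (Finset.single_le_sum (fun k _ => by linarith [hα k]) (Finset.mem_univ 0))
  refine ⟨(∑ t, ∑ k, |B t k|) * ∑ k, α k, by positivity, fun u ε hε hu t => ?_⟩
  have e1 : ∑ k, α k * (∑ c, w k c * u c) = 0 := by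
    simp only [Finset.mul_sum, ← mul_assoc]
    rw [Finset.sum_comm]
    simp only [← Finset.sum_mul, h0, zero_mul, Finset.sum_const_zero]
  have e2 : ∀ k, |∑ c, w k c * u c| ≤ (∑ k, α k) * ε := by
    intro k
    rw [abs_le]
    refine ⟨by nlinarith [hu k], ?_⟩
    have h1 : α k * (∑ c, w k c * u c + ε) ≤ ∑ l, α l * (∑ c, w l c * u c + ε) :=
      Finset.single_le_sum (f := fun l => α l * (∑ c, w l c * u c + ε))
        (fun l _ => mul_nonneg (by linarith [hα l]) (by linarith [hu l])) (Finset.mem_univ k)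
    simp only [mul_add, Finset.sum_add_distrib, e1, zero_add, ← Finset.sum_mul] at h1
    nlinarith [hα k, hu k]
  have e3 : M * u t = ∑ k, B t k * (∑ c, w k c * u c) := by
    simp only [Finset.mul_sum, ← mul_assoc]
    rw [Finset.sum_comm]
    simp only [← Finset.sum_mul, hB, ite_mul, zero_mul]
    simp
  have e4 : |M * u t| ≤ (∑ k, |B t k|) * ((∑ k, α k) * ε) := by
    rw [e3, Finset.sum_mul]
    refine (Finset.abs_sum_le_sum_abs _ _).trans (Finset.sum_le_sum fun k _ => ?_)
    rw [abs_mul]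
    exact mul_le_mul_of_nonneg_left (e2 k) (abs_nonneg _)
  have e5 : ∑ k, |B t k| ≤ ∑ t, ∑ k, |B t k| :=
    Finset.single_le_sum (f := fun t => ∑ k, |B t k|) (fun _ _ => by positivity) (Finset.mem_univ t)
  rw [abs_mul, abs_of_pos (by linarith : 0 < M)] at e4
  have e6 : (∑ k, |B t k|) * ((∑ k, α k) * ε) ≤ (∑ t, ∑ k, |B t k|) * ((∑ k, α k) * ε) :=
    mul_le_mul_of_nonneg_right e5 (by positivity)
  nlinarith [abs_nonneg (u t)]

noncomputable def e (c : Fin 3) : E3 := EuclideanSpace.single c 1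

lemma inner3 (x y : E3) : inner ℝ x y = x 0 * y 0 + x 1 * y 1 + x 2 * y 2 := by
  simp [PiLp.inner_apply, Fin.sum_univ_three, mul_comm]

lemma loc (a p : Fin 7 → E3) (hlin : Est fun k => wr (a k) (p k)) :
    ∃ δ : ℝ, 0 < δ ∧ ∀ g : E3 → E3, Isometry g →
      (∀ r c, |g (e c) r - g 0 r - e c r| < δ) → (∀ k, 0 ≤ inner ℝ (a k) (g (p k) - p k)) →
      ∀ x, g x = x := by
  obtain ⟨C, hC, hlin⟩ := hlin
  set D : ℝ := 2 * ∑ k, ∑ r, ∑ c, |a k r * p k c| with hD
  have hD0 : 0 ≤ D := by positivity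
  refine ⟨1 / (2 + C * D), by positivity, fun g hg hδ hk => ?_⟩
  set f := hg.affineIsometryOfStrictConvexSpace with hf
  have hA : ∀ x, g x = f.linearIsometry x + g 0 := by
    intro x
    have := f.map_vadd 0 x
    simpa [hf] using this
  set m : Fin 3 → Fin 3 → ℝ := fun r c => g (e c) r - g 0 r - e c r with hm
  have hAe : ∀ r c, f.linearIsometry (e c) r = m r c + e c r := by
    intro r c
    simp only [hm]
    rw [hA (e c)]
    simp
  have hx : ∀ (x : E3) r, g x r = x r + ∑ c, m r c * x c + g 0 r := by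
    intro x r
    have : x = x 0 • e 0 + x 1 • e 1 + x 2 • e 2 := by
      ext r; fin_cases r <;> simp [e]
    rw [hA x]
    conv_lhs => rw [this]
    simp only [map_add, map_smul, PiLp.add_apply, PiLp.smul_apply, hAe, smul_eq_mul,
      Fin.sum_univ_three]
    fin_cases r <;> simp [e] <;> ring
  obtain ⟨rc, hrc⟩ := Finite.exists_max (fun rc : Fin 3 × Fin 3 => |m rc.1 rc.2|)
  set μ := |m rc.1 rc.2| with hμ
  have hμ0 : 0 ≤ μ := abs_nonneg _
  have hb : ∀ r c, |m r c| ≤ μ := fun r c => hrc (r, c)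
  have hb2 : ∀ q r c, |m q r * m q c| ≤ μ ^ 2 := by
    intro q r c
    rw [abs_mul, sq]
    exact mul_le_mul (hb _ _) (hb _ _) (abs_nonneg _) hμ0
  have hS : ∀ r c, |m r c + m c r| ≤ 3 * μ ^ 2 := by
    intro r c
    have h := f.linearIsometry.inner_map_map (e r) (e c)
    rw [inner3, inner3] at h
    simp only [hAe] at h
    have : m r c + m c r = -(m 0 r * m 0 c + m 1 r * m 1 c + m 2 r * m 2 c) := by
      fin_cases r <;> fin_cases c <;> simp [e] at h ⊢ <;> linarith
    rw [this, abs_neg]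
    have := abs_add_three (m 0 r * m 0 c) (m 1 r * m 1 c) (m 2 r * m 2 c)
    linarith [hb2 0 r c, hb2 1 r c, hb2 2 r c]
  have hu := hlin ![(m 2 1 - m 1 2) / 2, (m 0 2 - m 2 0) / 2, (m 1 0 - m 0 1) / 2,
    g 0 0, g 0 1, g 0 2] (D * μ ^ 2) (by positivity) (fun k => by
      have h := hk k
      rw [inner3] at h
      simp only [PiLp.sub_apply, hx (p k), Fin.sum_univ_three] at h
      have h1 : |∑ r, ∑ c, a k r * p k c * (m r c + m c r)| ≤
          (∑ r, ∑ c, |a k r * p k c|) * (3 * μ ^ 2) := by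
        rw [Finset.sum_mul]
        refine (Finset.abs_sum_le_sum_abs _ _).trans (Finset.sum_le_sum fun r _ => ?_)
        rw [Finset.sum_mul]
        refine (Finset.abs_sum_le_sum_abs _ _).trans (Finset.sum_le_sum fun c _ => ?_)
        rw [abs_mul]
        exact mul_le_mul_of_nonneg_left (hS r c) (abs_nonneg _)
      have h2 : ∑ r, ∑ c, |a k r * p k c| ≤ ∑ k, ∑ r, ∑ c, |a k r * p k c| :=
        Finset.single_le_sum (f := fun k => ∑ r, ∑ c, |a k r * p k c|)
          (fun _ _ => by positivity) (Finset.mem_univ k)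
      have h3 : (∑ r, ∑ c, |a k r * p k c|) * (3 * μ ^ 2) ≤ 2 * (D * μ ^ 2) := by
        have : 0 ≤ ∑ r, ∑ c, |a k r * p k c| := by positivity
        rw [hD]; nlinarith [sq_nonneg μ]
      have h4 := (abs_le.1 (h1.trans h3)).2
      simp only [Fin.sum_univ_three] at h4
      simp only [Fin.sum_univ_six, wr]
      simp
      linarith)
  have u0 := hu 0
  have u1 := hu 1
  have u2 := hu 2
  have u3 := hu 3
  have u4 := hu 4
  have u5 := hu 5
  simp at u0 u1 u2 u3 u4 u5
  have hm2 : ∀ r c, |m r c| ≤ (2 + C * D) * μ ^ 2 := by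
    intro r c
    have h := abs_le.1 (hS r c)
    have v0 := abs_le.1 u0
    have v1 := abs_le.1 u1
    have v2 := abs_le.1 u2
    have w1 : 0 ≤ C * (D * μ ^ 2) := by positivity
    have w2 : 0 ≤ μ ^ 2 := by positivity
    have w3 : (2 + C * D) * μ ^ 2 = 2 * μ ^ 2 + C * (D * μ ^ 2) := by ring
    rw [abs_le, w3]
    clear_value μ m
    obtain ⟨h1, h2⟩ := h
    obtain ⟨v01, v02⟩ := v0
    obtain ⟨v11, v12⟩ := v1
    obtain ⟨v21, v22⟩ := v2
    fin_cases r <;> fin_cases c <;>
      simp only [Fin.zero_eta, Fin.mk_one, Fin.reduceFinMk] at h1 h2 ⊢ <;> constructor <;> linarith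
  have hμz : μ = 0 := by
    have h1 := hm2 rc.1 rc.2
    have h2 := hδ rc.1 rc.2
    rw [lt_div_iff₀ (by positivity)] at h2
    by_contra hh
    have : 0 < μ := lt_of_le_of_ne hμ0 (Ne.symm hh)
    change μ * _ < 1 at h2
    rw [← hμ] at h1
    nlinarith
  intro x
  ext r
  have hz : ∀ r c, m r c = 0 := fun r c => abs_nonpos_iff.1 (hμz ▸ hb r c)
  rw [hμz] at u3 u4 u5
  simp at u3 u4 u5
  rw [hx]
  fin_cases r <;> simp [hz, u3, u4, u5]

lemma contact {K L : Set E3} (hK : Convex ℝ K) (hne : (interior K).Nonempty) {p : E3} (hp : p ∈ K)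
    {g : E3 → E3} (hg : Isometry g) (hd : Disjoint (interior (g '' K)) (interior L)) :
    g p ∉ interior L := by
  intro h
  have h1 : p ∈ closure (interior K) := by
    rw [hK.closure_interior_eq_closure_of_nonempty_interior hne]
    exact subset_closure hp
  obtain ⟨x, hx1, hx2⟩ := mem_closure_iff.1 h1 (g ⁻¹' interior L)
    (isOpen_interior.preimage hg.continuous) h
  have ho : IsOpenMap g := by
    have := (hg.affineIsometryOfStrictConvexSpace.toAffineIsometryEquiv rfl).toHomeomorph.isOpenMap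
    simpa using this
  exact Set.disjoint_left.1 hd (ho.image_interior_subset K ⟨x, hx2, rfl⟩) hx1

lemma glob {ι : Type} (K : Set E3) (L : ι → Set E3) (hK : Convex ℝ K) (hne : (interior K).Nonempty)
    (a p : Fin 7 → E3) (J : Fin 7 → ι) (hp : ∀ k, p k ∈ K) (r : ℝ) (hr : 0 < r)
    (hJ : ∀ k x, ‖x - p k‖ < r → inner ℝ (a k) (x - p k) < 0 → x ∈ interior (L (J k)))
    (hlin : Est fun k => wr (a k) (p k))
    (γ : unitInterval → E3 → E3) (h1 : ∀ t, Isometry (γ t))
    (h2 : Continuous fun q : unitInterval × E3 => γ q.1 q.2) (h3 : ∀ x, γ 0 x = x)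
    (h4 : ∀ t k, Disjoint (interior (γ t '' K)) (interior (L (J k)))) : ∀ t x, γ t x = x := by
  obtain ⟨δ, hδ, hloc⟩ := loc a p hlin
  have hc : ∀ x, Continuous fun t => γ t x := fun x =>
    h2.comp (continuous_id.prodMk continuous_const)
  have hcl : IsClopen {t | ∀ x, γ t x = x} := by
    constructor
    · rw [Set.setOf_forall]
      exact isClosed_iInter fun x => isClosed_eq (hc x) continuous_const
    · rw [isOpen_iff_eventually]
      intro t ht
      have a1 : ∀ᶠ s in nhds t, ∀ r c, |γ s (e c) r - γ s 0 r - e c r| < δ := by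
        simp only [Filter.eventually_all]
        intro r c
        have := hc (e c)
        have := hc 0
        refine ContinuousAt.eventually_lt (Continuous.continuousAt (by fun_prop))
          continuousAt_const ?_
        simpa [ht _] using hδ
      have a2 : ∀ᶠ s in nhds t, ∀ k, ‖γ s (p k) - p k‖ < r := by
        simp only [Filter.eventually_all]
        intro k
        have := hc (p k)
        refine ContinuousAt.eventually_lt (Continuous.continuousAt (by fun_prop))
          continuousAt_const ?_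
        simpa [ht _] using hr
      filter_upwards [a1, a2] with s hs1 hs2
      refine hloc (γ s) (h1 s) hs1 fun k => ?_
      by_contra hh
      exact contact hK hne (hp k) (h1 s) (h4 s k) (hJ k _ (hs2 k) (not_le.1 hh))
  have := hcl.eq_univ ⟨0, h3⟩
  intro t
  have ht : t ∈ {t | ∀ x, γ t x = x} := this ▸ Set.mem_univ t
  exact ht

end Pool.Agent.Lib.Helper30.Rig
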