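import Pool.Agent.Lib.helper30.RigA

set_option autoImplicit false
set_option maxHeartbeats 400000

namespace Pool.Agent.Lib.Helper30.Rig

open Pointwise

/-- a rounded polytope -/
def body {n : ℕ} (a : Fin n → E3) (d : Fin n → ℝ) (ε R : ℝ) : Set E3 :=
  ({x | ∀ j, ε * ‖a j‖ + d j ≤ inner ℝ (a j) x} ∩ Metric.closedBall 0 R) + Metric.closedBall 0 ε

section
variable {n : ℕ} (a : Fin n → E3) (d : Fin n → ℝ) (ε R : ℝ)

lemma body_compact : IsCompact (body a d ε R) := by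
  refine IsCompact.add ((isCompact_closedBall 0 R).inter_left ?_) (isCompact_closedBall 0 ε)
  rw [Set.setOf_forall]
  exact isClosed_iInter fun j => isClosed_le continuous_const (by fun_prop)

lemma body_convex : Convex ℝ (body a d ε R) := by
  refine Convex.add (Convex.inter ?_ (convex_closedBall 0 R)) (convex_closedBall 0 ε)
  rw [Set.setOf_forall]
  exact convex_iInter fun j => convex_halfSpace_ge (innerₛₗ ℝ (a j)).isLinear _

variable {a d ε R}

lemma body_sub {x : E3} (hx : x ∈ body a d ε R) (j : Fin n) : d j ≤ inner ℝ (a j) x := by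
  obtain ⟨q, ⟨hq, -⟩, w, hw, rfl⟩ := hx
  have h1 := hq j
  have h2 := abs_le.1 (abs_real_inner_le_norm (a j) w)
  rw [mem_closedBall_zero_iff] at hw
  simp only [inner_add_right]
  nlinarith [norm_nonneg (a j)]

lemma body_int (hε : 0 < ε) {x : E3} (hx : x ∈ body a d ε R) :
    (interior (body a d ε R)).Nonempty := by
  obtain ⟨q, hq, w, hw, rfl⟩ := hx
  refine ⟨q, mem_interior.2 ⟨Metric.ball q ε, fun y hy => ⟨q, hq, y - q, ?_, by simp⟩,
    Metric.isOpen_ball, Metric.mem_ball_self hε⟩⟩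
  rw [mem_closedBall_zero_iff, ← dist_eq_norm]
  exact le_of_lt hy

lemma body_smooth (hε : 0 < ε) {x : E3} (hx : x ∈ body a d ε R) (u v : E3) (hu : u ≠ 0)
    (hv : v ≠ 0) (h1 : ∀ y ∈ body a d ε R, inner ℝ u (y - x) ≤ 0)
    (h2 : ∀ y ∈ body a d ε R, inner ℝ v (y - x) ≤ 0) : ∃ c : ℝ, 0 < c ∧ v = c • u := by
  obtain ⟨q, hq, w, hw, rfl⟩ := hx
  rw [mem_closedBall_zero_iff] at hw
  have key : ∀ u : E3, u ≠ 0 → (∀ y ∈ body a d ε R, inner ℝ u (y - (q + w)) ≤ 0) →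
      w = (ε / ‖u‖) • u := by
    intro u hu h
    have hn : 0 < ‖u‖ := norm_pos_iff.2 hu
    have e1 : ‖(ε / ‖u‖) • u‖ = ε := by
      rw [norm_smul, Real.norm_of_nonneg (by positivity)]; field_simp
    have := h (q + (ε / ‖u‖) • u) ⟨q, hq, _, mem_closedBall_zero_iff.2 e1.le, rfl⟩
    rw [add_sub_add_left_eq_sub, inner_sub_right, inner_smul_right, real_inner_self_eq_norm_sq]
      at this
    have e2 := norm_sub_sq_real w ((ε / ‖u‖) • u)
    rw [e1, inner_smul_right, real_inner_comm] at e2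
    have e3 : ε / ‖u‖ * (ε / ‖u‖ * ‖u‖ ^ 2) = ε ^ 2 := by field_simp
    have e4 : ε / ‖u‖ * (ε / ‖u‖ * ‖u‖ ^ 2) ≤ ε / ‖u‖ * inner ℝ u w :=
      mul_le_mul_of_nonneg_left (by linarith) (by positivity)
    have e5 : ‖w‖ ^ 2 ≤ ε ^ 2 := by gcongr
    have e6 : ‖w - (ε / ‖u‖) • u‖ ^ 2 = 0 := le_antisymm (by linarith) (by positivity)
    exact sub_eq_zero.1 (by simpa using e6)
  have k1 := key u hu h1
  have k2 := key v hv h2
  have hn : 0 < ‖u‖ := norm_pos_iff.2 hu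
  have hm : 0 < ‖v‖ := norm_pos_iff.2 hv
  refine ⟨‖v‖ / ‖u‖, by positivity, ?_⟩
  have : v = (‖v‖ / ε) • (ε / ‖v‖) • v := by
    rw [smul_smul]
    have : ‖v‖ / ε * (ε / ‖v‖) = 1 := by field_simp
    rw [this, one_smul]
  rw [← k2, k1, smul_smul] at this
  refine this.trans ?_
  congr 1
  field_simp

lemma mem_body (hε : 0 < ε) (hN : ∀ j, 3 * ε * ‖a j‖ ≤ 1) {j : Fin n} (hj : a j ≠ 0) {p x : E3}
    (hx : ‖x - p‖ ≤ ε) (h1 : d j ≤ inner ℝ (a j) x)
    (h2 : ∀ m, m ≠ j → (a m = 0 ∧ d m = 0) ∨ 1 + d m ≤ inner ℝ (a m) p) (hR : ‖p‖ + 2 * ε ≤ R) :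
    x ∈ body a d ε R := by
  have hn : 0 < ‖a j‖ := norm_pos_iff.2 hj
  have e1 : ‖(ε / ‖a j‖) • a j‖ = ε := by
    rw [norm_smul, Real.norm_of_nonneg (by positivity)]; field_simp
  have e2 : ‖x + (ε / ‖a j‖) • a j - p‖ ≤ 2 * ε := by
    have := norm_add_le (x - p) ((ε / ‖a j‖) • a j)
    rw [add_sub_right_comm]; linarith
  refine ⟨x + (ε / ‖a j‖) • a j, ⟨fun m => ?_, ?_⟩, -((ε / ‖a j‖) • a j), ?_, by simp⟩
  · by_cases e : m = j
    · subst e
      rw [inner_add_right, inner_smul_right, real_inner_self_eq_norm_sq]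
      have : ε / ‖a m‖ * ‖a m‖ ^ 2 = ε * ‖a m‖ := by field_simp
      linarith
    · rcases h2 m e with ⟨h, h'⟩ | h
      · simp [h, h']
      · have h3 := abs_le.1 (abs_real_inner_le_norm (a m) (x + (ε / ‖a j‖) • a j - p))
        rw [inner_sub_right] at h3
        have := mul_le_mul_of_nonneg_left e2 (norm_nonneg (a m))
        linarith [hN m]
  · rw [mem_closedBall_zero_iff]
    have := norm_add_le (x + (ε / ‖a j‖) • a j - p) p
    rw [sub_add_cancel] at this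
    linarith
  · rw [mem_closedBall_zero_iff, norm_neg, e1]

end

lemma int_pos {K : Set E3} {a : E3} (ha : a ≠ 0) {d : ℝ} (h : ∀ x ∈ K, d ≤ inner ℝ a x) {x : E3}
    (hx : x ∈ interior K) : d < inner ℝ a x := by
  have h1 : ∀ᶠ t : ℝ in nhds 0, x - t • a ∈ K := by
    have : Filter.Tendsto (fun t : ℝ => x - t • a) (nhds 0) (nhds x) := by
      have : Continuous fun t : ℝ => x - t • a := by fun_prop
      simpa using this.tendsto 0
    exact this (mem_interior_iff_mem_nhds.1 hx)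
  obtain ⟨t, ht1, ht2⟩ := ((h1.filter_mono nhdsWithin_le_nhds).and
    (self_mem_nhdsWithin (s := Set.Ioi (0 : ℝ)) (a := 0))).exists
  have := h _ ht1
  rw [inner_sub_right, inner_smul_right, real_inner_self_eq_norm_sq] at this
  have h3 : 0 < t * ‖a‖ ^ 2 := mul_pos ht2 (pow_pos (norm_pos_iff.2 ha) 2)
  linarith

theorem build {n : ℕ} (a : Fin n → Fin n → E3) (d : Fin n → Fin n → ℝ)
    (ha : ∀ i j, a j i = -a i j) (hd : ∀ i j, d j i = -d i j) (hne : ∀ i j, i ≠ j → a i j ≠ 0)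
    (J : Fin n → Fin 7 → Fin n) (p : Fin n → Fin 7 → E3) (hJ : ∀ i k, J i k ≠ i)
    (h1 : ∀ i k, inner ℝ (a i (J i k)) (p i k) = d i (J i k))
    (h2 : ∀ i k m, m ≠ i → m ≠ J i k → 1 + d i m ≤ inner ℝ (a i m) (p i k) ∧
      1 + d (J i k) m ≤ inner ℝ (a (J i k) m) (p i k))
    (hlin : ∀ i, Est fun k => wr (a i (J i k)) (p i k)) :
    ∃ K : Fin n → Set E3,
      (∀ i, IsCompact (K i) ∧ Convex ℝ (K i) ∧ (interior (K i)).Nonempty ∧
        (∀ x ∈ frontier (K i), ∀ u v : E3, u ≠ 0 → v ≠ 0 →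
          (∀ y ∈ K i, inner ℝ u (y - x) ≤ 0) → (∀ y ∈ K i, inner ℝ v (y - x) ≤ 0) →
          ∃ c : ℝ, 0 < c ∧ v = c • u)) ∧
      (∀ i j, i ≠ j → Disjoint (interior (K i)) (interior (K j))) ∧
      ∀ i, ∀ γ : unitInterval → E3 → E3, (∀ t, Isometry (γ t)) →
        Continuous (fun q : unitInterval × E3 => γ q.1 q.2) → (∀ x, γ 0 x = x) →
        (∀ t, ∀ j, j ≠ i → Disjoint (interior (γ t '' K i)) (interior (K j))) →
        ∀ t x, γ t x = x := by
  set N : ℝ := 1 + ∑ i, ∑ j, ‖a i j‖ with hN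
  have hN0 : 0 < N := by positivity
  set ε : ℝ := 1 / (3 * N) with hε
  have hε0 : 0 < ε := by positivity
  have hεN : ∀ i j, 3 * ε * ‖a i j‖ ≤ 1 := by
    intro i j
    have a1 : ‖a i j‖ ≤ ∑ j, ‖a i j‖ :=
      Finset.single_le_sum (f := fun j => ‖a i j‖) (fun _ _ => by positivity) (Finset.mem_univ j)
    have a2 : ∑ j, ‖a i j‖ ≤ ∑ i, ∑ j, ‖a i j‖ :=
      Finset.single_le_sum (f := fun i => ∑ j, ‖a i j‖) (fun _ _ => by positivity)
        (Finset.mem_univ i)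
    have a3 : 3 * ε * N = 1 := by rw [hε]; field_simp
    nlinarith
  set R : ℝ := ∑ i, ∑ k, ‖p i k‖ + 2 * ε with hR
  have hpR : ∀ i k, ‖p i k‖ + 2 * ε ≤ R := by
    intro i k
    have a1 : ‖p i k‖ ≤ ∑ k, ‖p i k‖ :=
      Finset.single_le_sum (f := fun k => ‖p i k‖) (fun _ _ => by positivity) (Finset.mem_univ k)
    have a2 : ∑ k, ‖p i k‖ ≤ ∑ i, ∑ k, ‖p i k‖ :=
      Finset.single_le_sum (f := fun i => ∑ k, ‖p i k‖) (fun _ _ => by positivity)
        (Finset.mem_univ i)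
    linarith
  have ha0 : ∀ i, a i i = 0 ∧ d i i = 0 := by
    intro i
    refine ⟨?_, by linarith [hd i i]⟩
    ext r
    have := congrArg (fun x : E3 => x r) (ha i i)
    simp only [PiLp.neg_apply] at this
    simp only [PiLp.zero_apply]
    linarith
  have hp : ∀ i k, p i k ∈ body (a i) (d i) ε R := by
    intro i k
    refine mem_body hε0 (hεN i) (hne i (J i k) (hJ i k).symm) (p := p i k) (by simpa using hε0.le)
      (h1 i k).ge (fun m hm => ?_) (hpR i k)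
    by_cases e : m = i
    · exact Or.inl (e ▸ ha0 i)
    · exact Or.inr (h2 i k m e hm).1
  refine ⟨fun i => body (a i) (d i) ε R, fun i => ⟨body_compact _ _ _ _, body_convex _ _ _ _,
    body_int hε0 (hp i 0), fun x hx => body_smooth hε0
      ((body_compact _ _ _ _).isClosed.frontier_subset hx)⟩, fun i j hij => ?_,
    fun i γ g1 g2 g3 g4 => ?_⟩
  · rw [Set.disjoint_left]
    intro x hx hy
    have b1 := int_pos (hne i j hij) (fun y hy => body_sub hy j) hx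
    have b2 := int_pos (hne j i hij.symm) (fun y hy => body_sub hy i) hy
    rw [ha i j, hd i j, inner_neg_left] at b2
    linarith
  · refine glob _ (fun j => body (a j) (d j) ε R) (body_convex _ _ _ _) (body_int hε0 (hp i 0))
      (fun k => a i (J i k)) (p i) (J i) (hp i) ε hε0 (fun k x hx1 hx2 => ?_) (hlin i) γ g1 g2 g3
      (fun t k => g4 t _ (hJ i k))
    refine mem_interior.2 ⟨{y | ‖y - p i k‖ < ε} ∩ {y | inner ℝ (a i (J i k)) (y - p i k) < 0},
      fun y hy => ?_, (isOpen_lt (by fun_prop) continuous_const).inter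
        (isOpen_lt (by fun_prop) continuous_const), hx1, hx2⟩
    refine mem_body hε0 (hεN _) (hne (J i k) i (hJ i k)) (p := p i k) (le_of_lt hy.1) ?_
      (fun m hm => ?_) (hpR i k)
    · have := hy.2
      simp only [Set.mem_setOf_eq, inner_sub_right, h1] at this
      rw [ha i, hd i, inner_neg_left]
      linarith
    · by_cases e : m = J i k
      · exact Or.inl (e ▸ ha0 _)
      · exact Or.inr (h2 i k m hm e).2

def dotZ (a p : Fin 3 → ℤ) : ℤ := a 0 * p 0 + a 1 * p 1 + a 2 * p 2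

noncomputable def cv (a : Fin 3 → ℤ) : E3 := WithLp.toLp 2 fun r => (a r : ℝ)

lemma cv_inner (a p : Fin 3 → ℤ) : inner ℝ (cv a) (cv p) = (dotZ a p : ℝ) := by
  rw [inner3]; simp [cv, dotZ]

theorem buildZ {n : ℕ} (a : Fin n → Fin n → Fin 3 → ℤ) (d : Fin n → Fin n → ℤ)
    (ha : ∀ i j r, a j i r = -a i j r) (hd : ∀ i j, d j i = -d i j)
    (hne : ∀ i j, i ≠ j → ∃ r, a i j r ≠ 0)
    (J : Fin n → Fin 7 → Fin n) (p : Fin n → Fin 7 → Fin 3 → ℤ) (hJ : ∀ i k, J i k ≠ i)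
    (h1 : ∀ i k, dotZ (a i (J i k)) (p i k) = d i (J i k))
    (h2 : ∀ i k m, m ≠ i → m ≠ J i k → 1 + d i m ≤ dotZ (a i m) (p i k) ∧
      1 + d (J i k) m ≤ dotZ (a (J i k) m) (p i k))
    (α : Fin n → Fin 7 → ℤ) (hα : ∀ i k, 1 ≤ α i k)
    (h0 : ∀ i c, ∑ k, α i k * wr (a i (J i k)) (p i k) c = 0) (B : Fin n → Fin 6 → Fin 7 → ℤ)
    (M : Fin n → ℤ) (hM : ∀ i, 1 ≤ M i)
    (hB : ∀ i t c, ∑ k, B i t k * wr (a i (J i k)) (p i k) c = if t = c then M i else 0) :
    ∃ K : Fin n → Set E3,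
      (∀ i, IsCompact (K i) ∧ Convex ℝ (K i) ∧ (interior (K i)).Nonempty ∧
        (∀ x ∈ frontier (K i), ∀ u v : E3, u ≠ 0 → v ≠ 0 →
          (∀ y ∈ K i, inner ℝ u (y - x) ≤ 0) → (∀ y ∈ K i, inner ℝ v (y - x) ≤ 0) →
          ∃ c : ℝ, 0 < c ∧ v = c • u)) ∧
      (∀ i j, i ≠ j → Disjoint (interior (K i)) (interior (K j))) ∧
      ∀ i, ∀ γ : unitInterval → E3 → E3, (∀ t, Isometry (γ t)) →
        Continuous (fun q : unitInterval × E3 => γ q.1 q.2) → (∀ x, γ 0 x = x) →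
        (∀ t, ∀ j, j ≠ i → Disjoint (interior (γ t '' K i)) (interior (K j))) →
        ∀ t x, γ t x = x := by
  have hw : ∀ (x y : Fin 3 → ℤ) c, wr (cv x) (cv y) c = ((wr x y c : ℤ) : ℝ) := by
    intro x y c
    fin_cases c <;> simp [wr, cv]
  refine build (fun i j => cv (a i j)) (fun i j => d i j) (fun i j => ?_) (fun i j => ?_)
    (fun i j hij => ?_) J (fun i k => cv (p i k)) hJ (fun i k => ?_) (fun i k m hm1 hm2 => ?_)
    (fun i => lin_est _ (fun k => α i k) (fun k => ?_) (fun c => ?_) (fun t k => B i t k) (M i) ?_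
      (fun t c => ?_))
  · ext r
    simp [cv, ha i j r]
  · simp [hd i j]
  · obtain ⟨r, hr⟩ := hne i j hij
    intro h
    apply hr
    simpa [cv] using congrArg (fun x : E3 => x r) h
  · rw [cv_inner, h1]
  · simp only [cv_inner]
    exact_mod_cast h2 i k m hm1 hm2
  · exact_mod_cast hα i k
  · simp only [hw]
    exact_mod_cast h0 i c
  · exact_mod_cast hM i
  · simp only [hw]
    exact_mod_cast hB i t c

end Pool.Agent.Lib.Helper30.Rig
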