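import Mathlib

set_option autoImplicit false

namespace Pool.Agent.Lib.Helper30.Sig

open Finset

section general
variable {W : Type} [Fintype W] [DecidableEq W]

theorem card_parts (P : Finpartition (univ : Finset W)) (rk : W → ℕ)
    (h : ∀ u v, P.part u = P.part v → rk u = rk v → u = v)
    (NR : Finset W) (hNR : ∀ v, v ∈ NR ↔ ∃ u, P.part u = P.part v ∧ rk u < rk v) :
    P.parts.card + NR.card = Fintype.card W := by
  have : P.parts.card = NRᶜ.card := by
    symm
    refine Finset.card_bij (fun v _ => P.part v) ?_ ?_ ?_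
    · intro v _; exact P.part_mem.mpr (mem_univ v)
    · intro u hu v hv huv
      rw [mem_compl, hNR] at hu hv
      push Not at hu hv
      exact h u v huv (le_antisymm (hu v huv.symm) (hv u huv))
    · intro t ht
      obtain ⟨v, hv, hmin⟩ := Finset.exists_min_image t rk (P.nonempty_of_mem_parts ht)
      have hv' := P.part_eq_of_mem ht hv
      refine ⟨v, ?_, hv'⟩
      rw [mem_compl, hNR]
      rintro ⟨u, hu, hlt⟩
      have : u ∈ t := by rw [← hv', ← hu]; exact P.mem_part_self.mpr (mem_univ u)
      exact absurd (hmin u this) (by omega)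
  rw [this, add_comm, Finset.card_add_card_compl]

theorem ext_rel (P Q : Finpartition (univ : Finset W))
    (h : ∀ u v, P.part u = P.part v ↔ Q.part u = Q.part v) : P = Q := by
  have hp : ∀ u, P.part u = Q.part u := by
    intro u; ext v
    rw [P.mem_part_iff_part_eq_part (mem_univ v) (mem_univ u),
      Q.mem_part_iff_part_eq_part (mem_univ v) (mem_univ u), h]
  ext t
  constructor
  · intro ht
    obtain ⟨v, hv⟩ := P.nonempty_of_mem_parts ht
    rw [← P.part_eq_of_mem ht hv, hp]; exact Q.part_mem.mpr (mem_univ v)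
  · intro ht
    obtain ⟨v, hv⟩ := Q.nonempty_of_mem_parts ht
    rw [← Q.part_eq_of_mem ht hv, ← hp]; exact P.part_mem.mpr (mem_univ v)

noncomputable def ofKey (key : W → W) : Finpartition (univ : Finset W) := by
  classical exact Finpartition.ofSetoid (Setoid.ker key)

theorem ofKey_rel (key : W → W) (u v : W) :
    (ofKey key).part u = (ofKey key).part v ↔ key u = key v := by
  classical
  rw [← Finpartition.mem_part_iff_part_eq_part _ (mem_univ u) (mem_univ v)]
  unfold ofKey
  convert (Finpartition.mem_part_ofSetoid_iff_rel (s := Setoid.ker key) (a := v) (b := u)) using 1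
  rw [Setoid.ker_def, eq_comm]

end general

abbrev V (m : ℕ) := Fin 3 × Option (Fin m × Bool)

variable {m : ℕ}

/-- adjacency in the complement graph: a triangle with pendant paths of length two. -/
def Hh : V m → V m → Prop
  | (_, none), (_, none) => True
  | (i, none), (i', some (_, b)) => i = i' ∧ b = false
  | (i, some (_, b)), (i', none) => i = i' ∧ b = false
  | (i, some (l, _)), (i', some (l', _)) => i = i' ∧ l = l'

def G (m : ℕ) : SimpleGraph (V m) where
  Adj u v := ¬ Hh u v
  symm := ⟨by
    rintro ⟨i, _ | ⟨l, b⟩⟩ ⟨i', _ | ⟨l', b'⟩⟩ <;> simp [Hh, eq_comm]⟩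
  loopless := ⟨by rintro ⟨i, _ | ⟨l, b⟩⟩ <;> simp [Hh]⟩

def rk : V m → ℕ
  | (i, none) => i
  | (_, some (_, false)) => 3
  | (_, some (_, true)) => 4

def Cl (P : Finpartition (univ : Finset (V m))) : Prop :=
  ∀ u v, P.part u = P.part v → Hh u v

theorem cl_iff (P : Finpartition (univ : Finset (V m))) :
    (∀ s ∈ P.parts, (G m).IsIndepSet (↑s : Set (V m))) ↔ Cl P := by
  constructor
  · intro h u v huv
    by_cases e : u = v
    · subst e
      by_contra hh
      exact (G m).loopless.irrefl u hh
    · have := h _ (P.part_mem.mpr (mem_univ v))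
        (show u ∈ (↑(P.part v) : Set (V m)) by
          rw [← huv]; exact mem_coe.mpr (P.mem_part_self.mpr (mem_univ u)))
        (show v ∈ (↑(P.part v) : Set (V m)) from mem_coe.mpr (P.mem_part_self.mpr (mem_univ v))) e
      by_contra hh
      exact this hh
  · intro h s hs u hu v hv _ hadj
    exact hadj (h u v (by rw [P.part_eq_of_mem hs hu, P.part_eq_of_mem hs hv]))

open Classical in
noncomputable def cN (P : Finpartition (univ : Finset (V m))) : Finset (Fin 3) :=
  univ.filter fun i => ∃ i', i' < i ∧ P.part (i', none) = P.part (i, none)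

open Classical in
noncomputable def XS (P : Finpartition (univ : Finset (V m))) : Finset (Fin 3 × Fin m) :=
  univ.filter fun x => P.part (x.1, none) = P.part (x.1, some (x.2, false))

open Classical in
noncomputable def YS (P : Finpartition (univ : Finset (V m))) : Finset (Fin 3 × Fin m) :=
  univ.filter fun x => P.part (x.1, some (x.2, false)) = P.part (x.1, some (x.2, true))

theorem count (P : Finpartition (univ : Finset (V m))) (h : Cl P) :
    P.parts.card + ((cN P).card + (XS P).card + (YS P).card) = 6 * m + 3 := by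
  classical
  have hc : Fintype.card (V m) = 6 * m + 3 := by simp [V]; ring
  rw [← hc, ← card_parts P rk ?_
    (univ.filter fun v => ∃ u, P.part u = P.part v ∧ rk u < rk v) (by simp)]
  · congr 1
    rw [Finset.card_filter, Fintype.sum_prod_type]
    simp only [Fintype.sum_option, Fintype.sum_prod_type, Fintype.sum_bool, Finset.sum_add_distrib]
    unfold cN XS YS
    rw [Finset.card_filter, Finset.card_filter, Finset.card_filter, Fintype.sum_prod_type,
      Fintype.sum_prod_type, add_assoc, add_comm (∑ x : Fin 3, ∑ y : Fin m, _)]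
    congr 1
    · refine Finset.sum_congr rfl fun i _ => if_congr ?_ rfl rfl
      constructor
      · rintro ⟨i', h1, h2⟩; exact ⟨(i', none), h2, h1⟩
      · rintro ⟨⟨i', _ | ⟨l, _ | _⟩⟩, h1, h2⟩
        · exact ⟨i', h2, h1⟩
        · simp [rk] at h2; omega
        · simp [rk] at h2; omega
    congr 1
    · refine Finset.sum_congr rfl fun i _ => Finset.sum_congr rfl fun l _ => if_congr ?_ rfl rfl
      constructor
      · intro h1; exact ⟨_, h1, by simp [rk]⟩
      · rintro ⟨⟨i', _ | ⟨l', _ | _⟩⟩, h1, h2⟩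
        · have := h _ _ h1; simp [Hh] at this
        · have := h _ _ h1
          simp only [Hh] at this
          obtain ⟨rfl, rfl⟩ := this
          exact h1
        · simp [rk] at h2
    · refine Finset.sum_congr rfl fun i _ => Finset.sum_congr rfl fun l _ => if_congr ?_ rfl rfl
      constructor
      · intro h1; exact ⟨_, h1, by simp [rk]⟩
      · rintro ⟨⟨i', _ | ⟨l', _ | _⟩⟩, h1, h2⟩
        · have := h _ _ h1
          simp only [Hh] at this
          obtain ⟨rfl, -⟩ := this
          exact h1
        · simp [rk] at h2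
        · simp [rk] at h2
  · rintro ⟨i, _ | ⟨l, _ | _⟩⟩ ⟨i', _ | ⟨l', _ | _⟩⟩ h1 h2 <;> have := h _ _ h1 <;>
      simp [rk, Hh] at h2 this ⊢ <;> first | omega | exact this | exact Fin.ext h2

theorem ext_cl (P Q : Finpartition (univ : Finset (V m))) (hP : Cl P) (hQ : Cl Q)
    (hC : ∀ i i', P.part (i, none) = P.part (i', none) ↔ Q.part (i, none) = Q.part (i', none))
    (hX : XS P = XS Q) (hY : YS P = YS Q) : P = Q := by
  have key : ∀ (P Q : Finpartition (univ : Finset (V m))), Cl P →
      (∀ i i', P.part (i, none) = P.part (i', none) → Q.part (i, none) = Q.part (i', none)) →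
      XS P = XS Q → YS P = YS Q → ∀ u v, P.part u = P.part v → Q.part u = Q.part v := by
    intro P Q hP hC hX hY
    have hX' : ∀ i l, P.part (i, none) = P.part (i, some (l, false)) →
        Q.part (i, none) = Q.part (i, some (l, false)) := by
      intro i l h
      have : (i, l) ∈ XS P := by simpa [XS] using h
      rw [hX] at this; simpa [XS] using this
    have hY' : ∀ i l, P.part (i, some (l, false)) = P.part (i, some (l, true)) →
        Q.part (i, some (l, false)) = Q.part (i, some (l, true)) := by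
      intro i l h
      have : (i, l) ∈ YS P := by simpa [YS] using h
      rw [hY] at this; simpa [YS] using this
    rintro ⟨i, _ | ⟨l, b⟩⟩ ⟨i', _ | ⟨l', b'⟩⟩ h1 <;> have h2 := hP _ _ h1 <;> simp only [Hh] at h2
    · exact hC _ _ h1
    · obtain ⟨rfl, rfl⟩ := h2; exact hX' _ _ h1
    · obtain ⟨rfl, rfl⟩ := h2; exact (hX' _ _ h1.symm).symm
    · obtain ⟨rfl, rfl⟩ := h2
      cases b <;> cases b'
      · rfl
      · exact hY' _ _ h1
      · exact (hY' _ _ h1.symm).symm
      · rfl
  exact ext_rel P Q fun u v => ⟨key P Q hP (fun i i' => (hC i i').1) hX hY u v,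
    key Q P hQ (fun i i' => (hC i i').2) hX.symm hY.symm u v⟩

def Spec (P : Finpartition (univ : Finset (V m))) :
    (Fin 3 × Fin m) ⊕ (Fin 3 × Option (Fin m)) → Prop
  | Sum.inl d => (∀ i i', P.part (i, none) = P.part (i', none)) ∧ XS P = ∅ ∧ YS P = {d}ᶜ
  | Sum.inr (i0, o) =>
      (∀ i i', P.part (i, none) = P.part (i', none) ↔ (i = i' ∨ (i ≠ i0 ∧ i' ≠ i0))) ∧
      (∀ x, x ∈ XS P ↔ x.1 = i0 ∧ o = some x.2) ∧ YS P = (XS P)ᶜ

theorem spec_inj (P Q : Finpartition (univ : Finset (V m))) (hP : Cl P) (hQ : Cl Q)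
    (c : (Fin 3 × Fin m) ⊕ (Fin 3 × Option (Fin m))) (h1 : Spec P c) (h2 : Spec Q c) : P = Q := by
  rcases c with d | ⟨i0, o⟩
  · exact ext_cl P Q hP hQ (fun i i' => iff_of_true (h1.1 i i') (h2.1 i i'))
      (h1.2.1.trans h2.2.1.symm) (h1.2.2.trans h2.2.2.symm)
  · have hX : XS P = XS Q := by ext x; rw [h1.2.1, h2.2.1]
    exact ext_cl P Q hP hQ (fun i i' => (h1.1 i i').trans (h2.1 i i').symm) hX
      (by rw [h1.2.2, h2.2.2, hX])

theorem mem_cN (P : Finpartition (univ : Finset (V m))) (i : Fin 3) :
    i ∈ cN P ↔ ∃ i', i' < i ∧ P.part (i', none) = P.part (i, none) := by simp [cN]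

theorem spec_ex (P : Finpartition (univ : Finset (V m))) (hP : Cl P)
    (hc : P.parts.card = 3 * m + 2) : ∃ c, Spec P c := by
  have h1 := count P hP
  have hdisj : Disjoint (XS P) (YS P) := by
    rw [Finset.disjoint_left]
    intro x hx hy
    simp only [XS, YS, mem_filter, mem_univ, true_and] at hx hy
    have := hP _ _ (hx.trans hy)
    simp [Hh] at this
  have h2 := Finset.card_add_card_compl (XS P ∪ YS P)
  rw [Finset.card_union_of_disjoint hdisj] at h2
  simp only [Fintype.card_prod, Fintype.card_fin] at h2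
  have hXo : ∀ i i' l, i' ≠ i → P.part (i', none) = P.part (i, none) → (i, l) ∉ XS P := by
    intro i i' l hne h hx
    simp only [XS, mem_filter, mem_univ, true_and] at hx
    have := hP _ _ (h.trans hx)
    simp only [Hh] at this
    exact hne this.1
  have m0 : (0 : Fin 3) ∉ cN P := by simp [mem_cN]
  have m1 : (1 : Fin 3) ∈ cN P ↔ P.part (0, none) = P.part (1, none) := by
    rw [mem_cN]; constructor
    · rintro ⟨i', h, h'⟩
      have : i' = 0 := by omega
      rwa [this] at h'
    · intro h; exact ⟨0, by decide, h⟩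
  have m2 : (2 : Fin 3) ∈ cN P ↔
      (P.part (0, none) = P.part (2, none) ∨ P.part (1, none) = P.part (2, none)) := by
    rw [mem_cN]; constructor
    · rintro ⟨i', h, h'⟩
      have : i' = 0 ∨ i' = 1 := by omega
      rcases this with rfl | rfl
      · exact Or.inl h'
      · exact Or.inr h'
    · rintro (h | h)
      · exact ⟨0, by decide, h⟩
      · exact ⟨1, by decide, h⟩
  have hcard : (cN P).card = (if (1 : Fin 3) ∈ cN P then 1 else 0) +
      (if (2 : Fin 3) ∈ cN P then 1 else 0) := by
    have : (cN P).card = ∑ i : Fin 3, if i ∈ cN P then 1 else 0 := by simp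
    rw [this, Fin.sum_univ_three, if_neg m0]; simp
  have caseB : ∀ i0 : Fin 3, (cN P).card = 1 →
      (∀ i i', P.part (i, none) = P.part (i', none) ↔ (i = i' ∨ (i ≠ i0 ∧ i' ≠ i0))) →
      ∃ c, Spec P c := by
    intro i0 hc1 hrel
    have hD : (XS P ∪ YS P)ᶜ = ∅ := Finset.card_eq_zero.mp (by omega)
    have hY : YS P = (XS P)ᶜ := by
      ext x
      have : x ∉ (XS P ∪ YS P)ᶜ := by rw [hD]; simp
      rw [mem_compl, not_not, mem_union] at this
      rw [mem_compl]
      constructor
      · intro hy hx; exact Finset.disjoint_left.mp hdisj hx hy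
      · intro hx; tauto
    have hX1 : ∀ x ∈ XS P, x.1 = i0 := by
      rintro ⟨i, l⟩ hx
      by_contra hne
      obtain ⟨i', h1, h2⟩ : ∃ i' : Fin 3, i' ≠ i ∧ i' ≠ i0 :=
        (by decide : ∀ i i0 : Fin 3, ∃ i' : Fin 3, i' ≠ i ∧ i' ≠ i0) i i0
      exact hXo i i' l h1 ((hrel i' i).mpr (Or.inr ⟨h2, hne⟩)) hx
    by_cases hne : (XS P).Nonempty
    · obtain ⟨⟨i, l⟩, hx⟩ := hne
      have e := hX1 _ hx
      simp only at e
      subst e
      refine ⟨Sum.inr (i, some l), hrel, ?_, hY⟩
      rintro ⟨i', l'⟩
      constructor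
      · intro hx'
        have e := hX1 _ hx'
        simp only at e
        subst e
        simp only [XS, mem_filter, mem_univ, true_and] at hx hx'
        have := hP _ _ (hx.symm.trans hx')
        simp only [Hh] at this
        simp [this.2]
      · rintro ⟨e1, e2⟩
        simp only [Option.some.injEq] at e1 e2
        subst e1 e2; exact hx
    · refine ⟨Sum.inr (i0, none), hrel, ?_, hY⟩
      intro x
      rw [Finset.not_nonempty_iff_eq_empty] at hne
      simp [hne]
  by_cases r01 : P.part (0, none) = P.part (1, none)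
  · by_cases r2 : P.part (0, none) = P.part (2, none) ∨ P.part (1, none) = P.part (2, none)
    · have r02 : P.part (0, none) = P.part (2, none) := by
        rcases r2 with h | h
        · exact h
        · exact r01.trans h
      have hall : ∀ i i', P.part (i, none) = P.part (i', none) := by
        have : ∀ i, P.part (0, none) = P.part (i, none) := by
          intro i; fin_cases i
          · rfl
          · exact r01
          · exact r02
        intro i i'; exact (this i).symm.trans (this i')
      have hX : XS P = ∅ := by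
        ext ⟨i, l⟩
        obtain ⟨i', h1⟩ := exists_ne i
        simpa using hXo i i' l h1 (hall _ _)
      rw [if_pos (m1.mpr r01), if_pos (m2.mpr r2)] at hcard
      obtain ⟨d, hd⟩ := Finset.card_eq_one.mp (show (XS P ∪ YS P)ᶜ.card = 1 by omega)
      refine ⟨Sum.inl d, hall, hX, ?_⟩
      rw [← hd, hX]; simp
    · rw [if_pos (m1.mpr r01), if_neg (mt m2.mp r2)] at hcard
      push Not at r2
      refine caseB 2 hcard ?_
      intro i i'
      fin_cases i <;> fin_cases i' <;> simp [r01, r2.1, r2.2, r2.1.symm, r2.2.symm]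
  · by_cases r02 : P.part (0, none) = P.part (2, none)
    · rw [if_neg (mt m1.mp r01), if_pos (m2.mpr (Or.inl r02))] at hcard
      have r12 : P.part (1, none) ≠ P.part (2, none) := fun h => r01 (r02.trans h.symm)
      refine caseB 1 hcard ?_
      intro i i'
      fin_cases i <;> fin_cases i' <;> simp [r02, r12, r12.symm]
    · by_cases r12 : P.part (1, none) = P.part (2, none)
      · rw [if_neg (mt m1.mp r01), if_pos (m2.mpr (Or.inr r12))] at hcard
        refine caseB 0 hcard ?_
        intro i i'
        fin_cases i <;> fin_cases i' <;> simp [r12, r02, Ne.symm r02]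
      · rw [if_neg (mt m1.mp r01), if_neg (mt m2.mp (by tauto))] at hcard
        omega

def B (m j : ℕ) : Set (Finpartition (univ : Finset (V m))) :=
  {P | P.parts.card = j ∧ ∀ s ∈ P.parts, (G m).IsIndepSet (↑s : Set (V m))}

theorem upper : (B m (3 * m + 2)).ncard ≤ 6 * m + 3 := by
  classical
  have h : ∀ P : Finpartition (univ : Finset (V m)), ∃ c, P ∈ B m (3 * m + 2) → Spec P c := by
    intro P
    by_cases hP : P ∈ B m (3 * m + 2)
    · obtain ⟨c, hc⟩ := spec_ex P ((cl_iff P).mp hP.2) hP.1
      exact ⟨c, fun _ => hc⟩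
    · exact ⟨Sum.inr (0, none), fun h => absurd h hP⟩
  choose f hf using h
  have := Set.ncard_le_ncard_of_injOn f (s := B m (3 * m + 2)) (t := Set.univ)
    (fun _ _ => Set.mem_univ _)
    (fun P hP Q hQ e => spec_inj P Q ((cl_iff P).mp hP.2) ((cl_iff Q).mp hQ.2) (f P) (hf P hP)
      (e ▸ hf Q hQ)) (Set.toFinite _)
  rw [Set.ncard_univ, Nat.card_eq_fintype_card] at this
  simp at this
  omega

def key0 : V m → V m
  | (_, none) => (0, none)
  | (i, some (l, _)) => (i, some (l, false))

def key1 : V m → V m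
  | (i, none) => (if i = 2 then 2 else 0, none)
  | (i, some (l, _)) => (i, some (l, false))

def keyf (f : Fin 3 → Fin m) : V m → V m
  | (i, none) => (i, none)
  | (i, some (l, false)) => if l = f i then (i, none) else (i, some (l, false))
  | (i, some (l, true)) => if l = f i then (i, some (l, true)) else (i, some (l, false))

theorem mem0 : ofKey key0 ∈ B m (3 * m + 1) := by
  have hcl : Cl (ofKey (key0 (m := m))) := by
    rintro ⟨i, _ | ⟨l, b⟩⟩ ⟨i', _ | ⟨l', b'⟩⟩ h <;> rw [ofKey_rel] at h <;>
      simp [key0, Hh] at h ⊢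
    exact h
  refine ⟨?_, (cl_iff _).mpr hcl⟩
  have h := count _ hcl
  have e1 : cN (ofKey (key0 (m := m))) = {1, 2} := by
    ext i; rw [mem_cN]; simp only [ofKey_rel, key0]; revert i; decide
  have e2 : XS (ofKey (key0 (m := m))) = ∅ := by
    ext x; simp [XS, ofKey_rel, key0]
  have e3 : YS (ofKey (key0 (m := m))) = univ := by
    ext x; simp [YS, ofKey_rel, key0]
  rw [e1, e2, e3] at h
  simp at h
  omega

theorem mem1 : ofKey key1 ∈ B m (3 * m + 2) := by
  have hcl : Cl (ofKey (key1 (m := m))) := by
    rintro ⟨i, _ | ⟨l, b⟩⟩ ⟨i', _ | ⟨l', b'⟩⟩ h <;> rw [ofKey_rel] at h <;>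
      simp [key1, Hh] at h ⊢
    exact h
  refine ⟨?_, (cl_iff _).mpr hcl⟩
  have h := count _ hcl
  have e1 : cN (ofKey (key1 (m := m))) = {1} := by
    ext i; rw [mem_cN]; simp only [ofKey_rel, key1, Prod.mk.injEq]; revert i; decide
  have e2 : XS (ofKey (key1 (m := m))) = ∅ := by
    ext x; simp [XS, ofKey_rel, key1]
  have e3 : YS (ofKey (key1 (m := m))) = univ := by
    ext x; simp [YS, ofKey_rel, key1]
  rw [e1, e2, e3] at h
  simp at h
  omega

theorem XS_f (f : Fin 3 → Fin m) (x : Fin 3 × Fin m) :
    x ∈ XS (ofKey (keyf f)) ↔ x.2 = f x.1 := by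
  simp only [XS, mem_filter, mem_univ, true_and, ofKey_rel, keyf]
  split_ifs with h <;> simp [h]

theorem memf (f : Fin 3 → Fin m) : ofKey (keyf f) ∈ B m (3 * m + 3) := by
  have hcl : Cl (ofKey (keyf f)) := by
    rintro ⟨i, _ | ⟨l, _ | _⟩⟩ ⟨i', _ | ⟨l', _ | _⟩⟩ h <;> rw [ofKey_rel] at h <;>
      simp only [keyf] at h <;> (try split_ifs at h) <;> simp_all [Hh]
  refine ⟨?_, (cl_iff _).mpr hcl⟩
  have h := count _ hcl
  have e1 : cN (ofKey (keyf f)) = ∅ := by
    ext i; rw [mem_cN]; simp only [ofKey_rel, keyf, Prod.mk.injEq]; revert i; decide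
  have e3 : YS (ofKey (keyf f)) = (XS (ofKey (keyf f)))ᶜ := by
    ext x
    rw [mem_compl, XS_f]
    simp only [YS, mem_filter, mem_univ, true_and, ofKey_rel, keyf]
    split_ifs with h <;> simp [h]
  have h2 := Finset.card_add_card_compl (XS (ofKey (keyf f)))
  rw [e1, e3] at h
  simp only [Fintype.card_prod, Fintype.card_fin, card_empty] at h h2
  omega

theorem lower : m ^ 3 ≤ (B m (3 * m + 3)).ncard := by
  have := Set.ncard_le_ncard_of_injOn (fun f : Fin 3 → Fin m => ofKey (keyf f))
    (s := Set.univ) (t := B m (3 * m + 3)) (fun f _ => memf f)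
    (fun f _ g _ e => by
      funext i
      have h1 : (i, f i) ∈ XS (ofKey (keyf f)) := (XS_f f _).mpr rfl
      simp only at e
      rw [e, XS_f] at h1
      exact h1) (Set.toFinite _)
  rw [Set.ncard_univ, Nat.card_eq_fintype_card] at this
  simpa using this

theorem main : 0 < (B 37 (112 + 1)).ncard ∧
    ¬ (B 37 112).ncard * (B 37 (112 + 2)).ncard < (B 37 (112 + 1)).ncard ^ 2 := by
  have h0 : 0 < (B 37 112).ncard := (Set.ncard_pos (Set.toFinite _)).mpr ⟨_, mem0 (m := 37)⟩
  have h1 : 0 < (B 37 113).ncard := (Set.ncard_pos (Set.toFinite _)).mpr ⟨_, mem1 (m := 37)⟩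
  have h2 : (B 37 113).ncard ≤ 225 := upper (m := 37)
  have h3 : 37 ^ 3 ≤ (B 37 114).ncard := lower (m := 37)
  refine ⟨h1, ?_⟩
  show ¬ (B 37 112).ncard * (B 37 114).ncard < (B 37 113).ncard ^ 2
  nlinarith

end Pool.Agent.Lib.Helper30.Sig
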