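import Mathlib

set_option autoImplicit false

namespace Pool.Agent.Lib.Helper30.SphMotion

open scoped RealInnerProductSpace

abbrev E3 := EuclideanSpace ℝ (Fin 3)
abbrev E5 := EuclideanSpace ℝ (Fin 5)

/-- Coordinates of the final configuration: four rays of a cone and its four inner facet normals. -/
noncomputable def Xq : Fin 8 → Fin 3 → ℝ :=
  ![![153/697, 672/697, 104/697], ![-153/697, 672/697, 104/697],
    ![-153/697, -672/697, 104/697], ![153/697, -672/697, 104/697],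
    ![-104/185, 0, 153/185], ![104/185, 0, 153/185],
    ![0, -13/85, 84/85], ![0, 13/85, 84/85]]

/-- Coordinates of the initial configuration: the normals are replaced by their antipodes. -/
noncomputable def Xp : Fin 8 → Fin 3 → ℝ :=
  ![![153/697, 672/697, 104/697], ![-153/697, 672/697, 104/697],
    ![-153/697, -672/697, 104/697], ![153/697, -672/697, 104/697],
    ![104/185, 0, -153/185], ![-104/185, 0, -153/185],
    ![0, 13/85, -84/85], ![0, -13/85, -84/85]]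

noncomputable def P (i : Fin 8) : E3 := WithLp.toLp 2 (Xp i)
noncomputable def Q (i : Fin 8) : E3 := WithLp.toLp 2 (Xq i)

lemma inner_P (i j : Fin 8) :
    ⟪P i, P j⟫ = Xp i 0 * Xp j 0 + Xp i 1 * Xp j 1 + Xp i 2 * Xp j 2 := by
  simp [P, PiLp.inner_apply, Fin.sum_univ_three]; ring

lemma inner_Q (i j : Fin 8) :
    ⟪Q i, Q j⟫ = Xq i 0 * Xq j 0 + Xq i 1 * Xq j 1 + Xq i 2 * Xq j 2 := by
  simp [Q, PiLp.inner_apply, Fin.sum_univ_three]; ring

lemma norm_P (i : Fin 8) : ‖P i‖ = 1 := by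
  have h : ⟪P i, P i⟫ = 1 := by
    rw [inner_P]; fin_cases i <;> simp [Xp] <;> norm_num
  rw [real_inner_self_eq_norm_sq] at h
  nlinarith [norm_nonneg (P i)]

lemma norm_Q (i : Fin 8) : ‖Q i‖ = 1 := by
  have h : ⟪Q i, Q i⟫ = 1 := by
    rw [inner_Q]; fin_cases i <;> simp [Xq] <;> norm_num
  rw [real_inner_self_eq_norm_sq] at h
  nlinarith [norm_nonneg (Q i)]

lemma inner_P_le_Q (i j : Fin 8) : ⟪P i, P j⟫ ≤ ⟪Q i, Q j⟫ := by
  rw [inner_P, inner_Q]
  fin_cases i <;> fin_cases j <;> simp [Xp, Xq] <;> norm_num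

lemma six (x : Fin 8 → E5)
    (h : ∀ i j, ⟪P i, P j⟫ = ⟪Q i, Q j⟫ → ⟪x i, x j⟫ = ⟪P i, P j⟫)
    (h0 : ⟪x 1, x 4⟫ = 0) : False := by
  have g : ∀ i j : Fin 8, ∀ c : ℝ, Xp i 0 * Xp j 0 + Xp i 1 * Xp j 1 + Xp i 2 * Xp j 2 = c →
      Xq i 0 * Xq j 0 + Xq i 1 * Xq j 1 + Xq i 2 * Xq j 2 = c → ⟪x i, x j⟫ = c ∧ ⟪x j, x i⟫ = c := by
    intro i j c h1 h2
    have := h i j (by rw [inner_P, inner_Q, h1, h2])
    rw [inner_P, h1] at this
    exact ⟨this, by rw [real_inner_comm]; exact this⟩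
  have a00 := (g 0 0 1 (by simp [Xp]; norm_num) (by simp [Xq]; norm_num)).1
  have a11 := (g 1 1 1 (by simp [Xp]; norm_num) (by simp [Xq]; norm_num)).1
  have a22 := (g 2 2 1 (by simp [Xp]; norm_num) (by simp [Xq]; norm_num)).1
  have a33 := (g 3 3 1 (by simp [Xp]; norm_num) (by simp [Xq]; norm_num)).1
  have a44 := (g 4 4 1 (by simp [Xp]; norm_num) (by simp [Xq]; norm_num)).1
  have a55 := (g 5 5 1 (by simp [Xp]; norm_num) (by simp [Xq]; norm_num)).1
  have a66 := (g 6 6 1 (by simp [Xp]; norm_num) (by simp [Xq]; norm_num)).1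
  have a77 := (g 7 7 1 (by simp [Xp]; norm_num) (by simp [Xq]; norm_num)).1
  obtain ⟨a01, a10⟩ := g 0 1 (438991/485809) (by simp [Xp]; norm_num) (by simp [Xq]; norm_num)
  obtain ⟨a02, a20⟩ := g 0 2 (-464177/485809) (by simp [Xp]; norm_num) (by simp [Xq]; norm_num)
  obtain ⟨a03, a30⟩ := g 0 3 (-417359/485809) (by simp [Xp]; norm_num) (by simp [Xq]; norm_num)
  obtain ⟨a12, a21⟩ := g 1 2 (-417359/485809) (by simp [Xp]; norm_num) (by simp [Xq]; norm_num)
  obtain ⟨a13, a31⟩ := g 1 3 (-464177/485809) (by simp [Xp]; norm_num) (by simp [Xq]; norm_num)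
  obtain ⟨a23, a32⟩ := g 2 3 (438991/485809) (by simp [Xp]; norm_num) (by simp [Xq]; norm_num)
  obtain ⟨a45, a54⟩ := g 4 5 (12593/34225) (by simp [Xp]; norm_num) (by simp [Xq]; norm_num)
  obtain ⟨a46, a64⟩ := g 4 6 (12852/15725) (by simp [Xp]; norm_num) (by simp [Xq]; norm_num)
  obtain ⟨a47, a74⟩ := g 4 7 (12852/15725) (by simp [Xp]; norm_num) (by simp [Xq]; norm_num)
  obtain ⟨a56, a65⟩ := g 5 6 (12852/15725) (by simp [Xp]; norm_num) (by simp [Xq]; norm_num)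
  obtain ⟨a57, a75⟩ := g 5 7 (12852/15725) (by simp [Xp]; norm_num) (by simp [Xq]; norm_num)
  obtain ⟨a67, a76⟩ := g 6 7 (6887/7225) (by simp [Xp]; norm_num) (by simp [Xq]; norm_num)
  obtain ⟨a04, a40⟩ := g 0 4 0 (by simp [Xp]; norm_num) (by simp [Xq]; norm_num)
  obtain ⟨a34, a43⟩ := g 3 4 0 (by simp [Xp]; norm_num) (by simp [Xq]; norm_num)
  obtain ⟨a15, a51⟩ := g 1 5 0 (by simp [Xp]; norm_num) (by simp [Xq]; norm_num)
  obtain ⟨a25, a52⟩ := g 2 5 0 (by simp [Xp]; norm_num) (by simp [Xq]; norm_num)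
  obtain ⟨a06, a60⟩ := g 0 6 0 (by simp [Xp]; norm_num) (by simp [Xq]; norm_num)
  obtain ⟨a16, a61⟩ := g 1 6 0 (by simp [Xp]; norm_num) (by simp [Xq]; norm_num)
  obtain ⟨a27, a72⟩ := g 2 7 0 (by simp [Xp]; norm_num) (by simp [Xq]; norm_num)
  obtain ⟨a37, a73⟩ := g 3 7 0 (by simp [Xp]; norm_num) (by simp [Xq]; norm_num)
  have ra : x 0 + x 2 - x 1 - x 3 = 0 := by
    rw [← @inner_self_eq_zero ℝ]
    simp only [inner_add_left, inner_add_right, inner_sub_left, inner_sub_right]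
    linarith
  have rb : (185 / 153 : ℝ) • (x 4 + x 5) - (85 / 84 : ℝ) • (x 6 + x 7) = 0 := by
    rw [← @inner_self_eq_zero ℝ]
    simp only [inner_add_left, inner_add_right, inner_sub_left, inner_sub_right,
      real_inner_smul_left, real_inner_smul_right]
    linarith
  have ea : ∀ j, ⟪x 0, x j⟫ + ⟪x 2, x j⟫ - ⟪x 1, x j⟫ - ⟪x 3, x j⟫ = 0 := by
    intro j
    have := congrArg (fun v => ⟪v, x j⟫) ra
    simpa only [inner_add_left, inner_sub_left, inner_zero_left] using this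
  have eb : ∀ i, (185 / 153 : ℝ) * (⟪x i, x 4⟫ + ⟪x i, x 5⟫)
      - (85 / 84 : ℝ) * (⟪x i, x 6⟫ + ⟪x i, x 7⟫) = 0 := by
    intro i
    have := congrArg (fun v => ⟪x i, v⟫) rb
    simpa only [inner_add_right, inner_sub_right, inner_zero_right, real_inner_smul_right]
      using this
  have e4 := ea 4
  have e5 := ea 5
  have e6 := ea 6
  have e7 := ea 7
  have f0 := eb 0
  have f1 := eb 1
  have f2 := eb 2
  have f3 := eb 3
  have a24 : ⟪x 2, x 4⟫ = 0 := by linarith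
  have a26 : ⟪x 2, x 6⟫ = 0 := by linarith
  have a05 : ⟪x 0, x 5⟫ = 0 := by linarith
  have a41 : ⟪x 4, x 1⟫ = 0 := by rw [real_inner_comm]; exact h0
  have a42 : ⟪x 4, x 2⟫ = 0 := by rw [real_inner_comm]; exact a24
  have a62 : ⟪x 6, x 2⟫ = 0 := by rw [real_inner_comm]; exact a26
  have a50 : ⟪x 5, x 0⟫ = 0 := by rw [real_inner_comm]; exact a05
  have li : LinearIndependent ℝ ![x 0, x 1, x 2, x 4, x 5, x 6] := by
    rw [Fintype.linearIndependent_iff]
    intro c hc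
    simp only [Fin.sum_univ_succ, Fin.sum_univ_zero, Matrix.cons_val_zero, Matrix.cons_val_succ,
      add_zero] at hc
    have t : ∀ j, ⟪x j, c 0 • x 0 + (c (Fin.succ 0) • x 1 + (c (Fin.succ 0).succ • x 2 +
      (c (Fin.succ 0).succ.succ • x 4 + (c (Fin.succ 0).succ.succ.succ • x 5 +
        c (Fin.succ 0).succ.succ.succ.succ • x 6))))⟫ = 0 := by
      intro j; rw [hc, inner_zero_right]
    have t0 := t 0
    have t1 := t 1
    have t2 := t 2
    have t4 := t 4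
    have t5 := t 5
    have t6 := t 6
    simp only [inner_add_right, real_inner_smul_right, a00, a01, a02, a04, a05, a06,
      a10, a11, a12, h0, a15, a16, a20, a21, a22, a24, a25, a26, a40, a41, a42, a44, a45, a46,
      a50, a51, a52, a54, a55, a56, a60, a61, a62, a64, a65, a66] at t0 t1 t2 t4 t5 t6
    have c0 : c 0 = 0 := by linarith
    have c1 : c (Fin.succ 0) = 0 := by linarith
    have c2 : c (Fin.succ 0).succ = 0 := by linarith
    have c3 : c (Fin.succ 0).succ.succ = 0 := by linarith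
    have c4 : c (Fin.succ 0).succ.succ.succ = 0 := by linarith
    have c5 : c (Fin.succ 0).succ.succ.succ.succ = 0 := by linarith
    intro i
    fin_cases i
    exacts [c0, c1, c2, c3, c4, c5]
  have := li.fintype_card_le_finrank
  simp at this

lemma key (ι : E3 →ₗᵢ[ℝ] E5) (m : ℝ → Fin 8 → E5)
    (h0 : m 0 = fun i => ι (P i)) (h1 : m 1 = fun i => ι (Q i))
    (hc : ContinuousOn m (Set.Icc 0 1))
    (hm : ∀ i j, ⟪m 0 i, m 0 j⟫ = ⟪m 1 i, m 1 j⟫ →
      ∀ t ∈ Set.Icc (0 : ℝ) 1, ⟪m t i, m t j⟫ = ⟪m 0 i, m 0 j⟫) : False := by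
  have hcont : ContinuousOn (fun t => ⟪m t 1, m t 4⟫) (Set.Icc 0 1) :=
    ContinuousOn.inner (𝕜 := ℝ) ((continuous_apply 1).comp_continuousOn hc)
      ((continuous_apply 4).comp_continuousOn hc)
  have hs : ⟪m 0 1, m 0 4⟫ ≤ 0 := by
    rw [h0]; simp only [LinearIsometry.inner_map_map]; rw [inner_P]; simp [Xp]; norm_num
  have he : 0 ≤ ⟪m 1 1, m 1 4⟫ := by
    rw [h1]; simp only [LinearIsometry.inner_map_map]; rw [inner_Q]; simp [Xq]; norm_num
  obtain ⟨t, ht, ht0⟩ := intermediate_value_Icc zero_le_one hcont ⟨hs, he⟩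
  refine six (m t) ?_ ht0
  intro i j hij
  have := hm i j (by rw [h0, h1]; simpa only [LinearIsometry.inner_map_map] using hij) t ht
  rw [this, h0]; simp only [LinearIsometry.inner_map_map]

lemma const_of_mono {f : ℝ → ℝ} (h : MonotoneOn f (Set.Icc 0 1) ∨ AntitoneOn f (Set.Icc 0 1))
    (he : f 0 = f 1) {t : ℝ} (ht : t ∈ Set.Icc (0 : ℝ) 1) : f t = f 0 := by
  have z : (0 : ℝ) ∈ Set.Icc (0 : ℝ) 1 := ⟨le_rfl, zero_le_one⟩
  have o : (1 : ℝ) ∈ Set.Icc (0 : ℝ) 1 := ⟨zero_le_one, le_rfl⟩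
  rcases h with h | h
  · have := h z ht ht.1
    have := h ht o ht.2
    linarith
  · have := h z ht ht.1
    have := h ht o ht.2
    linarith

noncomputable def iota : E3 →ₗᵢ[ℝ] E5 where
  toFun v := WithLp.toLp 2 ![v 0, v 1, v 2, 0, 0]
  map_add' v w := by ext i; fin_cases i <;> simp
  map_smul' c v := by ext i; fin_cases i <;> simp
  norm_map' v := by
    simp [EuclideanSpace.norm_eq, Fin.sum_univ_succ]

end Pool.Agent.Lib.Helper30.SphMotion
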