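import Mathlib

set_option autoImplicit false
set_option linter.unusedTactic false

namespace Pool.Agent.Lib.Helper30.SumG

def L : Fin 8 → ℕ := ![2, 3, 4, 5, 6, 7, 8, 10]

def A (u v : Fin 8) : Prop := u ≠ v ∧ ∃ w, L w = L u + L v

instance : DecidableRel A := fun u v => by unfold A; infer_instance

theorem core (x : Fin 8 → ℕ) (hp : ∀ v, 0 < x v)
    (hI : ∀ u v, u ≠ v → x u = x v → False)
    (hN : ∀ u v w, u ≠ v → ¬ A u v → x w = x u + x v → False)
    (hE : ∀ u v, A u v → x 0 = x u + x v ∨ x 1 = x u + x v ∨ x 2 = x u + x v ∨ x 3 = x u + x v ∨
      x 4 = x u + x v ∨ x 5 = x u + x v ∨ x 6 = x u + x v ∨ x 7 = x u + x v)
    (fin : 3 * x 0 = 2 * x 1 → x 2 = 2 * x 0 → x 3 = x 0 + x 1 → x 4 = 3 * x 0 →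
      x 5 = x 0 + x 3 → x 6 = 4 * x 0 → x 7 = 5 * x 0 → False) : False := by
  have p0 := hp 0
  have p1 := hp 1
  have p2 := hp 2
  have p3 := hp 3
  have p4 := hp 4
  have p5 := hp 5
  have p6 := hp 6
  have p7 := hp 7
  rcases hE 0 1 (by decide) with h|h|h|h|h|h|h|h
  · omega
  · omega
  · skip
    rcases hE 2 4 (by decide) with h|h|h|h|h|h|h|h
    · omega
    · omega
    · omega
    · skip
      rcases hE 0 4 (by decide) with h|h|h|h|h|h|h|h
      · omega
      · skip
        rcases hE 1 5 (by decide) with h|h|h|h|h|h|h|h
        · omega
        · omega
        · exact hI 0 5 (by decide) (by omega)
        · exact hI 1 5 (by decide) (by omega)
        · omega
        · omega
        · skip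
          rcases hE 0 6 (by decide) with h|h|h|h|h|h|h|h
          · omega
          · omega
          · omega
          · exact hI 4 5 (by decide) (by omega)
          · omega
          · omega
          · omega
          · exact hN 2 5 7 (by decide) (by decide) (by omega)
        · skip
          rcases hE 0 3 (by decide) with h|h|h|h|h|h|h|h
          · omega
          · omega
          · omega
          · omega
          · omega
          · exact hN 2 3 7 (by decide) (by decide) (by omega)
          · skip
            rcases hE 0 2 (by decide) with h|h|h|h|h|h|h|h
            · omega
            · omega
            · omega
            · exact hI 0 4 (by decide) (by omega)
            · omega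
            · exact hN 4 5 6 (by decide) (by decide) (by omega)
            · omega
            · exact hN 4 5 2 (by decide) (by decide) (by omega)
          · exact hI 2 5 (by decide) (by omega)
      · exact hI 1 4 (by decide) (by omega)
      · omega
      · omega
      · skip
        rcases hE 0 3 (by decide) with h|h|h|h|h|h|h|h
        · omega
        · omega
        · omega
        · omega
        · omega
        · omega
        · exact hN 2 5 6 (by decide) (by decide) (by omega)
        · exact hN 2 5 7 (by decide) (by decide) (by omega)
      · exact hN 1 6 3 (by decide) (by decide) (by omega)
      · exact hN 1 7 3 (by decide) (by decide) (by omega)
    · omega
    · skip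
      rcases hE 0 4 (by decide) with h|h|h|h|h|h|h|h
      · omega
      · skip
        rcases hE 1 2 (by decide) with h|h|h|h|h|h|h|h
        · omega
        · omega
        · omega
        · exact hN 0 5 3 (by decide) (by decide) (by omega)
        · omega
        · omega
        · exact hN 0 5 6 (by decide) (by decide) (by omega)
        · exact hN 0 5 7 (by decide) (by decide) (by omega)
      · exact hI 1 4 (by decide) (by omega)
      · skip
        rcases hE 1 3 (by decide) with h|h|h|h|h|h|h|h
        · omega
        · omega
        · omega
        · omega
        · omega
        · skip
          rcases hE 1 5 (by decide) with h|h|h|h|h|h|h|h
          · omega
          · omega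
          · omega
          · omega
          · omega
          · omega
          · skip
            rcases hE 0 6 (by decide) with h|h|h|h|h|h|h|h
            · omega
            · omega
            · omega
            · omega
            · omega
            · omega
            · omega
            · exact hN 2 5 7 (by decide) (by decide) (by omega)
          · skip
            rcases hE 1 2 (by decide) with h|h|h|h|h|h|h|h
            · omega
            · omega
            · omega
            · exact hN 3 4 7 (by decide) (by decide) (by omega)
            · skip
              rcases hE 0 2 (by decide) with h|h|h|h|h|h|h|h
              · omega
              · omega
              · omega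
              · omega
              · exact hI 0 1 (by decide) (by omega)
              · omega
              · exact hN 1 6 3 (by decide) (by decide) (by omega)
              · omega
            · exact hI 2 3 (by decide) (by omega)
            · exact hN 4 6 7 (by decide) (by decide) (by omega)
            · omega
        · exact hI 5 6 (by decide) (by omega)
        · exact hI 5 7 (by decide) (by omega)
      · omega
      · omega
      · exact hN 1 6 5 (by decide) (by decide) (by omega)
      · exact hN 1 7 5 (by decide) (by decide) (by omega)
    · skip
      rcases hE 0 4 (by decide) with h|h|h|h|h|h|h|h
      · omega
      · skip
        rcases hE 1 3 (by decide) with h|h|h|h|h|h|h|h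
        · omega
        · omega
        · exact hI 0 3 (by decide) (by omega)
        · omega
        · omega
        · skip
          rcases hE 1 5 (by decide) with h|h|h|h|h|h|h|h
          · omega
          · omega
          · omega
          · omega
          · omega
          · omega
          · omega
          · exact hN 3 6 7 (by decide) (by decide) (by omega)
        · exact hI 1 3 (by decide) (by omega)
        · skip
          rcases hE 1 5 (by decide) with h|h|h|h|h|h|h|h
          · omega
          · omega
          · exact hI 0 5 (by decide) (by omega)
          · exact hN 5 6 7 (by decide) (by decide) (by omega)
          · omega
          · omega
          · exact hI 1 5 (by decide) (by omega)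
          · exact hI 3 5 (by decide) (by omega)
      · exact hI 1 4 (by decide) (by omega)
      · skip
        rcases hE 0 6 (by decide) with h|h|h|h|h|h|h|h
        · omega
        · omega
        · omega
        · omega
        · omega
        · exact hN 2 3 5 (by decide) (by decide) (by omega)
        · omega
        · exact hN 2 3 7 (by decide) (by decide) (by omega)
      · omega
      · skip
        rcases hE 0 6 (by decide) with h|h|h|h|h|h|h|h
        · omega
        · omega
        · omega
        · exact hN 2 5 3 (by decide) (by decide) (by omega)
        · omega
        · omega
        · omega
        · exact hN 2 5 7 (by decide) (by decide) (by omega)
      · omega
      · exact hN 1 7 6 (by decide) (by decide) (by omega)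
    · skip
      rcases hE 0 4 (by decide) with h|h|h|h|h|h|h|h
      · omega
      · skip
        rcases hE 1 2 (by decide) with h|h|h|h|h|h|h|h
        · omega
        · omega
        · omega
        · exact hN 0 7 3 (by decide) (by decide) (by omega)
        · omega
        · exact hN 0 7 5 (by decide) (by decide) (by omega)
        · exact hN 0 7 6 (by decide) (by decide) (by omega)
        · omega
      · exact hI 1 4 (by decide) (by omega)
      · skip
        rcases hE 1 3 (by decide) with h|h|h|h|h|h|h|h
        · omega
        · omega
        · omega
        · omega
        · omega
        · exact hI 5 7 (by decide) (by omega)
        · exact hI 6 7 (by decide) (by omega)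
        · skip
          rcases hE 0 2 (by decide) with h|h|h|h|h|h|h|h
          · omega
          · omega
          · omega
          · exact hI 2 4 (by decide) (by omega)
          · skip
            rcases hE 0 3 (by decide) with h|h|h|h|h|h|h|h
            · omega
            · omega
            · omega
            · omega
            · omega
            · skip
              rcases hE 0 6 (by decide) with h|h|h|h|h|h|h|h
              · omega
              · exact hN 5 6 7 (by decide) (by decide) (by omega)
              · exact hI 1 6 (by decide) (by omega)
              · exact hI 4 6 (by decide) (by omega)
              · exact hI 2 6 (by decide) (by omega)
              · exact hI 3 6 (by decide) (by omega)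
              · omega
              · exact hN 1 4 6 (by decide) (by decide) (by omega)
            · skip
              rcases hE 0 6 (by decide) with h|h|h|h|h|h|h|h
              · omega
              · omega
              · omega
              · omega
              · omega
              · skip
                rcases hE 1 5 (by decide) with h|h|h|h|h|h|h|h
                · omega
                · omega
                · omega
                · omega
                · omega
                · omega
                · omega
                · omega
              · omega
              · exact hN 1 4 6 (by decide) (by decide) (by omega)
            · exact hI 0 1 (by decide) (by omega)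
          · skip
            rcases hE 0 6 (by decide) with h|h|h|h|h|h|h|h
            · omega
            · skip
              rcases hE 1 2 (by decide) with h|h|h|h|h|h|h|h
              · omega
              · omega
              · omega
              · exact hN 2 6 4 (by decide) (by decide) (by omega)
              · exact hN 5 6 4 (by decide) (by decide) (by omega)
              · omega
              · omega
              · exact hI 2 3 (by decide) (by omega)
            · exact hI 1 6 (by decide) (by omega)
            · exact hI 4 6 (by decide) (by omega)
            · exact hN 5 6 7 (by decide) (by decide) (by omega)
            · exact hI 2 6 (by decide) (by omega)
            · omega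
            · exact hN 1 4 6 (by decide) (by decide) (by omega)
          · skip
            rcases hE 0 3 (by decide) with h|h|h|h|h|h|h|h
            · omega
            · skip
              rcases hE 1 2 (by decide) with h|h|h|h|h|h|h|h
              · omega
              · omega
              · omega
              · omega
              · omega
              · exact hN 3 6 5 (by decide) (by decide) (by omega)
              · omega
              · omega
            · exact hI 1 3 (by decide) (by omega)
            · omega
            · omega
            · skip
              rcases hE 1 5 (by decide) with h|h|h|h|h|h|h|h
              · omega
              · omega
              · omega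
              · omega
              · omega
              · omega
              · omega
              · omega
            · exact hI 2 3 (by decide) (by omega)
            · exact hI 0 1 (by decide) (by omega)
          · exact hI 0 4 (by decide) (by omega)
      · omega
      · skip
        rcases hE 1 5 (by decide) with h|h|h|h|h|h|h|h
        · omega
        · omega
        · omega
        · exact hI 3 7 (by decide) (by omega)
        · omega
        · omega
        · exact hI 6 7 (by decide) (by omega)
        · skip
          rcases hE 0 2 (by decide) with h|h|h|h|h|h|h|h
          · omega
          · omega
          · omega
          · skip
            rcases hE 0 6 (by decide) with h|h|h|h|h|h|h|h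
            · omega
            · skip
              rcases hE 1 2 (by decide) with h|h|h|h|h|h|h|h
              · omega
              · omega
              · omega
              · omega
              · exact hN 3 6 4 (by decide) (by decide) (by omega)
              · exact hN 2 6 4 (by decide) (by decide) (by omega)
              · omega
              · exact hI 1 4 (by decide) (by omega)
            · exact hI 1 6 (by decide) (by omega)
            · exact hI 2 6 (by decide) (by omega)
            · exact hN 3 6 7 (by decide) (by decide) (by omega)
            · exact hI 4 6 (by decide) (by omega)
            · omega
            · exact hN 1 4 6 (by decide) (by decide) (by omega)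
          · skip
            rcases hE 0 3 (by decide) with h|h|h|h|h|h|h|h
            · omega
            · skip
              rcases hE 1 2 (by decide) with h|h|h|h|h|h|h|h
              · omega
              · omega
              · omega
              · omega
              · omega
              · exact hI 0 3 (by decide) (by omega)
              · exact hN 3 4 6 (by decide) (by decide) (by omega)
              · omega
            · exact hI 1 3 (by decide) (by omega)
            · omega
            · exact hI 2 3 (by decide) (by omega)
            · exact hI 3 4 (by decide) (by omega)
            · skip
              rcases hE 0 6 (by decide) with h|h|h|h|h|h|h|h
              · omega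
              · skip
                rcases hE 1 2 (by decide) with h|h|h|h|h|h|h|h
                · omega
                · omega
                · omega
                · omega
                · omega
                · omega
                · omega
                · omega
              · exact hI 1 6 (by decide) (by omega)
              · omega
              · exact hI 1 3 (by decide) (by omega)
              · exact hI 2 3 (by decide) (by omega)
              · omega
              · exact hN 1 4 6 (by decide) (by decide) (by omega)
            · exact hN 1 4 3 (by decide) (by decide) (by omega)
          · exact hI 2 4 (by decide) (by omega)
          · skip
            rcases hE 0 3 (by decide) with h|h|h|h|h|h|h|h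
            · omega
            · skip
              rcases hE 1 2 (by decide) with h|h|h|h|h|h|h|h
              · omega
              · omega
              · omega
              · omega
              · exact hN 1 6 5 (by decide) (by decide) (by omega)
              · exact hN 2 3 4 (by decide) (by decide) (by omega)
              · omega
              · exact hI 1 4 (by decide) (by omega)
            · exact hI 1 3 (by decide) (by omega)
            · omega
            · exact hN 3 6 7 (by decide) (by decide) (by omega)
            · exact hI 3 4 (by decide) (by omega)
            · exact hI 2 3 (by decide) (by omega)
            · exact hN 1 4 3 (by decide) (by decide) (by omega)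
          · exact hI 0 4 (by decide) (by omega)
      · exact hN 1 6 7 (by decide) (by decide) (by omega)
      · omega
  · skip
    rcases hE 0 2 (by decide) with h|h|h|h|h|h|h|h
    · omega
    · skip
      rcases hE 1 5 (by decide) with h|h|h|h|h|h|h|h
      · omega
      · omega
      · omega
      · exact hI 0 5 (by decide) (by omega)
      · skip
        rcases hE 0 4 (by decide) with h|h|h|h|h|h|h|h
        · omega
        · omega
        · omega
        · omega
        · omega
        · omega
        · exact hN 3 5 6 (by decide) (by decide) (by omega)
        · exact hN 3 5 7 (by decide) (by decide) (by omega)
      · omega
      · skip
        rcases hE 0 6 (by decide) with h|h|h|h|h|h|h|h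
        · omega
        · omega
        · omega
        · omega
        · exact hN 3 5 4 (by decide) (by decide) (by omega)
        · omega
        · omega
        · exact hN 3 5 7 (by decide) (by decide) (by omega)
      · skip
        rcases hE 0 4 (by decide) with h|h|h|h|h|h|h|h
        · omega
        · exact hI 2 4 (by decide) (by omega)
        · skip
          rcases hE 1 2 (by decide) with h|h|h|h|h|h|h|h
          · omega
          · omega
          · omega
          · omega
          · omega
          · exact hN 3 4 5 (by decide) (by decide) (by omega)
          · exact hN 3 4 6 (by decide) (by decide) (by omega)
          · exact hI 2 5 (by decide) (by omega)
        · exact hI 1 4 (by decide) (by omega)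
        · omega
        · exact hN 3 4 7 (by decide) (by decide) (by omega)
        · skip
          rcases hE 0 6 (by decide) with h|h|h|h|h|h|h|h
          · omega
          · exact hI 2 6 (by decide) (by omega)
          · skip
            rcases hE 1 2 (by decide) with h|h|h|h|h|h|h|h
            · omega
            · omega
            · omega
            · omega
            · omega
            · exact hN 3 6 5 (by decide) (by decide) (by omega)
            · omega
            · exact hI 2 5 (by decide) (by omega)
          · exact hI 2 4 (by decide) (by omega)
          · omega
          · exact hN 3 6 7 (by decide) (by decide) (by omega)
          · omega
          · exact hN 2 5 6 (by decide) (by decide) (by omega)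
        · exact hN 2 5 4 (by decide) (by decide) (by omega)
    · omega
    · exact hI 1 2 (by decide) (by omega)
    · skip
      rcases hE 0 3 (by decide) with h|h|h|h|h|h|h|h
      · omega
      · omega
      · skip
        rcases hE 0 4 (by decide) with h|h|h|h|h|h|h|h
        · omega
        · omega
        · omega
        · omega
        · omega
        · skip
          rcases hE 1 5 (by decide) with h|h|h|h|h|h|h|h
          · omega
          · omega
          · omega
          · omega
          · omega
          · omega
          · exact hN 3 4 6 (by decide) (by decide) (by omega)
          · exact hN 3 4 7 (by decide) (by decide) (by omega)
        · skip
          rcases hE 2 4 (by decide) with h|h|h|h|h|h|h|h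
          · omega
          · omega
          · omega
          · omega
          · omega
          · exact hN 3 6 5 (by decide) (by decide) (by omega)
          · omega
          · exact hN 3 6 7 (by decide) (by decide) (by omega)
        · skip
          rcases hE 2 4 (by decide) with h|h|h|h|h|h|h|h
          · omega
          · omega
          · omega
          · omega
          · omega
          · exact hN 3 7 5 (by decide) (by decide) (by omega)
          · exact hN 3 7 6 (by decide) (by decide) (by omega)
          · omega
      · omega
      · exact hI 2 3 (by decide) (by omega)
      · skip
        rcases hE 0 4 (by decide) with h|h|h|h|h|h|h|h
        · omega
        · skip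
          rcases hE 1 3 (by decide) with h|h|h|h|h|h|h|h
          · omega
          · omega
          · omega
          · omega
          · omega
          · omega
          · exact hN 4 5 6 (by decide) (by decide) (by omega)
          · exact hN 4 5 7 (by decide) (by decide) (by omega)
        · omega
        · exact hI 1 4 (by decide) (by omega)
        · omega
        · exact hI 1 2 (by decide) (by omega)
        · skip
          rcases hE 0 6 (by decide) with h|h|h|h|h|h|h|h
          · omega
          · skip
            rcases hE 1 2 (by decide) with h|h|h|h|h|h|h|h
            · omega
            · omega
            · omega
            · exact hI 0 2 (by decide) (by omega)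
            · omega
            · exact hN 2 6 3 (by decide) (by decide) (by omega)
            · omega
            · exact hN 4 6 7 (by decide) (by decide) (by omega)
          · omega
          · exact hI 1 6 (by decide) (by omega)
          · omega
          · exact hI 1 4 (by decide) (by omega)
          · omega
          · skip
            rcases hE 1 5 (by decide) with h|h|h|h|h|h|h|h
            · omega
            · omega
            · exact hN 3 5 4 (by decide) (by decide) (by omega)
            · omega
            · exact hN 3 5 6 (by decide) (by decide) (by omega)
            · omega
            · exact hN 3 5 7 (by decide) (by decide) (by omega)
            · skip
              rcases hE 1 2 (by decide) with h|h|h|h|h|h|h|h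
              · exact hN 2 6 5 (by decide) (by decide) (by omega)
              · omega
              · omega
              · exact hI 0 1 (by decide) (by omega)
              · exact hI 0 1 (by decide) (by omega)
              · skip
                exact fin (by omega) (by omega) (by omega) (by omega) (by omega) (by omega) (by omega)
              · exact hI 2 3 (by decide) (by omega)
              · exact hI 2 5 (by decide) (by omega)
        · skip
          rcases hE 0 6 (by decide) with h|h|h|h|h|h|h|h
          · omega
          · skip
            rcases hE 1 2 (by decide) with h|h|h|h|h|h|h|h
            · omega
            · omega
            · omega
            · exact hI 0 2 (by decide) (by omega)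
            · omega
            · exact hN 2 6 3 (by decide) (by decide) (by omega)
            · omega
            · exact hI 0 6 (by decide) (by omega)
          · skip
            rcases hE 1 2 (by decide) with h|h|h|h|h|h|h|h
            · omega
            · omega
            · omega
            · omega
            · exact hI 0 1 (by decide) (by omega)
            · exact hI 0 6 (by decide) (by omega)
            · omega
            · exact hN 1 6 4 (by decide) (by decide) (by omega)
          · exact hI 1 6 (by decide) (by omega)
          · exact hI 2 6 (by decide) (by omega)
          · exact hI 3 6 (by decide) (by omega)
          · omega
          · exact hI 4 6 (by decide) (by omega)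
      · skip
        rcases hE 0 4 (by decide) with h|h|h|h|h|h|h|h
        · omega
        · skip
          rcases hE 1 3 (by decide) with h|h|h|h|h|h|h|h
          · omega
          · omega
          · omega
          · omega
          · omega
          · exact hN 4 6 5 (by decide) (by decide) (by omega)
          · omega
          · exact hN 4 6 7 (by decide) (by decide) (by omega)
        · omega
        · exact hI 1 4 (by decide) (by omega)
        · omega
        · skip
          rcases hE 1 5 (by decide) with h|h|h|h|h|h|h|h
          · omega
          · omega
          · omega
          · omega
          · omega
          · omega
          · omega
          · exact hN 2 6 7 (by decide) (by decide) (by omega)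
        · exact hI 1 2 (by decide) (by omega)
        · skip
          rcases hE 0 6 (by decide) with h|h|h|h|h|h|h|h
          · omega
          · omega
          · skip
            rcases hE 1 2 (by decide) with h|h|h|h|h|h|h|h
            · omega
            · omega
            · omega
            · omega
            · exact hI 0 1 (by decide) (by omega)
            · exact hN 3 6 5 (by decide) (by decide) (by omega)
            · omega
            · exact hN 1 6 4 (by decide) (by decide) (by omega)
          · omega
          · exact hI 2 6 (by decide) (by omega)
          · skip
            rcases hE 1 5 (by decide) with h|h|h|h|h|h|h|h
            · omega
            · omega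
            · exact hN 3 5 4 (by decide) (by decide) (by omega)
            · omega
            · exact hN 1 6 2 (by decide) (by decide) (by omega)
            · omega
            · omega
            · exact hN 1 6 4 (by decide) (by decide) (by omega)
          · omega
          · exact hI 2 3 (by decide) (by omega)
      · skip
        rcases hE 0 4 (by decide) with h|h|h|h|h|h|h|h
        · omega
        · skip
          rcases hE 1 3 (by decide) with h|h|h|h|h|h|h|h
          · omega
          · omega
          · omega
          · omega
          · omega
          · exact hN 4 7 5 (by decide) (by decide) (by omega)
          · exact hN 4 7 6 (by decide) (by decide) (by omega)
          · omega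
        · omega
        · exact hI 1 4 (by decide) (by omega)
        · omega
        · skip
          rcases hE 1 5 (by decide) with h|h|h|h|h|h|h|h
          · omega
          · omega
          · omega
          · omega
          · omega
          · omega
          · exact hN 2 7 6 (by decide) (by decide) (by omega)
          · omega
        · skip
          rcases hE 0 6 (by decide) with h|h|h|h|h|h|h|h
          · omega
          · skip
            rcases hE 1 2 (by decide) with h|h|h|h|h|h|h|h
            · omega
            · omega
            · omega
            · exact hI 0 2 (by decide) (by omega)
            · omega
            · exact hN 4 6 5 (by decide) (by decide) (by omega)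
            · omega
            · exact hN 2 6 3 (by decide) (by decide) (by omega)
          · omega
          · exact hI 1 6 (by decide) (by omega)
          · omega
          · skip
            rcases hE 1 5 (by decide) with h|h|h|h|h|h|h|h
            · omega
            · omega
            · omega
            · omega
            · omega
            · omega
            · omega
            · omega
          · omega
          · exact hI 1 4 (by decide) (by omega)
        · exact hI 1 2 (by decide) (by omega)
    · skip
      rcases hE 1 5 (by decide) with h|h|h|h|h|h|h|h
      · omega
      · omega
      · omega
      · omega
      · exact hN 2 3 4 (by decide) (by decide) (by omega)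
      · omega
      · exact hN 2 3 6 (by decide) (by decide) (by omega)
      · exact hN 2 3 7 (by decide) (by decide) (by omega)
    · skip
      rcases hE 0 3 (by decide) with h|h|h|h|h|h|h|h
      · omega
      · omega
      · skip
        rcases hE 2 4 (by decide) with h|h|h|h|h|h|h|h
        · omega
        · omega
        · omega
        · omega
        · omega
        · skip
          rcases hE 0 4 (by decide) with h|h|h|h|h|h|h|h
          · omega
          · skip
            rcases hE 1 2 (by decide) with h|h|h|h|h|h|h|h
            · omega
            · omega
            · omega
            · omega
            · omega
            · omega
            · omega
            · exact hN 0 5 7 (by decide) (by decide) (by omega)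
          · exact hI 3 4 (by decide) (by omega)
          · exact hI 1 4 (by decide) (by omega)
          · omega
          · omega
          · exact hI 2 4 (by decide) (by omega)
          · exact hN 3 7 5 (by decide) (by decide) (by omega)
        · exact hI 0 4 (by decide) (by omega)
        · skip
          rcases hE 0 4 (by decide) with h|h|h|h|h|h|h|h
          · omega
          · skip
            rcases hE 1 2 (by decide) with h|h|h|h|h|h|h|h
            · omega
            · omega
            · omega
            · omega
            · omega
            · exact hN 0 7 5 (by decide) (by decide) (by omega)
            · omega
            · omega
          · exact hI 3 4 (by decide) (by omega)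
          · exact hI 1 4 (by decide) (by omega)
          · omega
          · exact hN 3 5 7 (by decide) (by decide) (by omega)
          · exact hI 2 4 (by decide) (by omega)
          · omega
      · omega
      · skip
        rcases hE 2 4 (by decide) with h|h|h|h|h|h|h|h
        · omega
        · omega
        · omega
        · omega
        · omega
        · exact hN 3 6 5 (by decide) (by decide) (by omega)
        · omega
        · exact hN 3 6 7 (by decide) (by decide) (by omega)
      · skip
        rcases hE 0 4 (by decide) with h|h|h|h|h|h|h|h
        · omega
        · skip
          rcases hE 1 2 (by decide) with h|h|h|h|h|h|h|h
          · omega
          · omega
          · omega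
          · exact hI 0 2 (by decide) (by omega)
          · omega
          · exact hN 4 6 5 (by decide) (by decide) (by omega)
          · omega
          · exact hN 4 6 7 (by decide) (by decide) (by omega)
        · skip
          rcases hE 1 2 (by decide) with h|h|h|h|h|h|h|h
          · omega
          · omega
          · omega
          · omega
          · omega
          · exact hI 0 4 (by decide) (by omega)
          · exact hI 0 1 (by decide) (by omega)
          · exact hN 3 4 7 (by decide) (by decide) (by omega)
        · exact hI 1 4 (by decide) (by omega)
        · omega
        · exact hI 3 4 (by decide) (by omega)
        · exact hI 2 4 (by decide) (by omega)
        · skip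
          rcases hE 0 6 (by decide) with h|h|h|h|h|h|h|h
          · omega
          · skip
            rcases hE 1 2 (by decide) with h|h|h|h|h|h|h|h
            · omega
            · omega
            · omega
            · exact hI 0 2 (by decide) (by omega)
            · exact hN 1 6 7 (by decide) (by decide) (by omega)
            · exact hN 2 6 3 (by decide) (by decide) (by omega)
            · omega
            · exact hN 2 6 4 (by decide) (by decide) (by omega)
          · omega
          · exact hI 1 6 (by decide) (by omega)
          · skip
            rcases hE 2 4 (by decide) with h|h|h|h|h|h|h|h
            · omega
            · exact hN 2 7 3 (by decide) (by decide) (by omega)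
            · omega
            · exact hN 2 6 1 (by decide) (by decide) (by omega)
            · omega
            · exact hN 2 6 3 (by decide) (by decide) (by omega)
            · omega
            · exact hI 0 2 (by decide) (by omega)
          · exact hI 1 2 (by decide) (by omega)
          · omega
          · exact hI 4 6 (by decide) (by omega)
      · exact hI 2 3 (by decide) (by omega)
      · skip
        rcases hE 0 4 (by decide) with h|h|h|h|h|h|h|h
        · omega
        · skip
          rcases hE 1 2 (by decide) with h|h|h|h|h|h|h|h
          · omega
          · omega
          · omega
          · exact hI 0 2 (by decide) (by omega)
          · omega
          · exact hN 4 6 5 (by decide) (by decide) (by omega)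
          · omega
          · exact hN 4 6 7 (by decide) (by decide) (by omega)
        · skip
          rcases hE 1 2 (by decide) with h|h|h|h|h|h|h|h
          · omega
          · omega
          · omega
          · omega
          · omega
          · exact hN 3 4 5 (by decide) (by decide) (by omega)
          · exact hI 0 1 (by decide) (by omega)
          · exact hI 0 4 (by decide) (by omega)
        · exact hI 1 4 (by decide) (by omega)
        · omega
        · skip
          rcases hE 1 5 (by decide) with h|h|h|h|h|h|h|h
          · omega
          · omega
          · exact hN 3 4 2 (by decide) (by decide) (by omega)
          · omega
          · omega
          · omega
          · exact hN 1 4 2 (by decide) (by decide) (by omega)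
          · exact hI 0 4 (by decide) (by omega)
        · exact hI 2 4 (by decide) (by omega)
        · exact hI 3 4 (by decide) (by omega)
    · skip
      rcases hE 0 3 (by decide) with h|h|h|h|h|h|h|h
      · omega
      · omega
      · skip
        rcases hE 2 4 (by decide) with h|h|h|h|h|h|h|h
        · omega
        · omega
        · omega
        · omega
        · omega
        · skip
          rcases hE 0 4 (by decide) with h|h|h|h|h|h|h|h
          · omega
          · skip
            rcases hE 0 6 (by decide) with h|h|h|h|h|h|h|h
            · omega
            · exact hI 4 6 (by decide) (by omega)
            · exact hI 3 6 (by decide) (by omega)
            · exact hI 1 6 (by decide) (by omega)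
            · exact hN 6 7 5 (by decide) (by decide) (by omega)
            · exact hN 3 4 6 (by decide) (by decide) (by omega)
            · omega
            · exact hI 2 6 (by decide) (by omega)
          · exact hI 3 4 (by decide) (by omega)
          · exact hI 1 4 (by decide) (by omega)
          · omega
          · omega
          · exact hN 3 6 5 (by decide) (by decide) (by omega)
          · exact hI 2 4 (by decide) (by omega)
        · skip
          rcases hE 0 6 (by decide) with h|h|h|h|h|h|h|h
          · omega
          · omega
          · omega
          · omega
          · omega
          · exact hN 4 7 5 (by decide) (by decide) (by omega)
          · omega
          · omega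
        · exact hI 0 4 (by decide) (by omega)
      · omega
      · skip
        rcases hE 2 4 (by decide) with h|h|h|h|h|h|h|h
        · omega
        · omega
        · omega
        · omega
        · omega
        · exact hN 3 7 5 (by decide) (by decide) (by omega)
        · exact hN 3 7 6 (by decide) (by decide) (by omega)
        · omega
      · skip
        rcases hE 0 4 (by decide) with h|h|h|h|h|h|h|h
        · omega
        · skip
          rcases hE 1 2 (by decide) with h|h|h|h|h|h|h|h
          · omega
          · omega
          · omega
          · exact hI 0 2 (by decide) (by omega)
          · omega
          · exact hN 4 7 5 (by decide) (by decide) (by omega)
          · exact hN 4 7 6 (by decide) (by decide) (by omega)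
          · omega
        · skip
          rcases hE 1 2 (by decide) with h|h|h|h|h|h|h|h
          · omega
          · omega
          · omega
          · omega
          · omega
          · exact hI 0 4 (by decide) (by omega)
          · exact hN 3 4 6 (by decide) (by decide) (by omega)
          · exact hI 0 1 (by decide) (by omega)
        · exact hI 1 4 (by decide) (by omega)
        · omega
        · exact hI 3 4 (by decide) (by omega)
        · skip
          rcases hE 0 6 (by decide) with h|h|h|h|h|h|h|h
          · omega
          · skip
            rcases hE 1 2 (by decide) with h|h|h|h|h|h|h|h
            · omega
            · omega
            · omega
            · exact hI 0 2 (by decide) (by omega)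
            · omega
            · exact hN 2 6 3 (by decide) (by decide) (by omega)
            · omega
            · omega
          · skip
            rcases hE 1 2 (by decide) with h|h|h|h|h|h|h|h
            · omega
            · omega
            · omega
            · omega
            · omega
            · omega
            · omega
            · exact hI 0 1 (by decide) (by omega)
          · exact hI 1 6 (by decide) (by omega)
          · omega
          · exact hI 1 4 (by decide) (by omega)
          · omega
          · exact hI 2 6 (by decide) (by omega)
        · exact hI 2 4 (by decide) (by omega)
      · skip
        rcases hE 0 4 (by decide) with h|h|h|h|h|h|h|h
        · omega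
        · skip
          rcases hE 1 2 (by decide) with h|h|h|h|h|h|h|h
          · omega
          · omega
          · omega
          · exact hI 0 2 (by decide) (by omega)
          · omega
          · exact hN 4 7 5 (by decide) (by decide) (by omega)
          · exact hN 4 7 6 (by decide) (by decide) (by omega)
          · omega
        · skip
          rcases hE 1 2 (by decide) with h|h|h|h|h|h|h|h
          · omega
          · omega
          · omega
          · omega
          · omega
          · exact hN 3 4 5 (by decide) (by decide) (by omega)
          · exact hI 0 4 (by decide) (by omega)
          · exact hI 0 1 (by decide) (by omega)
        · exact hI 1 4 (by decide) (by omega)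
        · omega
        · skip
          rcases hE 1 5 (by decide) with h|h|h|h|h|h|h|h
          · omega
          · omega
          · exact hN 3 4 2 (by decide) (by decide) (by omega)
          · omega
          · omega
          · omega
          · exact hI 0 4 (by decide) (by omega)
          · exact hN 1 4 2 (by decide) (by decide) (by omega)
        · exact hI 3 4 (by decide) (by omega)
        · exact hI 2 4 (by decide) (by omega)
      · exact hI 2 3 (by decide) (by omega)
  · skip
    rcases hE 2 4 (by decide) with h|h|h|h|h|h|h|h
    · omega
    · omega
    · omega
    · skip
      rcases hE 0 2 (by decide) with h|h|h|h|h|h|h|h
      · omega
      · skip
        rcases hE 0 3 (by decide) with h|h|h|h|h|h|h|h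
        · omega
        · omega
        · omega
        · omega
        · omega
        · exact hN 1 4 5 (by decide) (by decide) (by omega)
        · exact hN 1 4 6 (by decide) (by decide) (by omega)
        · exact hN 1 4 7 (by decide) (by decide) (by omega)
      · omega
      · omega
      · exact hI 1 2 (by decide) (by omega)
      · skip
        rcases hE 0 3 (by decide) with h|h|h|h|h|h|h|h
        · omega
        · omega
        · omega
        · omega
        · omega
        · omega
        · exact hN 4 5 6 (by decide) (by decide) (by omega)
        · exact hN 4 5 7 (by decide) (by decide) (by omega)
      · exact hN 1 6 3 (by decide) (by decide) (by omega)
      · exact hN 1 7 3 (by decide) (by decide) (by omega)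
    · omega
    · skip
      rcases hE 0 2 (by decide) with h|h|h|h|h|h|h|h
      · omega
      · skip
        rcases hE 1 2 (by decide) with h|h|h|h|h|h|h|h
        · omega
        · omega
        · omega
        · skip
          rcases hE 1 3 (by decide) with h|h|h|h|h|h|h|h
          · omega
          · omega
          · omega
          · omega
          · omega
          · omega
          · exact hN 2 5 6 (by decide) (by decide) (by omega)
          · exact hN 2 5 7 (by decide) (by decide) (by omega)
        · exact hI 0 2 (by decide) (by omega)
        · omega
        · skip
          rcases hE 1 5 (by decide) with h|h|h|h|h|h|h|h
          · omega
          · omega
          · omega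
          · exact hN 4 6 3 (by decide) (by decide) (by omega)
          · omega
          · omega
          · omega
          · exact hN 4 6 7 (by decide) (by decide) (by omega)
        · exact hN 0 7 5 (by decide) (by decide) (by omega)
      · omega
      · skip
        rcases hE 1 3 (by decide) with h|h|h|h|h|h|h|h
        · omega
        · omega
        · omega
        · omega
        · omega
        · skip
          rcases hE 1 2 (by decide) with h|h|h|h|h|h|h|h
          · skip
            rcases hE 0 3 (by decide) with h|h|h|h|h|h|h|h
            · omega
            · omega
            · omega
            · omega
            · omega
            · omega
            · exact hN 2 5 6 (by decide) (by decide) (by omega)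
            · exact hN 2 5 7 (by decide) (by decide) (by omega)
          · omega
          · omega
          · exact hI 0 1 (by decide) (by omega)
          · exact hI 0 2 (by decide) (by omega)
          · omega
          · skip
            rcases hE 1 5 (by decide) with h|h|h|h|h|h|h|h
            · omega
            · omega
            · omega
            · omega
            · omega
            · omega
            · omega
            · exact hN 4 6 7 (by decide) (by decide) (by omega)
          · exact hN 0 7 5 (by decide) (by decide) (by omega)
        · exact hI 5 6 (by decide) (by omega)
        · exact hI 5 7 (by decide) (by omega)
      · exact hI 1 2 (by decide) (by omega)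
      · omega
      · exact hN 1 6 5 (by decide) (by decide) (by omega)
      · exact hN 1 7 5 (by decide) (by decide) (by omega)
    · skip
      rcases hE 1 2 (by decide) with h|h|h|h|h|h|h|h
      · skip
        rcases hE 0 4 (by decide) with h|h|h|h|h|h|h|h
        · omega
        · omega
        · omega
        · exact hN 1 6 3 (by decide) (by decide) (by omega)
        · omega
        · exact hN 1 6 5 (by decide) (by decide) (by omega)
        · omega
        · exact hN 1 6 7 (by decide) (by decide) (by omega)
      · omega
      · omega
      · skip
        rcases hE 0 3 (by decide) with h|h|h|h|h|h|h|h
        · omega
        · omega
        · omega
        · omega
        · omega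
        · exact hI 5 6 (by decide) (by omega)
        · skip
          rcases hE 0 2 (by decide) with h|h|h|h|h|h|h|h
          · omega
          · skip
            rcases hE 0 6 (by decide) with h|h|h|h|h|h|h|h
            · omega
            · omega
            · omega
            · omega
            · omega
            · exact hN 1 4 5 (by decide) (by decide) (by omega)
            · omega
            · exact hN 1 4 7 (by decide) (by decide) (by omega)
          · omega
          · exact hI 0 1 (by decide) (by omega)
          · exact hI 1 2 (by decide) (by omega)
          · skip
            rcases hE 0 6 (by decide) with h|h|h|h|h|h|h|h
            · omega
            · omega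
            · omega
            · omega
            · omega
            · omega
            · omega
            · exact hN 4 5 7 (by decide) (by decide) (by omega)
          · omega
          · exact hN 1 7 6 (by decide) (by decide) (by omega)
        · exact hI 6 7 (by decide) (by omega)
      · exact hI 0 2 (by decide) (by omega)
      · exact hN 0 5 6 (by decide) (by decide) (by omega)
      · omega
      · exact hN 0 7 6 (by decide) (by decide) (by omega)
    · skip
      rcases hE 0 2 (by decide) with h|h|h|h|h|h|h|h
      · omega
      · skip
        rcases hE 1 2 (by decide) with h|h|h|h|h|h|h|h
        · omega
        · omega
        · omega
        · skip
          rcases hE 1 3 (by decide) with h|h|h|h|h|h|h|h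
          · omega
          · omega
          · omega
          · omega
          · omega
          · exact hN 2 7 5 (by decide) (by decide) (by omega)
          · exact hN 2 7 6 (by decide) (by decide) (by omega)
          · omega
        · exact hI 0 2 (by decide) (by omega)
        · exact hN 0 5 7 (by decide) (by decide) (by omega)
        · skip
          rcases hE 0 6 (by decide) with h|h|h|h|h|h|h|h
          · omega
          · omega
          · omega
          · exact hI 3 7 (by decide) (by omega)
          · omega
          · exact hI 5 7 (by decide) (by omega)
          · omega
          · skip
            rcases hE 1 3 (by decide) with h|h|h|h|h|h|h|h
            · omega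
            · omega
            · omega
            · omega
            · exact hI 0 3 (by decide) (by omega)
            · skip
              rcases hE 0 3 (by decide) with h|h|h|h|h|h|h|h
              · omega
              · exact hI 2 3 (by decide) (by omega)
              · exact hN 0 5 6 (by decide) (by decide) (by omega)
              · omega
              · exact hI 1 3 (by decide) (by omega)
              · omega
              · exact hN 2 6 5 (by decide) (by decide) (by omega)
              · exact hI 3 6 (by decide) (by omega)
            · exact hI 2 3 (by decide) (by omega)
            · exact hI 1 3 (by decide) (by omega)
        · omega
      · omega
      · skip
        rcases hE 1 3 (by decide) with h|h|h|h|h|h|h|h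
        · omega
        · omega
        · omega
        · omega
        · omega
        · exact hI 5 7 (by decide) (by omega)
        · exact hI 6 7 (by decide) (by omega)
        · skip
          rcases hE 1 2 (by decide) with h|h|h|h|h|h|h|h
          · skip
            rcases hE 0 3 (by decide) with h|h|h|h|h|h|h|h
            · omega
            · omega
            · omega
            · omega
            · omega
            · exact hN 2 7 5 (by decide) (by decide) (by omega)
            · exact hN 2 7 6 (by decide) (by decide) (by omega)
            · omega
          · omega
          · omega
          · exact hI 0 1 (by decide) (by omega)
          · exact hI 0 2 (by decide) (by omega)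
          · exact hN 0 5 7 (by decide) (by decide) (by omega)
          · skip
            rcases hE 0 6 (by decide) with h|h|h|h|h|h|h|h
            · omega
            · omega
            · omega
            · omega
            · omega
            · exact hI 5 7 (by decide) (by omega)
            · omega
            · skip
              rcases hE 1 5 (by decide) with h|h|h|h|h|h|h|h
              · exact hN 5 6 3 (by decide) (by decide) (by omega)
              · omega
              · exact hN 4 5 3 (by decide) (by decide) (by omega)
              · skip
                rcases hE 0 3 (by decide) with h|h|h|h|h|h|h|h
                · omega
                · omega
                · omega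
                · omega
                · omega
                · omega
                · exact hN 0 5 2 (by decide) (by decide) (by omega)
                · exact hI 0 1 (by decide) (by omega)
              · exact hI 0 5 (by decide) (by omega)
              · omega
              · exact hI 2 5 (by decide) (by omega)
              · exact hI 3 5 (by decide) (by omega)
          · omega
      · exact hI 1 2 (by decide) (by omega)
      · skip
        rcases hE 1 5 (by decide) with h|h|h|h|h|h|h|h
        · omega
        · omega
        · omega
        · exact hI 3 7 (by decide) (by omega)
        · omega
        · omega
        · exact hI 6 7 (by decide) (by omega)
        · skip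
          rcases hE 0 4 (by decide) with h|h|h|h|h|h|h|h
          · omega
          · omega
          · skip
            rcases hE 1 2 (by decide) with h|h|h|h|h|h|h|h
            · omega
            · omega
            · omega
            · skip
              rcases hE 0 6 (by decide) with h|h|h|h|h|h|h|h
              · omega
              · exact hN 5 6 3 (by decide) (by decide) (by omega)
              · exact hI 4 6 (by decide) (by omega)
              · exact hN 1 4 6 (by decide) (by decide) (by omega)
              · exact hI 1 6 (by decide) (by omega)
              · exact hI 2 6 (by decide) (by omega)
              · omega
              · exact hI 3 6 (by decide) (by omega)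
            · omega
            · exact hI 0 1 (by decide) (by omega)
            · skip
              rcases hE 0 3 (by decide) with h|h|h|h|h|h|h|h
              · omega
              · exact hN 3 5 6 (by decide) (by decide) (by omega)
              · exact hI 3 4 (by decide) (by omega)
              · omega
              · exact hI 1 3 (by decide) (by omega)
              · exact hI 2 3 (by decide) (by omega)
              · exact hN 1 4 3 (by decide) (by decide) (by omega)
              · exact hI 3 6 (by decide) (by omega)
            · omega
          · skip
            rcases hE 1 3 (by decide) with h|h|h|h|h|h|h|h
            · omega
            · omega
            · exact hN 3 4 5 (by decide) (by decide) (by omega)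
            · omega
            · omega
            · exact hN 1 4 2 (by decide) (by decide) (by omega)
            · skip
              rcases hE 0 6 (by decide) with h|h|h|h|h|h|h|h
              · omega
              · omega
              · exact hN 3 4 2 (by decide) (by decide) (by omega)
              · omega
              · omega
              · exact hI 2 6 (by decide) (by omega)
              · omega
              · exact hI 2 3 (by decide) (by omega)
            · exact hI 2 4 (by decide) (by omega)
          · omega
          · exact hI 2 4 (by decide) (by omega)
          · skip
            rcases hE 0 3 (by decide) with h|h|h|h|h|h|h|h
            · omega
            · skip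
              rcases hE 1 2 (by decide) with h|h|h|h|h|h|h|h
              · omega
              · omega
              · omega
              · omega
              · exact hI 0 2 (by decide) (by omega)
              · omega
              · exact hN 2 3 4 (by decide) (by decide) (by omega)
              · omega
            · exact hN 3 6 7 (by decide) (by decide) (by omega)
            · omega
            · exact hI 1 3 (by decide) (by omega)
            · exact hI 2 3 (by decide) (by omega)
            · exact hI 3 4 (by decide) (by omega)
            · skip
              rcases hE 0 6 (by decide) with h|h|h|h|h|h|h|h
              · omega
              · omega
              · exact hN 4 6 3 (by decide) (by decide) (by omega)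
              · skip
                rcases hE 1 3 (by decide) with h|h|h|h|h|h|h|h
                · omega
                · omega
                · omega
                · omega
                · omega
                · exact hN 1 6 2 (by decide) (by decide) (by omega)
                · omega
                · exact hI 0 1 (by decide) (by omega)
              · omega
              · exact hI 2 6 (by decide) (by omega)
              · omega
              · exact hI 3 6 (by decide) (by omega)
          · exact hI 0 2 (by decide) (by omega)
      · exact hN 1 6 7 (by decide) (by decide) (by omega)
      · omega
  · skip
    rcases hE 0 2 (by decide) with h|h|h|h|h|h|h|h
    · omega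
    · skip
      rcases hE 1 3 (by decide) with h|h|h|h|h|h|h|h
      · omega
      · omega
      · omega
      · omega
      · skip
        rcases hE 0 4 (by decide) with h|h|h|h|h|h|h|h
        · omega
        · omega
        · omega
        · omega
        · omega
        · omega
        · exact hN 3 5 6 (by decide) (by decide) (by omega)
        · exact hN 3 5 7 (by decide) (by decide) (by omega)
      · exact hI 0 3 (by decide) (by omega)
      · skip
        rcases hE 0 6 (by decide) with h|h|h|h|h|h|h|h
        · omega
        · omega
        · omega
        · omega
        · exact hN 3 5 4 (by decide) (by decide) (by omega)
        · omega
        · omega
        · exact hN 3 5 7 (by decide) (by decide) (by omega)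
      · skip
        rcases hE 0 3 (by decide) with h|h|h|h|h|h|h|h
        · omega
        · exact hI 2 3 (by decide) (by omega)
        · skip
          rcases hE 1 2 (by decide) with h|h|h|h|h|h|h|h
          · omega
          · omega
          · omega
          · omega
          · exact hN 0 7 4 (by decide) (by decide) (by omega)
          · omega
          · exact hN 0 7 6 (by decide) (by decide) (by omega)
          · omega
        · omega
        · skip
          rcases hE 0 6 (by decide) with h|h|h|h|h|h|h|h
          · omega
          · exact hI 2 6 (by decide) (by omega)
          · skip
            rcases hE 1 2 (by decide) with h|h|h|h|h|h|h|h
            · omega
            · omega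
            · omega
            · exact hN 2 5 4 (by decide) (by decide) (by omega)
            · exact hN 1 6 3 (by decide) (by decide) (by omega)
            · omega
            · omega
            · exact hI 2 3 (by decide) (by omega)
          · exact hN 5 6 7 (by decide) (by decide) (by omega)
          · exact hI 3 6 (by decide) (by omega)
          · exact hI 1 6 (by decide) (by omega)
          · omega
          · exact hN 2 3 6 (by decide) (by decide) (by omega)
        · exact hI 1 3 (by decide) (by omega)
        · exact hN 2 6 7 (by decide) (by decide) (by omega)
        · omega
    · omega
    · skip
      rcases hE 1 3 (by decide) with h|h|h|h|h|h|h|h
      · omega
      · omega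
      · omega
      · omega
      · exact hN 2 5 4 (by decide) (by decide) (by omega)
      · omega
      · exact hN 2 5 6 (by decide) (by decide) (by omega)
      · exact hN 2 5 7 (by decide) (by decide) (by omega)
    · skip
      rcases hE 0 3 (by decide) with h|h|h|h|h|h|h|h
      · omega
      · skip
        rcases hE 1 2 (by decide) with h|h|h|h|h|h|h|h
        · omega
        · omega
        · omega
        · omega
        · omega
        · exact hI 0 2 (by decide) (by omega)
        · exact hN 3 4 6 (by decide) (by decide) (by omega)
        · exact hN 3 4 7 (by decide) (by decide) (by omega)
      · skip
        rcases hE 1 2 (by decide) with h|h|h|h|h|h|h|h
        · omega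
        · omega
        · omega
        · omega
        · exact hI 0 1 (by decide) (by omega)
        · omega
        · exact hN 3 5 6 (by decide) (by decide) (by omega)
        · exact hN 3 5 7 (by decide) (by decide) (by omega)
      · omega
      · exact hI 2 3 (by decide) (by omega)
      · exact hI 1 3 (by decide) (by omega)
      · skip
        rcases hE 0 4 (by decide) with h|h|h|h|h|h|h|h
        · omega
        · skip
          rcases hE 1 3 (by decide) with h|h|h|h|h|h|h|h
          · omega
          · omega
          · omega
          · omega
          · omega
          · exact hI 0 3 (by decide) (by omega)
          · omega
          · exact hN 4 6 7 (by decide) (by decide) (by omega)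
        · omega
        · skip
          rcases hE 1 3 (by decide) with h|h|h|h|h|h|h|h
          · omega
          · omega
          · omega
          · omega
          · omega
          · omega
          · exact hI 0 1 (by decide) (by omega)
          · exact hN 4 5 7 (by decide) (by decide) (by omega)
        · omega
        · exact hI 1 4 (by decide) (by omega)
        · exact hI 3 4 (by decide) (by omega)
        · skip
          rcases hE 0 6 (by decide) with h|h|h|h|h|h|h|h
          · omega
          · skip
            rcases hE 1 2 (by decide) with h|h|h|h|h|h|h|h
            · omega
            · omega
            · omega
            · omega
            · omega
            · exact hI 0 2 (by decide) (by omega)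
            · omega
            · omega
          · skip
            rcases hE 1 2 (by decide) with h|h|h|h|h|h|h|h
            · omega
            · omega
            · omega
            · omega
            · exact hI 0 1 (by decide) (by omega)
            · omega
            · omega
            · exact hN 1 6 4 (by decide) (by decide) (by omega)
          · omega
          · exact hI 2 6 (by decide) (by omega)
          · exact hI 1 6 (by decide) (by omega)
          · omega
          · exact hI 2 3 (by decide) (by omega)
      · skip
        rcases hE 0 4 (by decide) with h|h|h|h|h|h|h|h
        · omega
        · skip
          rcases hE 1 3 (by decide) with h|h|h|h|h|h|h|h
          · omega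
          · omega
          · omega
          · omega
          · omega
          · exact hI 0 3 (by decide) (by omega)
          · exact hN 4 7 6 (by decide) (by decide) (by omega)
          · omega
        · omega
        · skip
          rcases hE 1 3 (by decide) with h|h|h|h|h|h|h|h
          · omega
          · omega
          · omega
          · omega
          · omega
          · omega
          · exact hN 4 5 6 (by decide) (by decide) (by omega)
          · exact hI 0 1 (by decide) (by omega)
        · omega
        · exact hI 1 4 (by decide) (by omega)
        · skip
          rcases hE 0 6 (by decide) with h|h|h|h|h|h|h|h
          · omega
          · skip
            rcases hE 1 2 (by decide) with h|h|h|h|h|h|h|h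
            · omega
            · omega
            · omega
            · exact hN 1 4 7 (by decide) (by decide) (by omega)
            · omega
            · exact hI 0 2 (by decide) (by omega)
            · omega
            · exact hN 2 6 3 (by decide) (by decide) (by omega)
          · omega
          · skip
            rcases hE 1 3 (by decide) with h|h|h|h|h|h|h|h
            · omega
            · omega
            · omega
            · omega
            · omega
            · omega
            · omega
            · exact hI 0 1 (by decide) (by omega)
          · omega
          · exact hI 1 6 (by decide) (by omega)
          · omega
          · exact hI 3 6 (by decide) (by omega)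
        · exact hI 3 4 (by decide) (by omega)
    · exact hI 1 2 (by decide) (by omega)
    · skip
      rcases hE 0 3 (by decide) with h|h|h|h|h|h|h|h
      · omega
      · skip
        rcases hE 1 2 (by decide) with h|h|h|h|h|h|h|h
        · omega
        · omega
        · omega
        · omega
        · exact hN 3 6 4 (by decide) (by decide) (by omega)
        · exact hI 0 2 (by decide) (by omega)
        · omega
        · exact hN 3 6 7 (by decide) (by decide) (by omega)
      · skip
        rcases hE 1 2 (by decide) with h|h|h|h|h|h|h|h
        · omega
        · omega
        · omega
        · omega
        · exact hN 3 5 4 (by decide) (by decide) (by omega)
        · omega
        · exact hI 0 1 (by decide) (by omega)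
        · exact hN 3 5 7 (by decide) (by decide) (by omega)
      · omega
      · skip
        rcases hE 2 4 (by decide) with h|h|h|h|h|h|h|h
        · omega
        · exact hN 3 6 1 (by decide) (by decide) (by omega)
        · omega
        · omega
        · omega
        · exact hN 2 3 1 (by decide) (by decide) (by omega)
        · omega
        · exact hN 3 6 7 (by decide) (by decide) (by omega)
      · exact hI 1 3 (by decide) (by omega)
      · exact hI 2 3 (by decide) (by omega)
      · skip
        rcases hE 0 4 (by decide) with h|h|h|h|h|h|h|h
        · omega
        · skip
          rcases hE 1 2 (by decide) with h|h|h|h|h|h|h|h
          · omega
          · omega
          · omega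
          · exact hN 1 6 7 (by decide) (by decide) (by omega)
          · omega
          · exact hI 0 2 (by decide) (by omega)
          · omega
          · exact hN 4 6 7 (by decide) (by decide) (by omega)
        · skip
          rcases hE 1 2 (by decide) with h|h|h|h|h|h|h|h
          · omega
          · omega
          · omega
          · exact hN 1 6 7 (by decide) (by decide) (by omega)
          · omega
          · omega
          · exact hI 0 1 (by decide) (by omega)
          · exact hN 1 4 3 (by decide) (by decide) (by omega)
        · skip
          rcases hE 1 3 (by decide) with h|h|h|h|h|h|h|h
          · omega
          · omega
          · exact hN 1 7 6 (by decide) (by decide) (by omega)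
          · omega
          · omega
          · omega
          · exact hN 1 4 2 (by decide) (by decide) (by omega)
          · exact hI 0 1 (by decide) (by omega)
        · omega
        · exact hI 1 4 (by decide) (by omega)
        · exact hI 2 4 (by decide) (by omega)
        · exact hI 3 4 (by decide) (by omega)
    · skip
      rcases hE 0 3 (by decide) with h|h|h|h|h|h|h|h
      · omega
      · skip
        rcases hE 1 2 (by decide) with h|h|h|h|h|h|h|h
        · omega
        · omega
        · omega
        · omega
        · exact hN 3 7 4 (by decide) (by decide) (by omega)
        · exact hI 0 2 (by decide) (by omega)
        · exact hN 3 7 6 (by decide) (by decide) (by omega)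
        · omega
      · skip
        rcases hE 1 2 (by decide) with h|h|h|h|h|h|h|h
        · omega
        · omega
        · omega
        · omega
        · exact hN 3 5 4 (by decide) (by decide) (by omega)
        · omega
        · exact hN 3 5 6 (by decide) (by decide) (by omega)
        · exact hI 0 1 (by decide) (by omega)
      · omega
      · skip
        rcases hE 2 4 (by decide) with h|h|h|h|h|h|h|h
        · omega
        · exact hN 3 7 1 (by decide) (by decide) (by omega)
        · omega
        · omega
        · omega
        · exact hN 2 3 1 (by decide) (by decide) (by omega)
        · exact hN 3 7 6 (by decide) (by decide) (by omega)
        · omega
      · exact hI 1 3 (by decide) (by omega)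
      · skip
        rcases hE 0 4 (by decide) with h|h|h|h|h|h|h|h
        · omega
        · skip
          rcases hE 1 2 (by decide) with h|h|h|h|h|h|h|h
          · omega
          · omega
          · omega
          · exact hN 1 7 6 (by decide) (by decide) (by omega)
          · omega
          · exact hI 0 2 (by decide) (by omega)
          · exact hN 4 7 6 (by decide) (by decide) (by omega)
          · omega
        · skip
          rcases hE 1 2 (by decide) with h|h|h|h|h|h|h|h
          · omega
          · omega
          · omega
          · exact hN 1 7 6 (by decide) (by decide) (by omega)
          · omega
          · omega
          · exact hN 1 4 3 (by decide) (by decide) (by omega)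
          · exact hI 0 1 (by decide) (by omega)
        · skip
          rcases hE 1 3 (by decide) with h|h|h|h|h|h|h|h
          · omega
          · omega
          · exact hN 1 6 7 (by decide) (by decide) (by omega)
          · omega
          · omega
          · omega
          · exact hI 0 1 (by decide) (by omega)
          · exact hN 1 4 2 (by decide) (by decide) (by omega)
        · omega
        · exact hI 1 4 (by decide) (by omega)
        · exact hI 3 4 (by decide) (by omega)
        · exact hI 2 4 (by decide) (by omega)
      · exact hI 2 3 (by decide) (by omega)
  · skip
    rcases hE 0 2 (by decide) with h|h|h|h|h|h|h|h
    · omega
    · skip
      rcases hE 1 3 (by decide) with h|h|h|h|h|h|h|h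
      · omega
      · omega
      · omega
      · omega
      · skip
        rcases hE 0 4 (by decide) with h|h|h|h|h|h|h|h
        · omega
        · omega
        · omega
        · omega
        · omega
        · exact hN 3 6 5 (by decide) (by decide) (by omega)
        · omega
        · exact hN 3 6 7 (by decide) (by decide) (by omega)
      · skip
        rcases hE 0 3 (by decide) with h|h|h|h|h|h|h|h
        · omega
        · exact hI 2 3 (by decide) (by omega)
        · skip
          rcases hE 1 2 (by decide) with h|h|h|h|h|h|h|h
          · omega
          · omega
          · omega
          · omega
          · exact hN 0 5 4 (by decide) (by decide) (by omega)
          · omega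
          · omega
          · exact hN 0 5 7 (by decide) (by decide) (by omega)
        · omega
        · skip
          rcases hE 1 5 (by decide) with h|h|h|h|h|h|h|h
          · omega
          · omega
          · omega
          · omega
          · omega
          · omega
          · omega
          · skip
            rcases hE 0 4 (by decide) with h|h|h|h|h|h|h|h
            · omega
            · exact hI 2 4 (by decide) (by omega)
            · skip
              rcases hE 0 6 (by decide) with h|h|h|h|h|h|h|h
              · omega
              · omega
              · omega
              · omega
              · omega
              · exact hN 2 3 6 (by decide) (by decide) (by omega)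
              · omega
              · omega
            · omega
            · omega
            · exact hI 0 2 (by decide) (by omega)
            · exact hI 2 3 (by decide) (by omega)
            · omega
        · omega
        · exact hI 1 3 (by decide) (by omega)
        · exact hN 2 7 5 (by decide) (by decide) (by omega)
      · exact hI 0 3 (by decide) (by omega)
      · skip
        rcases hE 0 3 (by decide) with h|h|h|h|h|h|h|h
        · omega
        · exact hI 2 3 (by decide) (by omega)
        · skip
          rcases hE 1 2 (by decide) with h|h|h|h|h|h|h|h
          · omega
          · omega
          · omega
          · omega
          · exact hN 0 7 4 (by decide) (by decide) (by omega)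
          · exact hN 0 7 5 (by decide) (by decide) (by omega)
          · omega
          · omega
        · omega
        · skip
          rcases hE 1 5 (by decide) with h|h|h|h|h|h|h|h
          · omega
          · omega
          · omega
          · exact hN 5 6 4 (by decide) (by decide) (by omega)
          · exact hN 2 5 3 (by decide) (by decide) (by omega)
          · omega
          · exact hI 0 5 (by decide) (by omega)
          · exact hI 3 5 (by decide) (by omega)
        · exact hN 2 5 7 (by decide) (by decide) (by omega)
        · exact hI 1 3 (by decide) (by omega)
        · omega
    · omega
    · skip
      rcases hE 1 3 (by decide) with h|h|h|h|h|h|h|h
      · omega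
      · omega
      · omega
      · omega
      · exact hN 2 6 4 (by decide) (by decide) (by omega)
      · exact hN 2 6 5 (by decide) (by decide) (by omega)
      · omega
      · exact hN 2 6 7 (by decide) (by decide) (by omega)
    · skip
      rcases hE 0 3 (by decide) with h|h|h|h|h|h|h|h
      · omega
      · skip
        rcases hE 1 2 (by decide) with h|h|h|h|h|h|h|h
        · omega
        · omega
        · omega
        · omega
        · omega
        · exact hN 3 4 5 (by decide) (by decide) (by omega)
        · exact hI 0 2 (by decide) (by omega)
        · exact hN 3 4 7 (by decide) (by decide) (by omega)
      · skip
        rcases hE 1 2 (by decide) with h|h|h|h|h|h|h|h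
        · omega
        · omega
        · omega
        · omega
        · exact hI 0 1 (by decide) (by omega)
        · exact hN 3 6 5 (by decide) (by decide) (by omega)
        · omega
        · exact hN 3 6 7 (by decide) (by decide) (by omega)
      · omega
      · exact hI 2 3 (by decide) (by omega)
      · skip
        rcases hE 1 5 (by decide) with h|h|h|h|h|h|h|h
        · omega
        · omega
        · exact hN 3 6 2 (by decide) (by decide) (by omega)
        · omega
        · exact hN 3 6 4 (by decide) (by decide) (by omega)
        · omega
        · omega
        · exact hN 3 6 7 (by decide) (by decide) (by omega)
      · exact hI 1 3 (by decide) (by omega)
      · skip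
        rcases hE 0 4 (by decide) with h|h|h|h|h|h|h|h
        · omega
        · skip
          rcases hE 1 3 (by decide) with h|h|h|h|h|h|h|h
          · omega
          · omega
          · omega
          · omega
          · omega
          · exact hN 4 7 5 (by decide) (by decide) (by omega)
          · exact hI 0 3 (by decide) (by omega)
          · omega
        · omega
        · skip
          rcases hE 1 3 (by decide) with h|h|h|h|h|h|h|h
          · omega
          · omega
          · omega
          · omega
          · omega
          · exact hN 4 6 5 (by decide) (by decide) (by omega)
          · omega
          · exact hI 0 1 (by decide) (by omega)
        · omega
        · skip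
          rcases hE 1 5 (by decide) with h|h|h|h|h|h|h|h
          · omega
          · omega
          · omega
          · exact hN 4 6 3 (by decide) (by decide) (by omega)
          · omega
          · omega
          · omega
          · exact hN 1 4 3 (by decide) (by decide) (by omega)
        · exact hI 1 4 (by decide) (by omega)
        · exact hI 3 4 (by decide) (by omega)
    · skip
      rcases hE 1 5 (by decide) with h|h|h|h|h|h|h|h
      · omega
      · omega
      · omega
      · exact hN 2 6 3 (by decide) (by decide) (by omega)
      · exact hN 2 6 4 (by decide) (by decide) (by omega)
      · omega
      · omega
      · exact hN 2 6 7 (by decide) (by decide) (by omega)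
    · exact hI 1 2 (by decide) (by omega)
    · skip
      rcases hE 0 3 (by decide) with h|h|h|h|h|h|h|h
      · omega
      · skip
        rcases hE 1 2 (by decide) with h|h|h|h|h|h|h|h
        · omega
        · omega
        · omega
        · omega
        · exact hN 3 7 4 (by decide) (by decide) (by omega)
        · exact hN 3 7 5 (by decide) (by decide) (by omega)
        · exact hI 0 2 (by decide) (by omega)
        · omega
      · skip
        rcases hE 1 2 (by decide) with h|h|h|h|h|h|h|h
        · omega
        · omega
        · omega
        · omega
        · exact hN 3 6 4 (by decide) (by decide) (by omega)
        · exact hN 3 6 5 (by decide) (by decide) (by omega)
        · omega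
        · exact hI 0 1 (by decide) (by omega)
      · omega
      · skip
        rcases hE 2 4 (by decide) with h|h|h|h|h|h|h|h
        · omega
        · exact hN 3 7 1 (by decide) (by decide) (by omega)
        · omega
        · omega
        · omega
        · exact hN 3 7 5 (by decide) (by decide) (by omega)
        · exact hN 2 3 1 (by decide) (by decide) (by omega)
        · omega
      · skip
        rcases hE 1 5 (by decide) with h|h|h|h|h|h|h|h
        · omega
        · omega
        · exact hN 3 6 2 (by decide) (by decide) (by omega)
        · omega
        · exact hN 3 6 4 (by decide) (by decide) (by omega)
        · omega
        · omega
        · exact hN 3 6 7 (by decide) (by decide) (by omega)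
      · exact hI 1 3 (by decide) (by omega)
      · exact hI 2 3 (by decide) (by omega)
  · skip
    rcases hE 0 2 (by decide) with h|h|h|h|h|h|h|h
    · omega
    · skip
      rcases hE 1 3 (by decide) with h|h|h|h|h|h|h|h
      · omega
      · omega
      · omega
      · omega
      · skip
        rcases hE 0 4 (by decide) with h|h|h|h|h|h|h|h
        · omega
        · omega
        · omega
        · omega
        · omega
        · exact hN 3 7 5 (by decide) (by decide) (by omega)
        · exact hN 3 7 6 (by decide) (by decide) (by omega)
        · omega
      · skip
        rcases hE 0 3 (by decide) with h|h|h|h|h|h|h|h
        · omega
        · exact hI 2 3 (by decide) (by omega)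
        · skip
          rcases hE 1 2 (by decide) with h|h|h|h|h|h|h|h
          · omega
          · omega
          · omega
          · omega
          · exact hN 0 5 4 (by decide) (by decide) (by omega)
          · omega
          · exact hN 0 5 6 (by decide) (by decide) (by omega)
          · omega
        · omega
        · skip
          rcases hE 0 6 (by decide) with h|h|h|h|h|h|h|h
          · omega
          · exact hI 2 6 (by decide) (by omega)
          · skip
            rcases hE 1 2 (by decide) with h|h|h|h|h|h|h|h
            · omega
            · omega
            · omega
            · exact hN 2 7 4 (by decide) (by decide) (by omega)
            · exact hN 1 6 3 (by decide) (by decide) (by omega)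
            · exact hI 2 3 (by decide) (by omega)
            · omega
            · omega
          · exact hN 6 7 5 (by decide) (by decide) (by omega)
          · exact hI 3 6 (by decide) (by omega)
          · exact hN 2 3 6 (by decide) (by decide) (by omega)
          · omega
          · exact hI 1 6 (by decide) (by omega)
        · omega
        · exact hN 2 6 5 (by decide) (by decide) (by omega)
        · exact hI 1 3 (by decide) (by omega)
      · skip
        rcases hE 0 6 (by decide) with h|h|h|h|h|h|h|h
        · omega
        · omega
        · omega
        · omega
        · exact hN 3 7 4 (by decide) (by decide) (by omega)
        · exact hN 3 7 5 (by decide) (by decide) (by omega)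
        · omega
        · omega
      · exact hI 0 3 (by decide) (by omega)
    · omega
    · skip
      rcases hE 1 3 (by decide) with h|h|h|h|h|h|h|h
      · omega
      · omega
      · omega
      · omega
      · exact hN 2 7 4 (by decide) (by decide) (by omega)
      · exact hN 2 7 5 (by decide) (by decide) (by omega)
      · exact hN 2 7 6 (by decide) (by decide) (by omega)
      · omega
    · skip
      rcases hE 0 3 (by decide) with h|h|h|h|h|h|h|h
      · omega
      · skip
        rcases hE 1 2 (by decide) with h|h|h|h|h|h|h|h
        · omega
        · omega
        · omega
        · omega
        · omega
        · exact hN 3 4 5 (by decide) (by decide) (by omega)
        · exact hN 3 4 6 (by decide) (by decide) (by omega)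
        · exact hI 0 2 (by decide) (by omega)
      · skip
        rcases hE 1 2 (by decide) with h|h|h|h|h|h|h|h
        · omega
        · omega
        · omega
        · omega
        · exact hI 0 1 (by decide) (by omega)
        · exact hN 3 7 5 (by decide) (by decide) (by omega)
        · exact hN 3 7 6 (by decide) (by decide) (by omega)
        · omega
      · omega
      · exact hI 2 3 (by decide) (by omega)
      · skip
        rcases hE 1 5 (by decide) with h|h|h|h|h|h|h|h
        · omega
        · omega
        · exact hN 3 7 2 (by decide) (by decide) (by omega)
        · omega
        · exact hN 3 7 4 (by decide) (by decide) (by omega)
        · omega
        · exact hN 3 7 6 (by decide) (by decide) (by omega)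
        · omega
      · skip
        rcases hE 0 4 (by decide) with h|h|h|h|h|h|h|h
        · omega
        · skip
          rcases hE 1 3 (by decide) with h|h|h|h|h|h|h|h
          · omega
          · omega
          · omega
          · omega
          · omega
          · exact hN 4 6 5 (by decide) (by decide) (by omega)
          · omega
          · exact hI 0 3 (by decide) (by omega)
        · omega
        · skip
          rcases hE 1 3 (by decide) with h|h|h|h|h|h|h|h
          · omega
          · omega
          · omega
          · omega
          · omega
          · exact hN 4 7 5 (by decide) (by decide) (by omega)
          · exact hI 0 1 (by decide) (by omega)
          · omega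
        · omega
        · skip
          rcases hE 1 5 (by decide) with h|h|h|h|h|h|h|h
          · omega
          · omega
          · omega
          · exact hN 4 7 3 (by decide) (by decide) (by omega)
          · omega
          · omega
          · exact hN 1 4 3 (by decide) (by decide) (by omega)
          · omega
        · exact hI 3 4 (by decide) (by omega)
        · exact hI 1 4 (by decide) (by omega)
      · exact hI 1 3 (by decide) (by omega)
    · skip
      rcases hE 1 5 (by decide) with h|h|h|h|h|h|h|h
      · omega
      · omega
      · omega
      · exact hN 2 7 3 (by decide) (by decide) (by omega)
      · exact hN 2 7 4 (by decide) (by decide) (by omega)
      · omega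
      · exact hN 2 7 6 (by decide) (by decide) (by omega)
      · omega
    · skip
      rcases hE 0 3 (by decide) with h|h|h|h|h|h|h|h
      · omega
      · skip
        rcases hE 1 2 (by decide) with h|h|h|h|h|h|h|h
        · omega
        · omega
        · omega
        · omega
        · exact hN 3 6 4 (by decide) (by decide) (by omega)
        · exact hN 3 6 5 (by decide) (by decide) (by omega)
        · omega
        · exact hI 0 2 (by decide) (by omega)
      · skip
        rcases hE 1 2 (by decide) with h|h|h|h|h|h|h|h
        · omega
        · omega
        · omega
        · omega
        · exact hN 3 7 4 (by decide) (by decide) (by omega)
        · exact hN 3 7 5 (by decide) (by decide) (by omega)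
        · exact hI 0 1 (by decide) (by omega)
        · omega
      · omega
      · skip
        rcases hE 2 4 (by decide) with h|h|h|h|h|h|h|h
        · omega
        · exact hN 3 6 1 (by decide) (by decide) (by omega)
        · omega
        · omega
        · omega
        · exact hN 3 6 5 (by decide) (by decide) (by omega)
        · omega
        · exact hN 2 3 1 (by decide) (by decide) (by omega)
      · skip
        rcases hE 1 5 (by decide) with h|h|h|h|h|h|h|h
        · omega
        · omega
        · exact hN 3 7 2 (by decide) (by decide) (by omega)
        · omega
        · exact hN 3 7 4 (by decide) (by decide) (by omega)
        · omega
        · exact hN 3 7 6 (by decide) (by decide) (by omega)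
        · omega
      · exact hI 2 3 (by decide) (by omega)
      · exact hI 1 3 (by decide) (by omega)
    · exact hI 1 2 (by decide) (by omega)

def G : SimpleGraph (Fin 8) where
  Adj := A
  symm := ⟨by unfold A; intro u v; revert u v; decide⟩
  loopless := ⟨by unfold A; intro u; revert u; decide⟩

theorem main : (∀ v, 0 < L v) ∧ Function.Injective L ∧
    (∀ u v, u ≠ v → (G.Adj u v ↔ ∃ w, L w = L u + L v)) :=
  ⟨by decide, by decide, fun _ _ h => ⟨fun h' => h'.2, fun h' => ⟨h, h'⟩⟩⟩

theorem none (x : Fin 8 → ℕ) (hp : ∀ v, 0 < x v) (hi : Function.Injective x)
    (ha : ∀ u v, u ≠ v → (G.Adj u v ↔ ∃ w, x w = x u + x v)) (u : Fin 8) : x u ≠ 1 := by
  intro h1
  refine core x hp (fun u v h e => h (hi e)) (fun u v w h hn e => hn ((ha u v h).mpr ⟨w, e⟩)) ?_ ?_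
  · intro u v h
    obtain ⟨w, hw⟩ := (ha u v h.1).mp h
    fin_cases w <;> simp at hw <;> simp [hw]
  · intro e1 e2 e3 e4 e5 e6 e7
    have := hp 0
    fin_cases u <;> simp at h1 <;> omega

end Pool.Agent.Lib.Helper30.SumG
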