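import Pool.Agent.Lib.helper30.TasepMarkov

set_option autoImplicit false
set_option maxHeartbeats 400000

namespace Pool.Agent.Lib.Helper30.Tasep
open Finset

section Bij
variable {ι : Type} [Fintype ι] [DecidableEq ι] (s : Equiv.Perm ι)

lemma bell_sum (hs : ∀ x, s x ≠ x) (N : ℕ) (G : Finset ι → ι → ℝ) :
    ∑ S ∈ Finset.powersetCard N (Finset.univ : Finset ι), ∑ i, G (mv s i S) (bb s S i)
      = ∑ S ∈ Finset.powersetCard N (Finset.univ : Finset ι), ∑ j, G S j := by
  set A := Finset.powersetCard N (Finset.univ : Finset ι) ×ˢ (Finset.univ : Finset ι) with hA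
  set φ : Finset ι × ι → Finset ι × ι := fun p => (mv s p.2 p.1, bb s p.1 p.2) with hφ
  have hinj : Function.Injective φ := by
    rintro ⟨S, i⟩ ⟨S', i'⟩ h
    simp only [hφ, Prod.mk.injEq] at h
    obtain ⟨h1, h2⟩ := h
    have k : ∀ (S : Finset ι) (i : ι), bb s S i ∈ mv s i S ↔ s i ∈ S := by
      intro S i
      by_cases h : s i ∈ S
      · rw [bb, if_pos h, mem_mv1 s (hs i)]; simp [h]
      · rw [bb, if_neg h, mem_mv2 s (hs i)]; simp [h]
    have k1 : s i ∈ S ↔ s i' ∈ S' := by rw [← k S i, ← k S' i', h1, h2]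
    by_cases h : s i ∈ S
    · have h' := k1.1 h
      rw [bb, bb, if_pos h, if_pos h'] at h2
      subst h2
      refine Prod.ext ?_ rfl
      ext x
      by_cases x1 : x = i
      · subst x1
        have a1 := mem_mv2 s (hs x) S
        have a2 := mem_mv2 s (hs x) S'
        rw [h1, a2] at a1
        simpa [h, h'] using a1.symm
      · by_cases x2 : x = s i
        · subst x2; simp [h, h']
        · have a1 := mem_mv3 s (hs i) S x1 x2
          have a2 := mem_mv3 s (hs i) S' x1 x2
          rw [h1, a2] at a1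
          exact a1.symm
    · have h' : s i' ∉ S' := fun hh => h (k1.2 hh)
      rw [bb, bb, if_neg h, if_neg h'] at h2
      have h3 := s.injective h2
      subst h3
      rw [mv, mv, if_neg (fun hh => h hh.2), if_neg (fun hh => h' hh.2)] at h1
      exact Prod.ext h1 rfl
  have him : A.image φ = A := by
    apply Finset.eq_of_subset_of_card_le
    · intro q hq
      obtain ⟨p, hp, rfl⟩ := Finset.mem_image.1 hq
      simp only [hA, hφ, Finset.mem_product, Finset.mem_powersetCard, Finset.subset_univ,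
        Finset.mem_univ, true_and, and_true] at hp ⊢
      rw [card_mv, hp]
    · rw [Finset.card_image_of_injective _ hinj]
  have e := Finset.sum_image (s := A) (g := φ) (f := fun p => G p.1 p.2)
    (fun a _ b _ h => hinj h)
  rw [him] at e
  rw [← Finset.sum_product', ← Finset.sum_product']
  exact e.symm

lemma split_sum (y : ι) (M : ℕ) (t : Finset ι → ℝ) :
    ∑ S ∈ Finset.powersetCard (M + 1) (Finset.univ : Finset ι), t S
      = ∑ S ∈ Finset.powersetCard (M + 1) (Finset.univ.erase y), t S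
        + ∑ S ∈ Finset.powersetCard M (Finset.univ.erase y), t (insert y S) := by
  have hu : (Finset.univ : Finset ι) = insert y (Finset.univ.erase y) :=
    (Finset.insert_erase (Finset.mem_univ y)).symm
  conv_lhs => rw [hu]
  rw [Finset.powersetCard_succ_insert (Finset.notMem_erase y _), Finset.sum_union,
    Finset.sum_image]
  · intro S hS S' hS' hh
    have a1 : y ∉ S := fun hh => Finset.notMem_erase y _ ((Finset.mem_powersetCard.1 hS).1 hh)
    have a2 : y ∉ S' := fun hh => Finset.notMem_erase y _ ((Finset.mem_powersetCard.1 hS').1 hh)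
    rw [← Finset.erase_insert a1, ← Finset.erase_insert a2]
    exact congrArg (fun T => Finset.erase T y) hh
  · rw [Finset.disjoint_left]
    intro S hS hS'
    obtain ⟨S', _, rfl⟩ := Finset.mem_image.1 hS'
    exact Finset.notMem_erase y _ ((Finset.mem_powersetCard.1 hS).1 (Finset.mem_insert_self _ _))

end Bij

section Main
variable {n : ℕ}

def th (τ : Equiv.Perm (Fin (n + 2))) (j : ℕ) : Finset (Fin (n + 2)) :=
  Finset.univ.filter (fun x => (τ x : ℕ) < j)

lemma card_th (τ : Equiv.Perm (Fin (n + 2))) {j : ℕ} (hj : j ≤ n + 2) : (th τ j).card = j := by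
  have : (th τ j).card = (Finset.univ.filter (fun x : Fin (n + 2) => (x : ℕ) < j)).card := by
    apply Finset.card_bijective τ τ.bijective
    intro x; simp [th]
  rw [this, Fin.card_filter_val_lt]
  omega

lemma th_mono (τ : Equiv.Perm (Fin (n + 2))) {j k : ℕ} (h : j ≤ k) : th τ j ⊆ th τ k := by
  intro x hx
  simp only [th, Finset.mem_filter, Finset.mem_univ, true_and] at hx ⊢
  omega

def pm (i : Fin (n + 2)) (τ : Equiv.Perm (Fin (n + 2))) : Equiv.Perm (Fin (n + 2)) :=
  if τ (finRotate (n + 2) i) < τ i then τ * Equiv.swap i (finRotate (n + 2) i) else τ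

lemma th_pm (i : Fin (n + 2)) (τ : Equiv.Perm (Fin (n + 2))) (j : ℕ) :
    th (pm i τ) j = mv (finRotate (n + 2)) i (th τ j) := by
  have hi := rot_ne i
  ext x
  rw [mem_mv _ hi]
  simp only [th, Finset.mem_filter, Finset.mem_univ, true_and, pm]
  generalize finRotate (n + 2) i = i' at hi ⊢
  by_cases h : τ i' < τ i
  · rw [if_pos h]
    rw [Fin.lt_def] at h
    simp only [Equiv.Perm.mul_apply]
    split_ifs with h1 h2
    · subst h1; rw [Equiv.swap_apply_left]; omega
    · subst h2; rw [Equiv.swap_apply_right]; omega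
    · rw [Equiv.swap_apply_of_ne_of_ne h1 h2]
  · rw [if_neg h]
    rw [Fin.lt_def] at h
    split_ifs with h1 h2
    · subst h1; omega
    · subst h2; omega
    · rfl

def Stat (π : Equiv.Perm (Fin (n + 2)) → ℝ) : Prop :=
  ∀ F : Equiv.Perm (Fin (n + 2)) → ℝ,
    ∑ τ, π τ * ∑ i, F (pm i τ) = ((n + 2 : ℕ) : ℝ) * ∑ τ, π τ * F τ

lemma stat_of (π : Equiv.Perm (Fin (n + 2)) → ℝ)
    (h : ∀ σ : Equiv.Perm (Fin (n + 2)),
        (∑ k : Fin (n + 2), (if σ (finRotate (n + 2) k) < σ k then π σ else 0)) =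
          ∑ k : Fin (n + 2), (if σ k < σ (finRotate (n + 2) k)
            then π (σ * Equiv.swap k (finRotate (n + 2) k)) else 0)) : Stat π := by
  intro F
  have e1 : ∀ i : Fin (n + 2), ∑ τ, π τ * F (pm i τ)
      = ∑ τ : Equiv.Perm (Fin (n + 2)), ((if τ i < τ (finRotate (n + 2) i)
            then π (τ * Equiv.swap i (finRotate (n + 2) i)) else 0) * F τ
          + (π τ - (if τ (finRotate (n + 2) i) < τ i then π τ else 0)) * F τ) := by
    intro i
    rw [Finset.sum_add_distrib]
    have a : ∑ τ : Equiv.Perm (Fin (n + 2)), (if τ i < τ (finRotate (n + 2) i)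
            then π (τ * Equiv.swap i (finRotate (n + 2) i)) else 0) * F τ
        = ∑ τ : Equiv.Perm (Fin (n + 2)), (if τ (finRotate (n + 2) i) < τ i then π τ else 0)
            * F (τ * Equiv.swap i (finRotate (n + 2) i)) := by
      rw [← Equiv.sum_comp (Equiv.mulRight (Equiv.swap i (finRotate (n + 2) i)))]
      refine Finset.sum_congr rfl fun τ _ => ?_
      simp only [Equiv.coe_mulRight, Equiv.Perm.mul_apply, Equiv.swap_apply_left,
        Equiv.swap_apply_right, mul_assoc, Equiv.swap_mul_self, mul_one]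
    rw [a, ← Finset.sum_add_distrib]
    refine Finset.sum_congr rfl fun τ _ => ?_
    unfold pm
    split_ifs <;> ring
  simp_rw [Finset.mul_sum]
  rw [Finset.sum_comm]
  simp_rw [e1]
  rw [Finset.sum_comm]
  refine Finset.sum_congr rfl fun τ _ => ?_
  rw [Finset.sum_add_distrib, ← Finset.sum_mul, ← Finset.sum_mul, ← h τ, Finset.sum_sub_distrib]
  simp only [Finset.sum_const, Finset.card_univ, Fintype.card_fin, nsmul_eq_mul]
  ring

def Ph1 (m N : ℕ) (τ : Equiv.Perm (Fin (n + 2))) : Option (Fin (m + 1)) → Finset (Fin (n + 2)) :=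
  fun o => o.elim (th τ N) (fun j => th τ j)

noncomputable def Ph2 (m : ℕ) (S : Finset (Fin (n + 2))) (τ : Equiv.Perm (Fin (n + 2))) :
    Option (Fin (m + 1)) → Finset (Fin (n + 2)) :=
  fun o => o.elim S (fun j => D (finRotate (n + 2)) (th τ j) S)

lemma law (π : Equiv.Perm (Fin (n + 2)) → ℝ) (hπ : Stat π) (m N : ℕ) (hm : m ≤ N)
    (hN : N ≤ n + 2) (F : (Option (Fin (m + 1)) → Finset (Fin (n + 2))) → ℝ) :
    ((n + 2).choose N : ℝ) * ∑ τ, π τ * F (Ph1 m N τ)
      = ∑ S ∈ Finset.powersetCard N (Finset.univ : Finset (Fin (n + 2))),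
          ∑ τ, π τ * F (Ph2 m S τ) := by
  have hcard : ∀ S ∈ Finset.powersetCard N (Finset.univ : Finset (Fin (n + 2))),
      ∀ (τ : Equiv.Perm (Fin (n + 2))) (j : Fin (m + 1)), (th τ j).card ≤ S.card := by
    intro S hS τ j
    have := j.2
    rw [card_th τ (by omega), (Finset.mem_powersetCard.1 hS).2]
    omega
  have key := unique_push
    (fun (i : Fin (n + 2)) (a : Option (Fin (m + 1)) → Finset (Fin (n + 2))) =>
      (fun j => mv (finRotate (n + 2)) i (a j)))
    (fun o => Finset.univ.filter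
      (fun v : Fin (n + 2) => (v : ℕ) < (fun o : Option (Fin (m + 1)) => o.elim N Fin.val) o))
    (Finset.univ : Finset (Equiv.Perm (Fin (n + 2))))
    (Finset.powersetCard N (Finset.univ : Finset (Fin (n + 2))) ×ˢ
      (Finset.univ : Finset (Equiv.Perm (Fin (n + 2)))))
    (fun τ => ((n + 2).choose N : ℝ) * π τ) (fun p => π p.2) (Ph1 m N) (fun p => Ph2 m p.1 p.2)
    (by
      intro G
      have e : ∀ (i : Fin (n + 2)) (τ : Equiv.Perm (Fin (n + 2))),
          (fun j => mv (finRotate (n + 2)) i (Ph1 m N τ j)) = Ph1 m N (pm i τ) := by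
        intro i τ
        funext o
        cases o <;> simp [Ph1, th_pm]
      simp only [e, mul_assoc, ← Finset.mul_sum]
      rw [hπ (fun τ => G (Ph1 m N τ)), Fintype.card_fin]
      ring)
    (by
      intro G
      rw [Finset.sum_product, Finset.sum_product]
      have e : ∀ S ∈ Finset.powersetCard N (Finset.univ : Finset (Fin (n + 2))),
          ∑ τ, π τ * ∑ i, G (fun j => mv (finRotate (n + 2)) i (Ph2 m S τ j))
          = ∑ i, (fun S' j => ∑ τ, π τ * G (Ph2 m S' (pm j τ)))
              (mv (finRotate (n + 2)) i S) (bb (finRotate (n + 2)) S i) := by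
        intro S hS
        simp_rw [Finset.mul_sum]
        rw [Finset.sum_comm]
        refine Finset.sum_congr rfl fun i _ => Finset.sum_congr rfl fun τ _ => ?_
        congr 2
        funext o
        cases o with
        | none => rfl
        | some j =>
          simp only [Ph2, Option.elim, th_pm]
          exact (D_comm _ cyc_rot rot_ne (hcard S hS τ j) i).symm
      rw [Finset.sum_congr rfl e, bell_sum _ rot_ne N
        (fun S' j => ∑ τ, π τ * G (Ph2 m S' (pm j τ))), Finset.mul_sum]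
      refine Finset.sum_congr rfl fun S _ => ?_
      rw [Fintype.card_fin, ← hπ (fun τ => G (Ph2 m S τ)), Finset.sum_comm]
      simp_rw [Finset.mul_sum])
    (by
      rw [Finset.sum_product]
      simp [← Finset.mul_sum, Finset.card_powersetCard])
    (by
      intro τ _
      apply reach
      intro o
      cases o with
      | none => exact card_th τ hN
      | some j => exact card_th τ (by have := j.2; omega))
    (by
      rintro ⟨S, τ⟩ hp
      have hS := (Finset.mem_product.1 hp).1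
      apply reach
      intro o
      cases o with
      | none => exact (Finset.mem_powersetCard.1 hS).2
      | some j =>
        exact (card_D _ cyc_rot (hcard S hS τ j)).trans (card_th τ (by have := j.2; omega)))
    F
  rw [Finset.sum_product] at key
  rw [← key, Finset.mul_sum]
  simp only [mul_assoc]

/-- the window event read on a chain of sets -/
def Ev {r : ℕ} (h : r < n + 2) (i : Fin r → Fin (n + 2)) (m : ℕ)
    (x : Option (Fin (m + 1)) → Finset (Fin (n + 2))) : Prop :=
  ∀ (a : Fin r) (j : Fin (m + 1)), Fin.castLE h.le a ∈ x (some j) ↔ (i a : ℕ) < j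

lemma Ev1 {r : ℕ} (h : r < n + 2) (i : Fin r → Fin (n + 2)) (m : ℕ) (hm : ∀ a, (i a : ℕ) < m)
    (M : ℕ) (τ : Equiv.Perm (Fin (n + 2))) :
    Ev h i m (Ph1 m M τ) ↔ ∀ a : Fin r, τ (Fin.castLE h.le a) = i a := by
  simp only [Ev, Ph1, Option.elim, th, Finset.mem_filter, Finset.mem_univ, true_and]
  constructor
  · intro H a
    have h0 := hm a
    have h1 := H a ⟨i a, by omega⟩
    have h2 := H a ⟨i a + 1, by omega⟩
    simp only at h1 h2
    exact Fin.ext (by omega)
  · intro H a j
    rw [H a]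

lemma Ev2 {r : ℕ} (h : r < n + 2) (i : Fin r → Fin (n + 2)) (m : ℕ) (hm : ∀ a, (i a : ℕ) < m)
    (hm2 : m ≤ n + 2) (S : Finset (Fin (n + 2))) (hS : m < S.card)
    (hyS : (⟨r, h⟩ : Fin (n + 2)) ∉ S) (τ : Equiv.Perm (Fin (n + 2))) :
    Ev h i m (Ph2 m (insert ⟨r, h⟩ S) τ) ↔ Ev h i m (Ph2 m S τ) := by
  have hlt : (th τ m).card < S.card := by rw [card_th τ hm2]; exact hS
  have key : (∀ a : Fin (n + 2), (a : ℕ) < r → a ∈ D (finRotate (n + 2)) (th τ m) S) →
      (Ev h i m (Ph2 m (insert ⟨r, h⟩ S) τ) ↔ Ev h i m (Ph2 m S τ)) := by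
    intro hW
    refine forall_congr' fun a => forall_congr' fun j => ?_
    have := window (th_mono τ (show (j : ℕ) ≤ m by have := j.2; omega)) hlt ⟨r, h⟩ hyS hW
      (Fin.castLE h.le a) a.2
    exact iff_congr this Iff.rfl
  constructor
  · intro H
    refine (key fun a ha => ?_).1 H
    refine D_insert_sub hlt.le ⟨r, h⟩ a (by intro hh; rw [hh] at ha; simp at ha) ?_
    exact (H ⟨a, ha⟩ (Fin.last m)).2 (hm _)
  · intro H
    refine (key fun a ha => ?_).2 H
    exact (H ⟨a, ha⟩ (Fin.last m)).2 (hm _)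

open Classical in
/-- tail form of the main identity -/
lemma tail (π : Equiv.Perm (Fin (n + 2)) → ℝ) (hπ : Stat π) (r : ℕ) (h : r < n + 2)
    (i : Fin r → Fin (n + 2)) (m : ℕ) (hm : ∀ a, (i a : ℕ) < m) (N : ℕ) (hN1 : m + 1 ≤ N)
    (hN : N ≤ n + 2) :
    ((n + 2 : ℕ) : ℝ) * ∑ τ, π τ * (if (∀ a : Fin r, τ (Fin.castLE h.le a) = i a)
        ∧ N ≤ (τ ⟨r, h⟩ : ℕ) then 1 else 0)
      = (((n + 2 : ℕ) : ℝ) - N) *
        ∑ τ, π τ * (if (∀ a : Fin r, τ (Fin.castLE h.le a) = i a) then 1 else 0) := by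
  obtain ⟨p, hp⟩ : ∃ p : ℝ,
    ∑ τ, π τ * (if (∀ a : Fin r, τ (Fin.castLE h.le a) = i a) then 1 else 0) = p := ⟨_, rfl⟩
  obtain ⟨t, ht⟩ : ∃ t : Finset (Fin (n + 2)) → ℝ,
    ∀ S, ∑ τ, π τ * (if Ev h i m (Ph2 m S τ) then 1 else 0) = t S := ⟨_, fun _ => rfl⟩
  obtain ⟨g, hg⟩ : ∃ g : ℕ → ℝ,
    ∀ M, ∑ S ∈ Finset.powersetCard M (Finset.univ.erase (⟨r, h⟩ : Fin (n + 2))), t S = g M :=
    ⟨_, fun _ => rfl⟩
  rw [hp]
  have hsplit : ∀ M, m + 1 ≤ M → M + 1 ≤ n + 2 →
      g (M + 1) + g M = ((n + 2).choose (M + 1) : ℝ) * p := by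
    intro M h1 h2
    have L := law π hπ m (M + 1) (by omega) h2 (fun x => if Ev h i m x then 1 else 0)
    simp only [Ev1 h i m hm, hp, ht] at L
    rw [L, split_sum ⟨r, h⟩, hg, ← hg M]
    congr 1
    refine Finset.sum_congr rfl fun S hS => ?_
    have hS' := Finset.mem_powersetCard.1 hS
    have hyS : (⟨r, h⟩ : Fin (n + 2)) ∉ S := fun hh => Finset.notMem_erase _ _ (hS'.1 hh)
    rw [← ht, ← ht]
    simp only [Ev2 h i m hm (by omega) S (by rw [hS'.2]; omega) hyS]
  have hgv : ∀ d M, M + d = n + 2 → m + 1 ≤ M → g M = ((n + 1).choose M : ℝ) * p := by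
    intro d
    induction d with
    | zero =>
      intro M h1 _
      have e : M = n + 2 := by omega
      subst e
      rw [Nat.choose_eq_zero_of_lt (by omega), ← hg, Finset.powersetCard_eq_empty.2 (by simp)]
      simp
    | succ d ih =>
      intro M h1 h2
      have a1 := ih (M + 1) (by omega) (by omega)
      have a2 := hsplit M h2 (by omega)
      rw [Nat.choose_succ_succ' (n + 1) M] at a2
      push_cast at a2
      linarith
  have L := law π hπ m N (by omega) hN
    (fun x => if Ev h i m x ∧ (⟨r, h⟩ : Fin (n + 2)) ∉ x none then 1 else 0)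
  have L1 : ∀ τ : Equiv.Perm (Fin (n + 2)),
      (Ev h i m (Ph1 m N τ) ∧ (⟨r, h⟩ : Fin (n + 2)) ∉ Ph1 m N τ none) ↔
      ((∀ a : Fin r, τ (Fin.castLE h.le a) = i a) ∧ N ≤ (τ ⟨r, h⟩ : ℕ)) := by
    intro τ
    rw [Ev1 h i m hm]
    simp [Ph1, th]
  simp only [L1] at L
  have L2 : ∑ S ∈ Finset.powersetCard N (Finset.univ : Finset (Fin (n + 2))),
      ∑ τ, π τ * (if Ev h i m (Ph2 m S τ) ∧ (⟨r, h⟩ : Fin (n + 2)) ∉ Ph2 m S τ none
        then (1 : ℝ) else 0) = g N := by
    rw [← hg, ← Finset.sum_subset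
      (s₁ := Finset.powersetCard N (Finset.univ.erase (⟨r, h⟩ : Fin (n + 2))))
      (Finset.powersetCard_mono (Finset.subset_univ _))]
    · refine Finset.sum_congr rfl fun S hS => ?_
      have a1 : (⟨r, h⟩ : Fin (n + 2)) ∉ S :=
        fun hh => Finset.notMem_erase _ _ ((Finset.mem_powersetCard.1 hS).1 hh)
      rw [← ht]
      refine Finset.sum_congr rfl fun τ _ => ?_
      have a2 : (⟨r, h⟩ : Fin (n + 2)) ∉ Ph2 m S τ none := a1
      simp only [a2, not_false_eq_true, and_true]
    · intro S hS hS'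
      have a1 : (⟨r, h⟩ : Fin (n + 2)) ∈ S := by
        by_contra hh
        exact hS' (Finset.mem_powersetCard.2 ⟨fun x hx => Finset.mem_erase.2
          ⟨fun e => hh (e ▸ hx), Finset.mem_univ _⟩, (Finset.mem_powersetCard.1 hS).2⟩)
      refine Finset.sum_eq_zero fun τ _ => ?_
      have a2 : (⟨r, h⟩ : Fin (n + 2)) ∈ Ph2 m S τ none := a1
      simp only [a2, not_true_eq_false, and_false, if_false, mul_zero]
  rw [L2, hgv (n + 2 - N) N (by omega) hN1] at L
  have hc : (0 : ℝ) < ((n + 2).choose N : ℝ) := by exact_mod_cast Nat.choose_pos hN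
  have hb : ((n + 1).choose N : ℝ) * ((n + 2 : ℕ) : ℝ)
      = ((n + 2).choose N : ℝ) * (((n + 2 : ℕ) : ℝ) - N) := by
    have := Nat.choose_mul_succ_eq (n + 1) N
    rw [← Nat.cast_sub hN]
    exact_mod_cast this
  apply mul_left_cancel₀ hc.ne'
  linear_combination ((n + 2 : ℕ) : ℝ) * L + p * hb

end Main

theorem main (n : ℕ) (π : Equiv.Perm (Fin n) → ℝ)
    (hst : ∀ σ : Equiv.Perm (Fin n),
        (∑ k : Fin n, (if σ (finRotate n k) < σ k then π σ else 0)) =
          ∑ k : Fin n, (if σ k < σ (finRotate n k)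
            then π (σ * Equiv.swap k (finRotate n k)) else 0))
    (r : ℕ) (h : r < n) (i : Fin r → Fin n) (k : Fin n)
    (hk : ∀ a : Fin r, (i a : ℕ) + 1 < (k : ℕ)) :
    ∑ τ ∈ Finset.univ.filter (fun τ : Equiv.Perm (Fin n) =>
          (∀ a : Fin r, τ (Fin.castLE h.le a) = i a) ∧ τ ⟨r, h⟩ = k), π τ
      = (1 / (n : ℝ)) * ∑ τ ∈ Finset.univ.filter (fun τ : Equiv.Perm (Fin n) =>
          ∀ a : Fin r, τ (Fin.castLE h.le a) = i a), π τ := by
  classical
  match n, π, hst, h, i, k, hk with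
  | 1, π, _, h, i, k, _ =>
    simp only [Nat.cast_one, div_one, one_mul]
    refine Finset.sum_congr (Finset.filter_congr fun τ _ => ?_) fun _ _ => rfl
    simp only [Subsingleton.elim (τ ⟨r, h⟩) k, and_true]
  | n + 2, π, hst, h, i, k, hk =>
    have hπ := stat_of π hst
    have hk2 := k.2
    have T : ∀ N : ℕ, (k : ℕ) ≤ N → N ≤ n + 2 →
        ((n + 2 : ℕ) : ℝ) * ∑ τ, π τ * (if (∀ a : Fin r, τ (Fin.castLE h.le a) = i a)
        ∧ N ≤ (τ ⟨r, h⟩ : ℕ) then 1 else 0)
      = (((n + 2 : ℕ) : ℝ) - N) *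
        ∑ τ, π τ * (if (∀ a : Fin r, τ (Fin.castLE h.le a) = i a) then 1 else 0) := by
      intro N h1 h2
      by_cases hN : N = 0
      · subst hN; simp
      · have := tail π hπ r h i (N - 1) (fun a => by have := hk a; omega) N (by omega) h2
        convert this
    have T1 := T k le_rfl hk2.le
    have T2 := T (k + 1) (by omega) hk2
    rw [Finset.sum_filter, Finset.sum_filter]
    have e1 : ∑ τ : Equiv.Perm (Fin (n + 2)),
        (if (∀ a : Fin r, τ (Fin.castLE h.le a) = i a) ∧ τ ⟨r, h⟩ = k then π τ else 0)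
        = ∑ τ, π τ * (if (∀ a : Fin r, τ (Fin.castLE h.le a) = i a)
            ∧ (k : ℕ) ≤ (τ ⟨r, h⟩ : ℕ) then 1 else 0)
          - ∑ τ, π τ * (if (∀ a : Fin r, τ (Fin.castLE h.le a) = i a)
            ∧ (k : ℕ) + 1 ≤ (τ ⟨r, h⟩ : ℕ) then 1 else 0) := by
      rw [← Finset.sum_sub_distrib]
      refine Finset.sum_congr rfl fun τ _ => ?_
      by_cases a : ∀ a : Fin r, τ (Fin.castLE h.le a) = i a
      · simp only [a, implies_true, true_and, Fin.ext_iff]
        split_ifs <;> first | omega | simp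
      · simp only [a, false_and, if_false]; simp
    have e2 : ∑ τ : Equiv.Perm (Fin (n + 2)),
        (if (∀ a : Fin r, τ (Fin.castLE h.le a) = i a) then π τ else 0)
        = ∑ τ, π τ * (if (∀ a : Fin r, τ (Fin.castLE h.le a) = i a) then 1 else 0) :=
      Finset.sum_congr rfl fun τ _ => by split_ifs <;> simp
    rw [e1, e2]
    have hn : ((n + 2 : ℕ) : ℝ) ≠ 0 := by positivity
    apply mul_left_cancel₀ hn
    rw [← mul_assoc, mul_one_div_cancel hn, one_mul, mul_sub, T1, T2]
    push_cast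
    ring

end Pool.Agent.Lib.Helper30.Tasep
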