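import Pool.Agent.Lib.helper30.TasepQueue

set_option autoImplicit false

namespace Pool.Agent.Lib.Helper30.Tasep
open Finset

section Markov
variable {X κ : Type} [Fintype X] [DecidableEq X] [Fintype κ]

lemma signed_zero (T : κ → X → X) (μ : X → ℝ) (x0 : X)
    (hst : ∀ y, ∑ x, ∑ i, (if T i x = y then μ x else 0) = (Fintype.card κ : ℝ) * μ y)
    (hsum : ∑ x, μ x = 0)
    (hre : ∀ x, μ x ≠ 0 → Relation.ReflTransGen (fun a b => ∃ i, T i a = b) x x0) :
    ∀ x, μ x = 0 := by
  have habs : ∀ y, ∑ x, ∑ i, (if T i x = y then |μ x| else 0) = (Fintype.card κ : ℝ) * |μ y| := by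
    have hle : ∀ y ∈ (Finset.univ : Finset X),
        (Fintype.card κ : ℝ) * |μ y| ≤ ∑ x, ∑ i, (if T i x = y then |μ x| else 0) := by
      intro y _
      have h1 : (Fintype.card κ : ℝ) * |μ y| = |(Fintype.card κ : ℝ) * μ y| := by
        rw [abs_mul, abs_of_nonneg (Nat.cast_nonneg (α := ℝ) _)]
      rw [h1, ← hst y]
      refine (Finset.abs_sum_le_sum_abs _ _).trans (Finset.sum_le_sum fun x _ => ?_)
      refine (Finset.abs_sum_le_sum_abs _ _).trans (Finset.sum_le_sum fun i _ => ?_)
      split_ifs <;> simp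
    have heq : ∑ y, (Fintype.card κ : ℝ) * |μ y|
        = ∑ y, ∑ x, ∑ i, (if T i x = y then |μ x| else 0) := by
      rw [Finset.sum_comm]
      refine Finset.sum_congr rfl fun x _ => ?_
      rw [Finset.sum_comm]
      simp
    intro y
    exact ((Finset.sum_eq_sum_iff_of_le hle).1 heq y (Finset.mem_univ _)).symm
  have prop : ∀ p : X → ℝ, (∀ x, 0 ≤ p x) →
      (∀ y, ∑ x, ∑ i, (if T i x = y then p x else 0) = (Fintype.card κ : ℝ) * p y) →
      ∀ x y, Relation.ReflTransGen (fun a b => ∃ i, T i a = b) x y → 0 < p x → 0 < p y := by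
    intro p hp hs x y hxy hx
    induction hxy with
    | refl => exact hx
    | @tail b c _ hbc ih =>
      obtain ⟨i, hi⟩ := hbc
      have h1 : p b ≤ ∑ j, (if T j b = c then p b else 0) := by
        have := Finset.single_le_sum (f := fun j => if T j b = c then p b else 0)
          (fun j _ => by split_ifs <;> simp [hp]) (Finset.mem_univ i)
        simpa [hi] using this
      have h2 : ∑ j, (if T j b = c then p b else 0)
          ≤ ∑ x, ∑ j, (if T j x = c then p x else 0) :=
        Finset.single_le_sum (f := fun x => ∑ j, (if T j x = c then p x else 0))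
          (fun x _ => Finset.sum_nonneg fun j _ => by split_ifs <;> simp [hp]) (Finset.mem_univ b)
      rw [hs c] at h2
      have h3 : 0 < (Fintype.card κ : ℝ) * p c := by linarith
      exact (pos_iff_pos_of_mul_pos h3).1 (lt_of_le_of_ne (Nat.cast_nonneg _) (fun h => by
        rw [← h] at h3; simp at h3))
  have hP := prop (fun x => |μ x| + μ x) (fun x => by linarith [neg_abs_le (μ x)]) (by
    intro y
    rw [mul_add, ← habs y, ← hst y, ← Finset.sum_add_distrib]
    refine Finset.sum_congr rfl fun x _ => ?_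
    rw [← Finset.sum_add_distrib]
    refine Finset.sum_congr rfl fun i _ => ?_
    split_ifs <;> simp)
  have hN := prop (fun x => |μ x| - μ x) (fun x => by linarith [le_abs_self (μ x)]) (by
    intro y
    rw [mul_sub, ← habs y, ← hst y, ← Finset.sum_sub_distrib]
    refine Finset.sum_congr rfl fun x _ => ?_
    rw [← Finset.sum_sub_distrib]
    refine Finset.sum_congr rfl fun i _ => ?_
    split_ifs <;> simp)
  by_cases h : ∃ x, 0 < μ x
  · obtain ⟨x, hx⟩ := h
    have h1 := hP x x0 (hre x hx.ne') (by simp only [abs_of_pos hx]; linarith)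
    by_cases h' : ∃ y, μ y < 0
    · obtain ⟨y, hy⟩ := h'
      have h2 := hN y x0 (hre y hy.ne) (by simp only [abs_of_neg hy]; linarith)
      exfalso
      rcases le_total 0 (μ x0) with h3 | h3
      · simp only [abs_of_nonneg h3] at h2; linarith
      · simp only [abs_of_nonpos h3] at h1; linarith
    · push Not at h'
      intro z
      exact (Finset.sum_eq_zero_iff_of_nonneg (fun y _ => h' y)).1 hsum z (Finset.mem_univ _)
  · push Not at h
    intro z
    exact (Finset.sum_eq_zero_iff_of_nonpos (fun y _ => h y)).1 hsum z (Finset.mem_univ _)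

lemma push_sum {Y : Type} (A : Finset Y) (w : Y → ℝ) (φ : Y → X) (F : X → ℝ) :
    ∑ x, (∑ y ∈ A, if φ y = x then w y else 0) * F x = ∑ y ∈ A, w y * F (φ y) := by
  simp_rw [Finset.sum_mul]
  rw [Finset.sum_comm]
  refine Finset.sum_congr rfl fun y _ => ?_
  simp [ite_mul]

lemma unique_push (T : κ → X → X) (x0 : X) {Y1 Y2 : Type} (A1 : Finset Y1) (A2 : Finset Y2)
    (w1 : Y1 → ℝ) (w2 : Y2 → ℝ) (φ1 : Y1 → X) (φ2 : Y2 → X)
    (h1 : ∀ F : X → ℝ, ∑ y ∈ A1, w1 y * ∑ i, F (T i (φ1 y))
      = (Fintype.card κ : ℝ) * ∑ y ∈ A1, w1 y * F (φ1 y))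
    (h2 : ∀ F : X → ℝ, ∑ y ∈ A2, w2 y * ∑ i, F (T i (φ2 y))
      = (Fintype.card κ : ℝ) * ∑ y ∈ A2, w2 y * F (φ2 y))
    (hs : ∑ y ∈ A1, w1 y = ∑ y ∈ A2, w2 y)
    (r1 : ∀ y ∈ A1, Relation.ReflTransGen (fun a b => ∃ i, T i a = b) (φ1 y) x0)
    (r2 : ∀ y ∈ A2, Relation.ReflTransGen (fun a b => ∃ i, T i a = b) (φ2 y) x0)
    (F : X → ℝ) : ∑ y ∈ A1, w1 y * F (φ1 y) = ∑ y ∈ A2, w2 y * F (φ2 y) := by
  set m1 : X → ℝ := fun x => ∑ y ∈ A1, if φ1 y = x then w1 y else 0 with hm1
  set m2 : X → ℝ := fun x => ∑ y ∈ A2, if φ2 y = x then w2 y else 0 with hm2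
  have p1 : ∀ G : X → ℝ, ∑ x, m1 x * G x = ∑ y ∈ A1, w1 y * G (φ1 y) := push_sum A1 w1 φ1
  have p2 : ∀ G : X → ℝ, ∑ x, m2 x * G x = ∑ y ∈ A2, w2 y * G (φ2 y) := push_sum A2 w2 φ2
  have hz := signed_zero T (fun x => m1 x - m2 x) x0 (by
      intro y
      have e : ∀ x, ∑ i, (if T i x = y then m1 x - m2 x else 0)
          = m1 x * ∑ i, (if T i x = y then (1 : ℝ) else 0)
            - m2 x * ∑ i, (if T i x = y then (1 : ℝ) else 0) := by
        intro x
        rw [← sub_mul, Finset.mul_sum]
        refine Finset.sum_congr rfl fun i _ => ?_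
        split_ifs <;> simp
      simp_rw [e]
      rw [Finset.sum_sub_distrib, p1 (fun x => ∑ i, (if T i x = y then (1 : ℝ) else 0)),
        p2 (fun x => ∑ i, (if T i x = y then (1 : ℝ) else 0)),
        h1 (fun x => if x = y then 1 else 0), h2 (fun x => if x = y then 1 else 0), mul_sub]
      simp [hm1, hm2])
    (by
      have a1 := p1 (fun _ => 1)
      have a2 := p2 (fun _ => 1)
      simp only [mul_one] at a1 a2
      rw [Finset.sum_sub_distrib, a1, a2, hs, sub_self])
    (by
      intro x hx
      by_contra hn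
      apply hx
      have b1 : m1 x = 0 := Finset.sum_eq_zero fun y hy => if_neg (fun h : φ1 y = x => hn (h ▸ r1 y hy))
      have b2 : m2 x = 0 := Finset.sum_eq_zero fun y hy => if_neg (fun h : φ2 y = x => hn (h ▸ r2 y hy))
      simp only [b1, b2, sub_self])
  rw [← p1 F, ← p2 F]
  refine Finset.sum_congr rfl fun x _ => ?_
  rw [sub_eq_zero.1 (hz x)]

end Markov

section Ring
variable {n : ℕ}

lemma rot_val (i : Fin (n + 2)) (h : (i : ℕ) + 1 < n + 2) :
    ((finRotate (n + 2) i : Fin (n + 2)) : ℕ) = i + 1 := by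
  rw [finRotate_succ_apply, Fin.val_add_one_of_lt]
  rw [Fin.lt_def]; simp; omega

lemma rot_last (i : Fin (n + 2)) (h : (i : ℕ) = n + 1) :
    ((finRotate (n + 2) i : Fin (n + 2)) : ℕ) = 0 := by
  have : i = Fin.last (n + 1) := Fin.ext (by simp [h])
  rw [this, finRotate_last]; rfl

lemma rot_ne (i : Fin (n + 2)) : finRotate (n + 2) i ≠ i := by
  intro h
  have h1 := congrArg Fin.val h
  by_cases h2 : (i : ℕ) + 1 < n + 2
  · rw [rot_val i h2] at h1; omega
  · rw [rot_last i (by omega)] at h1; omega

lemma cyc_rot : Cyc (finRotate (n + 2)) := by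
  intro f hf
  set g : ℕ → ℤ := fun v => if h : v < n + 2 then f ⟨v, h⟩ else 0 with hg
  have hgf : ∀ x : Fin (n + 2), g x = f x := fun x => by simp [hg, x.2]
  have htot : ∑ v ∈ Finset.range (n + 2), g v = ∑ x, f x := by
    rw [← Fin.sum_univ_eq_sum_range]; exact Finset.sum_congr rfl fun x _ => hgf x
  set C : ℤ := ∑ v ∈ Finset.range (n + 2), |g v| with hC
  have hnn : ∀ k, k ≤ n + 2 → 0 ≤ C + ∑ v ∈ Finset.range k, g v := by
    intro k hk
    have a1 : |∑ v ∈ Finset.range k, g v| ≤ ∑ v ∈ Finset.range k, |g v| :=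
      Finset.abs_sum_le_sum_abs _ _
    have a2 : ∑ v ∈ Finset.range k, |g v| ≤ C :=
      Finset.sum_le_sum_of_subset_of_nonneg (Finset.range_mono hk) (fun _ _ _ => abs_nonneg _)
    have a3 := neg_abs_le (∑ v ∈ Finset.range k, g v)
    omega
  refine ⟨fun x => (C + ∑ v ∈ Finset.range ((x : ℕ) + 1), g v).toNat, fun x => ?_⟩
  have b1 := hnn ((x : ℕ) + 1) (by omega)
  have b2 := hnn (((finRotate (n + 2) x : Fin (n + 2)) : ℕ) + 1) (by omega)
  rw [Int.toNat_of_nonneg b1, Int.toNat_of_nonneg b2, ← hgf]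
  by_cases h2 : (x : ℕ) + 1 < n + 2
  · rw [rot_val x h2, Finset.sum_range_succ g ((x : ℕ) + 1)]; omega
  · rw [rot_last x (by omega)]
    have : (x : ℕ) + 1 = n + 2 := by omega
    rw [this, htot]
    simp only [zero_add, Finset.range_one, Finset.sum_singleton]
    omega

lemma packed {U : Finset (Fin (n + 2))}
    (h : ∀ i : Fin (n + 2), (i : ℕ) + 1 < n + 2 → finRotate (n + 2) i ∈ U → i ∈ U) :
    U = Finset.univ.filter (fun v : Fin (n + 2) => (v : ℕ) < U.card) := by
  have down : ∀ d : ℕ, ∀ u v : Fin (n + 2), (v : ℕ) = u + d → v ∈ U → u ∈ U := by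
    intro d
    induction d with
    | zero => intro u v huv hv; rwa [show u = v from Fin.ext (by omega)]
    | succ d ih =>
      intro u v huv hv
      have hu : (u : ℕ) + 1 < n + 2 := by omega
      exact h u hu (ih _ v (by rw [rot_val u hu]; omega) hv)
  ext v
  simp only [Finset.mem_filter, Finset.mem_univ, true_and]
  constructor
  · intro hv
    have : Finset.Iic v ⊆ U := fun u hu =>
      down ((v : ℕ) - u) u v (by have := Fin.le_def.1 (Finset.mem_Iic.1 hu); omega) hv
    have h2 := Finset.card_le_card this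
    rw [Fin.card_Iic] at h2
    omega
  · intro hv
    by_contra hn
    have : U ⊆ Finset.Iio v := by
      intro u hu
      rw [Finset.mem_Iio]
      by_contra hh
      exact hn (down ((u : ℕ) - v) v u (by have := Fin.le_def.1 (not_lt.1 hh); omega) hu)
    have h2 := Finset.card_le_card this
    rw [Fin.card_Iio] at h2
    omega

lemma pot_mv (i : Fin (n + 2)) (hi : (i : ℕ) + 1 < n + 2) (U : Finset (Fin (n + 2))) :
    ∑ v ∈ mv (finRotate (n + 2)) i U, (v : ℕ)
      + (if i ∉ U ∧ finRotate (n + 2) i ∈ U then 1 else 0) = ∑ v ∈ U, (v : ℕ) := by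
  unfold mv
  split_ifs with h
  · rw [Finset.sum_insert (by simp [h.1]), ← Finset.add_sum_erase U _ h.2, rot_val i hi]
    omega
  · rfl

lemma reach {J : Type} [Fintype J] (c : J → ℕ) (x : J → Finset (Fin (n + 2)))
    (hx : ∀ j, (x j).card = c j) :
    Relation.ReflTransGen
      (fun a b => ∃ i : Fin (n + 2), (fun j => mv (finRotate (n + 2)) i (a j)) = b) x
      (fun j => Finset.univ.filter (fun v : Fin (n + 2) => (v : ℕ) < c j)) := by
  induction' hk : ∑ j, ∑ v ∈ x j, (v : ℕ) using Nat.strong_induction_on with k ih generalizing x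
  by_cases h : ∃ j, ∃ i : Fin (n + 2), (i : ℕ) + 1 < n + 2 ∧ i ∉ x j ∧ finRotate (n + 2) i ∈ x j
  · obtain ⟨j, i, hi, h1, h2⟩ := h
    refine Relation.ReflTransGen.head ⟨i, rfl⟩ (ih _ ?_ _ (fun j => by rw [card_mv, hx]) rfl)
    rw [← hk]
    refine Finset.sum_lt_sum (fun j' _ => ?_) ⟨j, Finset.mem_univ _, ?_⟩
    · have := pot_mv i hi (x j'); omega
    · have := pot_mv i hi (x j)
      rw [if_pos ⟨h1, h2⟩] at this
      omega
  · push Not at h
    have : x = fun j => Finset.univ.filter (fun v : Fin (n + 2) => (v : ℕ) < c j) := by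
      funext j
      rw [← hx j]
      exact packed fun i hi h2 => by_contra fun h1 => h j i hi h1 h2
    rw [← this]

/-- adding a service just after a fully used window does not change the window -/
lemma window {U V S : Finset (Fin (n + 2))} (hUV : U ⊆ V) (hV : V.card < S.card)
    (y : Fin (n + 2)) (hy : y ∉ S)
    (hW : ∀ a : Fin (n + 2), (a : ℕ) < y → a ∈ D (finRotate (n + 2)) V S)
    (a : Fin (n + 2)) (ha : (a : ℕ) < y) :
    a ∈ D (finRotate (n + 2)) U (insert y S) ↔ a ∈ D (finRotate (n + 2)) U S := by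
  have hU : U.card ≤ S.card := (Finset.card_le_card hUV).trans hV.le
  have hU' : U.card ≤ (insert y S).card := hU.trans (Finset.card_le_card (Finset.subset_insert _ _))
  have EV := ex_fl _ cyc_rot hV.le
  have EU := ex_fl _ cyc_rot hU
  have EU' := ex_fl _ cyc_rot hU'
  obtain ⟨z, hz1, hz2⟩ : ∃ z ∈ S, z ∉ D (finRotate (n + 2)) V S := by
    by_contra hh
    push Not at hh
    have := Finset.card_le_card (show S ⊆ D (finRotate (n + 2)) V S from hh)
    rw [card_D _ cyc_rot hV.le] at this
    omega
  have hzy : (y : ℕ) < z := by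
    rcases lt_trichotomy (y : ℕ) z with h | h | h
    · exact h
    · exact absurd (Fin.ext h ▸ hz1) hy
    · exact absurd (hW z h) hz2
  have q0 : Q (finRotate (n + 2)) (fl V S) z = 0 := by
    have h1 := Q_rec _ EV ((finRotate (n + 2)).symm z)
    rw [Equiv.apply_symm_apply] at h1
    simp only [D, Finset.mem_filter, hz1, true_and] at hz2
    omega
  have q1 : Q (finRotate (n + 2)) (fl U S) z = 0 := by
    have : Super (finRotate (n + 2)) (fl U S) (Q (finRotate (n + 2)) (fl V S)) := by
      intro x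
      have h1 := Q_super _ EV x
      have h2 : fl U S (finRotate (n + 2) x) ≤ fl V S (finRotate (n + 2) x) := by
        unfold fl
        have := @hUV (finRotate (n + 2) x)
        split_ifs <;> simp_all
      omega
    have := Q_le _ this z
    omega
  have q2 : Q (finRotate (n + 2)) (fl U (insert y S)) z = 0 := by
    have : Super (finRotate (n + 2)) (fl U (insert y S)) (Q (finRotate (n + 2)) (fl U S)) := by
      intro x
      have h1 := Q_super _ EU x
      have h2 : fl U (insert y S) (finRotate (n + 2) x) ≤ fl U S (finRotate (n + 2) x) := by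
        unfold fl
        have := @Finset.mem_insert_of_mem _ _ S (finRotate (n + 2) x) y
        split_ifs <;> simp_all
      omega
    have := Q_le _ this z
    omega
  have hfl : ∀ x, x ≠ y → fl U (insert y S) x = fl U S x := by
    intro x hx
    simp only [fl, Finset.mem_insert, hx, false_or]
  have step : ∀ x, finRotate (n + 2) x ≠ y →
      Q (finRotate (n + 2)) (fl U (insert y S)) x = Q (finRotate (n + 2)) (fl U S) x →
      Q (finRotate (n + 2)) (fl U (insert y S)) (finRotate (n + 2) x)
        = Q (finRotate (n + 2)) (fl U S) (finRotate (n + 2) x) := by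
    intro x hx hq
    have h1 := Q_rec _ EU x
    have h2 := Q_rec _ EU' x
    rw [hfl _ hx, hq] at h2
    omega
  have up : ∀ d : ℕ, ∀ x : Fin (n + 2), (x : ℕ) = z + d →
      Q (finRotate (n + 2)) (fl U (insert y S)) x = Q (finRotate (n + 2)) (fl U S) x := by
    intro d
    induction d with
    | zero => intro x hx; rw [show x = z from Fin.ext (by omega), q1, q2]
    | succ d ih =>
      intro x hx
      have hx2 := x.2
      have e : x = finRotate (n + 2) ⟨z + d, by omega⟩ :=
        Fin.ext (by rw [rot_val _ (by simp only; omega)]; simp only; omega)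
      rw [e]
      exact step _ (by rw [← e]; intro h; rw [h] at hx; omega) (ih _ rfl)
  have low : ∀ d : ℕ, ∀ x : Fin (n + 2), (x : ℕ) = d → d < y →
      Q (finRotate (n + 2)) (fl U (insert y S)) ((finRotate (n + 2)).symm x)
        = Q (finRotate (n + 2)) (fl U S) ((finRotate (n + 2)).symm x) := by
    intro d
    induction d with
    | zero =>
      intro x hx _
      have e : (finRotate (n + 2)).symm x = Fin.last (n + 1) := by
        rw [Equiv.symm_apply_eq]
        exact Fin.ext (by rw [rot_last _ (by simp), hx])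
      rw [e]
      have hz := z.2
      exact up (n + 1 - z) _ (by simp only [Fin.val_last]; omega)
    | succ d ih =>
      intro x hx hd
      have hx2 := x.2
      have e : (finRotate (n + 2)).symm x = ⟨d, by omega⟩ := by
        rw [Equiv.symm_apply_eq]
        exact Fin.ext (by rw [rot_val _ (by simp only; omega)]; simp only; omega)
      rw [e]
      have h1 := ih ⟨d, by omega⟩ rfl (by omega)
      have h2 := step _ (by
        rw [Equiv.apply_symm_apply]; intro h; rw [← h] at hd; simp only at hd; omega) h1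
      rwa [Equiv.apply_symm_apply] at h2
  have hay : a ≠ y := by intro h; rw [h] at ha; omega
  simp only [D, Finset.mem_filter, Finset.mem_insert, hay, false_or, low a a rfl ha, hfl a hay]

lemma D_insert_sub {U S : Finset (Fin (n + 2))} (hU : U.card ≤ S.card)
    (y a : Fin (n + 2)) (hay : a ≠ y) (ha : a ∈ D (finRotate (n + 2)) U (insert y S)) :
    a ∈ D (finRotate (n + 2)) U S := by
  have EU := ex_fl _ cyc_rot hU
  have : Super (finRotate (n + 2)) (fl U (insert y S)) (Q (finRotate (n + 2)) (fl U S)) := by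
    intro x
    have h1 := Q_super _ EU x
    have h2 : fl U (insert y S) (finRotate (n + 2) x) ≤ fl U S (finRotate (n + 2) x) := by
      unfold fl
      have := @Finset.mem_insert_of_mem _ _ S (finRotate (n + 2) x) y
      split_ifs <;> simp_all
    omega
  have h3 := Q_le _ this ((finRotate (n + 2)).symm a)
  have hfl : fl U (insert y S) a = fl U S a := by
    simp only [fl, Finset.mem_insert, hay, false_or]
  simp only [D, Finset.mem_filter, Finset.mem_insert, hay, false_or, hfl] at ha ⊢
  exact ⟨ha.1, by omega⟩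

end Ring

end Pool.Agent.Lib.Helper30.Tasep
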