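import Mathlib

set_option autoImplicit false

namespace Pool.Agent.Lib.Helper30.Tasep
open Finset

section Queue
variable {ι : Type} [Fintype ι] [DecidableEq ι] (s : Equiv.Perm ι)

/-- supersolutions of the cyclic queue recursion -/
def Super (f : ι → ℤ) (R : ι → ℕ) : Prop := ∀ x, (R x : ℤ) + f (s x) ≤ R (s x)

/-- the cyclic queue length: least supersolution -/
noncomputable def Q (f : ι → ℤ) (x : ι) : ℕ := sInf {q | ∃ R, Super s f R ∧ R x = q}

omit [Fintype ι] [DecidableEq ι] in
lemma Q_le {f : ι → ℤ} {R : ι → ℕ} (h : Super s f R) (x : ι) : Q s f x ≤ R x :=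
  Nat.sInf_le ⟨R, h, rfl⟩

omit [Fintype ι] [DecidableEq ι] in
lemma Q_super {f : ι → ℤ} (h : ∃ R, Super s f R) : Super s f (Q s f) := by
  intro x
  obtain ⟨R, hR, hx⟩ : Q s f (s x) ∈ {q | ∃ R, Super s f R ∧ R (s x) = q} :=
    Nat.sInf_mem (let ⟨R, hR⟩ := h; ⟨_, R, hR, rfl⟩)
  have h1 := Q_le s hR x
  have h2 := hR x
  omega

omit [Fintype ι] in
lemma Q_rec {f : ι → ℤ} (h : ∃ R, Super s f R) (x : ι) :
    (Q s f (s x) : ℤ) = max 0 (Q s f x + f (s x)) := by
  have hS := Q_super s h
  have h0 := hS x
  have hR : Super s f (Function.update (Q s f) (s x) (Q s f x + f (s x)).toNat) := by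
    have hle : ∀ y, Function.update (Q s f) (s x) (Q s f x + f (s x)).toNat y ≤ Q s f y := by
      intro y
      by_cases hy : y = s x
      · subst hy; simp only [Function.update_self]; omega
      · rw [Function.update_of_ne hy]
    intro y
    have h1 := hle y
    by_cases hy : s y = s x
    · have hyx : y = x := s.injective hy
      subst hyx
      simp only [Function.update_self]
      omega
    · rw [Function.update_of_ne hy]
      have := hS y
      omega
  have h2 := Q_le s hR (s x)
  simp only [Function.update_self] at h2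
  omega

omit [Fintype ι] in
lemma Q_le_off {f g : ι → ℤ} (hf : ∃ R, Super s f R) (j : ι) (hj : s j ≠ j)
    (hag : ∀ x, x ≠ j → x ≠ s j → f x = g x)
    (two : ∀ q : ℤ, 0 ≤ q → max 0 (max 0 (q + f j) + f (s j)) = max 0 (max 0 (q + g j) + g (s j)))
    (x : ι) (hx : x ≠ j) : Q s g x ≤ Q s f x := by
  have hS := Q_super s hf
  have hp : s.symm j ≠ j := by
    intro h
    apply hj
    have := congrArg s h
    simpa using this.symm
  have hR : Super s g (Function.update (Q s f) j (Q s f (s.symm j) + g j).toNat) := by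
    intro y
    by_cases hy : s y = j
    · have hy' : y = s.symm j := by rw [← hy]; simp
      rw [hy, hy', Function.update_self, Function.update_of_ne hp]
      omega
    · rw [Function.update_of_ne hy]
      by_cases hy2 : y = j
      · subst hy2
        rw [Function.update_self]
        have h1 := Q_rec s hf y
        have h2 := Q_rec s hf (s.symm y)
        rw [Equiv.apply_symm_apply] at h2
        have h3 := two (Q s f (s.symm y)) (by omega)
        omega
      · rw [Function.update_of_ne hy2, ← hag (s y) hy (fun h => hy2 (s.injective h))]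
        exact hS y
  have h2 := Q_le s hR x
  rwa [Function.update_of_ne hx] at h2

omit [Fintype ι] in
lemma Q_eq_off {f g : ι → ℤ} (hf : ∃ R, Super s f R) (hg : ∃ R, Super s g R) (j : ι)
    (hj : s j ≠ j) (hag : ∀ x, x ≠ j → x ≠ s j → f x = g x)
    (two : ∀ q : ℤ, 0 ≤ q → max 0 (max 0 (q + f j) + f (s j)) = max 0 (max 0 (q + g j) + g (s j)))
    (x : ι) (hx : x ≠ j) : Q s g x = Q s f x :=
  le_antisymm (Q_le_off s hf j hj hag two x hx)
    (Q_le_off s hg j hj (fun y h1 h2 => (hag y h1 h2).symm) (fun q hq => (two q hq).symm) x hx)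

/-- net flow: arrivals minus services -/
def fl (U S : Finset ι) (x : ι) : ℤ := (if x ∈ U then 1 else 0) - (if x ∈ S then 1 else 0)

/-- used service times -/
noncomputable def D (U S : Finset ι) : Finset ι :=
  S.filter (fun y => 0 ≤ (Q s (fl U S) (s.symm y) : ℤ) + fl U S y)

/-- one exclusion move on the edge from i to s i -/
def mv (i : ι) (U : Finset ι) : Finset ι :=
  if i ∉ U ∧ s i ∈ U then insert i (U.erase (s i)) else U

def Cyc : Prop := ∀ f : ι → ℤ, ∑ x, f x ≤ 0 → ∃ R, Super s f R

lemma sum_fl (U S : Finset ι) : ∑ x, fl U S x = (U.card : ℤ) - S.card := by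
  simp [fl, Finset.sum_sub_distrib]

lemma ex_fl (hc : Cyc s) {U S : Finset ι} (h : U.card ≤ S.card) : ∃ R, Super s (fl U S) R :=
  hc _ (by rw [sum_fl]; omega)

omit [Fintype ι] in
lemma card_mv (i : ι) (U : Finset ι) : (mv s i U).card = U.card := by
  unfold mv
  split_ifs with h
  · rw [Finset.card_insert_of_notMem (by simp [h.1]), Finset.card_erase_of_mem h.2]
    have := Finset.card_pos.2 ⟨_, h.2⟩
    omega
  · rfl

omit [Fintype ι] in
lemma mem_mv {i : ι} (hi : s i ≠ i) (U : Finset ι) (x : ι) :
    x ∈ mv s i U ↔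
      (if x = i then (i ∈ U ∨ s i ∈ U) else if x = s i then (i ∈ U ∧ s i ∈ U) else x ∈ U) := by
  unfold mv
  by_cases h1 : i ∈ U <;> by_cases h2 : s i ∈ U <;> by_cases h3 : x = i <;>
    by_cases h4 : x = s i <;> simp_all

omit [Fintype ι] in
lemma mem_mv1 {i : ι} (hi : s i ≠ i) (U : Finset ι) : i ∈ mv s i U ↔ (i ∈ U ∨ s i ∈ U) := by
  rw [mem_mv s hi]; simp

omit [Fintype ι] in
lemma mem_mv2 {i : ι} (hi : s i ≠ i) (U : Finset ι) : s i ∈ mv s i U ↔ (i ∈ U ∧ s i ∈ U) := by
  rw [mem_mv s hi]; simp [hi]

omit [Fintype ι] in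
lemma mem_mv3 {i : ι} (hi : s i ≠ i) (U : Finset ι) {x : ι} (h1 : x ≠ i) (h2 : x ≠ s i) :
    x ∈ mv s i U ↔ x ∈ U := by
  rw [mem_mv s hi]; simp [h1, h2]

lemma card_D (hc : Cyc s) {U S : Finset ι} (h : U.card ≤ S.card) : (D s U S).card = U.card := by
  have hE := ex_fl s hc h
  have key : ∀ y, (Q s (fl U S) y : ℤ) = Q s (fl U S) (s.symm y) + fl U (D s U S) y := by
    intro y
    have h1 := Q_rec s hE (s.symm y)
    rw [Equiv.apply_symm_apply] at h1
    by_cases hS : y ∈ S <;> by_cases hU : y ∈ U <;>
      by_cases hq : 0 ≤ (Q s (fl U S) (s.symm y) : ℤ) + fl U S y <;>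
      simp only [D, fl, Finset.mem_filter, hS, hU, if_true, if_false, true_and, false_and] at h1 hq ⊢
    all_goals (first | (rw [if_pos hq]; omega) | (rw [if_neg hq]; omega) | omega)
  have h2 : ∑ y, (Q s (fl U S) y : ℤ) = ∑ y, ((Q s (fl U S) (s.symm y) : ℤ) + fl U (D s U S) y) :=
    Finset.sum_congr rfl (fun y _ => key y)
  rw [Finset.sum_add_distrib, sum_fl, Equiv.sum_comp s.symm (fun y => (Q s (fl U S) y : ℤ))] at h2
  omega

/-- the edge of the upper row that rings -/
def bb (S : Finset ι) (i : ι) : ι := if s i ∈ S then i else s i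

lemma D_comm (hc : Cyc s) (hs : ∀ x, s x ≠ x) {U S : Finset ι} (h : U.card ≤ S.card) (i : ι) :
    D s (mv s (bb s S i) U) (mv s i S) = mv s i (D s U S) := by
  have hE := ex_fl s hc h
  have hE' : ∃ R, Super s (fl (mv s (bb s S i) U) (mv s i S)) R :=
    ex_fl s hc (by rw [card_mv, card_mv]; exact h)
  have hp : ∀ j, s.symm j ≠ j := by
    intro j h
    apply hs j
    have := congrArg s h
    simpa using this.symm
  by_cases hi : s i ∈ S
  · have hb : bb s S i = i := if_pos hi
    rw [hb] at hE' ⊢
    have hQ := Q_eq_off s hE hE' i (hs i)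
      (by intro x h1 h2; simp only [fl, mem_mv3 s (hs i) _ h1 h2])
      (by
        intro q hq
        simp only [fl, mem_mv1 s (hs i), mem_mv2 s (hs i)]
        by_cases a1 : i ∈ U <;> by_cases a2 : s i ∈ U <;> by_cases a3 : i ∈ S <;>
          simp only [a1, a2, a3, hi, if_true, if_false, true_and, false_and, and_true, and_false,
            or_true, true_or, or_false, or_self, and_self] <;> omega)
    have e1 := hQ _ (hp i)
    have e2 := Q_rec s hE (s.symm i)
    have e3 := Q_rec s hE' (s.symm i)
    rw [Equiv.apply_symm_apply] at e2 e3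
    ext y
    by_cases y1 : y = i
    · subst y1
      rw [mem_mv1 s (hs y)]
      simp only [D, Finset.mem_filter, Equiv.symm_apply_apply, e1, e2]
      simp only [fl, mem_mv1 s (hs y)]
      by_cases a1 : y ∈ U <;> by_cases a2 : s y ∈ U <;> by_cases a3 : y ∈ S <;>
          simp only [a1, a2, a3, hi, if_true, if_false, true_and, false_and, and_true, and_false,
            or_true, true_or, or_false, false_or, or_self, and_self] <;> omega
    · by_cases y2 : y = s i
      · subst y2
        rw [mem_mv2 s (hs i)]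
        rw [e1] at e3
        simp only [D, Finset.mem_filter, Equiv.symm_apply_apply, e2, e3]
        simp only [fl, mem_mv1 s (hs i), mem_mv2 s (hs i)]
        by_cases a1 : i ∈ U <;> by_cases a2 : s i ∈ U <;> by_cases a3 : i ∈ S <;>
          simp only [a1, a2, a3, hi, if_true, if_false, true_and, false_and, and_true, and_false,
            or_true, true_or, or_false, false_or, or_self, and_self] <;> omega
      · rw [mem_mv3 s (hs i) _ y1 y2]
        have e4 := hQ (s.symm y) (by intro h; apply y2; rw [← h]; simp)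
        simp only [D, Finset.mem_filter, e4]
        simp only [fl, mem_mv3 s (hs i) _ y1 y2]
  · have hb : bb s S i = s i := if_neg hi
    have hS : mv s i S = S := if_neg (fun h => hi h.2)
    have hD : mv s i (D s U S) = D s U S := if_neg (fun h => hi (Finset.mem_filter.1 h.2).1)
    rw [hb, hS] at hE' ⊢
    rw [hD]
    generalize s i = j at hi hE'
    have hQ := Q_eq_off s hE hE' j (hs j)
      (by intro x h1 h2; simp only [fl, mem_mv3 s (hs j) _ h1 h2])
      (by
        intro q hq
        simp only [fl, mem_mv1 s (hs j), mem_mv2 s (hs j)]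
        by_cases a1 : j ∈ U <;> by_cases a2 : s j ∈ U <;> by_cases a3 : s j ∈ S <;>
          simp only [a1, a2, a3, hi, if_true, if_false, true_and, false_and, and_true, and_false,
            or_true, true_or, or_false, or_self, and_self] <;> omega)
    have e1 := hQ _ (hp j)
    have e2 := Q_rec s hE (s.symm j)
    have e3 := Q_rec s hE' (s.symm j)
    rw [Equiv.apply_symm_apply] at e2 e3
    ext y
    by_cases y1 : y = j
    · subst y1
      simp only [D, Finset.mem_filter, hi, false_and]
    · by_cases y2 : y = s j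
      · subst y2
        rw [e1] at e3
        simp only [D, Finset.mem_filter, Equiv.symm_apply_apply, e2, e3]
        simp only [fl, mem_mv1 s (hs j), mem_mv2 s (hs j)]
        by_cases a1 : j ∈ U <;> by_cases a2 : s j ∈ U <;> by_cases a3 : s j ∈ S <;>
          simp only [a1, a2, a3, hi, if_true, if_false, true_and, false_and, and_true, and_false,
            or_true, true_or, or_false, false_or, or_self, and_self] <;> omega
      · have e4 := hQ (s.symm y) (by intro h; apply y2; rw [← h]; simp)
        simp only [D, Finset.mem_filter, e4]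
        simp only [fl, mem_mv3 s (hs j) _ y1 y2]

end Queue

end Pool.Agent.Lib.Helper30.Tasep
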