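import Mathlib

set_option autoImplicit false

namespace Pool.Agent.Lib.Helper30.Touch

def ADJ : ℕ := 0x214000012080004000430c000000000011800002840000040086300002022409120c2820241c042a00600000000000000602000888000001002c820082200020000000000820000228004000cc0000000060d2354331d200000000000010041100200180020001211040620000000000c00400404100002001030c000800001100000400004040080102050004060000001000080008020010861000000000000000000000000000000000001d000000008417ca28b2b40000000000000090000000a00000021000082042008400c000000000000c000082a004440000002100000003000005000004128100000000001810001012000002001c8200140400080000000006000080801004000000050000000600000440000500140000000000180000081000040130006000108200000001000400010400201c800000000000280000044000011060000a0000000000000000000000000000000000000200000090000804000081800084003300000000182d358cce2100000000000040080600808020080008422100e0000000140000002400000050000900a00042a09ac0000000420000030985900000210006000000000001100050a0011200021100000004000100001800880620000000c00000009000000a000000a1120000400000004100400010003020000a0000000000842000041040001004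094100040008020000800004020080802a020060800004000000000090001020400200040000060000400004002080004118000000220000000900000180000210a000091000100000000001400040840010000000000042000002200008049000840000800284004020400020010c14009400011800000020008000004100410304000800041000000100004100084015800030020080000000000210000112002000010010010000080001008040820a400000000000000000000000000000000000000000000000000000000000000000000008000000240080010000488000110002000000420800202400100002894100e20000000003e8ca174d4800000000000000000000000000000000000000000000208060000840020080022140101500001800010020048000010120001c88000000810000008200000600000420090000100000000c000100200044100084008448c9140000003000000c501b10000008000000842000041014000002863000420018000000000000a0002450028100400000002140000121002000012c8200802100000008000200020200102c0200800100000602800882012020c10011000000060000000c000000c000030444002040000028010880404410049080840000010000000a0002080000062000600000820008000101040000440201030600000000002801008040100008020941000000000000000000000000000000000000000000420800202020008008063000808012a00c0ac00882814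1c804800000880800400000000008400008402008000004400a001002080040020c48004a00800000500000020008040002040103000000000000000000000000000000000000000a00000048000000a00002404200000018000000600000003000084828004440000200000000048000204080010000000000840000801000040860000a0000000000c000000140000140c000110000004800000050000008200000c0090000022088000104040100044280201900210336280000000500000c8244e000004044000000800020000028008043080000800000001100040200001110006000800001400000100008080002208a1000010000210000200001001040080424000301000100000000012000041100800000011021000408010010089020800b0040000204000020000080102048052000020080200000400000202004104508000000000000000000000000000000000080000000060200088202000000530c00000000000000000000000000000000000011002000042001000088800209500000200000002200100040000a40000a0010000000181000101801000001230c002000000028010080404080000c06300004020000118010028024100862000a0002100000420820202408801064000a000021004000088002000022010043880000000000000000000000000000000000100112a012110510190228a8048000000008015000021010040004908200a40020c0000000400040000081004209400000c0008000400840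00001108080621000000000011000020800002809000840000006000000011000009000000901400108000001810011018024040c04011000004000000c00020008000a0400011002000008800000100001100100014c0001814650300000088000003242a600000200020800000040000104010210a04000400000011800002802800000c094100000600020010100800040204040921001800210000000000024000095008280001080000c0040440408120013020600001000000c004004040804000005c82000104411241240540428222160a0000000828000000020010000404002409010000000000060000108000020230006000400400002140400121024002301060001000000a00001000020800010082900010004008000002000204000114050100002800100002021000080410008650000820000084200204101880809800840008408844a02212041410984501100000000000002100004020000820c000110040000084000008000080802002084800004400040080402000020840002c06000410240941901202806091320060000002000060000080000022000400282200202088440c412880406c02c10110000040084112a0c0c001290144150a000000000000000000000000000000000000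

def WT : ℕ := 0x1c1c521c0f3c2e1c130e003c1227211c0f12100e1000113c2e1230270e21111c1d0f13120f102e0e1d0f1d000011263c002e251211302627260e36213611251c001c520f2e130012210f1010122e300e111d130f2e1d1d0026002511262636362500522e0e251012361113301d2625273626520e1036131d2536521013255213525200

def P : ℕ := 0x1000000000000000000000000000000

def A (g : ℕ) : ℕ := Nat.shiftRight ADJ (Nat.mul 128 (Nat.mod g 131))

def Wg (g : ℕ) : ℕ := Nat.mod (Nat.shiftRight WT (Nat.mul 8 (Nat.mod g 131))) 256

def adj (v : ℕ) : ℕ := A (2 ^ v)

def w (v : ℕ) : ℕ := Wg (2 ^ v)

def px (v : ℕ) : ℕ := (0x4714aa170838bb305b50660b040b47b7a992121aa8a31831561a16a59893322829924947792299552662833887738344774438368655556654476657 >>> (4 * v)) % 16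

def py (v : ℕ) : ℕ := (0xaa7174418bb08303b505b0667b470b4091a19a223a8131a8aa5561618939283229299422974756926295383843877483477456635883655646557476 >>> (4 * v)) % 16

noncomputable def cover (fuel : ℕ) : ℕ → ℕ → Bool :=
  Nat.rec (fun _ _ => false)
    (fun _ ih r b => Bool.rec
      ((fun g1 => (fun w1 => Bool.rec false
        ((fun c1 => (fun g2 =>
          ih (Nat.mod (Nat.xor (Nat.xor (Nat.xor r g1) g2) (Nat.gcd (Nat.land c1 (A g2)) P)) P)
            (Nat.sub b w1)) (Nat.gcd c1 P)) (Nat.land r (A g1))) (Nat.ble w1 b)) (Wg g1))
        (Nat.gcd r P)) true (Nat.beq r 0)) fuel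

noncomputable def check (fuel : ℕ) : ℕ → ℕ → Bool :=
  Nat.rec (fun _ _ => false)
    (fun _ ih c b => Bool.rec
      ((fun g => (fun wv => Bool.rec false
        ((fun c0 => Bool.rec false (ih c0 b)
          (ih (Nat.xor c0 (Nat.land c0 (A g))) (Nat.sub b wv))) (Nat.xor c g))
        (Nat.ble wv b && !Nat.beq c 0)) (Wg g)) (Nat.gcd c P)) true (cover 200 c b)) fuel

lemma rec_or (x y : Bool) : (Bool.rec y true x : Bool) = (x || y) := by cases x <;> rfl

lemma rec_and (x y : Bool) : (Bool.rec false y x : Bool) = (x && y) := by cases x <;> rfl

lemma cover_succ (k r b : ℕ) : cover (k + 1) r b =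
    (Nat.beq r 0 || (Nat.ble (Wg (r.gcd P)) b &&
      cover k ((((r ^^^ r.gcd P) ^^^ (r &&& A (r.gcd P)).gcd P) ^^^
        ((r &&& A (r.gcd P)) &&& A ((r &&& A (r.gcd P)).gcd P)).gcd P) % P)
        (b - Wg (r.gcd P)))) := by
  rw [← rec_or, ← rec_and]
  rfl

lemma check_succ (k c b : ℕ) : check (k + 1) c b =
    (cover 200 c b || ((Nat.ble (Wg (c.gcd P)) b && !Nat.beq c 0) &&
      (check k ((c ^^^ c.gcd P) ^^^ ((c ^^^ c.gcd P) &&& A (c.gcd P))) (b - Wg (c.gcd P)) &&
        check k (c ^^^ c.gcd P) b))) := by
  rw [← rec_or, ← rec_and (Nat.ble (Wg (c.gcd P)) b && !Nat.beq c 0), ← rec_and (check k _ _)]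
  rfl

lemma P_eq : P = 2 ^ 120 := by decide +kernel

lemma w_anti : ∀ u < 120, ∀ v ≤ u, w u ≤ w v := by decide +kernel

def Indep (J : Finset ℕ) : Prop := ∀ u ∈ J, ∀ v ∈ J, (adj v).testBit u = false

def val (J : Finset ℕ) (c : ℕ) : ℕ := ∑ i ∈ J.filter (fun i => c.testBit i = true), w i

lemma lt_of_tb {c i : ℕ} (hc : c < P) (h : c.testBit i = true) : i < 120 := by
  by_contra hlt
  have := Nat.ge_two_pow_of_testBit h
  have h2 : 2 ^ 120 ≤ 2 ^ i := Nat.pow_le_pow_right (by norm_num) (by omega)
  rw [P_eq] at hc
  omega

lemma low_spec {c : ℕ} (hc : c < P) (h0 : c ≠ 0) : ∃ v, c.gcd P = 2 ^ v ∧ c.testBit v = true ∧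
    ∀ i, c.testBit i = true → v ≤ i := by
  obtain ⟨v, m, hm, rfl⟩ := Nat.exists_eq_two_pow_mul_odd h0
  have hv : (2 ^ v * m).testBit v = true := by
    rw [Nat.testBit_two_pow_mul]
    simp [Nat.testBit_zero, Nat.odd_iff.1 hm]
  refine ⟨v, ?_, hv, ?_⟩
  · have hlt := lt_of_tb hc hv
    rw [P_eq, show 120 = v + (120 - v) by omega, pow_add, Nat.gcd_mul_left,
      Nat.Coprime.gcd_eq_one (Nat.Coprime.pow_right _ ((Nat.coprime_two_right).2 hm)), mul_one]
  · intro i hi
    rw [Nat.testBit_two_pow_mul] at hi
    simp only [Bool.and_eq_true, decide_eq_true_eq] at hi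
    exact hi.1

lemma gbit {c i : ℕ} (hc : c < P) (hi : i < 120) (h : (c.gcd P).testBit i = true) :
    c.testBit i = true ∧ c.gcd P = 2 ^ i := by
  by_cases h0 : c = 0
  · subst h0
    rw [Nat.gcd_zero_left, P_eq, Nat.testBit_two_pow] at h
    simp at h; omega
  · obtain ⟨v, h1, h2, -⟩ := low_spec hc h0
    rw [h1, Nat.testBit_two_pow] at h
    have : v = i := by simpa using h
    subst this
    exact ⟨h2, h1⟩

lemma tb_xor (c v i : ℕ) (hv : c.testBit v = true) :
    (c ^^^ 2 ^ v).testBit i = true ↔ c.testBit i = true ∧ i ≠ v := by
  rw [Nat.testBit_xor, Nat.testBit_two_pow]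
  by_cases h : v = i
  · subst h; simp [hv]
  · simp [h, Ne.symm h]

lemma val_xor (J : Finset ℕ) (c v : ℕ) (hv : c.testBit v = true) :
    val J c = val J (c ^^^ 2 ^ v) + if v ∈ J then w v else 0 := by
  have h1 : J.filter (fun i => (c ^^^ 2 ^ v).testBit i = true) =
      (J.filter (fun i => c.testBit i = true)).erase v := by
    ext i
    simp only [Finset.mem_filter, Finset.mem_erase, tb_xor c v i hv]
    tauto
  unfold val
  rw [h1]
  split_ifs with h
  · rw [Finset.sum_erase_add _ _ (Finset.mem_filter.2 ⟨h, hv⟩)]
  · rw [Finset.erase_eq_of_notMem (fun h' => h (Finset.mem_filter.1 h').1), add_zero]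

lemma val_step (J : Finset ℕ) (r r' x : ℕ)
    (h1 : ∀ i ∈ J, r.testBit i = true → r'.testBit i = false → w i ≤ x)
    (h2 : ∀ i ∈ J, r.testBit i = true → r'.testBit i = false →
      ∀ j ∈ J, r.testBit j = true → r'.testBit j = false → i = j) :
    val J r ≤ val J r' + x := by
  unfold val
  rw [← Finset.sum_filter_add_sum_filter_not (J.filter (fun i => r.testBit i = true))
    (fun i => r'.testBit i = true)]
  apply add_le_add
  · apply Finset.sum_le_sum_of_subset
    intro i hi
    simp only [Finset.mem_filter] at hi ⊢
    exact ⟨hi.1.1, hi.2⟩
  · set D := (J.filter (fun i => r.testBit i = true)).filter (fun i => ¬ r'.testBit i = true)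
    rcases D.eq_empty_or_nonempty with h | ⟨i, hi⟩
    · rw [h]; simp
    · have hi' := hi
      simp only [D, Finset.mem_filter, Bool.not_eq_true] at hi'
      have : D = {i} := by
        apply Finset.eq_singleton_iff_unique_mem.2 ⟨hi, fun j hj => ?_⟩
        simp only [D, Finset.mem_filter, Bool.not_eq_true] at hj
        exact h2 j hj.1.1 hj.1.2 hj.2 i hi'.1.1 hi'.1.2 hi'.2
      rw [this, Finset.sum_singleton]
      exact h1 i hi'.1.1 hi'.1.2 hi'.2

lemma cover_sound (J : Finset ℕ) (hJ : Indep J) (k : ℕ) : ∀ r b : ℕ, r < P →
    cover k r b = true → val J r ≤ b := by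
  induction k with
  | zero => intro r b _ h; exact absurd h (by simp [cover])
  | succ k ih =>
    intro r b hr h
    rw [cover_succ] at h
    by_cases hr0 : r = 0
    · subst hr0; simp [val]
    have e : Nat.beq r 0 = false := by
      rw [← Bool.not_eq_true, Nat.beq_eq]; exact hr0
    simp only [e, Bool.false_or, Bool.and_eq_true, Nat.ble_eq] at h
    obtain ⟨v, hg, hv, hmin⟩ := low_spec hr hr0
    have hP : 0 < P := by omega
    have h3 := ih _ _ (Nat.mod_lt _ hP) h.2
    have hw : Wg (r.gcd P) = w v := by rw [hg]; rfl
    have hA : A (r.gcd P) = adj v := by rw [hg]; rfl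
    rw [hw] at h
    rw [hw, hA, hg] at h3
    have hc1 : r &&& adj v < P := lt_of_le_of_lt Nat.and_le_left hr
    set c1 := r &&& adj v with hc1def
    have hc2 : c1 &&& A (c1.gcd P) < P := lt_of_le_of_lt Nat.and_le_left hc1
    set c2 := c1 &&& A (c1.gcd P) with hc2def
    have key : ∀ i, r.testBit i = true →
        ((((r ^^^ 2 ^ v) ^^^ c1.gcd P) ^^^ c2.gcd P) % P).testBit i = false →
        i = v ∨ ((adj v).testBit i = true ∧ c1.gcd P = 2 ^ i) ∨
          ((adj v).testBit i = true ∧ (A (c1.gcd P)).testBit i = true ∧ c2.gcd P = 2 ^ i) := by
      intro i hi h4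
      have hi2 := lt_of_tb hr hi
      by_cases a1 : i = v
      · exact Or.inl a1
      by_cases a2 : (c1.gcd P).testBit i = true
      · obtain ⟨b1, b2⟩ := gbit hc1 hi2 a2
        rw [hc1def, Nat.testBit_and, Bool.and_eq_true] at b1
        exact Or.inr (Or.inl ⟨b1.2, b2⟩)
      by_cases a3 : (c2.gcd P).testBit i = true
      · obtain ⟨b1, b2⟩ := gbit hc2 hi2 a3
        rw [hc2def, Nat.testBit_and, Bool.and_eq_true, hc1def, Nat.testBit_and,
          Bool.and_eq_true] at b1
        exact Or.inr (Or.inr ⟨b1.1.2, b1.2, b2⟩)
      exfalso
      have a4 := (tb_xor r v i hv).2 ⟨hi, a1⟩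
      nth_rewrite 3 [P_eq] at h4
      rw [Nat.testBit_mod_two_pow, Nat.testBit_xor, Nat.testBit_xor, a4] at h4
      simp [hi2, a2, a3] at h4
    have h5 := val_step J r _ (w v)
      (fun i _ hi _ => w_anti i (lt_of_tb hr hi) v (hmin i hi)) (by
        intro i hiJ hi hi' j hjJ hj hj'
        have n1 := hJ i hiJ j hjJ
        have n2 := hJ j hjJ i hiJ
        rcases key i hi hi' with a | ⟨a, a'⟩ | ⟨a, a', a''⟩ <;>
          rcases key j hj hj' with c | ⟨c, c'⟩ | ⟨c, c', c''⟩
        · rw [a, c]
        · rw [← a, n2] at c; exact absurd c (by simp)
        · rw [← a, n2] at c; exact absurd c (by simp)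
        · rw [← c, n1] at a; exact absurd a (by simp)
        · exact Nat.pow_right_injective le_rfl (a'.symm.trans c')
        · rw [a'] at c'
          change (adj i).testBit j = true at c'
          rw [n2] at c'; exact absurd c' (by simp)
        · rw [← c, n1] at a; exact absurd a (by simp)
        · rw [c'] at a'
          change (adj j).testBit i = true at a'
          rw [n1] at a'; exact absurd a' (by simp)
        · exact Nat.pow_right_injective le_rfl (a''.symm.trans c''))
    have := h.1
    omega

def Good (c b : ℕ) : Prop := ∀ J, Indep J → val J c ≤ b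

lemma branch_core {c b : ℕ} (hP : c < P) (hc : c ≠ 0) (hw : Wg (c.gcd P) ≤ b)
    (h1 : Good ((c ^^^ c.gcd P) ^^^ ((c ^^^ c.gcd P) &&& A (c.gcd P))) (b - Wg (c.gcd P)))
    (h2 : Good (c ^^^ c.gcd P) b) : Good c b := by
  intro J hJ
  obtain ⟨v, hg, hv, -⟩ := low_spec hP hc
  rw [hg] at hw h1 h2
  change w v ≤ b at hw
  change Good ((c ^^^ 2 ^ v) ^^^ ((c ^^^ 2 ^ v) &&& adj v)) (b - w v) at h1
  rw [val_xor J c _ hv]
  split_ifs with h
  · have e : val J (c ^^^ 2 ^ v) = val J ((c ^^^ 2 ^ v) ^^^ ((c ^^^ 2 ^ v) &&& adj v)) := by
      unfold val
      congr 1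
      apply Finset.filter_congr
      intro i hi
      rw [Nat.testBit_xor (c ^^^ 2 ^ v), Nat.testBit_and, hJ i hi _ h]
      simp
    have := h1 J hJ
    omega
  · exact h2 J hJ

lemma check_sound (k : ℕ) : ∀ c b : ℕ, c < P → check k c b = true → Good c b := by
  induction k with
  | zero => intro c b _ h; exact absurd h (by simp [check])
  | succ k ih =>
    intro c b hc h
    rw [check_succ, Bool.or_eq_true] at h
    rcases h with h | h
    · intro J hJ
      exact cover_sound J hJ 200 c b hc h
    · simp only [Bool.and_eq_true, Nat.ble_eq, Bool.not_eq_true'] at h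
      obtain ⟨⟨h1, h2⟩, h3, h4⟩ := h
      have hc0 : c ≠ 0 := by rintro rfl; simp at h2
      have s0 : c ^^^ c.gcd P < P := by
        obtain ⟨v, hg, hv, -⟩ := low_spec hc hc0
        rw [hg, P_eq]
        exact Nat.xor_lt_two_pow (P_eq ▸ hc)
          (Nat.pow_lt_pow_right (by norm_num) (lt_of_tb hc hv))
      refine branch_core hc hc0 h1 (ih _ _ ?_ h3) (ih _ _ s0 h4)
      have s1 := lt_of_le_of_lt (Nat.and_le_left (m := A (c.gcd P))) s0
      generalize c ^^^ c.gcd P = x at *
      generalize x &&& A (c.gcd P) = y at *
      rw [P_eq] at *
      exact Nat.xor_lt_two_pow s0 s1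

lemma branch {c b c1 b1 c0 : ℕ} (hc : c < P ∧ c ≠ 0 ∧ Wg (c.gcd P) ≤ b)
    (e1 : (c ^^^ c.gcd P) ^^^ ((c ^^^ c.gcd P) &&& A (c.gcd P)) = c1)
    (e2 : b - Wg (c.gcd P) = b1) (e3 : c ^^^ c.gcd P = c0)
    (h1 : Good c1 b1) (h2 : Good c0 b) : Good c b := by
  subst e1 e2 e3
  exact branch_core hc.1 hc.2.1 hc.2.2 h1 h2

end Pool.Agent.Lib.Helper30.Touch
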