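import Pool.Agent.Lib.helper30.Touch

set_option autoImplicit false

namespace Pool.Agent.Lib.Helper30.Touch

lemma leaf19 : Good 1286380750433331913233023385775042528 923 :=
  check_sound 200 _ _ (by decide +kernel) (by decide +kernel)

lemma leaf59 : Good 1329227995784915872903807060146126848 1005 :=
  check_sound 200 _ _ (by decide +kernel) (by decide +kernel)

lemma leaf34 : Good 1318518883434360315281738615704125440 951 :=
  check_sound 200 _ _ (by decide +kernel) (by decide +kernel)

lemma leaf11 : Good 1162414663114587116767857250576297856 923 :=
  check_sound 200 _ _ (by decide +kernel) (by decide +kernel)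

lemma leaf25 : Good 1318799982227605239061011565159358208 923 :=
  check_sound 200 _ _ (by decide +kernel) (by decide +kernel)

lemma leaf55 : Good 1204199220015137996448631246576156672 957 :=
  check_sound 200 _ _ (by decide +kernel) (by decide +kernel)

lemma leaf31 : Good 1276331471299035479697105735779581952 897 :=
  check_sound 200 _ _ (by decide +kernel) (by decide +kernel)

lemma leaf13 : Good 1302852852820228862150624090967613408 841 :=
  check_sound 200 _ _ (by decide +kernel) (by decide +kernel)

lemma leaf1 : Good 975657020900556312477311221278023672 841 :=
  check_sound 200 _ _ (by decide +kernel) (by decide +kernel)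

lemma leaf22 : Good 1235701474456837143536922092373745408 841 :=
  check_sound 200 _ _ (by decide +kernel) (by decide +kernel)

lemma leaf47 : Good 332205586850747384251727463198490624 897 :=
  check_sound 200 _ _ (by decide +kernel) (by decide +kernel)

lemma leaf27 : Good 1178651386886782080458480697351339008 945 :=
  check_sound 200 _ _ (by decide +kernel) (by decide +kernel)

lemma leaf38 : Good 1281686027436836775989156328172355584 897 :=
  check_sound 200 _ _ (by decide +kernel) (by decide +kernel)

lemma leaf32 : Good 1313164327144234801496393842189598720 897 :=
  check_sound 200 _ _ (by decide +kernel) (by decide +kernel)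

lemma leaf15 : Good 640919812757831948192826644644962176 841 :=
  check_sound 200 _ _ (by decide +kernel) (by decide +kernel)

end Pool.Agent.Lib.Helper30.Touch
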