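import Pool.Agent.Lib.helper30.Touch

set_option autoImplicit false

namespace Pool.Agent.Lib.Helper30.Touch

lemma leaf52 : Good 1157817061524279442662708015381086208 957 :=
  check_sound 200 _ _ (by decide +kernel) (by decide +kernel)

lemma leaf45 : Good 1323873439417419106663126019581411328 951 :=
  check_sound 200 _ _ (by decide +kernel) (by decide +kernel)

lemma leaf40 : Good 1287040583649591037319164834506735616 951 :=
  check_sound 200 _ _ (by decide +kernel) (by decide +kernel)

lemma leaf53 : Good 983278957026883894990918921868017664 957 :=
  check_sound 200 _ _ (by decide +kernel) (by decide +kernel)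

lemma leaf48 : Good 664593715475588923334530896951246848 951 :=
  check_sound 200 _ _ (by decide +kernel) (by decide +kernel)

lemma leaf21 : Good 578919341656103886472224468069220224 841 :=
  check_sound 200 _ _ (by decide +kernel) (by decide +kernel)

lemma leaf16 : Good 1297706276160546970549978810533519104 841 :=
  check_sound 200 _ _ (by decide +kernel) (by decide +kernel)

lemma leaf30 : Good 1151067309698250212295148211826016256 897 :=
  check_sound 200 _ _ (by decide +kernel) (by decide +kernel)

lemma leaf57 : Good 1326631648046999307780882329994526720 959 :=
  check_sound 200 _ _ (by decide +kernel) (by decide +kernel)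

lemma leaf35 : Good 1119589009913480934332574430638047232 897 :=
  check_sound 200 _ _ (by decide +kernel) (by decide +kernel)

lemma leaf9 : Good 1079316155322063078857187323767582656 841 :=
  check_sound 200 _ _ (by decide +kernel) (by decide +kernel)

lemma leaf14 : Good 1225032926926188800071088435237691328 841 :=
  check_sound 200 _ _ (by decide +kernel) (by decide +kernel)

lemma leaf44 : Good 1238200541222504653651472362887970816 897 :=
  check_sound 200 _ _ (by decide +kernel) (by decide +kernel)

lemma leaf12 : Good 1265284189367058374855125589720731632 841 :=
  check_sound 200 _ _ (by decide +kernel) (by decide +kernel)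

lemma leaf8 : Good 1157136081137593798177029533006622688 841 :=
  check_sound 200 _ _ (by decide +kernel) (by decide +kernel)

end Pool.Agent.Lib.Helper30.Touch
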