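import Pool.Agent.Lib.helper30.Touch

set_option autoImplicit false

namespace Pool.Agent.Lib.Helper30.Touch

lemma leaf46 : Good 1308418243510412761877492354177040384 951 :=
  check_sound 200 _ _ (by decide +kernel) (by decide +kernel)

lemma leaf20 : Good 1323949413807922554294964935611252704 923 :=
  check_sound 200 _ _ (by decide +kernel) (by decide +kernel)

lemma leaf51 : Good 1243555097590001419892153403585855488 951 :=
  check_sound 200 _ _ (by decide +kernel) (by decide +kernel)

lemma leaf3 : Good 991480155390526005344108340793704416 841 :=
  check_sound 200 _ _ (by decide +kernel) (by decide +kernel)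

lemma leaf7 : Good 1119578213838085764898450972423942128 841 :=
  check_sound 200 _ _ (by decide +kernel) (by decide +kernel)

lemma leaf17 : Good 1308131434718642002484515318978813696 923 :=
  check_sound 200 _ _ (by decide +kernel) (by decide +kernel)

lemma leaf2 : Good 953906336808069891454352641255337968 841 :=
  check_sound 200 _ _ (by decide +kernel) (by decide +kernel)

lemma leaf58 : Good 1329184853574541980959255791801466880 959 :=
  check_sound 200 _ _ (by decide +kernel) (by decide +kernel)

lemma leaf10 : Good 495203041168284172275515328246214528 841 :=
  check_sound 200 _ _ (by decide +kernel) (by decide +kernel)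

lemma leaf36 : Good 1140966669774302658890906417064837120 897 :=
  check_sound 200 _ _ (by decide +kernel) (by decide +kernel)

lemma leaf43 : Good 991485310792577567580322585832325120 897 :=
  check_sound 200 _ _ (by decide +kernel) (by decide +kernel)

lemma leaf28 : Good 1064420855999525493090993937196251136 945 :=
  check_sound 200 _ _ (by decide +kernel) (by decide +kernel)

lemma leaf33 : Good 1297709131159857204255423909607243776 897 :=
  check_sound 200 _ _ (by decide +kernel) (by decide +kernel)

lemma leaf39 : Good 1266230831375087926292850128403562496 897 :=
  check_sound 200 _ _ (by decide +kernel) (by decide +kernel)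

lemma leaf4 : Good 913655074173696959712176123912748992 841 :=
  check_sound 200 _ _ (by decide +kernel) (by decide +kernel)

end Pool.Agent.Lib.Helper30.Touch
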