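import Pool.Agent.Lib.helper30.Touch

set_option autoImplicit false

namespace Pool.Agent.Lib.Helper30.Touch

lemma leaf5 : Good 996753581966225719986795647723765696 923 :=
  check_sound 200 _ _ (by decide +kernel) (by decide +kernel)

lemma leaf54 : Good 642368545916490138649735099190345728 957 :=
  check_sound 200 _ _ (by decide +kernel) (by decide +kernel)

lemma leaf37 : Good 1161776422048805769917216656402022400 951 :=
  check_sound 200 _ _ (by decide +kernel) (by decide +kernel)

lemma leaf50 : Good 996839867160074333821003626526539776 951 :=
  check_sound 200 _ _ (by decide +kernel) (by decide +kernel)

lemma leaf23 : Good 1246129487992387112626654261678931712 923 :=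
  check_sound 200 _ _ (by decide +kernel) (by decide +kernel)

lemma leaf24 : Good 662016373824105818576089584632561536 923 :=
  check_sound 200 _ _ (by decide +kernel) (by decide +kernel)

lemma leaf42 : Good 659239159108092157093851093204205568 897 :=
  check_sound 200 _ _ (by decide +kernel) (by decide +kernel)

lemma leaf56 : Good 1329206435511687631787635057117626368 959 :=
  check_sound 200 _ _ (by decide +kernel) (by decide +kernel)

lemma leaf0 : Good 829940249296199195305749495330172924 841 :=
  check_sound 200 _ _ (by decide +kernel) (by decide +kernel)

lemma leaf49 : Good 911166968965159880809352443734261760 897 :=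
  check_sound 200 _ _ (by decide +kernel) (by decide +kernel)

lemma leaf26 : Good 269999436643353811847008758710402560 945 :=
  check_sound 200 _ _ (by decide +kernel) (by decide +kernel)

lemma leaf29 : Good 155768905756026367549648288566210560 945 :=
  check_sound 200 _ _ (by decide +kernel) (by decide +kernel)

lemma leaf6 : Good 1141318102048313246348671062391033848 841 :=
  check_sound 200 _ _ (by decide +kernel) (by decide +kernel)

lemma leaf18 : Good 1281102168456489710351633089819897824 841 :=
  check_sound 200 _ _ (by decide +kernel) (by decide +kernel)

lemma leaf41 : Good 1303063687142915995636811313481252864 897 :=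
  check_sound 200 _ _ (by decide +kernel) (by decide +kernel)

end Pool.Agent.Lib.Helper30.Touch
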