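import Pool.Agent.Lib.helper30.Touch0
import Pool.Agent.Lib.helper30.Touch1
import Pool.Agent.Lib.helper30.Touch2
import Pool.Agent.Lib.helper30.Touch3

set_option autoImplicit false

namespace Pool.Agent.Lib.Helper30.Touch

lemma good_all : Good 1329227995784915872903807060280344575 1005 :=
  (branch (c := 1329227995784915872903807060280344575) (b := 1005)
    (by decide +kernel) (by decide +kernel) (by decide +kernel) (by decide +kernel) (branch (c := 996753581966225719986795647723765758) (b := 923)
    (by decide +kernel) (by decide +kernel) (by decide +kernel) (by decide +kernel) leaf0 (branch (c := 996753581966225719986795647723765756) (b := 923)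
    (by decide +kernel) (by decide +kernel) (by decide +kernel) (by decide +kernel) leaf1 (branch (c := 996753581966225719986795647723765752) (b := 923)
    (by decide +kernel) (by decide +kernel) (by decide +kernel) (by decide +kernel) leaf2 (branch (c := 996753581966225719986795647723765744) (b := 923)
    (by decide +kernel) (by decide +kernel) (by decide +kernel) (by decide +kernel) leaf3 (branch (c := 996753581966225719986795647723765728) (b := 923)
    (by decide +kernel) (by decide +kernel) (by decide +kernel) (by decide +kernel) leaf4 leaf5))))) (branch (c := 1329227995784915872903807060280344574) (b := 1005)
    (by decide +kernel) (by decide +kernel) (by decide +kernel) (by decide +kernel) (branch (c := 1162414663114587116767857250576297980) (b := 923)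
    (by decide +kernel) (by decide +kernel) (by decide +kernel) (by decide +kernel) leaf6 (branch (c := 1162414663114587116767857250576297976) (b := 923)
    (by decide +kernel) (by decide +kernel) (by decide +kernel) (by decide +kernel) leaf7 (branch (c := 1162414663114587116767857250576297968) (b := 923)
    (by decide +kernel) (by decide +kernel) (by decide +kernel) (by decide +kernel) leaf8 (branch (c := 1162414663114587116767857250576297952) (b := 923)
    (by decide +kernel) (by decide +kernel) (by decide +kernel) (by decide +kernel) leaf9 (branch (c := 1162414663114587116767857250576297920) (b := 923)
    (by decide +kernel) (by decide +kernel) (by decide +kernel) (by decide +kernel) leaf10 leaf11))))) (branch (c := 1329227995784915872903807060280344572) (b := 1005)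
    (by decide +kernel) (by decide +kernel) (by decide +kernel) (by decide +kernel) (branch (c := 1308131434718642002484515318978813944) (b := 923)
    (by decide +kernel) (by decide +kernel) (by decide +kernel) (by decide +kernel) leaf12 (branch (c := 1308131434718642002484515318978813936) (b := 923)
    (by decide +kernel) (by decide +kernel) (by decide +kernel) (by decide +kernel) leaf13 (branch (c := 1308131434718642002484515318978813920) (b := 923)
    (by decide +kernel) (by decide +kernel) (by decide +kernel) (by decide +kernel) leaf14 (branch (c := 1308131434718642002484515318978813888) (b := 923)
    (by decide +kernel) (by decide +kernel) (by decide +kernel) (by decide +kernel) leaf15 (branch (c := 1308131434718642002484515318978813824) (b := 923)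
    (by decide +kernel) (by decide +kernel) (by decide +kernel) (by decide +kernel) leaf16 leaf17))))) (branch (c := 1329227995784915872903807060280344568) (b := 1005)
    (by decide +kernel) (by decide +kernel) (by decide +kernel) (by decide +kernel) (branch (c := 1286380750433331913233023385775042544) (b := 923)
    (by decide +kernel) (by decide +kernel) (by decide +kernel) (by decide +kernel) leaf18 leaf19) (branch (c := 1329227995784915872903807060280344560) (b := 1005)
    (by decide +kernel) (by decide +kernel) (by decide +kernel) (by decide +kernel) leaf20 (branch (c := 1329227995784915872903807060280344544) (b := 1005)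
    (by decide +kernel) (by decide +kernel) (by decide +kernel) (by decide +kernel) (branch (c := 1246129487992387112626654261678931904) (b := 923)
    (by decide +kernel) (by decide +kernel) (by decide +kernel) (by decide +kernel) leaf21 (branch (c := 1246129487992387112626654261678931840) (b := 923)
    (by decide +kernel) (by decide +kernel) (by decide +kernel) (by decide +kernel) leaf22 leaf23)) (branch (c := 1329227995784915872903807060280344512) (b := 1005)
    (by decide +kernel) (by decide +kernel) (by decide +kernel) (by decide +kernel) leaf24 (branch (c := 1329227995784915872903807060280344448) (b := 1005)
    (by decide +kernel) (by decide +kernel) (by decide +kernel) (by decide +kernel) leaf25 (branch (c := 1329227995784915872903807060280344320) (b := 1005)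
    (by decide +kernel) (by decide +kernel) (by decide +kernel) (by decide +kernel) leaf26 (branch (c := 1329227995784915872903807060280344064) (b := 1005)
    (by decide +kernel) (by decide +kernel) (by decide +kernel) (by decide +kernel) leaf27 (branch (c := 1329227995784915872903807060280343552) (b := 1005)
    (by decide +kernel) (by decide +kernel) (by decide +kernel) (by decide +kernel) leaf28 (branch (c := 1329227995784915872903807060280342528) (b := 1005)
    (by decide +kernel) (by decide +kernel) (by decide +kernel) (by decide +kernel) leaf29 (branch (c := 1329227995784915872903807060280340480) (b := 1005)
    (by decide +kernel) (by decide +kernel) (by decide +kernel) (by decide +kernel) (branch (c := 1318518883434360315281738615704248320) (b := 951)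
    (by decide +kernel) (by decide +kernel) (by decide +kernel) (by decide +kernel) leaf30 (branch (c := 1318518883434360315281738615704240128) (b := 951)
    (by decide +kernel) (by decide +kernel) (by decide +kernel) (by decide +kernel) leaf31 (branch (c := 1318518883434360315281738615704223744) (b := 951)
    (by decide +kernel) (by decide +kernel) (by decide +kernel) (by decide +kernel) leaf32 (branch (c := 1318518883434360315281738615704190976) (b := 951)
    (by decide +kernel) (by decide +kernel) (by decide +kernel) (by decide +kernel) leaf33 leaf34)))) (branch (c := 1329227995784915872903807060280336384) (b := 1005)
    (by decide +kernel) (by decide +kernel) (by decide +kernel) (by decide +kernel) (branch (c := 1161776422048805769917216656402104320) (b := 951)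
    (by decide +kernel) (by decide +kernel) (by decide +kernel) (by decide +kernel) leaf35 (branch (c := 1161776422048805769917216656402087936) (b := 951)
    (by decide +kernel) (by decide +kernel) (by decide +kernel) (by decide +kernel) leaf36 leaf37)) (branch (c := 1329227995784915872903807060280328192) (b := 1005)
    (by decide +kernel) (by decide +kernel) (by decide +kernel) (by decide +kernel) (branch (c := 1287040583649591037319164834506833920) (b := 951)
    (by decide +kernel) (by decide +kernel) (by decide +kernel) (by decide +kernel) leaf38 (branch (c := 1287040583649591037319164834506801152) (b := 951)
    (by decide +kernel) (by decide +kernel) (by decide +kernel) (by decide +kernel) leaf39 leaf40)) (branch (c := 1329227995784915872903807060280311808) (b := 1005)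
    (by decide +kernel) (by decide +kernel) (by decide +kernel) (by decide +kernel) (branch (c := 1323873439417419106663126019582394368) (b := 951)
    (by decide +kernel) (by decide +kernel) (by decide +kernel) (by decide +kernel) leaf41 (branch (c := 1323873439417419106663126019582328832) (b := 951)
    (by decide +kernel) (by decide +kernel) (by decide +kernel) (by decide +kernel) leaf42 (branch (c := 1323873439417419106663126019582197760) (b := 951)
    (by decide +kernel) (by decide +kernel) (by decide +kernel) (by decide +kernel) leaf43 (branch (c := 1323873439417419106663126019581935616) (b := 951)
    (by decide +kernel) (by decide +kernel) (by decide +kernel) (by decide +kernel) leaf44 leaf45)))) (branch (c := 1329227995784915872903807060280279040) (b := 1005)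
    (by decide +kernel) (by decide +kernel) (by decide +kernel) (by decide +kernel) leaf46 (branch (c := 1329227995784915872903807060280213504) (b := 1005)
    (by decide +kernel) (by decide +kernel) (by decide +kernel) (by decide +kernel) (branch (c := 664593715475588923334530896951508992) (b := 951)
    (by decide +kernel) (by decide +kernel) (by decide +kernel) (by decide +kernel) leaf47 leaf48) (branch (c := 1329227995784915872903807060280082432) (b := 1005)
    (by decide +kernel) (by decide +kernel) (by decide +kernel) (by decide +kernel) (branch (c := 996839867160074333821003626527064064) (b := 951)
    (by decide +kernel) (by decide +kernel) (by decide +kernel) (by decide +kernel) leaf49 leaf50) (branch (c := 1329227995784915872903807060279820288) (b := 1005)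
    (by decide +kernel) (by decide +kernel) (by decide +kernel) (by decide +kernel) leaf51 (branch (c := 1329227995784915872903807060279296000) (b := 1005)
    (by decide +kernel) (by decide +kernel) (by decide +kernel) (by decide +kernel) leaf52 (branch (c := 1329227995784915872903807060278247424) (b := 1005)
    (by decide +kernel) (by decide +kernel) (by decide +kernel) (by decide +kernel) leaf53 (branch (c := 1329227995784915872903807060276150272) (b := 1005)
    (by decide +kernel) (by decide +kernel) (by decide +kernel) (by decide +kernel) leaf54 (branch (c := 1329227995784915872903807060271955968) (b := 1005)
    (by decide +kernel) (by decide +kernel) (by decide +kernel) (by decide +kernel) leaf55 (branch (c := 1329227995784915872903807060263567360) (b := 1005)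
    (by decide +kernel) (by decide +kernel) (by decide +kernel) (by decide +kernel) leaf56 (branch (c := 1329227995784915872903807060246790144) (b := 1005)
    (by decide +kernel) (by decide +kernel) (by decide +kernel) (by decide +kernel) leaf57 (branch (c := 1329227995784915872903807060213235712) (b := 1005)
    (by decide +kernel) (by decide +kernel) (by decide +kernel) (by decide +kernel) leaf58 leaf59)))))))))))))))))))))))))))

lemma total_w : ∑ i ∈ Finset.range 120, w i = 4024 := by decide +kernel

lemma p_le : ∀ i < 120, px i ≤ 11 ∧ py i ≤ 11 := by decide +kernel

def inS (a b : ℤ) : Prop :=
  |a| ≤ 4 ∧ |b| ≤ 4 ∧ |a| + |b| ≤ 6 ∧ (|a| = 4 ∨ |b| = 4 ∨ |a| + |b| = 6)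

instance (a b : ℤ) : Decidable (inS a b) := by unfold inS; infer_instance

lemma adj_inS : ∀ v < 120, ∀ u < 120, (adj v).testBit u = true →
    inS ((px u : ℤ) - px v) ((py u : ℤ) - py v) := by decide +kernel

lemma indep_bound (J : Finset ℕ) (hJ : J ⊆ Finset.range 120)
    (h : ∀ u ∈ J, ∀ v ∈ J, ¬ inS ((px u : ℤ) - px v) ((py u : ℤ) - py v)) :
    ∑ i ∈ J, w i ≤ 1005 := by
  have h1 := good_all J (by
    intro u hu v hv
    rw [← Bool.not_eq_true]
    exact fun h2 => h u hu v hv
      (adj_inS v (Finset.mem_range.1 (hJ hv)) u (Finset.mem_range.1 (hJ hu)) h2))
  unfold val at h1
  rwa [Finset.filter_true_of_mem] at h1
  intro i hi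
  have : (1329227995784915872903807060280344575 : ℕ) = 2 ^ 120 - 1 := by norm_num
  rw [this, Nat.testBit_two_pow_sub_one]
  simpa using hJ hi

end Pool.Agent.Lib.Helper30.Touch
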